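import Pool.Agent.Helper34.BI.H.StH5c
import Pool.Agent.Helper27.BI.AsmC

/-!
# Project BI, stage 3, section 5: the crossing theorem, assembly
-/

set_option autoImplicit false

open Module Set Filter Topology
open scoped ContDiff Manifold
open Pool.Agent.Helper65.Barb Pool.Agent.Helper18.BI Pool.Agent.Helper27.BI
open Pool.Agent.Helper27.H (ArcD LIso LPush Fam2 Q2 SuppU thk seg StCH4 StFRAME StTHK StPhi StCls
  StCROSS exists_lpush square4 isCompact_Q2 convex_Q2)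
open Pool.Agent.Helper70.BI (I4)

namespace Pool.Agent.Helper34.BI.H

namespace Cross

lemma norm_m {r : ℝ} (hr : 0 < r) : ‖((0, r) : ℝ × ℝ)‖ = r := by
  rw [Prod.norm_def]
  simp [abs_of_pos hr, hr.le]

lemma circ_zero (v₀ m : ℝ × ℝ) : circ v₀ m 0 = v₀ + m := by
  unfold circ mulc
  simp

section
variable (hCh : StCH4) (hFr : StFRAME) (hTh : StTHK) (hPhi : StPhi)
  (hSQ : StSQ5) (hM5 : StM5) (hXG : StXG5) (hPHT : StPHT) (hL5 : StL5)
include hCh hTh hPhi hSQ hM5 hXG hPHT hL5 hFr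

theorem cross_aux (D : ArcD) (c : ℝ × ℝ × ℝ → R4) (u₀ q₀ a b : ℝ) (hc : D.Htpy c)
    (hX : D.Xing c u₀ q₀ a b) (hImm : ∀ u ∈ Icc (0 : ℝ) 1, ∀ q ∈ Icc (0 : ℝ) 1, D.Imm c u q)
    (hInj : ∀ u ∈ Icc (0 : ℝ) 1, ∀ q ∈ Icc (0 : ℝ) 1, (u, q) ≠ (u₀, q₀) → D.Inj c u q)
    (hma : D.m₀ < a) (hbm : b < D.m₁) :
    ∃ T, D.XG T ∧ ∀ χ₀ χ₁ τ : R4 → R4, D.Cls (fun q s => c (0, q, s)) χ₀ →
      D.Cls (fun q s => c (1, q, s)) χ₁ → Thin I4 (fun p => D.e (T p)) τ →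
      CIsot I4 χ₀ (fun x => τ (χ₁ x)) ∨ CIsot I4 χ₁ (fun x => τ (χ₀ x)) := by
  have hmu := hX.memu
  have hmq := hX.memq
  obtain ⟨r₀, hr₀, h5⟩ := hL5 D c u₀ q₀ a b hc hX
    (hImm u₀ (Ioo_subset_Icc_self hmu) q₀ (Ioo_subset_Icc_self hmq)) hma hbm
  -- the radius
  obtain ⟨r, hr, h1, h2, h3, h4, h6⟩ : ∃ r > 0, r < r₀ ∧ 0 < u₀ - r ∧ u₀ + r < 1 ∧
      0 < q₀ - r ∧ q₀ + r < 1 := by
    refine ⟨min (r₀ / 2) (min (min (u₀ / 2) ((1 - u₀) / 2)) (min (q₀ / 2) ((1 - q₀) / 2))), ?_, ?_⟩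
    · have := hmu.1
      have := hmu.2
      have := hmq.1
      have := hmq.2
      refine lt_min (by linarith) (lt_min (lt_min ?_ ?_) (lt_min ?_ ?_)) <;> linarith
    · have := hmu.1
      have := hmu.2
      have := hmq.1
      have := hmq.2
      have k1 := min_le_left (r₀ / 2) (min (min (u₀ / 2) ((1 - u₀) / 2)) (min (q₀ / 2) ((1 - q₀) / 2)))
      have k2 := min_le_right (r₀ / 2) (min (min (u₀ / 2) ((1 - u₀) / 2)) (min (q₀ / 2) ((1 - q₀) / 2)))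
      have k3 := k2.trans (min_le_left _ _)
      have k4 := k2.trans (min_le_right _ _)
      have k5 := k3.trans (min_le_left _ _)
      have k6 := k3.trans (min_le_right _ _)
      have k7 := k4.trans (min_le_left _ _)
      have k8 := k4.trans (min_le_right _ _)
      refine ⟨?_, ?_, ?_, ?_, ?_⟩ <;> linarith
  have hm0 : ((0, r) : ℝ × ℝ) ≠ 0 := by
    intro h
    have : r = 0 := congrArg Prod.snd h
    exact hr.ne' this
  obtain ⟨ε, ν, κ, T, x, hxs, hx, hloop, hx0, hM⟩ := h5 (0, r) hm0 (by rwa [norm_m hr])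
  -- the family
  have hfam : Fam2 Q2 D.L D.V D.U (fun a => thk D.J D.c (x a.1 a.2)) :=
    (hTh Q2 D.s₀ D.m₀ D.m₁ D.s₁ D.U D.J D.c (fun a s => x a.1 a.2 s) D.h₀ D.h₁ D.h₂ D.openU D.emb
      D.smooth D.core hxs
      (fun a ha s hs => (hx a.1 ha.1 a.2 ha.2).1 s hs)
      (fun a ha s hs => (hx a.1 ha.1 a.2 ha.2).2.1 s hs)
      (fun a ha => (hx a.1 ha.1 a.2 ha.2).2.2.1)
      (fun a ha s hs => (hx a.1 ha.1 a.2 ha.2).2.2.2 s hs)).1
  have m00 : ((0 : ℝ), (0 : ℝ)) ∈ Q2 := by simp [Q2]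
  have m01 : ((0 : ℝ), (1 : ℝ)) ∈ Q2 := by simp [Q2]
  have m10 : ((1 : ℝ), (0 : ℝ)) ∈ Q2 := by simp [Q2]
  have m11 : ((1 : ℝ), (1 : ℝ)) ∈ Q2 := by simp [Q2]
  obtain ⟨R, hR⟩ := exists_lpush hCh D.isCompact_L D.isOpen_V D.openU isCompact_Q2 convex_Q2 hfam
    m00 m10
  obtain ⟨C, hC⟩ := exists_lpush hCh D.isCompact_L D.isOpen_V D.openU isCompact_Q2 convex_Q2 hfam
    m00 m01
  obtain ⟨C₁, hC₁⟩ := exists_lpush hCh D.isCompact_L D.isOpen_V D.openU isCompact_Q2 convex_Q2 hfam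
    m10 m11
  replace hR : LPush D.U D.L (fun l => thk D.J D.c (x l 0)) R :=
    hR.congr ⟨univ, isOpen_univ, subset_univ _, fun q _ p _ => by simp⟩
  replace hC : LPush D.U D.L (fun q => thk D.J D.c (x 0 q)) C :=
    hC.congr ⟨univ, isOpen_univ, subset_univ _, fun q _ p _ => by simp⟩
  replace hC₁ : LPush D.U D.L (fun q => thk D.J D.c (x 1 q)) C₁ :=
    hC₁.congr ⟨univ, isOpen_univ, subset_univ _, fun q _ p _ => by simp⟩
  have hR1 : LPush D.U D.L (fun l => thk D.J D.c (x l 1)) R := by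
    simp only [hloop]
    exact hR
  have sq1 := square4 hCh D.isCompact_L D.isOpen_V D.openU
    (J := fun l q => thk D.J D.c (x l q)) hfam hC hR1 hR hC₁
  simp only [hloop] at sq1
  -- the local model
  have hB := hM5 D a b ε ν κ T (x 1) hM C₁ hC₁
  obtain ⟨R', hR', hRR, hR'R⟩ := hR.lIso.exists_inv
  -- `C ~ R' ∘ imp T ball4 barMap ∘ R`
  have hCC : LIso D.U D.L (thk D.J D.c (x 0 0)) (thk D.J D.c (x 0 0)) C
      (fun y => R' (imp T ball4 barMap (R y))) := by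
    have e1 : LIso D.U D.L (thk D.J D.c (x 0 0)) (thk D.J D.c (x 0 0))
        (fun y => R' (R (C y))) (fun y => R' (C₁ (R y))) := hR'.comp sq1
    have e2 : LIso D.U D.L (thk D.J D.c (x 0 0)) (thk D.J D.c (x 0 0))
        (fun y => R' (C₁ (R y))) (fun y => R' (imp T ball4 barMap (R y))) :=
      hR'.comp (hB.symm.comp hR.lIso)
    exact (e1.trans e2).congr_fun (fun y => hR'R _) (fun y => rfl)
  -- the pushes along the two edges
  obtain ⟨E₀, χ₀', hE₀, hE₀', hE₀χ⟩ := Pool.Agent.Helper27.H.can_exists hCh hTh hPhi D hc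
    (u := 0) (by simp) (fun q hq => ⟨hImm 0 (by simp) q hq, hInj 0 (by simp) q hq (fun h => by
      have := congrArg Prod.fst h
      simp only at this
      linarith [hmu.1])⟩)
  obtain ⟨E₁, χ₁', hE₁, hE₁', hE₁χ⟩ := Pool.Agent.Helper27.H.can_exists hCh hTh hPhi D hc
    (u := 1) (by simp) (fun q hq => ⟨hImm 1 (by simp) q hq, hInj 1 (by simp) q hq (fun h => by
      have := congrArg Prod.fst h
      simp only at this
      linarith [hmu.2])⟩)
  have hcls0 := Pool.Agent.Helper27.H.can_cls hTh D hc (u := 0) (by simp) (fun q hq =>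
    ⟨hImm 0 (by simp) q hq, hInj 0 (by simp) q hq (fun h => by
      have := congrArg Prod.fst h
      simp only at this
      linarith [hmu.1])⟩) hE₀ hE₀χ
  have hcls1 := Pool.Agent.Helper27.H.can_cls hTh D hc (u := 1) (by simp) (fun q hq =>
    ⟨hImm 1 (by simp) q hq, hInj 1 (by simp) q hq (fun h => by
      have := congrArg Prod.fst h
      simp only at this
      linarith [hmu.2])⟩) hE₁ hE₁χ
  have hCk : LPush D.U D.L (fun q => kk D c (circ (u₀, q₀) (0, r) q)) C := by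
    refine hC.congr ⟨univ, isOpen_univ, subset_univ _, fun q _ p _ => ?_⟩
    unfold kk
    have : x 0 q = fun s => c ((circ (u₀, q₀) (0, r) q).1, (circ (u₀, q₀) (0, r) q).2, s) :=
      funext fun s => hx0 q s
    rw [this]
  obtain ⟨B, B', hBl, hBB, hB'B, hE⟩ := hSQ D c u₀ q₀ r hc hImm hInj hr h2 h3 h4 h6 E₀ E₁ C
    hE₀ hE₁ hCk
  have hk0 : kk D c (circ (u₀, q₀) (0, r) 0) = thk D.J D.c (x 0 0) := by
    unfold kk
    have : x 0 0 = fun s => c ((circ (u₀, q₀) (0, r) 0).1, (circ (u₀, q₀) (0, r) 0).2, s) :=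
      funext fun s => hx0 0 s
    rw [this]
  rw [hk0] at hBl
  have hBl' : LIso D.U D.L (thk D.J D.c (x 0 0)) D.J B' B' := hBl.inv hBB hBB
  -- the conjugating map
  let Ψ : R4 → R4 := fun y => R (B y)
  let Ψ' : R4 → R4 := fun y => B' (R' y)
  have hΨ : LIso D.U D.L D.J (thk D.J D.c (x 1 0)) Ψ Ψ := hR.lIso.comp hBl
  have hΨΨ' : ∀ y, Ψ (Ψ' y) = y := fun y => by
    change R (B (B' (R' y))) = y
    rw [hBB, hRR]
  have hΨ'Ψ : ∀ y, Ψ' (Ψ y) = y := fun y => by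
    change B' (R' (R (B y))) = y
    rw [hR'R, hB'B]
  obtain ⟨hT1, hT2', hT3', hT4'⟩ := hXG D a b ε ν κ T (x 1) hM Ψ Ψ' hΨ hΨΨ' hΨ'Ψ
  obtain ⟨p1, p2, p3⟩ := hPHT D (fun p => Ψ' (T p)) hT1 hT2' hT3'
  -- the relation between the two edges
  have himp : ∀ y, imp (fun p => Ψ' (T p)) ball4 barMap y = Ψ' (imp T ball4 barMap (Ψ y)) :=
    (hImp R4 R4 I4 R4 T ball4 barMap hM.emb.2).2.2.2.2.2.2.1 Ψ' Ψ hΨ'Ψ hΨΨ'
  have hE2 : LIso D.U D.L D.J D.J E₁
      (fun y => imp (fun p => Ψ' (T p)) ball4 barMap (E₀ y)) := by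
    have e1 : LIso D.U D.L D.J D.J (fun y => B' (C (B (E₀ y))))
        (fun y => B' (R' (imp T ball4 barMap (R (B (E₀ y)))))) :=
      hBl'.comp (hCC.comp (hBl.comp hE₀'))
    exact (hE.trans e1).congr_fun (fun y => rfl) (fun y => (himp (E₀ y)).symm)
  have hu := fun χ χ' h h' => Pool.Agent.Helper27.H.cls_unique hFr hPhi D
    (c := fun q s => c (0, q, s)) (χ := χ) (χ' := χ') h h'
  have hu1 := fun χ χ' h h' => Pool.Agent.Helper27.H.cls_unique hFr hPhi D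
    (c := fun q s => c (1, q, s)) (χ := χ) (χ' := χ') h h'
  obtain ⟨-, ci2, ci3, ci4, ci5, -⟩ := hCI R4 R4 I4 R4
  obtain ⟨f1, f2, f3, f4, f5, f6, f7⟩ := hPhi D
  rcases hT4' with hG | hG
  · refine ⟨_, hG, fun χ₀ χ₁ τ hχ₀ hχ₁ hτ => Or.inr ?_⟩
    have g1 := p2 τ hτ
    have g2 := f4 _ _ _ _ p1 hE₀' g1 hE₀χ
    have g3 := f1 _ _ _ hE2.symm g2
    have g4 : CIsot I4 χ₁' (fun x => τ (χ₀' x)) := f3 _ _ _ hE₁' hE₁χ g3
    have g5 : CIsot I4 (fun x => τ (χ₀' x)) (fun x => τ (χ₀ x)) :=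
      ci5 _ _ _ _ (f7 _ _ g1) (hu _ _ hcls0 hχ₀)
    exact ci4 _ _ _ (hu1 _ _ hχ₁ hcls1) (ci4 _ _ _ g4 g5)
  · refine ⟨_, hG, fun χ₀ χ₁ τ hχ₀ hχ₁ hτ => Or.inl ?_⟩
    -- the reflected chart
    have hmem : ∀ p ∈ ball4, refh p ∈ ball4 := by
      rintro p ⟨k1, k2, k3⟩
      exact ⟨k1, k2, by rwa [rsq_refh]⟩
    have hrc : ∀ p : R4, (refh p).2 = 0 ∨ (refh p).2 = e1 → p.2 = 0 ∨ p.2 = e1 := by
      intro p hp
      have hinv : p = refh (refh p) := (linvol_refh.inv p).symm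
      rcases hp with hp | hp
      · left
        rw [hinv]
        change ((refh p).2.1, _) = _
        rw [hp]
        simp
      · right
        rw [hinv]
        change ((refh p).2.1, _) = _
        rw [hp]
        simp [e1]
    have q0 : EmbOn I4 refh ball4 :=
      EmbOn.mono (emb_of_invol linvol_refh.toInvol) (subset_univ _)
    have q1 : EmbOn I4 (fun p => Ψ' (T (refh p))) ball4 :=
      EmbOn.comp (F := fun p => Ψ' (T p)) (k := refh) hT1 q0 hmem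
    obtain ⟨s1, s2, -⟩ := hPHT D (fun p => Ψ' (T (refh p))) q1 (fun p hp => hT2' (hmem p hp))
      (fun p hp h => hrc p (hT3' _ (hmem p hp) h))
    -- `B ∘ B₂ ~ id`, so `B₂ ∘ B ~ id`
    let P : R4 → R4 := imp (fun p => Ψ' (T p)) ball4 barMap
    let P₂ : R4 → R4 := imp (fun p => Ψ' (T (refh p))) ball4 barMap
    change LIso D.U D.L D.J D.J P P at p1
    change LIso D.U D.L D.J D.J P₂ P₂ at s1
    change LIso D.U D.L D.J D.J (fun y => P (P₂ y)) (fun y => y) at p3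
    change LIso D.U D.L D.J D.J E₁ (fun y => P (E₀ y)) at hE2
    obtain ⟨P', hP', hPP, hP'P⟩ := p1.exists_inv
    have t1 : LIso D.U D.L D.J D.J P₂ P' :=
      (hP'.comp p3).congr_fun (fun y => hP'P _) (fun y => rfl)
    have t2 : LIso D.U D.L D.J D.J (fun y => P₂ (E₁ y)) E₀ :=
      ((t1.comp hE2).congr_fun (fun y => rfl) (fun y => hP'P _))
    have g1 := s2 τ hτ
    have g2 := f4 _ _ _ _ s1 hE₁' g1 hE₁χ
    have g3 := f1 _ _ _ t2 g2
    have g4 : CIsot I4 χ₀' (fun x => τ (χ₁' x)) := f3 _ _ _ hE₀' hE₀χ g3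
    have g5 : CIsot I4 (fun x => τ (χ₁' x)) (fun x => τ (χ₁ x)) :=
      ci5 _ _ _ _ (f7 _ _ g1) (hu1 _ _ hcls1 hχ₁)
    exact ci4 _ _ _ (hu _ _ hχ₀ hcls0) (ci4 _ _ _ g4 g5)

theorem m_CROSS : StCROSS := by
  intro D c u₀ q₀ a b hc hX hImm hInj
  have ha := hX.mema
  have hb := hX.memb
  have hh₀ := D.h₀
  have hh₁ := D.h₁
  have hh₂ := D.h₂
  have k1 := min_le_left D.m₀ a
  have k2 := min_le_right D.m₀ a
  have k3 : D.s₀ < min D.m₀ a := lt_min hh₀ ha.1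
  have k4 := le_max_left D.m₁ b
  have k5 := le_max_right D.m₁ b
  have k6 : max D.m₁ b < D.s₁ := max_lt hh₂ hb.2
  let D' : ArcD := { D with
    m₀ := (D.s₀ + min D.m₀ a) / 2
    m₁ := (max D.m₁ b + D.s₁) / 2
    h₀ := by linarith
    h₁ := by linarith
    h₂ := by linarith }
  have hm₀ : D'.m₀ = (D.s₀ + min D.m₀ a) / 2 := rfl
  have hm₁ : D'.m₁ = (max D.m₁ b + D.s₁) / 2 := rfl
  have hc' : D'.Htpy c := by
    refine ⟨hc.smooth, fun u hu q hq s hs => ?_, fun u hu q hq s hs => ?_, hc.start, hc.stop⟩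
    · rw [hm₀, hm₁] at hs
      refine hc.froz u hu q hq s ?_
      rcases hs with hs | hs
      · left; linarith
      · right; linarith
    · rw [hm₀, hm₁] at hs
      by_cases h1 : s ∈ Icc D.m₀ D.m₁
      · exact hc.inU u hu q hq s h1
      · have h2 : s ≤ D.m₀ ∨ D.m₁ ≤ s := by
          by_contra hcon
          push Not at hcon
          exact h1 ⟨hcon.1.le, hcon.2.le⟩
        rw [hc.froz u hu q hq s h2]
        exact D.mem s ⟨by linarith [hs.1], by linarith [hs.2]⟩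
  have hX' : D'.Xing c u₀ q₀ a b :=
    ⟨hX.memu, hX.memq, hX.mema, hX.memb, hX.lt, hX.eq, hX.uniq, hX.trans⟩
  obtain ⟨T, hT, h⟩ := cross_aux hCh hFr hTh hPhi hSQ hM5 hXG hPHT hL5 D' c u₀ q₀ a b hc' hX'
    hImm hInj (by rw [hm₀]; linarith [ha.1]) (by rw [hm₁]; linarith [hb.2])
  exact ⟨T, ⟨hT.emb, hT.inU, hT.arc, hT.str⟩, h⟩

end

end Cross

end Pool.Agent.Helper34.BI.H
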