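import Pool.Agent.Helper34.BI.H.StH5b
import Pool.Agent.Helper34.BI.Loc

/-!
# Project BI, stage 3: the chart at a transverse crossing of two strands (module CHT)
-/

set_option autoImplicit false

open Module Set Filter Topology
open scoped ContDiff Manifold
open Pool.Agent.Helper65.Barb Pool.Agent.Helper18.BI Pool.Agent.Helper27.BI

namespace Pool.Agent.Helper34.BI.H

/-- the polynomial change of coordinates is smooth -/
private theorem contDiff_lam_CHT (v₀ m : ℝ × ℝ) (ε ν : ℝ) : ContDiff ℝ ∞ (lam v₀ m ε ν) := by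
  have h1 : ContDiff ℝ ∞ (fun p : R4 => p.1) := contDiff_fst
  have h2 : ContDiff ℝ ∞ (fun p : R4 => p.2.1) := contDiff_fst.comp contDiff_snd
  have h3 : ContDiff ℝ ∞ (fun p : R4 => p.2.2.re) :=
    Complex.reCLM.contDiff.comp (contDiff_snd.comp contDiff_snd)
  have h4 : ContDiff ℝ ∞ (fun p : R4 => p.2.2.im) :=
    Complex.imCLM.contDiff.comp (contDiff_snd.comp contDiff_snd)
  have k1 : ContDiff ℝ ∞ (fun p : R4 => v₀ + mulc m (p.2.1, p.2.2.im)) := by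
    refine contDiff_const.add (ContDiff.prodMk ?_ ?_)
    · exact (contDiff_const.mul h2).sub (contDiff_const.mul h4)
    · exact (contDiff_const.mul h4).add (contDiff_const.mul h2)
  refine k1.prodMk (ContDiff.prodMk ?_ ?_)
  · exact contDiff_const.mul (((h1.sub contDiff_const).mul h2).add h3)
  · exact contDiff_const.mul (((h1.sub contDiff_const).mul (contDiff_const.sub h2)).sub h3)

/-- the left inverse of the change of coordinates -/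
private noncomputable def lami_CHT (v₀ m : ℝ × ℝ) (ε ν : ℝ) (z : (ℝ × ℝ) × ℝ × ℝ) : R4 :=
  (z.2.1 / ν + z.2.2 / ε + 1 / 2,
    ((m.1 * (z.1.1 - v₀.1) + m.2 * (z.1.2 - v₀.2)) / (m.1 ^ 2 + m.2 ^ 2),
      (((z.2.1 / ν - (z.2.1 / ν + z.2.2 / ε) *
        ((m.1 * (z.1.1 - v₀.1) + m.2 * (z.1.2 - v₀.2)) / (m.1 ^ 2 + m.2 ^ 2)) : ℝ) : ℂ) +
        (((m.1 * (z.1.2 - v₀.2) - m.2 * (z.1.1 - v₀.1)) / (m.1 ^ 2 + m.2 ^ 2) : ℝ) : ℂ) *
          Complex.I)))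

private theorem contDiff_lami_CHT (v₀ m : ℝ × ℝ) (ε ν : ℝ) :
    ContDiff ℝ ∞ (lami_CHT v₀ m ε ν) := by
  have h1 : ContDiff ℝ ∞ (fun z : (ℝ × ℝ) × ℝ × ℝ => z.1.1) := contDiff_fst.comp contDiff_fst
  have h2 : ContDiff ℝ ∞ (fun z : (ℝ × ℝ) × ℝ × ℝ => z.1.2) := contDiff_snd.comp contDiff_fst
  have h3 : ContDiff ℝ ∞ (fun z : (ℝ × ℝ) × ℝ × ℝ => z.2.1) := contDiff_fst.comp contDiff_snd
  have h4 : ContDiff ℝ ∞ (fun z : (ℝ × ℝ) × ℝ × ℝ => z.2.2) := contDiff_snd.comp contDiff_snd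
  have a1 : ContDiff ℝ ∞ (fun z : (ℝ × ℝ) × ℝ × ℝ =>
      (m.1 * (z.1.1 - v₀.1) + m.2 * (z.1.2 - v₀.2)) / (m.1 ^ 2 + m.2 ^ 2)) :=
    ((contDiff_const.mul (h1.sub contDiff_const)).add
      (contDiff_const.mul (h2.sub contDiff_const))).div_const _
  have a2 : ContDiff ℝ ∞ (fun z : (ℝ × ℝ) × ℝ × ℝ =>
      (m.1 * (z.1.2 - v₀.2) - m.2 * (z.1.1 - v₀.1)) / (m.1 ^ 2 + m.2 ^ 2)) :=
    ((contDiff_const.mul (h2.sub contDiff_const)).sub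
      (contDiff_const.mul (h1.sub contDiff_const))).div_const _
  have b1 : ContDiff ℝ ∞ (fun z : (ℝ × ℝ) × ℝ × ℝ => z.2.1 / ν) := h3.div_const _
  have b2 : ContDiff ℝ ∞ (fun z : (ℝ × ℝ) × ℝ × ℝ => z.2.2 / ε) := h4.div_const _
  refine ContDiff.prodMk ((b1.add b2).add contDiff_const) (ContDiff.prodMk a1 ?_)
  refine ContDiff.add ?_ (ContDiff.mul ?_ contDiff_const)
  · exact Complex.ofRealCLM.contDiff.comp (b1.sub ((b1.add b2).mul a1))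
  · exact Complex.ofRealCLM.contDiff.comp a2

private theorem lami_lam_CHT (v₀ m : ℝ × ℝ) (ε ν : ℝ) (hm : m ≠ 0) (hε : 0 < ε) (hν : 0 < ν)
    (p : R4) : lami_CHT v₀ m ε ν (lam v₀ m ε ν p) = p := by
  have hn : m.1 ^ 2 + m.2 ^ 2 ≠ 0 := by
    intro h
    apply hm
    have e1 : m.1 = 0 := by nlinarith [sq_nonneg m.1, sq_nonneg m.2]
    have e2 : m.2 = 0 := by nlinarith [sq_nonneg m.1, sq_nonneg m.2]
    exact Prod.ext e1 e2
  have e1 : (lam v₀ m ε ν p).1.1 - v₀.1 = m.1 * p.2.1 - m.2 * p.2.2.im := by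
    simp [lam, mulc]
  have e2 : (lam v₀ m ε ν p).1.2 - v₀.2 = m.1 * p.2.2.im + m.2 * p.2.1 := by
    simp [lam, mulc]
  have e3 : (lam v₀ m ε ν p).2.1 / ν = (p.1 - 1 / 2) * p.2.1 + p.2.2.re := by
    simp only [lam]
    field_simp
  have e4 : (lam v₀ m ε ν p).2.2 / ε = (p.1 - 1 / 2) * (1 - p.2.1) - p.2.2.re := by
    simp only [lam]
    field_simp
  have ea : (m.1 * (m.1 * p.2.1 - m.2 * p.2.2.im) + m.2 * (m.1 * p.2.2.im + m.2 * p.2.1)) /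
      (m.1 ^ 2 + m.2 ^ 2) = p.2.1 := by
    field_simp
    ring
  have eh : (m.1 * (m.1 * p.2.2.im + m.2 * p.2.1) - m.2 * (m.1 * p.2.1 - m.2 * p.2.2.im)) /
      (m.1 ^ 2 + m.2 ^ 2) = p.2.2.im := by
    field_simp
    ring
  unfold lami_CHT
  rw [e1, e2, e3, e4, ea, eh]
  refine Prod.ext ?_ (Prod.ext rfl ?_)
  · show (p.1 - 1 / 2) * p.2.1 + p.2.2.re + ((p.1 - 1 / 2) * (1 - p.2.1) - p.2.2.re) + 1 / 2 = p.1
    ring
  · apply Complex.ext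
    · simp
      ring
    · simp

private theorem injective_fderiv_lam_CHT (v₀ m : ℝ × ℝ) (ε ν : ℝ) (hm : m ≠ 0) (hε : 0 < ε)
    (hν : 0 < ν) (p : R4) : Function.Injective (fderiv ℝ (lam v₀ m ε ν) p) := by
  have d1 : HasFDerivAt (lam v₀ m ε ν) (fderiv ℝ (lam v₀ m ε ν) p) p :=
    ((contDiff_lam_CHT v₀ m ε ν).differentiable (by simp) p).hasFDerivAt
  have d2 : HasFDerivAt (lami_CHT v₀ m ε ν)
      (fderiv ℝ (lami_CHT v₀ m ε ν) (lam v₀ m ε ν p)) (lam v₀ m ε ν p) :=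
    ((contDiff_lami_CHT v₀ m ε ν).differentiable (by simp) _).hasFDerivAt
  have d3 := d2.comp p d1
  have d4 : HasFDerivAt (fun x : R4 => x)
      ((fderiv ℝ (lami_CHT v₀ m ε ν) (lam v₀ m ε ν p)).comp (fderiv ℝ (lam v₀ m ε ν) p)) p := by
    refine d3.congr_of_eventuallyEq (Filter.Eventually.of_forall fun q => ?_)
    exact (lami_lam_CHT v₀ m ε ν hm hε hν q).symm
  have d5 := d4.unique (hasFDerivAt_id p)
  have e1 : ∀ z, (fderiv ℝ (lami_CHT v₀ m ε ν) (lam v₀ m ε ν p))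
      (fderiv ℝ (lam v₀ m ε ν) p z) = z := fun z =>
    congrArg (fun A : R4 →L[ℝ] R4 => A z) d5
  intro v w hvw
  have := congrArg (fderiv ℝ (lami_CHT v₀ m ε ν) (lam v₀ m ε ν p)) hvw
  rw [e1, e1] at this
  exact this

/-- the size of the change of coordinates on the ball -/
private theorem mapsTo_lam_CHT (v₀ m : ℝ × ℝ) (ε ν η : ℝ) (hη : 0 < η) (hm : ‖m‖ < η / 20)
    (hε : 0 < ε) (hε' : ε < η / 20) (hν : 0 < ν) (hν' : ν < η / 20) :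
    MapsTo (lam v₀ m ε ν) ball4 (box v₀ η) := by
  rintro p ⟨hp1, hp2, hp3⟩
  have hr : p.2.1 ^ 2 + p.2.2.re ^ 2 + p.2.2.im ^ 2 ≤ (9 / 2) ^ 2 := by
    have : rsq 0 p = p.2.1 ^ 2 + p.2.2.re ^ 2 + p.2.2.im ^ 2 := by simp [rsq, nsq]
    rw [← this]
    exact hp3
  have y1 := sq_nonneg p.2.1
  have y2 := sq_nonneg p.2.2.re
  have y3 := sq_nonneg p.2.2.im
  have ha : |p.2.1| ≤ 9 / 2 := abs_le_of_sq_le_sq (by linarith) (by norm_num)
  have hX : |p.2.2.re| ≤ 9 / 2 := abs_le_of_sq_le_sq (by linarith) (by norm_num)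
  have hh : |p.2.2.im| ≤ 9 / 2 := abs_le_of_sq_le_sq (by linarith) (by norm_num)
  have hs : |p.1 - 1 / 2| ≤ 3 / 2 := abs_le.2 ⟨by linarith, by linarith⟩
  have h1a : |1 - p.2.1| ≤ 11 / 2 := by
    have := abs_le.1 ha
    exact abs_le.2 ⟨by linarith, by linarith⟩
  have hm1 : |m.1| ≤ η / 20 := (norm_fst_le m).trans hm.le
  have hm2 : |m.2| ≤ η / 20 := (norm_snd_le m).trans hm.le
  have hη0 : (0 : ℝ) ≤ η / 20 := by positivity
  show ‖lam v₀ m ε ν p - (v₀, 0, 0)‖ ≤ η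
  refine norm_prod_le_iff.2 ⟨norm_prod_le_iff.2 ⟨?_, ?_⟩, norm_prod_le_iff.2 ⟨?_, ?_⟩⟩
  · have e : (lam v₀ m ε ν p - (v₀, 0, 0)).1.1 = m.1 * p.2.1 - m.2 * p.2.2.im := by
      simp [lam, mulc]
    rw [e, Real.norm_eq_abs]
    have q1 : |m.1 * p.2.1| ≤ η / 20 * (9 / 2) := by
      rw [abs_mul]
      exact mul_le_mul hm1 ha (abs_nonneg _) hη0
    have q2 : |m.2 * p.2.2.im| ≤ η / 20 * (9 / 2) := by
      rw [abs_mul]
      exact mul_le_mul hm2 hh (abs_nonneg _) hη0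
    have q3 := abs_sub (m.1 * p.2.1) (m.2 * p.2.2.im)
    linarith
  · have e : (lam v₀ m ε ν p - (v₀, 0, 0)).1.2 = m.1 * p.2.2.im + m.2 * p.2.1 := by
      simp [lam, mulc]
    rw [e, Real.norm_eq_abs]
    have q1 : |m.1 * p.2.2.im| ≤ η / 20 * (9 / 2) := by
      rw [abs_mul]
      exact mul_le_mul hm1 hh (abs_nonneg _) hη0
    have q2 : |m.2 * p.2.1| ≤ η / 20 * (9 / 2) := by
      rw [abs_mul]
      exact mul_le_mul hm2 ha (abs_nonneg _) hη0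
    have q3 := abs_add_le (m.1 * p.2.2.im) (m.2 * p.2.1)
    linarith
  · have e : (lam v₀ m ε ν p - (v₀, 0, 0)).2.1 = ν * ((p.1 - 1 / 2) * p.2.1 + p.2.2.re) := by
      simp [lam]
    rw [e, Real.norm_eq_abs, abs_mul, abs_of_pos hν]
    have q1 : |(p.1 - 1 / 2) * p.2.1| ≤ 3 / 2 * (9 / 2) := by
      rw [abs_mul]
      exact mul_le_mul hs ha (abs_nonneg _) (by norm_num)
    have q3 := abs_add_le ((p.1 - 1 / 2) * p.2.1) p.2.2.re
    have q4 : ν * |(p.1 - 1 / 2) * p.2.1 + p.2.2.re| ≤ η / 20 * (45 / 4) :=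
      mul_le_mul hν'.le (by linarith) (abs_nonneg _) hη0
    linarith
  · have e : (lam v₀ m ε ν p - (v₀, 0, 0)).2.2 =
        ε * ((p.1 - 1 / 2) * (1 - p.2.1) - p.2.2.re) := by
      simp [lam]
    rw [e, Real.norm_eq_abs, abs_mul, abs_of_pos hε]
    have q1 : |(p.1 - 1 / 2) * (1 - p.2.1)| ≤ 3 / 2 * (11 / 2) := by
      rw [abs_mul]
      exact mul_le_mul hs h1a (abs_nonneg _) (by norm_num)
    have q3 := abs_sub ((p.1 - 1 / 2) * (1 - p.2.1)) p.2.2.re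
    have q4 : ε * |(p.1 - 1 / 2) * (1 - p.2.1) - p.2.2.re| ≤ η / 20 * (51 / 4) :=
      mul_le_mul hε'.le (by linarith) (abs_nonneg _) hη0
    linarith

/-- the first two coordinates -/
private noncomputable def prP_CHT : ((ℝ × ℝ) × ℝ × ℝ) →L[ℝ] (ℝ × ℝ) × ℝ :=
  (ContinuousLinearMap.fst ℝ (ℝ × ℝ) (ℝ × ℝ)).prod
    ((ContinuousLinearMap.fst ℝ ℝ ℝ).comp (ContinuousLinearMap.snd ℝ (ℝ × ℝ) (ℝ × ℝ)))

/-- the last coordinate -/
private noncomputable def prQ_CHT : ((ℝ × ℝ) × ℝ × ℝ) →L[ℝ] ℝ :=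
  (ContinuousLinearMap.snd ℝ ℝ ℝ).comp (ContinuousLinearMap.snd ℝ (ℝ × ℝ) (ℝ × ℝ))

private theorem injective_fderiv_yc_CHT (c : (ℝ × ℝ) × ℝ → R4) (c0 : ℝ → R4) (v₀ : ℝ × ℝ)
    (hc : ContDiffAt ℝ ∞ c (v₀, (0 : ℝ))) (hc0 : ContDiffAt ℝ ∞ c0 0)
    (hinj : Function.Injective (fderiv ℝ (fun z : (ℝ × ℝ) × ℝ × ℝ => c (z.1, z.2.1) - c0 z.2.2)
      (v₀, 0, 0))) : Function.Injective (fderiv ℝ (yc c c0) (v₀, 0, 0)) := by
  have dP : HasFDerivAt (fun z : (ℝ × ℝ) × ℝ × ℝ => (z.1, z.2.1)) prP_CHT (v₀, 0, 0) :=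
    prP_CHT.hasFDerivAt
  have dQ : HasFDerivAt (fun z : (ℝ × ℝ) × ℝ × ℝ => z.2.2) prQ_CHT (v₀, 0, 0) :=
    prQ_CHT.hasFDerivAt
  have dc : HasFDerivAt c (fderiv ℝ c (v₀, 0)) (v₀, 0) :=
    (hc.differentiableAt (by simp)).hasFDerivAt
  have dc0 : HasFDerivAt c0 (fderiv ℝ c0 0) 0 := (hc0.differentiableAt (by simp)).hasFDerivAt
  have d1 : HasFDerivAt (fun z : (ℝ × ℝ) × ℝ × ℝ => c (z.1, z.2.1))
      ((fderiv ℝ c (v₀, 0)).comp prP_CHT) (v₀, 0, 0) :=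
    HasFDerivAt.comp (f := fun z : (ℝ × ℝ) × ℝ × ℝ => (z.1, z.2.1)) (v₀, 0, 0) dc dP
  have d2 : HasFDerivAt (fun z : (ℝ × ℝ) × ℝ × ℝ => c0 z.2.2)
      ((fderiv ℝ c0 0).comp prQ_CHT) (v₀, 0, 0) :=
    HasFDerivAt.comp (f := fun z : (ℝ × ℝ) × ℝ × ℝ => z.2.2) (v₀, 0, 0) dc0 dQ
  have d3 := d1.sub d2
  have d4 : HasFDerivAt (yc c c0)
      ((fderiv ℝ c (v₀, 0)).comp prP_CHT + (fderiv ℝ c0 0).comp prQ_CHT) (v₀, 0, 0) :=
    d1.add (d2.sub_const _)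
  have e3 := d3.fderiv
  have e3' : fderiv ℝ (fun z : (ℝ × ℝ) × ℝ × ℝ => c (z.1, z.2.1) - c0 z.2.2) (v₀, 0, 0) =
      (fderiv ℝ c (v₀, 0)).comp prP_CHT - (fderiv ℝ c0 0).comp prQ_CHT := e3
  rw [e3'] at hinj
  rw [d4.fderiv]
  refine (injective_iff_map_eq_zero _).2 fun z hz => ?_
  have h0 : ((fderiv ℝ c (v₀, 0)).comp prP_CHT - (fderiv ℝ c0 0).comp prQ_CHT)
      (z.1, z.2.1, -z.2.2) = 0 := by
    have k1 : prP_CHT (z.1, z.2.1, -z.2.2) = prP_CHT z := rfl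
    have k2 : prQ_CHT (z.1, z.2.1, -z.2.2) = -prQ_CHT z := rfl
    simp only [ContinuousLinearMap.sub_apply, ContinuousLinearMap.comp_apply, k1, k2, map_neg,
      sub_neg_eq_add]
    simpa only [ContinuousLinearMap.add_apply, ContinuousLinearMap.comp_apply] using hz
  have h1 := (injective_iff_map_eq_zero _).1 hinj _ h0
  have q1 : z.1 = 0 := congrArg (fun w : (ℝ × ℝ) × ℝ × ℝ => w.1) h1
  have q2 : z.2.1 = 0 := congrArg (fun w : (ℝ × ℝ) × ℝ × ℝ => w.2.1) h1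
  have q3 : -z.2.2 = 0 := congrArg (fun w : (ℝ × ℝ) × ℝ × ℝ => w.2.2) h1
  exact Prod.ext q1 (Prod.ext q2 (neg_eq_zero.1 q3))

theorem m_CHT : StCHT := by
  intro c c0 v₀ O hc hc0 hcc hinj hO hcO
  -- `yc` is smooth near `z₀`
  have hsm : ∀ᶠ z in 𝓝 ((v₀, 0, 0) : (ℝ × ℝ) × ℝ × ℝ), ContDiffAt ℝ ∞ (yc c c0) z := by
    have cP : ContinuousAt (fun z : (ℝ × ℝ) × ℝ × ℝ => (z.1, z.2.1)) (v₀, 0, 0) :=
      prP_CHT.continuous.continuousAt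
    have cQ : ContinuousAt (fun z : (ℝ × ℝ) × ℝ × ℝ => z.2.2) (v₀, 0, 0) :=
      prQ_CHT.continuous.continuousAt
    filter_upwards [cP.eventually hc, cQ.eventually hc0] with z h1 h2
    have sP : ContDiffAt ℝ ∞ (fun z : (ℝ × ℝ) × ℝ × ℝ => (z.1, z.2.1)) z :=
      prP_CHT.contDiff.contDiffAt
    have sQ : ContDiffAt ℝ ∞ (fun z : (ℝ × ℝ) × ℝ × ℝ => z.2.2) z :=
      prQ_CHT.contDiff.contDiffAt
    have k1 : ContDiffAt ℝ ∞ (fun z : (ℝ × ℝ) × ℝ × ℝ => c (z.1, z.2.1)) z :=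
      ContDiffAt.comp (f := fun z : (ℝ × ℝ) × ℝ × ℝ => (z.1, z.2.1)) z h1 sP
    have k2 : ContDiffAt ℝ ∞ (fun z : (ℝ × ℝ) × ℝ × ℝ => c0 z.2.2) z :=
      ContDiffAt.comp (f := fun z : (ℝ × ℝ) × ℝ × ℝ => z.2.2) z h2 sQ
    exact k1.add (k2.sub contDiffAt_const)
  have hfi := injective_fderiv_yc_CHT c c0 v₀ hc.self_of_nhds hc0.self_of_nhds hinj
  have hdim : finrank ℝ ((ℝ × ℝ) × ℝ × ℝ) = finrank ℝ R4 := by
    have : finrank ℝ ℂ = 2 := Complex.finrank_real_complex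
    rw [Module.finrank_prod, Module.finrank_prod, Module.finrank_prod, Module.finrank_prod, this]
    simp
  have hloc := isLocalDiffeomorphAt_of_injective hdim hsm hfi
  have hcont : ContinuousAt (yc c c0) (v₀, 0, 0) := hsm.self_of_nhds.continuousAt
  have hz0 : yc c c0 (v₀, 0, 0) = c0 0 := by
    simp [yc, hcc]
  have hpre : yc c c0 ⁻¹' O ∈ 𝓝 ((v₀, 0, 0) : (ℝ × ℝ) × ℝ × ℝ) :=
    hcont.preimage_mem_nhds (hO.mem_nhds (by rw [hz0]; exact hcO))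
  obtain ⟨Φ, hp, he⟩ := hloc
  have hW : Φ.source ∩ yc c c0 ⁻¹' O ∈ 𝓝 ((v₀, 0, 0) : (ℝ × ℝ) × ℝ × ℝ) :=
    Filter.inter_mem (Φ.open_source.mem_nhds hp) hpre
  obtain ⟨η, hη, hsub⟩ := Metric.nhds_basis_closedBall.mem_iff.1 hW
  have hbox : box v₀ η ⊆ Φ.source ∩ yc c c0 ⁻¹' O := by
    intro z hz
    apply hsub
    rw [mem_closedBall_iff_norm]
    exact hz
  have hld : ∀ z ∈ box v₀ η, IsLocalDiffeomorphAt 𝓘(ℝ, (ℝ × ℝ) × ℝ × ℝ) 𝓘(ℝ, R4) ∞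
      (yc c c0) z := fun z hz => ⟨Φ, (hbox hz).1, he⟩
  have hin : InjOn (yc c c0) (box v₀ η) := by
    intro z hz w hw hzw
    rw [he (hbox hz).1, he (hbox hw).1] at hzw
    exact Φ.toPartialEquiv.injOn (hbox hz).1 (hbox hw).1 hzw
  refine ⟨η, hη, hin, fun z hz => (hbox hz).2, fun z hz => eventually_contDiffAt (hld z hz), ?_⟩
  intro m ε ν hm hm' hε hε' hν hν'
  have hmaps := mapsTo_lam_CHT v₀ m ε ν η hη hm' hε hε' hν hν'
  refine ⟨⟨fun p hp => ?_, fun p hp q hq hpq => ?_⟩, hmaps⟩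
  · have hl := hld _ (hmaps hp)
    have s1 := eventually_contDiffAt hl
    have s2 := injective_fderiv hl
    have hlam := contDiff_lam_CHT v₀ m ε ν
    refine isLocalDiffeomorphAt_of_injective rfl ?_ ?_
    · filter_upwards [hlam.continuous.continuousAt.eventually s1] with q hq
      exact ContDiffAt.comp (g := yc c c0) (f := lam v₀ m ε ν) q hq hlam.contDiffAt
    · have e : fderiv ℝ (cht c c0 v₀ m ε ν) p =
          (fderiv ℝ (yc c c0) (lam v₀ m ε ν p)).comp (fderiv ℝ (lam v₀ m ε ν) p) :=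
        fderiv_comp (g := yc c c0) (f := lam v₀ m ε ν) p
          (s1.self_of_nhds.differentiableAt (by simp)) (hlam.differentiable (by simp) p)
      rw [e]
      exact s2.comp (injective_fderiv_lam_CHT v₀ m ε ν hm hε hν p)
  · have h1 := hin (hmaps hp) (hmaps hq) hpq
    have h2 := congrArg (lami_CHT v₀ m ε ν) h1
    rwa [lami_lam_CHT v₀ m ε ν hm hε hν, lami_lam_CHT v₀ m ε ν hm hε hν] at h2

end Pool.Agent.Helper34.BI.H
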