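import Pool.Agent.Helper34.BI.H.StH5b

/-!
# Project BI, stage 3: module CHV, values of the chart
-/

set_option autoImplicit false

open Module Set Filter Topology
open scoped ContDiff Manifold
open Pool.Agent.Helper65.Barb Pool.Agent.Helper18.BI Pool.Agent.Helper27.BI

namespace Pool.Agent.Helper34.BI.H

private theorem mulc_inj_CHV {m v : ℝ × ℝ} (hm : m ≠ 0) (h : mulc m v = 0) : v = 0 := by
  have h1 : m.1 * v.1 - m.2 * v.2 = 0 := by
    have := congrArg Prod.fst h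
    simpa [mulc] using this
  have h2 : m.1 * v.2 + m.2 * v.1 = 0 := by
    have := congrArg Prod.snd h
    simpa [mulc] using this
  have hpos : 0 < m.1 ^ 2 + m.2 ^ 2 := by
    by_contra hn
    have e1 : m.1 = 0 := by nlinarith [sq_nonneg m.1, sq_nonneg m.2]
    have e2 : m.2 = 0 := by nlinarith [sq_nonneg m.1, sq_nonneg m.2]
    exact hm (Prod.ext e1 e2)
  have k1 : (m.1 ^ 2 + m.2 ^ 2) * v.1 = 0 := by linear_combination m.1 * h1 + m.2 * h2
  have k2 : (m.1 ^ 2 + m.2 ^ 2) * v.2 = 0 := by linear_combination m.1 * h2 - m.2 * h1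
  exact Prod.ext ((mul_eq_zero.1 k1).resolve_left hpos.ne')
    ((mul_eq_zero.1 k2).resolve_left hpos.ne')

theorem m_CHV : StCHV := by
  intro c c0 v₀ m ε ν η₀ hm hε hν hc
  refine ⟨fun s => ?_, fun s => ?_, fun κ q s => ?_, fun hinj hmap p hp => ⟨?_, ?_⟩⟩
  · have e : lam v₀ m ε ν (s, 0) = (v₀, 0, ε * (s - 1 / 2)) := by
      simp [lam, mulc]
    rw [cht, e]
    simp [yc, hc]
  · have e : lam v₀ m ε ν (s, e1) = (v₀ + m, ν * (s - 1 / 2), 0) := by
      simp [lam, mulc, e1]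
    rw [cht, e]
    simp [yc]
  · have e : lam v₀ m ε ν (s, warc κ q s) =
        (v₀ + m + κ s • (circ v₀ m q - (v₀ + m)), ν * (s - 1 / 2), 0) := by
      refine Prod.ext (Prod.ext ?_ ?_) (Prod.ext ?_ ?_)
      · simp only [lam, mulc, warc, circ, Prod.fst_add, Prod.smul_fst, Prod.fst_sub, smul_eq_mul]
        ring
      · simp only [lam, mulc, warc, circ, Prod.snd_add, Prod.smul_snd, Prod.snd_sub, smul_eq_mul]
        ring
      · simp only [lam, warc]
        ring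
      · simp only [lam, warc]
        ring
    rw [cht, e]
    simp [yc]
  · intro t ht h0 h
    have hz : ((v₀, 0, t) : (ℝ × ℝ) × ℝ × ℝ) ∈ box v₀ η₀ := by
      have : ((v₀, 0, t) : (ℝ × ℝ) × ℝ × ℝ) - (v₀, 0, 0) = ((0, 0, t) : (ℝ × ℝ) × ℝ × ℝ) := by
        simp
      change ‖((v₀, 0, t) : (ℝ × ℝ) × ℝ × ℝ) - (v₀, 0, 0)‖ ≤ η₀
      rw [this]
      simp only [Prod.norm_def, norm_zero, Real.norm_eq_abs]
      exact max_le h0 (max_le h0 ht)
    have hy : yc c c0 (lam v₀ m ε ν p) = yc c c0 (v₀, 0, t) := by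
      change cht c c0 v₀ m ε ν p = _
      rw [h]
      simp [yc, hc]
    have hl := hinj (hmap hp) hz hy
    have l1 : v₀ + mulc m (p.2.1, p.2.2.im) = v₀ := congrArg Prod.fst hl
    have l2 : ν * ((p.1 - 1 / 2) * p.2.1 + p.2.2.re) = 0 :=
      congrArg (fun z : (ℝ × ℝ) × ℝ × ℝ => z.2.1) hl
    have l3 : ε * ((p.1 - 1 / 2) * (1 - p.2.1) - p.2.2.re) = t :=
      congrArg (fun z : (ℝ × ℝ) × ℝ × ℝ => z.2.2) hl
    have h1 : mulc m (p.2.1, p.2.2.im) = 0 := by simpa using l1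
    have h2 := mulc_inj_CHV hm h1
    have ha : p.2.1 = 0 := congrArg Prod.fst h2
    have hh : p.2.2.im = 0 := congrArg Prod.snd h2
    have hX : p.2.2.re = 0 := by
      have := (mul_eq_zero.1 l2).resolve_left hν.ne'
      rw [ha] at this
      linarith
    refine ⟨Prod.ext rfl (Prod.ext ha (Complex.ext hX hh)), ?_⟩
    rw [← l3, ha, hX]
    ring
  · intro b hb hmη h
    have h0 : 0 ≤ η₀ := le_trans (norm_nonneg _) hmη
    have hz : ((v₀ + m, b, 0) : (ℝ × ℝ) × ℝ × ℝ) ∈ box v₀ η₀ := by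
      have : ((v₀ + m, b, 0) : (ℝ × ℝ) × ℝ × ℝ) - (v₀, 0, 0) = ((m, b, 0) : (ℝ × ℝ) × ℝ × ℝ) := by
        simp
      change ‖((v₀ + m, b, 0) : (ℝ × ℝ) × ℝ × ℝ) - (v₀, 0, 0)‖ ≤ η₀
      rw [this, Prod.norm_def]
      refine max_le hmη ?_
      simp only [Prod.norm_def, norm_zero, Real.norm_eq_abs]
      exact max_le hb h0
    have hy : yc c c0 (lam v₀ m ε ν p) = yc c c0 (v₀ + m, b, 0) := by
      change cht c c0 v₀ m ε ν p = _
      rw [h]
      simp [yc]
    have hl := hinj (hmap hp) hz hy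
    have l1 : v₀ + mulc m (p.2.1, p.2.2.im) = v₀ + m := congrArg Prod.fst hl
    have l2 : ν * ((p.1 - 1 / 2) * p.2.1 + p.2.2.re) = b :=
      congrArg (fun z : (ℝ × ℝ) × ℝ × ℝ => z.2.1) hl
    have l3 : ε * ((p.1 - 1 / 2) * (1 - p.2.1) - p.2.2.re) = 0 :=
      congrArg (fun z : (ℝ × ℝ) × ℝ × ℝ => z.2.2) hl
    have h1 : mulc m (p.2.1, p.2.2.im) = m := by simpa using l1
    have h1' : mulc m (p.2.1 - 1, p.2.2.im) = 0 := by
      have e1' : m.1 * p.2.1 - m.2 * p.2.2.im = m.1 := congrArg Prod.fst h1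
      have e2' : m.1 * p.2.2.im + m.2 * p.2.1 = m.2 := congrArg Prod.snd h1
      refine Prod.ext ?_ ?_
      · change m.1 * (p.2.1 - 1) - m.2 * p.2.2.im = 0
        linarith
      · change m.1 * p.2.2.im + m.2 * (p.2.1 - 1) = 0
        linarith
    have h2 := mulc_inj_CHV hm h1'
    have ha : p.2.1 = 1 := by
      have : p.2.1 - 1 = 0 := congrArg Prod.fst h2
      linarith
    have hh : p.2.2.im = 0 := congrArg Prod.snd h2
    have hX : p.2.2.re = 0 := by
      have := (mul_eq_zero.1 l3).resolve_left hε.ne'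
      rw [ha] at this
      linarith
    refine ⟨Prod.ext rfl (Prod.ext ?_ ?_), ?_⟩
    · simpa [e1] using ha
    · simpa [e1] using Complex.ext (by simpa using hX) (by simpa using hh)
    · rw [← l2, ha, hX]
      ring

end Pool.Agent.Helper34.BI.H
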