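import Pool.Agent.Helper34.BI.H.StH5c
import Pool.Agent.Helper34.BI.H.M_CHT
import Pool.Agent.Helper34.BI.H.M_CHV

/-!
# Project BI, stage 3: module L5, the local model of a transverse crossing
-/

set_option autoImplicit false

open Module Set Filter Topology
open scoped ContDiff Manifold
open Pool.Agent.Helper65.Barb Pool.Agent.Helper18.BI Pool.Agent.Helper27.BI
open Pool.Agent.Helper27.H (ArcD LIso LPush Fam2 Q2 SuppU thk seg)
open Pool.Agent.Helper70.BI (I4)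

namespace Pool.Agent.Helper34.BI.H

private noncomputable def A_L5 (c : ℝ × ℝ × ℝ → R4) (u₀ q₀ a b : ℝ) : ℝ × ℝ →L[ℝ] R4 :=
  (fderiv ℝ c (u₀, q₀, a) - fderiv ℝ c (u₀, q₀, b)).comp
    ((ContinuousLinearMap.fst ℝ ℝ ℝ).prod ((ContinuousLinearMap.snd ℝ ℝ ℝ).prod 0))

private theorem lw_eq_L5 (c : ℝ × ℝ × ℝ → R4) (u₀ q₀ a b : ℝ) (w : ℝ × ℝ) :
    lw c u₀ q₀ a b w = A_L5 c u₀ q₀ a b w := by
  simp [lw, A_L5]

private theorem mulc_inj_L5 {m v : ℝ × ℝ} (hm : m ≠ 0) (h : mulc m v = 0) : v = 0 := by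
  have h1 : m.1 * v.1 - m.2 * v.2 = 0 := by
    have := congrArg Prod.fst h
    simpa [mulc] using this
  have h2 : m.1 * v.2 + m.2 * v.1 = 0 := by
    have := congrArg Prod.snd h
    simpa [mulc] using this
  have hpos : 0 < m.1 ^ 2 + m.2 ^ 2 := by
    by_contra hn
    have q1 := sq_nonneg m.1
    have q2 := sq_nonneg m.2
    have q3 := not_lt.1 hn
    have e1 : m.1 = 0 := (pow_eq_zero_iff two_ne_zero).1 (le_antisymm (by linarith only [q2, q3]) q1)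
    have e2 : m.2 = 0 := (pow_eq_zero_iff two_ne_zero).1 (le_antisymm (by linarith only [q1, q3]) q2)
    exact hm (Prod.ext e1 e2)
  have k1 : (m.1 ^ 2 + m.2 ^ 2) * v.1 = 0 := by linear_combination m.1 * h1 + m.2 * h2
  have k2 : (m.1 ^ 2 + m.2 ^ 2) * v.2 = 0 := by linear_combination m.1 * h2 - m.2 * h1
  exact Prod.ext ((mul_eq_zero.1 k1).resolve_left hpos.ne')
    ((mul_eq_zero.1 k2).resolve_left hpos.ne')

private theorem norm_mulc_L5 (m : ℝ × ℝ) (θ : ℝ) :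
    ‖mulc m (Real.cos θ, Real.sin θ)‖ ≤ 2 * ‖m‖ := by
  have h1 : |m.1| ≤ ‖m‖ := norm_fst_le m
  have h2 : |m.2| ≤ ‖m‖ := norm_snd_le m
  have hc := Real.abs_cos_le_one θ
  have hs := Real.abs_sin_le_one θ
  have k1 : |m.1 * Real.cos θ| ≤ ‖m‖ := by
    rw [abs_mul]; exact (mul_le_of_le_one_right (abs_nonneg _) hc).trans h1
  have k2 : |m.2 * Real.sin θ| ≤ ‖m‖ := by
    rw [abs_mul]; exact (mul_le_of_le_one_right (abs_nonneg _) hs).trans h2
  have k3 : |m.1 * Real.sin θ| ≤ ‖m‖ := by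
    rw [abs_mul]; exact (mul_le_of_le_one_right (abs_nonneg _) hs).trans h1
  have k4 : |m.2 * Real.cos θ| ≤ ‖m‖ := by
    rw [abs_mul]; exact (mul_le_of_le_one_right (abs_nonneg _) hc).trans h2
  rw [Prod.norm_def]
  refine max_le ?_ ?_
  · change |m.1 * Real.cos θ - m.2 * Real.sin θ| ≤ _
    have := abs_sub (m.1 * Real.cos θ) (m.2 * Real.sin θ)
    linarith
  · change |m.1 * Real.sin θ + m.2 * Real.cos θ| ≤ _
    have := abs_add_le (m.1 * Real.sin θ) (m.2 * Real.cos θ)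
    linarith

/-- the moving strand, linearized -/
private noncomputable def cc_L5 (c : ℝ × ℝ × ℝ → R4) (u₀ q₀ a b : ℝ) (z : (ℝ × ℝ) × ℝ) : R4 :=
  c (u₀, q₀, b + z.2) - A_L5 c u₀ q₀ a b (z.1 - (u₀, q₀))

/-- the fixed strand -/
private def c0_L5 (c : ℝ × ℝ × ℝ → R4) (u₀ q₀ a : ℝ) (t : ℝ) : R4 := c (u₀, q₀, a + t)

private theorem cc_smooth_L5 {c : ℝ × ℝ × ℝ → R4} (hc : ContDiff ℝ ∞ c) (u₀ q₀ a b : ℝ) :
    ContDiff ℝ ∞ (cc_L5 c u₀ q₀ a b) := by
  have h1 : ContDiff ℝ ∞ (fun z : (ℝ × ℝ) × ℝ => c (u₀, q₀, b + z.2)) :=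
    hc.comp (contDiff_const.prodMk (contDiff_const.prodMk (contDiff_const.add contDiff_snd)))
  have h2 : ContDiff ℝ ∞ (fun z : (ℝ × ℝ) × ℝ => A_L5 c u₀ q₀ a b (z.1 - (u₀, q₀))) :=
    (A_L5 c u₀ q₀ a b).contDiff.comp (contDiff_fst.sub contDiff_const)
  exact h1.sub h2

private theorem c0_smooth_L5 {c : ℝ × ℝ × ℝ → R4} (hc : ContDiff ℝ ∞ c) (u₀ q₀ a : ℝ) :
    ContDiff ℝ ∞ (c0_L5 c u₀ q₀ a) :=
  hc.comp (contDiff_const.prodMk (contDiff_const.prodMk (contDiff_const.add contDiff_id)))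

private theorem line_L5 {c : ℝ × ℝ × ℝ → R4} (hc : ContDiff ℝ ∞ c) (u₀ q₀ a : ℝ) :
    HasFDerivAt (fun t : ℝ => c (u₀, q₀, a + t))
      ((fderiv ℝ c (u₀, q₀, a)).comp
        ((0 : ℝ →L[ℝ] ℝ).prod ((0 : ℝ →L[ℝ] ℝ).prod (ContinuousLinearMap.id ℝ ℝ)))) 0 := by
  have h1 : HasFDerivAt c (fderiv ℝ c (u₀, q₀, a)) (u₀, q₀, a + 0) := by
    rw [add_zero]
    exact (hc.differentiable (by simp) _).hasFDerivAt
  have h2 : HasFDerivAt (fun t : ℝ => ((u₀, q₀, a + t) : ℝ × ℝ × ℝ))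
      ((0 : ℝ →L[ℝ] ℝ).prod ((0 : ℝ →L[ℝ] ℝ).prod (ContinuousLinearMap.id ℝ ℝ))) 0 :=
    (hasFDerivAt_const _ _).prodMk ((hasFDerivAt_const _ _).prodMk
      ((hasFDerivAt_id (0 : ℝ)).const_add a))
  exact h1.comp (0 : ℝ) h2

private theorem inj_L5 {c : ℝ × ℝ × ℝ → R4} (hc : ContDiff ℝ ∞ c) {u₀ q₀ a b : ℝ}
    (htr : ∀ ζ η σ τ : ℝ, fderiv ℝ c (u₀, q₀, a) (ζ, η, σ) = fderiv ℝ c (u₀, q₀, b) (ζ, η, τ) →
      ζ = 0 ∧ η = 0 ∧ σ = 0 ∧ τ = 0) :
    Function.Injective (fderiv ℝ (fun z : (ℝ × ℝ) × ℝ × ℝ =>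
      cc_L5 c u₀ q₀ a b (z.1, z.2.1) - c0_L5 c u₀ q₀ a z.2.2) ((u₀, q₀), 0, 0)) := by
  have h1 : HasFDerivAt (fun z : (ℝ × ℝ) × ℝ × ℝ => c (u₀, q₀, b + z.2.1))
      (((fderiv ℝ c (u₀, q₀, b)).comp
        ((0 : ℝ →L[ℝ] ℝ).prod ((0 : ℝ →L[ℝ] ℝ).prod (ContinuousLinearMap.id ℝ ℝ)))).comp
        ((ContinuousLinearMap.fst ℝ ℝ ℝ).comp (ContinuousLinearMap.snd ℝ (ℝ × ℝ) (ℝ × ℝ))))
      ((u₀, q₀), 0, 0) :=
    HasFDerivAt.comp (g := fun t : ℝ => c (u₀, q₀, b + t))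
      (f := fun z : (ℝ × ℝ) × ℝ × ℝ => z.2.1)
      (((u₀, q₀), 0, 0) : (ℝ × ℝ) × ℝ × ℝ) (line_L5 hc u₀ q₀ b)
      ((ContinuousLinearMap.fst ℝ ℝ ℝ).comp
        (ContinuousLinearMap.snd ℝ (ℝ × ℝ) (ℝ × ℝ))).hasFDerivAt
  have h2 : HasFDerivAt (fun z : (ℝ × ℝ) × ℝ × ℝ => c (u₀, q₀, a + z.2.2))
      (((fderiv ℝ c (u₀, q₀, a)).comp
        ((0 : ℝ →L[ℝ] ℝ).prod ((0 : ℝ →L[ℝ] ℝ).prod (ContinuousLinearMap.id ℝ ℝ)))).comp
        ((ContinuousLinearMap.snd ℝ ℝ ℝ).comp (ContinuousLinearMap.snd ℝ (ℝ × ℝ) (ℝ × ℝ))))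
      ((u₀, q₀), 0, 0) :=
    HasFDerivAt.comp (g := fun t : ℝ => c (u₀, q₀, a + t))
      (f := fun z : (ℝ × ℝ) × ℝ × ℝ => z.2.2)
      (((u₀, q₀), 0, 0) : (ℝ × ℝ) × ℝ × ℝ) (line_L5 hc u₀ q₀ a)
      ((ContinuousLinearMap.snd ℝ ℝ ℝ).comp
        (ContinuousLinearMap.snd ℝ (ℝ × ℝ) (ℝ × ℝ))).hasFDerivAt
  have h3 : HasFDerivAt (fun z : (ℝ × ℝ) × ℝ × ℝ => A_L5 c u₀ q₀ a b (z.1 - (u₀, q₀)))
      ((A_L5 c u₀ q₀ a b).comp (ContinuousLinearMap.fst ℝ (ℝ × ℝ) (ℝ × ℝ)))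
      ((u₀, q₀), 0, 0) :=
    HasFDerivAt.comp (((u₀, q₀), 0, 0) : (ℝ × ℝ) × ℝ × ℝ) (A_L5 c u₀ q₀ a b).hasFDerivAt
      ((ContinuousLinearMap.fst ℝ (ℝ × ℝ) (ℝ × ℝ)).hasFDerivAt.sub_const (u₀, q₀))
  have h4 := (h1.sub h3).sub h2
  have e : fderiv ℝ (fun z : (ℝ × ℝ) × ℝ × ℝ =>
      cc_L5 c u₀ q₀ a b (z.1, z.2.1) - c0_L5 c u₀ q₀ a z.2.2) ((u₀, q₀), 0, 0) = _ := h4.fderiv
  rw [e]
  rw [← ContinuousLinearMap.coe_coe, ← LinearMap.ker_eq_bot, LinearMap.ker_eq_bot']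
  rintro ⟨⟨w1, w2⟩, β, t⟩ hz
  have hz' : fderiv ℝ c (u₀, q₀, b) (0, 0, β) -
      (fderiv ℝ c (u₀, q₀, a) (w1, w2, 0) - fderiv ℝ c (u₀, q₀, b) (w1, w2, 0)) -
      fderiv ℝ c (u₀, q₀, a) (0, 0, t) = 0 := by
    simpa [A_L5] using hz
  have s1 : ((w1, w2, t) : ℝ × ℝ × ℝ) = (w1, w2, 0) + (0, 0, t) := by simp
  have s2 : ((w1, w2, β) : ℝ × ℝ × ℝ) = (w1, w2, 0) + (0, 0, β) := by simp
  have key : fderiv ℝ c (u₀, q₀, a) (w1, w2, t) = fderiv ℝ c (u₀, q₀, b) (w1, w2, β) := by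
    rw [s1, s2, map_add, map_add]
    rw [← sub_eq_zero]
    have : fderiv ℝ c (u₀, q₀, a) (w1, w2, 0) + fderiv ℝ c (u₀, q₀, a) (0, 0, t) -
        (fderiv ℝ c (u₀, q₀, b) (w1, w2, 0) + fderiv ℝ c (u₀, q₀, b) (0, 0, β)) =
        -(fderiv ℝ c (u₀, q₀, b) (0, 0, β) -
      (fderiv ℝ c (u₀, q₀, a) (w1, w2, 0) - fderiv ℝ c (u₀, q₀, b) (w1, w2, 0)) -
      fderiv ℝ c (u₀, q₀, a) (0, 0, t)) := by abel
    rw [this, hz', neg_zero]
  obtain ⟨r1, r2, r3, r4⟩ := htr _ _ _ _ key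
  subst r1 r2 r3 r4
  rfl

private theorem min6_L5 {a b c d e f : ℝ} (ha : 0 < a) (hb : 0 < b) (hc : 0 < c) (hd : 0 < d)
    (he : 0 < e) (hf : 0 < f) :
    ∃ r > 0, r ≤ a ∧ r ≤ b ∧ r ≤ c ∧ r ≤ d ∧ r ≤ e ∧ r ≤ f :=
  ⟨min (min a b) (min (min c d) (min e f)),
    lt_min (lt_min ha hb) (lt_min (lt_min hc hd) (lt_min he hf)),
    (min_le_left _ _).trans (min_le_left _ _), (min_le_left _ _).trans (min_le_right _ _),
    (min_le_right _ _).trans ((min_le_left _ _).trans (min_le_left _ _)),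
    (min_le_right _ _).trans ((min_le_left _ _).trans (min_le_right _ _)),
    (min_le_right _ _).trans ((min_le_right _ _).trans (min_le_left _ _)),
    (min_le_right _ _).trans ((min_le_right _ _).trans (min_le_right _ _))⟩

/-- a smooth cutoff -/
private theorem bump_L5 {r : ℝ} (hr : 0 < r) : ∃ κ : ℝ → ℝ, ContDiff ℝ ∞ κ ∧
    (∀ t, κ t ∈ Icc (0 : ℝ) 1) ∧ (∀ t, |t| ≤ r / 4 → κ t = 1) ∧ ∀ t, r / 2 ≤ |t| → κ t = 0 := by
  let f : ContDiffBump (0 : ℝ) := ⟨r / 4, r / 2, by linarith, by linarith⟩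
  refine ⟨f, f.contDiff, fun t => ⟨f.nonneg, f.le_one⟩, fun t ht => ?_, fun t ht => ?_⟩
  · apply f.one_of_mem_closedBall
    rw [mem_closedBall_zero_iff]
    exact ht
  · apply f.zero_of_le_dist
    rw [dist_zero_right]
    exact ht

private theorem mulc_one_L5 (m : ℝ × ℝ) (k : ℝ) : mulc m (k, 0) = k • m := by
  refine Prod.ext ?_ ?_
  · change m.1 * k - m.2 * 0 = k * m.1
    ring
  · change m.1 * 0 + m.2 * k = k * m.2
    ring

private theorem mulc_sub_L5 (m v w : ℝ × ℝ) : mulc m (v - w) = mulc m v - mulc m w := by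
  refine Prod.ext ?_ ?_
  · change m.1 * (v.1 - w.1) - m.2 * (v.2 - w.2) = (m.1 * v.1 - m.2 * v.2) - (m.1 * w.1 - m.2 * w.2)
    ring
  · change m.1 * (v.2 - w.2) + m.2 * (v.1 - w.1) = (m.1 * v.2 + m.2 * v.1) - (m.1 * w.2 + m.2 * w.1)
    ring

/-- the parameter moving on the circle -/
private noncomputable def vq_L5 (m : ℝ × ℝ) (q : ℝ) : ℝ × ℝ :=
  mulc m (Real.cos (2 * Real.pi * q), Real.sin (2 * Real.pi * q))

private theorem vq_smooth_L5 (m : ℝ × ℝ) : ContDiff ℝ ∞ (vq_L5 m) := by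
  have hc : ContDiff ℝ ∞ (fun q : ℝ => Real.cos (2 * Real.pi * q)) :=
    Real.contDiff_cos.comp (contDiff_const.mul contDiff_id)
  have hs : ContDiff ℝ ∞ (fun q : ℝ => Real.sin (2 * Real.pi * q)) :=
    Real.contDiff_sin.comp (contDiff_const.mul contDiff_id)
  exact ((contDiff_const.mul hc).sub (contDiff_const.mul hs)).prodMk
    ((contDiff_const.mul hs).add (contDiff_const.mul hc))

private theorem vq_zero_L5 (m : ℝ × ℝ) : vq_L5 m 0 = m := by
  simp [vq_L5, mulc_one_L5]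

private theorem vq_one_L5 (m : ℝ × ℝ) : vq_L5 m 1 = m := by
  simp [vq_L5, mulc_one_L5]

private theorem vq_ne_L5 {m : ℝ × ℝ} (hm : m ≠ 0) (q : ℝ) : vq_L5 m q ≠ 0 := by
  intro h
  have h1 := mulc_inj_L5 hm h
  have h2 : Real.cos (2 * Real.pi * q) = 0 := congrArg Prod.fst h1
  have h3 : Real.sin (2 * Real.pi * q) = 0 := congrArg Prod.snd h1
  have h4 := Real.cos_sq_add_sin_sq (2 * Real.pi * q)
  rw [h2, h3] at h4
  norm_num at h4

theorem m_L5 (hXL : StXL) : StL5 := by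
  intro D c u₀ q₀ a b hH hX hI ham hbm
  have hsm := hH.smooth
  have hu0 := hX.memu
  have hq0 := hX.memq
  have hu0' : u₀ ∈ Icc (0 : ℝ) 1 := ⟨hu0.1.le, hu0.2.le⟩
  have hq0' : q₀ ∈ Icc (0 : ℝ) 1 := ⟨hq0.1.le, hq0.2.le⟩
  have hab := hX.lt
  have hD0 := D.h₀
  have hD1 := D.h₁
  have hD2 := D.h₂
  set v₀ : ℝ × ℝ := (u₀, q₀) with hv₀
  set A := A_L5 c u₀ q₀ a b with hA
  set cc := cc_L5 c u₀ q₀ a b with hcc
  set c0 := c0_L5 c u₀ q₀ a with hc0
  have hc00 : c0 0 = c (u₀, q₀, a) := by simp [hc0, c0_L5]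
  have hcceq : cc (v₀, 0) = c0 0 := by
    rw [hc00, hX.eq]
    simp [hcc, cc_L5, hv₀]
  have hccs := cc_smooth_L5 hsm u₀ q₀ a b
  have hc0s := c0_smooth_L5 hsm u₀ q₀ a
  have hinj := inj_L5 hsm hX.trans
  have haU : c (u₀, q₀, a) ∈ D.U := hH.inU _ hu0' _ hq0' _ ⟨ham.le, by linarith⟩
  obtain ⟨η₁, hη₁, hI1, hM1, -, hT1⟩ := m_CHT cc c0 v₀ D.U
    (Eventually.of_forall fun z => hccs.contDiffAt) (Eventually.of_forall fun t => hc0s.contDiffAt)
    hcceq hinj D.openU (by rw [hc00]; exact haU)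
  -- the constant `η₀`
  obtain ⟨η₀, hη₀, h01, h02, h03, h04⟩ : ∃ η₀ > 0, η₀ ≤ η₁ ∧ 3 * η₀ ≤ b - a ∧
      2 * η₀ ≤ a - D.m₀ ∧ 2 * η₀ ≤ D.m₁ - b := by
    obtain ⟨r, hr, q1, q2, q3, q4, -, -⟩ := min6_L5 hη₁ (show 0 < (b - a) / 3 by linarith only [hab])
      (show 0 < (a - D.m₀) / 2 by linarith only [ham]) (show 0 < (D.m₁ - b) / 2 by linarith only [hbm])
      hη₁ hη₁
    exact ⟨r, hr, q1, by linarith only [q2], by linarith only [q3], by linarith only [q4]⟩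
  set S : Set ℝ := Icc D.s₀ D.s₁ ∩ {s | η₀ ≤ |s - a| ∧ η₀ ≤ |s - b|} with hS
  have hSc : IsCompact S := by
    apply isCompact_Icc.inter_right
    exact (isClosed_le continuous_const (continuous_abs.comp (continuous_id.sub continuous_const))).inter
      (isClosed_le continuous_const (continuous_abs.comp (continuous_id.sub continuous_const)))
  have hcont : Continuous (fun s : ℝ => c (u₀, q₀, s)) :=
    hsm.continuous.comp (continuous_const.prodMk (continuous_const.prodMk continuous_id))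
  set O : Set R4 := D.U \ ((fun s : ℝ => c (u₀, q₀, s)) '' S) with hO
  have hOo : IsOpen O := D.openU.sdiff (hSc.image hcont).isClosed
  have hOa : c (u₀, q₀, a) ∈ O := by
    refine ⟨haU, ?_⟩
    rintro ⟨s, ⟨hs, hsa, hsb⟩, h⟩
    have h' : c (u₀, q₀, s) = c (u₀, q₀, a) := h
    rcases lt_trichotomy s a with h1 | h1 | h1
    · have := hX.uniq s hs a ⟨hX.mema.1.le, hX.mema.2.le⟩ h1 h'
      linarith [this.1]
    · rw [h1] at hsa
      simp at hsa
      linarith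
    · have := hX.uniq a ⟨hX.mema.1.le, hX.mema.2.le⟩ s hs h1 h'.symm
      rw [this.2] at hsb
      simp at hsb
      linarith
  obtain ⟨η₂, hη₂, -, hM2, -, hT2⟩ := m_CHT cc c0 v₀ O
    (Eventually.of_forall fun z => hccs.contDiffAt) (Eventually.of_forall fun t => hc0s.contDiffAt)
    hcceq hinj hOo (by rw [hc00]; exact hOa)
  set η := min η₀ η₂ with hη
  have hηpos : 0 < η := lt_min hη₀ hη₂
  have hη0 : η ≤ η₀ := min_le_left _ _
  have hη2 : η ≤ η₂ := min_le_right _ _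
  set ε := η / 40 with hε
  have hεpos : 0 < ε := by rw [hε]; linarith
  obtain ⟨κ₁, k1s, k1i, k1o, k1z⟩ := bump_L5 hη₀
  obtain ⟨κ₂, k2s, k2i, k2o, k2z⟩ := bump_L5 hεpos
  obtain ⟨δ, hδ, hXl⟩ := hXL D c u₀ q₀ a b κ₁ κ₂ (η₀ / 2) hH hX hI k1s k2s (by
    have h1 : ∀ᶠ t in 𝓝 (0 : ℝ), |t| < min (η₀ / 4) (ε / 4) := by
      have : Tendsto (fun t : ℝ => |t|) (𝓝 0) (𝓝 |0|) := continuous_abs.tendsto 0
      rw [abs_zero] at this
      exact this.eventually_lt_const (lt_min (by linarith) (by linarith))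
    filter_upwards [h1] with t ht
    exact ⟨k1o t (ht.le.trans (min_le_left _ _)), k2o t (ht.le.trans (min_le_right _ _))⟩)
    (by linarith) k1z
  -- the radius
  obtain ⟨r₀, hr₀, hr1, hr2, hr3, hr4, hr5, hr6⟩ : ∃ r₀ > 0, 2 * r₀ ≤ δ ∧ 20 * r₀ ≤ η ∧
      2 * r₀ ≤ u₀ ∧ 2 * r₀ ≤ 1 - u₀ ∧ 2 * r₀ ≤ q₀ ∧ 2 * r₀ ≤ 1 - q₀ := by
    have hu1 := hu0.1
    have hu2 := hu0.2
    have hq1 := hq0.1
    have hq2 := hq0.2
    obtain ⟨r₀, hr₀, q1, q2, q3, q4, q5, q6⟩ := min6_L5 (half_pos hδ)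
      (show 0 < η / 20 by linarith only [hηpos]) (half_pos hu1)
      (show 0 < (1 - u₀) / 2 by linarith only [hu2]) (half_pos hq1)
      (show 0 < (1 - q₀) / 2 by linarith only [hq2])
    exact ⟨r₀, hr₀, by linarith only [q1], by linarith only [q2], by linarith only [q3],
      by linarith only [q4], by linarith only [q5], by linarith only [q6]⟩
  refine ⟨r₀, hr₀, fun m hm hmr => ?_⟩
  have hmδ : ‖m‖ < δ := by linarith [norm_nonneg m]
  have hvn : ∀ q, ‖vq_L5 m q‖ < 2 * r₀ := fun q => by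
    have := norm_mulc_L5 m (2 * Real.pi * q)
    have h : ‖vq_L5 m q‖ ≤ 2 * ‖m‖ := this
    linarith
  have hvδ : ∀ q, ‖vq_L5 m q‖ < δ := fun q => (hvn q).trans_le hr1
  set x : ℝ → ℝ → ℝ → R4 := fun l q s => xl c u₀ q₀ a b κ₁ κ₂ l m (vq_L5 m q) s with hx
  set κ : ℝ → ℝ := fun s => κ₂ (ε * (s - 1 / 2)) with hκ
  -- explicit forms
  have hx1 : ∀ q s, x 1 q s = c (u₀, q₀, s) - κ₁ (s - b) • A (m + κ₂ (s - b) • (vq_L5 m q - m)) := by
    intro q s
    simp only [hx, xl, lw_eq_L5, sub_self, zero_smul, zero_add, one_smul]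
    rfl
  have hx10 : ∀ s, x 1 0 s = c (u₀, q₀, s) - κ₁ (s - b) • A m := by
    intro s
    rw [hx1, vq_zero_L5, sub_self, smul_zero, add_zero]
  have hxs : ContDiff ℝ ∞ (fun z : (ℝ × ℝ) × ℝ => x z.1.1 z.1.2 z.2) := by
    have p1 : ContDiff ℝ ∞ (fun z : (ℝ × ℝ) × ℝ => z.1.1) := contDiff_fst.comp contDiff_fst
    have p2 : ContDiff ℝ ∞ (fun z : (ℝ × ℝ) × ℝ => z.1.2) := contDiff_snd.comp contDiff_fst
    have p3 : ContDiff ℝ ∞ (fun z : (ℝ × ℝ) × ℝ => z.2) := contDiff_snd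
    have pv : ContDiff ℝ ∞ (fun z : (ℝ × ℝ) × ℝ => vq_L5 m z.1.2) := (vq_smooth_L5 m).comp p2
    have t1 : ContDiff ℝ ∞ (fun z : (ℝ × ℝ) × ℝ =>
        c (u₀ + (vq_L5 m z.1.2).1, q₀ + (vq_L5 m z.1.2).2, z.2)) :=
      hsm.comp ((contDiff_const.add (contDiff_fst.comp pv)).prodMk
        ((contDiff_const.add (contDiff_snd.comp pv)).prodMk p3))
    have t2 : ContDiff ℝ ∞ (fun z : (ℝ × ℝ) × ℝ => c (u₀, q₀, z.2)) :=
      hsm.comp (contDiff_const.prodMk (contDiff_const.prodMk p3))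
    have t3 : ContDiff ℝ ∞ (fun z : (ℝ × ℝ) × ℝ => κ₁ (z.2 - b)) :=
      k1s.comp (p3.sub contDiff_const)
    have t4 : ContDiff ℝ ∞ (fun z : (ℝ × ℝ) × ℝ => κ₂ (z.2 - b)) :=
      k2s.comp (p3.sub contDiff_const)
    have t5 : ContDiff ℝ ∞ (fun z : (ℝ × ℝ) × ℝ =>
        A (m + κ₂ (z.2 - b) • (vq_L5 m z.1.2 - m))) :=
      A.contDiff.comp (contDiff_const.add (t4.smul (pv.sub contDiff_const)))
    have t6 := ((contDiff_const (c := (1 : ℝ))).sub p1).smul t1 |>.add (p1.smul (t2.sub (t3.smul t5)))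
    refine (congrArg (ContDiff ℝ ∞) (funext fun z => ?_)).mpr t6
    simp only [hx, xl, lw_eq_L5]
    rfl
  have hfroz : ∀ l, ∀ q : ℝ, ∀ s, (s ≤ D.m₀ ∨ D.m₁ ≤ s) → x l q s = D.c s := by
    intro l q s hs
    have hv := hvn q
    have hv1 : |(vq_L5 m q).1| < 2 * r₀ := (norm_fst_le (vq_L5 m q)).trans_lt hv
    have hv2 : |(vq_L5 m q).2| < 2 * r₀ := (norm_snd_le (vq_L5 m q)).trans_lt hv
    have hv1' := abs_lt.1 hv1
    have hv2' := abs_lt.1 hv2
    have e1 : c (u₀ + (vq_L5 m q).1, q₀ + (vq_L5 m q).2, s) = D.c s :=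
      hH.froz _ ⟨by linarith, by linarith⟩ _ ⟨by linarith, by linarith⟩ s hs
    have e2 : c (u₀, q₀, s) = D.c s := hH.froz _ hu0' _ hq0' s hs
    have e3 : κ₁ (s - b) = 0 := by
      apply k1z
      rcases hs with hs | hs
      · rw [abs_of_neg (by linarith)]
        linarith
      · rw [abs_of_pos (by linarith)]
        linarith
    simp only [hx, xl]
    rw [e1, e2, e3, zero_smul, sub_zero, ← add_smul]
    simp
  have hall : ∀ l ∈ Icc (0 : ℝ) 1, ∀ q ∈ Icc (0 : ℝ) 1,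
      (∀ s, (s ≤ D.m₀ ∨ D.m₁ ≤ s) → x l q s = D.c s) ∧
      (∀ s ∈ Icc D.m₀ D.m₁, x l q s ∈ D.U) ∧ InjOn (x l q) (Icc D.s₀ D.s₁) ∧
      ∀ s ∈ Icc D.s₀ D.s₁, deriv (x l q) s ≠ 0 := by
    intro l hl q _
    obtain ⟨g1, g2, g3⟩ := hXl l hl m (vq_L5 m q) hmδ (hvδ q) (vq_ne_L5 hm q)
    exact ⟨hfroz l q, g3, g2, g1⟩
  have hloop : ∀ l, x l 1 = x l 0 := by
    intro l
    simp only [hx, vq_zero_L5, vq_one_L5]
  have hmη : ‖m‖ < η / 20 := by linarith
  have hT2' := hT2 m ε ε hm (by linarith) hεpos (by rw [hε]; linarith) hεpos (by rw [hε]; linarith)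
  have hT1' := hT1 m ε ε hm (by linarith) hεpos (by rw [hε]; linarith) hεpos (by rw [hε]; linarith)
  obtain ⟨V1, V2, V3, V4⟩ := m_CHV cc c0 v₀ m ε ε η₁ hm hεpos hεpos hcceq
  have hrange : ∀ s ∈ Icc (-1 : ℝ) 2, |ε * (s - 1 / 2)| ≤ η₀ / 20 := by
    intro s hs
    rw [abs_mul, abs_of_pos hεpos]
    have : |s - 1 / 2| ≤ 3 / 2 := abs_le.2 ⟨by linarith [hs.1], by linarith [hs.2]⟩
    have h2 : ε * |s - 1 / 2| ≤ ε * (3 / 2) := mul_le_mul_of_nonneg_left this hεpos.le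
    rw [hε] at h2 ⊢
    linarith
  have k1a : ∀ t, |t| ≤ η₀ → κ₁ (a + t - b) = 0 := by
    intro t ht
    apply k1z
    have := abs_le.1 ht
    rw [abs_of_neg (by linarith)]
    linarith
  refine ⟨ε, ε, κ, cht cc c0 v₀ m ε ε, x, hxs, hall, hloop, ?_, ?_⟩
  · intro q s
    simp only [hx, xl, sub_zero, one_smul, zero_smul, add_zero]
    rfl
  · have h1mem : (1 : ℝ) ∈ Icc (0 : ℝ) 1 := ⟨zero_le_one, le_rfl⟩
    refine
      { smooth := ?_
        froz := fun q hq s hs => hfroz 1 q s hs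
        inU := fun q hq => (hall 1 h1mem q hq).2.1
        imm := fun q hq => (hall 1 h1mem q hq).2.2.2
        inj := fun q hq => (hall 1 h1mem q hq).2.2.1
        loop := hloop 1
        εpos := hεpos
        νpos := hεpos
        ha := by rw [hε]; linarith
        hab := by rw [hε]; linarith
        hb := by rw [hε]; linarith
        κs := k2s.comp (contDiff_const.mul (contDiff_id.sub contDiff_const))
        κ01 := fun s => k2i _
        κh := ?_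
        κ0 := ?_
        emb := hT2'.1
        TU := fun p hp => (hM2 (hT2'.2 hp)).1
        c0 := ?_
        c1 := ?_
        cw := ?_
        only := ?_
        const := ?_ }
    · exact hxs.comp ((contDiff_const.prodMk contDiff_fst).prodMk contDiff_snd)
    · simp only [hκ, sub_self, mul_zero]
      exact k2o 0 (by rw [abs_zero]; linarith)
    · intro s hs
      apply k2z
      rw [abs_mul, abs_of_pos hεpos]
      have : 1 / 2 ≤ |s - 1 / 2| := by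
        rcases hs with hs | hs
        · rw [abs_of_neg (by linarith)]
          linarith
        · rw [abs_of_pos (by linarith)]
          linarith
      have h3 := mul_le_mul_of_nonneg_left this hεpos.le
      linarith only [h3]
    · intro s hs
      rw [V1, hx10, k1a _ ((hrange s hs).trans (by linarith)), zero_smul, sub_zero]
      rfl
    · intro s hs
      rw [V2, hx10, show b + ε * (s - 1 / 2) - b = ε * (s - 1 / 2) by ring,
        k1o _ ((hrange s hs).trans (by linarith)), one_smul]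
      simp only [hcc, cc_L5, hv₀, add_sub_cancel_left]
      rfl
    · intro q _ s hs
      rw [V3, hx1, show b + ε * (s - 1 / 2) - b = ε * (s - 1 / 2) by ring,
        k1o _ ((hrange s hs).trans (by linarith)), one_smul]
      have e : v₀ + m + κ s • (circ v₀ m q - (v₀ + m)) - (u₀, q₀) =
          m + κ₂ (ε * (s - 1 / 2)) • (vq_L5 m q - m) := by
        have e1 : circ v₀ m q - (v₀ + m) = vq_L5 m q - m := by
          simp only [circ, vq_L5]
          abel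
        rw [e1, ← hv₀]
        simp only [hκ]
        abel
      simp only [hcc, cc_L5, e]
      rfl
    · intro p hp s hs hps
      by_cases h1 : |s - a| ≤ η₀
      · left
        have hk : κ₁ (s - b) = 0 := by
          have := k1a (s - a) h1
          rwa [show a + (s - a) - b = s - b by ring] at this
        rw [hx10, hk, zero_smul, sub_zero] at hps
        have hps' : cht cc c0 v₀ m ε ε p = c0 (s - a) := by
          rw [hps]
          simp [hc0, c0_L5]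
        obtain ⟨g1, g2⟩ := (V4 hI1 hT1'.2 p hp).1 (s - a) (h1.trans h01) hη₁.le hps'
        exact ⟨congrArg Prod.snd g1, by linarith⟩
      · by_cases h2 : |s - b| ≤ η₀
        · right
          set β := s - b with hβ
          have hz : ((v₀ + κ₁ β • m, β, 0) : (ℝ × ℝ) × ℝ × ℝ) ∈ box v₀ η₁ := by
            have e : ((v₀ + κ₁ β • m, β, 0) : (ℝ × ℝ) × ℝ × ℝ) - (v₀, 0, 0) =
                ((κ₁ β • m, β, 0) : (ℝ × ℝ) × ℝ × ℝ) := by simp
            change ‖((v₀ + κ₁ β • m, β, 0) : (ℝ × ℝ) × ℝ × ℝ) - (v₀, 0, 0)‖ ≤ η₁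
            rw [e, Prod.norm_def]
            refine max_le ?_ ?_
            · change ‖κ₁ β • m‖ ≤ η₁
              rw [norm_smul, Real.norm_eq_abs, abs_of_nonneg (k1i β).1]
              have h3 := mul_le_mul_of_nonneg_right (k1i β).2 (norm_nonneg m)
              rw [one_mul] at h3
              linarith only [h3, hmη, hη0, h01, hηpos]
            · rw [Prod.norm_def]
              refine max_le ?_ ?_
              · exact h2.trans h01
              · simp only [norm_zero]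
                exact hη₁.le
          have hy : yc cc c0 (lam v₀ m ε ε p) = yc cc c0 (v₀ + κ₁ β • m, β, 0) := by
            change cht cc c0 v₀ m ε ε p = _
            rw [hps, hx10]
            simp only [yc, sub_self, add_zero, hcc, cc_L5, hv₀, add_sub_cancel_left, map_smul]
            rw [show b + β = s by rw [hβ]; ring]
          have hl := hI1 (hT1'.2 hp) hz hy
          have l1 : v₀ + mulc m (p.2.1, p.2.2.im) = v₀ + κ₁ β • m := congrArg Prod.fst hl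
          have l2 : ε * ((p.1 - 1 / 2) * p.2.1 + p.2.2.re) = β :=
            congrArg (fun z : (ℝ × ℝ) × ℝ × ℝ => z.2.1) hl
          have l3 : ε * ((p.1 - 1 / 2) * (1 - p.2.1) - p.2.2.re) = 0 :=
            congrArg (fun z : (ℝ × ℝ) × ℝ × ℝ => z.2.2) hl
          have l1' : mulc m ((p.2.1, p.2.2.im) - (κ₁ β, 0)) = 0 := by
            rw [mulc_sub_L5, mulc_one_L5, add_left_cancel l1, sub_self]
          have l4 := mulc_inj_L5 hm l1'
          have ha' : p.2.1 = κ₁ β := sub_eq_zero.1 (congrArg Prod.fst l4)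
          have hh : p.2.2.im = 0 := by
            have : p.2.2.im - 0 = 0 := congrArg Prod.snd l4
            linarith
          have hX' : p.2.2.re = (p.1 - 1 / 2) * (1 - p.2.1) := by
            have := (mul_eq_zero.1 l3).resolve_left hεpos.ne'
            linarith
          have hβ' : β = ε * (p.1 - 1 / 2) := by
            rw [← l2, hX']
            ring
          have hκ1 : κ₁ β = 1 := by
            apply k1o
            rw [hβ']
            exact (hrange p.1 ⟨hp.1, hp.2.1⟩).trans (by linarith)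
          rw [hκ1] at ha'
          have hX0 : p.2.2.re = 0 := by rw [hX', ha']; ring
          refine ⟨Prod.ext ?_ (Complex.ext ?_ ?_), by linarith⟩
          · simpa [e1] using ha'
          · simpa [e1] using hX0
          · simpa [e1] using hh
        · exfalso
          have hO' := (hM2 (hT2'.2 hp)).2
          apply hO'
          refine ⟨s, ⟨hs, (not_le.1 h1).le, (not_le.1 h2).le⟩, ?_⟩
          have hk : κ₁ (s - b) = 0 := k1z _ (by linarith [not_le.1 h2])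
          rw [hx10, hk, zero_smul, sub_zero] at hps
          exact hps.symm
    · intro q _ s hs
      have hk : κ₂ (s - b) = 0 := by
        apply k2z
        rcases hs with hs | hs
        · rw [abs_of_neg (by linarith)]
          linarith
        · rw [abs_of_pos (by linarith)]
          linarith
      rw [hx10, hx1, hk, zero_smul, add_zero]

end Pool.Agent.Helper34.BI.H
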