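import Pool.Agent.Helper34.BI.H.StH5c
import Pool.Agent.Helper18.BI.M_IMP
import Pool.Agent.Helper27.BI.GAdd

/-!
# Project BI, stage 3, section 5: the push along the localized circle (module M5)
-/

set_option autoImplicit false

open Module Set Filter Topology
open scoped ContDiff Manifold
open Pool.Agent.Helper65.Barb Pool.Agent.Helper18.BI Pool.Agent.Helper27.BI
open Pool.Agent.Helper27.H (ArcD LIso LPush Fam2 Q2 SuppU thk seg StCH4 StFRAME StTHK)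
open Pool.Agent.Helper70.BI (I4 NearEq ld_iff ld_comp ld_dfam contDiff_dfam)

namespace Pool.Agent.Helper34.BI.H

namespace M5

theorem nsq_zero : nsq (0 : ℝ × ℂ) = 0 := by
  simp [nsq]

theorem warc_zero (κ : ℝ → ℝ) (s : ℝ) : warc κ 0 s = e1 := by
  unfold warc e1
  simp
  rfl

theorem warc_one (κ : ℝ → ℝ) (s : ℝ) : warc κ 1 s = e1 := by
  unfold warc e1
  simp
  rfl

theorem mem_ball4 {σ : ℝ} (h0 : -1 ≤ σ) (h1 : σ ≤ 2) : ((σ, e1) : R4) ∈ ball4 := by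
  refine ⟨h0, h1, ?_⟩
  unfold rsq nsq e1
  norm_num

section
variable {D : ArcD} {a b ε ν : ℝ} {κ : ℝ → ℝ} {T : R4 → R4} {y : ℝ → ℝ → R4}

theorem inU (h : Mod5 D a b ε ν κ T y) {q s : ℝ} (hq : q ∈ Icc (0 : ℝ) 1)
    (hs : s ∈ Ioo D.s₀ D.s₁) : y q s ∈ D.U := by
  by_cases h1 : s ≤ D.m₀ ∨ D.m₁ ≤ s
  · rw [h.froz q hq s h1]
    exact D.mem s hs
  · rw [not_or, not_le, not_le] at h1
    exact h.inU q hq s ⟨h1.1.le, h1.2.le⟩

/-- the image of the core under the pushed family -/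
theorem core (h : Mod5 D a b ε ν κ T y) {ρ : ℝ} {F G : DFam 𝓘(ℝ, R4) R4}
    (ff : ∀ t ∈ Icc (0 : ℝ) 1, ∀ x ∈ ctube 0 ρ, F.f (t, x) = x)
    (ft : ∀ t ∈ Icc (0 : ℝ) 1, ∀ (_ : Unit) (s : ℝ) (x : R3), nsq x ≤ ρ ^ 2 →
      F.f (t, (s, warc κ 0 s + x)) = (s, warc κ (step t) s + x))
    (goff : ∀ t x, x ∉ T '' ball4 → G.f (t, x) = x)
    (gimp : ∀ t x, G.f (t, x) = imp T ball4 (fun p => F.f (t, p)) x) {q s : ℝ}
    (hq : q ∈ Icc (0 : ℝ) 1) (hs : s ∈ Icc D.s₀ D.s₁) : G.f (q, y 0 s) = y (step q) s := by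
  have hρ : 0 ≤ ρ ^ 2 := sq_nonneg ρ
  have hst := step_mem q
  have hν := h.νpos
  by_cases hy : y 0 s ∈ T '' ball4
  · obtain ⟨p, hp, hpy⟩ := hy
    have hval : G.f (q, y 0 s) = T (F.f (q, p)) := by
      rw [gimp, ← hpy]
      exact (m_Imp R4 R4 𝓘(ℝ, R4) R4 T ball4 (fun p => F.f (q, p)) h.emb.2).1 p hp
    rcases h.only p hp s hs hpy with ⟨h1, h2⟩ | ⟨h1, h2⟩
    · have h3 : p ∈ ctube 0 ρ := by
        show nsq (p.2 - 0) ≤ ρ ^ 2
        rw [h1, sub_zero, nsq_zero]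
        exact hρ
      rw [hval, ff q hq p h3, hpy]
      symm
      apply h.const _ hst
      left
      have h4 : p.1 ≤ 2 := hp.2.1
      have h5 := h.hab
      have h6 := h.εpos
      rw [h2]
      nlinarith
    · have h3 := ft q hq () p.1 0 (by rw [nsq_zero]; exact hρ)
      rw [add_zero, add_zero, warc_zero] at h3
      have h4 : p = (p.1, e1) := by rw [← h1]
      rw [hval, h4, h3, h.cw (step q) hst p.1 ⟨hp.1, hp.2.1⟩, ← h2]
  · rw [goff q _ hy]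
    symm
    apply h.const _ hst
    by_contra h1
    rw [not_or, not_le, not_le] at h1
    obtain ⟨h1, h2⟩ := h1
    apply hy
    have e1' : b + ν * ((s - b) / ν + 1 / 2 - 1 / 2) = s := by
      field_simp
      ring
    have l1 : -(1 / 2) < (s - b) / ν := by
      rw [lt_div_iff₀ hν]
      linarith
    have l2 : (s - b) / ν < 1 / 2 := by
      rw [div_lt_iff₀ hν]
      linarith
    refine ⟨((s - b) / ν + 1 / 2, e1), mem_ball4 (by linarith) (by linarith), ?_⟩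
    rw [h.c1 _ ⟨by linarith, by linarith⟩, e1']

end

end M5

open M5 in
theorem m_M5 (hTPU : StTPU) (hCIRC : StCIRC) (hCh : StCH4) (hFr : StFRAME) (hTh : StTHK) :
    StM5 := by
  intro D a b ε ν κ T y h C hC
  have key := hTh Q2 D.s₀ D.m₀ D.m₁ D.s₁ D.U D.J D.c (fun a s => y a.2 s) D.h₀ D.h₁ D.h₂ D.openU
    D.emb D.smooth D.core
    (h.smooth.comp ((contDiff_snd.comp contDiff_fst).prodMk contDiff_snd))
    (fun a ha s hs => h.froz a.2 ha.2 s hs) (fun a ha s hs => h.inU a.2 ha.2 s hs)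
    (fun a ha => h.inj a.2 ha.2) (fun a ha s hs => h.imm a.2 ha.2 s hs)
  have hfam : Fam2 Q2 D.L D.V D.U (fun a => thk D.J D.c (y a.2)) := key.1
  have hval : ∀ q, ∀ s ∈ Icc D.s₀ D.s₁, thk D.J D.c (y q) (s, 0) = y q s := fun q s hs =>
    key.2.1 (0, q) s hs
  have m0 : (0 : ℝ) ∈ Icc (0 : ℝ) 1 := by simp
  have m1 : (1 : ℝ) ∈ Icc (0 : ℝ) 1 := by simp
  have m00 : ((0 : ℝ), (0 : ℝ)) ∈ Q2 := ⟨m0, m0⟩
  set J₀ : R4 → R4 := thk D.J D.c (y 0) with hJ₀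
  have hemb : EmbOn I4 J₀ D.L := hfam.emb (0, 0) m00
  have hcont : ∀ p ∈ D.L, ContinuousAt J₀ p := fun p hp =>
    (ld_iff.1 (hemb.1 p hp)).1.self_of_nhds.continuousAt
  obtain ⟨TP1, TP2⟩ := hTPU D.U D.L J₀ T D.openU D.isCompact_L hcont h.emb h.TU (by
    rintro p hp ⟨z, hz, hzp⟩
    obtain ⟨hz1, hz2⟩ := Pool.Agent.Helper27.H.eq_of_mem_seg hz
    rw [hz2, hJ₀, hval 0 _ hz1] at hzp
    rcases h.only p hp z.1 hz1 hzp.symm with h1 | h1
    · exact Or.inl h1.1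
    · exact Or.inr h1.1)
  obtain ⟨ρ₀, hρ₀, H⟩ := hCIRC κ h.κs h.κ01 h.κh h.κ0
  have hρ : 0 < ρ₀ / 2 := by linarith
  obtain ⟨⟨Θ, hΘ⟩, hTI⟩ := H (ρ₀ / 2) ⟨hρ, by linarith⟩
  obtain ⟨F', f0', f1', fs', ff', ft'⟩ := hTI Θ hΘ
  obtain ⟨F, f0, f1, fs, ff, ft⟩ := hΘ
  obtain ⟨N, hN, hLN, hNφ⟩ := TP2 (ρ₀ / 2) hρ
  set ρ : ℝ := ρ₀ / 2
  -- (b)
  obtain ⟨G', gs', goff', gimp'⟩ := TP1 F' fs'
  have hB : LIso D.U D.L J₀ J₀ (imp T ball4 barMap) (imp T ball4 Θ) := by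
    refine ⟨G', fun x => ?_, fun x => ?_, gs', N, hN, hLN, fun t p hp => ?_⟩
    · rw [gimp' 0 x, funext f0']
    · rw [gimp' 1 x, funext f1']
    · rw [gimp' t]
      refine hNφ _ (fun x hx => ?_) p hp
      rcases hx with hx | hx
      · exact ff' t x hx
      · have h1 : nsq (x.2 - e1) ≤ ρ ^ 2 := hx
        have h2 := ft' t () x.1 (x.2 - e1) h1
        simp only [add_sub_cancel] at h2
        exact h2
  -- (c)
  obtain ⟨G, gs, goff, gimp⟩ := TP1 F fs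
  have hcore : ∀ q ∈ Icc (0 : ℝ) 1, ∀ s ∈ Icc D.s₀ D.s₁, G.f (q, y 0 s) = y (step q) s :=
    fun q hq s hs => core h ff ft goff gimp hq hs
  have g0 : ∀ x, G.f (0, x) = x := by
    intro x
    by_cases hx : x ∈ T '' ball4
    · obtain ⟨p, hp, rfl⟩ := hx
      rw [gimp, (m_Imp R4 R4 𝓘(ℝ, R4) R4 T ball4 (fun p => F.f (0, p)) h.emb.2).1 p hp, f0]
    · exact goff 0 x hx
  have g1 : ∀ x, G.f (1, x) = imp T ball4 Θ x := by
    intro x
    rw [gimp, funext f1]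
  -- (d)
  have hPF : LPush D.U D.L (fun q p => G.f (q, J₀ p)) (imp T ball4 Θ) := by
    refine ⟨G.reparam step contDiff_step, fun x => ?_, fun x => ?_, gs.reparam _ _, univ,
      isOpen_univ, subset_univ _, fun t _ p _ => ?_⟩
    · change G.f (step 0, x) = x
      rw [step_zero, g0]
    · change G.f (step 1, x) = _
      rw [step_one, g1]
    · change G.f (step t, G.f (0, J₀ p)) = G.f (step t, J₀ p)
      rw [g0]
  -- (e)
  have hTc : IsClosed (T '' ball4) :=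
    (isCompact_ball4.image_of_continuousOn fun p hp =>
      (ld_iff.1 (h.emb.1 p hp)).1.self_of_nhds.continuousAt.continuousWithinAt).isClosed
  have hTU : T '' ball4 ⊆ D.U := by
    rintro _ ⟨p, hp, rfl⟩
    exact h.TU hp
  set V' : Set R4 := D.V ∩ interior (J₀ ⁻¹' (T '' ball4)ᶜ) with hV'
  have hV'o : IsOpen V' := D.isOpen_V.inter isOpen_interior
  have hend : ∀ s, s ∈ Icc D.s₀ D.s₁ → (s ≤ D.m₀ ∨ D.m₁ ≤ s) → D.c s ∉ D.U →
      ((s, 0) : R4) ∈ interior (J₀ ⁻¹' (T '' ball4)ᶜ) := by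
    intro s hs hm hc
    refine mem_interior_iff_mem_nhds.2 ((hcont _ (D.mem_L hs)).preimage_mem_nhds
      (hTc.isOpen_compl.mem_nhds fun h1 => hc ?_))
    have h2 := hTU h1
    rw [hJ₀, hval 0 s hs, h.froz 0 m0 s hm] at h2
    exact h2
  have hV0 : ((D.s₀, 0) : R4) ∈ V' :=
    ⟨D.mem_V₀, hend _ ⟨le_rfl, D.le₀₁⟩ (Or.inl D.h₀.le) D.off₀⟩
  have hV1 : ((D.s₁, 0) : R4) ∈ V' :=
    ⟨D.mem_V₁, hend _ ⟨D.le₀₁, le_rfl⟩ (Or.inr D.h₂.le) D.off₁⟩
  have hVoff : ∀ p ∈ V', J₀ p ∉ T '' ball4 := by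
    intro p hp
    have h1 : p ∈ J₀ ⁻¹' (T '' ball4)ᶜ := interior_subset hp.2
    exact h1
  have hIoo : ∀ p ∈ D.L, p ∉ V' → p.1 ∈ Ioo D.s₀ D.s₁ ∧ p = (p.1, 0) := by
    intro p hp hpV
    obtain ⟨⟨h1, h2⟩, h3⟩ := Pool.Agent.Helper27.H.eq_of_mem_seg hp
    refine ⟨⟨lt_of_le_of_ne h1 fun e => hpV ?_, lt_of_le_of_ne h2 fun e => hpV ?_⟩, h3⟩
    · rw [h3, ← e]
      exact hV0
    · rw [h3, e]
      exact hV1
  have famF : Fam2 Q2 D.L V' D.U (fun a p => G.f (a.2, J₀ p)) := by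
    refine ⟨fun a _ p hp => ?_, fun a _ => ⟨fun p hp => ?_, fun p hp p' hp' he => ?_⟩,
      fun a _ a' _ p hp => ?_, fun a ha p hp hpV => ?_⟩
    · have h1 := (ld_iff.1 (hemb.1 p hp)).1
      have h3 : ContinuousAt (fun z : (ℝ × ℝ) × R4 => z.2) (a, p) := continuousAt_snd
      filter_upwards [h3.eventually h1] with z e1
      have e2 : ContDiffAt ℝ ∞ (fun z : (ℝ × ℝ) × R4 => J₀ z.2) z := e1.comp z contDiffAt_snd
      have e3 : ContDiffAt ℝ ∞ (fun z : (ℝ × ℝ) × R4 => (z.1.2, J₀ z.2)) z :=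
        (contDiff_snd.comp contDiff_fst).contDiffAt.prodMk e2
      exact ContDiffAt.comp z (contDiff_dfam G).contDiffAt e3
    · exact ld_comp (F := fun x => G.f (a.2, x)) (m := J₀) (hemb.1 p hp) (ld_dfam G a.2 _)
    · apply hemb.2 hp hp'
      have h1 := congrArg (fun x => G.g (a.2, x)) he
      simpa only [G.gf] using h1
    · rw [goff _ _ (hVoff p hp), goff _ _ (hVoff p hp)]
    · obtain ⟨h1, h2⟩ := hIoo p hp hpV
      rw [h2, hJ₀, hval 0 _ ⟨h1.1.le, h1.2.le⟩, hcore a.2 ha.2 _ ⟨h1.1.le, h1.2.le⟩]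
      exact inU h (step_mem _) h1
  have famJ : Fam2 Q2 D.L V' D.U (fun a => thk D.J D.c (y (step a.2))) := by
    have h1 := hfam.comp (Q' := Q2) (θ := fun a => (a.1, step a.2))
      (contDiff_fst.prodMk (contDiff_step.comp contDiff_snd))
      (fun a ha => ⟨ha.1, step_mem a.2⟩)
    refine h1.mono subset_rfl subset_rfl inter_subset_left subset_rfl fun a ha p hp _ hpV => ?_
    obtain ⟨h1, h2⟩ := hIoo p hp hpV
    change thk D.J D.c (y (step a.2)) p ∈ D.U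
    rw [h2, hval _ _ ⟨h1.1.le, h1.2.le⟩]
    exact inU h (step_mem _) h1
  obtain ⟨C', hC'⟩ := Pool.Agent.Helper27.H.exists_lpush1 hCh D.isCompact_L hV'o D.openU
    (J := fun q => thk D.J D.c (y (step q))) famJ
  have e00 : thk D.J D.c (y (step 0)) = J₀ := by rw [step_zero]
  have e01 : thk D.J D.c (y (step 1)) = J₀ := by rw [step_one, h.loop]
  have hN1 : ∀ p ∈ N, G.f (1, J₀ p) = J₀ p := by
    intro p hp
    rw [gimp]
    refine hNφ _ (fun x hx => ?_) p hp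
    rcases hx with hx | hx
    · exact ff 1 m1 x hx
    · have h1 : nsq (x.2 - e1) ≤ ρ ^ 2 := hx
      have h2 := ft 1 m1 () x.1 (x.2 - e1) h1
      simp only [step_one, warc_zero, warc_one, add_sub_cancel] at h2
      exact h2
  have hfr := hFr D V' (fun q p => G.f (q, J₀ p)) (fun q => thk D.J D.c (y (step q)))
    (imp T ball4 Θ) C' hV'o hV0 hV1 famF famJ
    (fun q hq s hs => by
      rw [hJ₀, hval _ _ hs, hval _ _ hs, hcore q hq s hs])
    (fun p _ => by rw [g0, e00])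
    (fun s hs => by
      rw [g0, hJ₀, hval 0 s ⟨hs.1.le, hs.2.le⟩]
      exact inU h m0 hs)
    ⟨univ, isOpen_univ, subset_univ _, fun p _ => by
      change G.f (0, J₀ p) = thk D.J D.c (y (step 0)) p
      rw [g0, e00]⟩
    ⟨N, hN, hLN, fun p hp => by
      change G.f (1, J₀ p) = thk D.J D.c (y (step 1)) p
      rw [hN1 p hp, e01]⟩ hPF hC'
  have hfr' : LIso D.U D.L J₀ J₀ (imp T ball4 Θ) C' := by
    refine hfr.congr ⟨univ, isOpen_univ, subset_univ _, fun p _ => ?_⟩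
      ⟨N, hN, hLN, fun p hp => ?_⟩
    · exact g0 (J₀ p)
    · exact hN1 p hp
  have hrep := Pool.Agent.Helper27.H.push_reparam hCh D.isCompact_L D.isOpen_V D.openU
    (J := fun q => thk D.J D.c (y q)) hfam contDiff_step (fun q _ => step_mem q) step_zero
    step_one hC hC'
  have hrep' : LIso D.U D.L J₀ J₀ C C' := by
    have e1 : thk D.J D.c (y 1) = J₀ := by rw [h.loop]
    change LIso D.U D.L J₀ (thk D.J D.c (y 1)) C C' at hrep
    rwa [e1] at hrep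
  exact hB.trans (hfr'.trans hrep'.symm)

end Pool.Agent.Helper34.BI.H
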