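import Pool.Agent.Helper34.BI.H.StH5c

/-!
# Project BI, stage 3, module OPA
-/

set_option autoImplicit false

open Module Set Filter Topology
open scoped ContDiff Manifold
open Pool.Agent.Helper65.Barb Pool.Agent.Helper18.BI

namespace Pool.Agent.Helper34.BI.H

namespace OPA

variable {A : Type} [NormedAddCommGroup A] [NormedSpace ℝ A] [FiniteDimensional ℝ A]

lemma hasDerivAt_arc {x : A × ℝ → R4} (hx : ContDiff ℝ ∞ x) (a : A) (s : ℝ) :
    HasDerivAt (fun r => x (a, r)) (fderiv ℝ x (a, s) (0, 1)) s := by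
  have l : HasDerivAt (fun r : ℝ => ((a, r) : A × ℝ)) (0, 1) s :=
    (hasDerivAt_const s a).prodMk (hasDerivAt_id s)
  exact HasFDerivAt.comp_hasDerivAt_of_eq s ((hx.differentiable (by simp) (a, s)).hasFDerivAt)
    l rfl

lemma continuous_arc {x : A × ℝ → R4} (hx : ContDiff ℝ ∞ x) :
    Continuous (fun z : A × ℝ => fderiv ℝ x z (0, 1)) :=
  (hx.continuous_fderiv (by simp)).clm_apply continuous_const

/-- no double points near an immersed point -/
lemma near_diag {x : A × ℝ → R4} (hx : ContDiff ℝ ∞ x) {a : A} {s : ℝ}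
    (hne : fderiv ℝ x (a, s) (0, 1) ≠ 0) :
    ∀ᶠ z : A × ℝ × ℝ in 𝓝 (a, s, s), x (z.1, z.2.1) = x (z.1, z.2.2) → z.2.1 = z.2.2 := by
  obtain ⟨f, hf⟩ := SeparatingDual.exists_ne_zero (R := ℝ) hne
  have hcont : Continuous (fun z : A × ℝ => f (fderiv ℝ x z (0, 1))) :=
    f.continuous.comp (continuous_arc hx)
  have hop : IsOpen {z : A × ℝ | f (fderiv ℝ x z (0, 1)) ≠ 0} :=
    isOpen_ne_fun hcont continuous_const
  obtain ⟨r, hr, hball⟩ := Metric.isOpen_iff.1 hop (a, s) hf
  have key : ∀ a' s' t', dist a' a < r → dist s' s < r → dist t' s < r → s' < t' →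
      x (a', s') ≠ x (a', t') := by
    intro a' s' t' h1 h2 h3 hlt heq
    have hh : ∀ c, HasDerivAt (fun c => f (x (a', c))) (f (fderiv ℝ x (a', c) (0, 1))) c :=
      fun c => f.hasFDerivAt.comp_hasDerivAt c (hasDerivAt_arc hx a' c)
    obtain ⟨c, hc, hc0⟩ := exists_deriv_eq_zero (f := fun c => f (x (a', c))) hlt
      (fun c _ => (hh c).continuousAt.continuousWithinAt) (by simp only [heq])
    rw [(hh c).deriv] at hc0
    refine hball (?_ : (a', c) ∈ Metric.ball (a, s) r) hc0
    rw [Metric.mem_ball, Prod.dist_eq, max_lt_iff]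
    refine ⟨h1, ?_⟩
    simp only
    rw [Real.dist_eq, abs_lt] at h2 h3 ⊢
    exact ⟨by linarith [hc.1], by linarith [hc.2]⟩
  filter_upwards [Metric.ball_mem_nhds ((a, s, s) : A × ℝ × ℝ) hr] with z hz he
  obtain ⟨a', s', t'⟩ := z
  rw [Metric.mem_ball, Prod.dist_eq, Prod.dist_eq, max_lt_iff, max_lt_iff] at hz
  obtain ⟨h1, h2, h3⟩ := hz
  simp only at h1 h2 h3 he
  by_contra hcon
  rcases lt_or_gt_of_ne hcon with h | h
  · exact key a' s' t' h1 h2 h3 h he
  · exact key a' t' s' h1 h3 h2 h he.symm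

end OPA

open OPA

theorem m_OPA : StOPA := by
  intro A _ _ _ x a₀ s₀ s₁ bad hx himm hdbl
  have hder : ∀ a s, deriv (fun s => x (a, s)) s = fderiv ℝ x (a, s) (0, 1) := fun a s =>
    (hasDerivAt_arc hx a s).deriv
  simp only [hder] at himm ⊢
  -- immersions
  have h1 : ∀ᶠ a in 𝓝 a₀, ∀ s ∈ Icc s₀ s₁, fderiv ℝ x (a, s) (0, 1) ≠ 0 := by
    apply isCompact_Icc.eventually_forall_of_forall_eventually
    intro s hs
    have hop : IsOpen {z : A × ℝ | fderiv ℝ x z (0, 1) ≠ 0} :=
      isOpen_ne_fun (continuous_arc hx) continuous_const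
    exact hop.mem_nhds (himm s hs)
  -- double points
  have h2 : ∀ᶠ a in 𝓝 a₀, ∀ z ∈ Icc s₀ s₁ ×ˢ Icc s₀ s₁, x (a, z.1) = x (a, z.2) →
      z.1 = z.2 ∨ bad a := by
    apply (isCompact_Icc.prod isCompact_Icc).eventually_forall_of_forall_eventually
    rintro ⟨s, t⟩ ⟨hs, ht⟩
    simp only at hs ht
    by_cases he : x (a₀, s) = x (a₀, t)
    · rcases lt_trichotomy s t with h | h | h
      · filter_upwards [hdbl s hs t ht h he] with z hz h'
        exact Or.inr (hz h')
      · subst h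
        filter_upwards [near_diag hx (himm s hs)] with z hz h'
        exact Or.inl (hz h')
      · have h3 := hdbl t ht s hs h he.symm
        have hc : Continuous (fun z : A × ℝ × ℝ => ((z.1, z.2.2, z.2.1) : A × ℝ × ℝ)) := by
          fun_prop
        have h4 := (hc.tendsto (a₀, s, t)).eventually h3
        filter_upwards [h4] with z hz h'
        exact Or.inr (hz h'.symm)
    · have hop : IsOpen {z : A × ℝ × ℝ | x (z.1, z.2.1) ≠ x (z.1, z.2.2)} :=
        isOpen_ne_fun (hx.continuous.comp (by fun_prop)) (hx.continuous.comp (by fun_prop))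
      filter_upwards [hop.mem_nhds he] with z hz h'
      exact absurd h' hz
  filter_upwards [h1, h2] with a ha1 ha2
  refine ⟨ha1, ?_⟩
  by_cases hb : bad a
  · exact Or.inl hb
  · refine Or.inr fun s hs t ht h => ?_
    rcases ha2 (s, t) ⟨hs, ht⟩ h with h' | h'
    · exact h'
    · exact absurd h' hb

end Pool.Agent.Helper34.BI.H
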