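import Pool.Agent.Helper34.BI.H.StH5c
import Pool.Agent.Helper27.BI.H.Cls
import Pool.Agent.Helper27.BI.AsmC

/-!
# Project BI, stage 3, section 5: the class of the implantation in the chart (module PHT)
-/

set_option autoImplicit false

open Module Set Filter Topology
open scoped ContDiff Manifold ComplexConjugate
open Pool.Agent.Helper65.Barb Pool.Agent.Helper18.BI Pool.Agent.Helper27.BI
open Pool.Agent.Helper27.H (ArcD LIso LPush Fam2 Q2 SuppU thk seg)
open Pool.Agent.Helper70.BI (I4)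

namespace Pool.Agent.Helper34.BI.H

/-- the barbell map fixes both tubes -/
private theorem tiso_bar_PHT : TIso ∅ (1 / 5) arc2 arc2 barMap barMap :=
  (isPush_pair hSpin).tIso.congr
      (by rintro (_ | _) s <;> simp [arc2, barPath_zero])
      (by rintro (_ | _) s <;> simp [arc2, barPath_one]) (fun _ => rfl) (fun _ => rfl)

private theorem liso_PHT (hTPU : StTPU) (D : ArcD) (T : R4 → R4) (hT : EmbOn I4 T ball4)
    (hTU : MapsTo T ball4 D.U) (hTA : ∀ p ∈ ball4, T p ∈ D.A → p.2 = 0 ∨ p.2 = e1)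
    {φ ψ : R4 → R4} (h : TIso ∅ (1 / 5) arc2 arc2 φ ψ) :
    LIso D.U D.L D.J D.J (imp T ball4 φ) (imp T ball4 ψ) := by
  obtain ⟨F, h0, h1, hs, -, ht⟩ := h
  obtain ⟨k1, k2⟩ := hTPU D.U D.L D.J T D.openU D.isCompact_L
    (fun p hp => (D.emb.1 p hp).contMDiffAt.continuousAt) hT hTU hTA
  obtain ⟨G, hG, -, hGF⟩ := k1 F hs
  obtain ⟨N, hN, hLN, hφ⟩ := k2 (1 / 5) (by norm_num)
  have e0 : (fun p => F.f (0, p)) = φ := funext h0
  have e1' : (fun p => F.f (1, p)) = ψ := funext h1
  refine ⟨G, fun x => ?_, fun x => ?_, hG, N, hN, hLN, fun t p hp => ?_⟩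
  · rw [hGF, e0]
  · rw [hGF, e1']
  · rw [hGF]
    refine hφ _ (fun x hx => ?_) p hp
    rcases hx with h | h
    · have h2 : nsq (x.2 - 0) ≤ (1 / 5) ^ 2 := h
      rw [sub_zero] at h2
      have e := ht t false x.1 x.2 h2
      simpa [arc2] using e
    · have h2 : nsq (x.2 - e1) ≤ (1 / 5) ^ 2 := h
      have e := ht t true x.1 (x.2 - e1) h2
      simp only [arc2, if_true, add_sub_cancel] at e
      exact e

private theorem refh_refh_PHT (p : R4) : refh (refh p) = p := linvol_refh.inv p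

private theorem refh_ball4_PHT {p : R4} (hp : p ∈ ball4) : refh p ∈ ball4 := by
  obtain ⟨h1, h2, h3⟩ := hp
  exact ⟨h1, h2, by rwa [rsq_refh]⟩

private theorem bsupp_ball4_PHT : bsupp ⊆ ball4 := fun _ hp =>
  interior_subset (tsupp_subset_interior hp.1)

theorem m_PHT (hTPU : StTPU) : StPHT := by
  intro D T hT hTU hTA
  have L1 : LIso D.U D.L D.J D.J (imp T ball4 barMap) (imp T ball4 barMap) :=
    liso_PHT hTPU D T hT hTU hTA tiso_bar_PHT
  have hmap : MapsTo barMap bsupp bsupp := barMap_mapsTo subset_rfl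
  have hE : MapsTo T EB (D.U \ D.A) := by
    intro p hp
    refine ⟨hTU hp.1, fun h => ?_⟩
    obtain ⟨h0, h1⟩ := hp.2
    rcases hTA p hp.1 h with h2 | h2
    · rw [rsq_zero_eq, h2] at h0
      norm_num [nsq] at h0
    · rw [← nsq_sub_one, h2] at h1
      norm_num [nsq, e1] at h1
  refine ⟨L1, fun τ hτ => ?_, ?_⟩
  · have hsub : T '' bsupp ⊆ D.U \ D.A := by
      rintro _ ⟨p, hp, rfl⟩
      exact hE (hS4.2.2.2.2.2.2.1 hp)
    have hTc : ContinuousOn T bsupp := fun p hp =>
      (hT.1 p (bsupp_ball4_PHT hp)).contMDiffAt.continuousAt.continuousWithinAt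
    have hBe : imp T ball4 barMap = imp T bsupp barMap :=
      imp_mono hT.2 bsupp_ball4_PHT (fun p hp => barMap_off hp)
    have hTb : InjOn T bsupp := hT.2.mono bsupp_ball4_PHT
    have hein : InjOn D.e (T '' bsupp) := D.embe.2.mono hsub
    refine ⟨T '' bsupp, isCompact_bsupp.image_of_continuousOn hTc, hsub, fun x hx => ?_, ?_⟩
    · rw [hBe]
      exact imp_off hx
    · have h8 : imp (fun p => D.e (T p)) bsupp barMap =
          imp D.e (T '' bsupp) (imp T bsupp barMap) :=
        (hImp R4 R4 𝓘(ℝ, R4) R4 D.e (T '' bsupp) barMap hein).2.2.2.2.2.2.2 T bsupp hTb rfl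
          hmap
      rw [hBe, ← h8]
      have hem : EmbOn I4 (D.e ∘ T) EB :=
        EmbOn.comp D.embe (EmbOn.mono hT (fun p hp => hp.1)) hE
      have ht3 := hT3 R4 R4 𝓘(ℝ, R4) R4 (D.e ∘ T) hem
      exact (hT2 R4 R4 𝓘(ℝ, R4) R4).2.1 (D.e ∘ T) τ _ hτ ht3
  · have hT' : EmbOn I4 (fun p => T (refh p)) ball4 :=
      EmbOn.comp hT (EmbOn.mono (emb_of_invol linvol_refh.toInvol) (subset_univ _))
        (fun p hp => refh_ball4_PHT hp)
    have hTU' : MapsTo (fun p => T (refh p)) ball4 D.U := fun p hp => hTU (refh_ball4_PHT hp)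
    have hTA' : ∀ p ∈ ball4, T (refh p) ∈ D.A → p.2 = 0 ∨ p.2 = e1 := by
      intro p hp h
      have e : p.2 = ((refh p).2.1, conj (refh p).2.2) := by
        simp [refh]
      rcases hTA (refh p) (refh_ball4_PHT hp) h with h2 | h2
      · left
        rw [e, h2]
        simp
      · right
        rw [e, h2]
        simp [e1]
    have L2 := liso_PHT hTPU D (fun p => T (refh p)) hT' hTU' hTA' tiso_bar_PHT
    have hbi : ∀ p, barInv (barMap p) = p := fun p => bfam.gf 1 p
    have hbi' : ∀ p, barMap (barInv p) = p := fun p => bfam.fg 1 p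
    have hr : TIso ∅ (1 / 5) arc2 arc2 (fun p => refh (barInv (refh p))) barMap :=
      TIso.inv hR1h (fun x => by simp only [refh_refh_PHT, hbi']) (fun x => hbi x)
    have L3 := liso_PHT hTPU D T hT hTU hTA hr
    have hconj : imp T ball4 (fun p => refh (barInv (refh p))) =
        imp (fun p => T (refh p)) ball4 barInv := by
      apply imp_eq_of hT.2 hT'.2
      · intro p hp
        exact ⟨refh p, refh_ball4_PHT hp, rfl, by simp only [refh_refh_PHT]⟩
      · intro q hq
        exact Or.inl ⟨refh q, refh_ball4_PHT hq, by simp only [refh_refh_PHT]⟩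
    rw [hconj] at L3
    have L4 := LIso.comp L3.symm L2
    refine L4.congr_fun (fun x => rfl) (fun x => ?_)
    rw [← imp_comp hT'.2 (barMap_mapsTo bsupp_ball4_PHT)]
    simp only [hbi]
    by_cases hx : x ∈ (fun p => T (refh p)) '' ball4
    · obtain ⟨p, hp, rfl⟩ := hx
      rw [imp_image (F := fun p => T (refh p)) hT'.2 hp]
    · rw [imp_off hx]

end Pool.Agent.Helper34.BI.H
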