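import Pool.Agent.Helper34.BI.H.StH5c
import Pool.Agent.Helper27.BI.H.Calc

/-!
# Project BI, stage 3, module SQ5: the squares around the crossing
-/

set_option autoImplicit false
set_option linter.unusedSectionVars false

open Module Set Filter Topology
open scoped ContDiff Manifold
open Pool.Agent.Helper65.Barb Pool.Agent.Helper18.BI Pool.Agent.Helper27.BI
open Pool.Agent.Helper27.H

namespace Pool.Agent.Helper34.BI.H

namespace SQ5

/-- a good family of parameters -/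
def Gd (v₀ : ℝ × ℝ) (g : ℝ × ℝ → ℝ × ℝ) : Prop :=
  ContDiff ℝ ∞ g ∧ ∀ a ∈ Q2, g a ∈ Q2 ∧ g a ≠ v₀

lemma Gd.comp {v₀ : ℝ × ℝ} {g : ℝ × ℝ → ℝ × ℝ} (h : Gd v₀ g) {θ : ℝ × ℝ → ℝ × ℝ}
    (hθ : ContDiff ℝ ∞ θ) (hm : ∀ a ∈ Q2, θ a ∈ Q2) : Gd v₀ (fun a => g (θ a)) :=
  ⟨h.1.comp hθ, fun a ha => h.2 _ (hm a ha)⟩

lemma mem_Q2 {x y : ℝ} (hx : x ∈ Icc (0 : ℝ) 1) (hy : y ∈ Icc (0 : ℝ) 1) : (x, y) ∈ Q2 :=
  ⟨hx, hy⟩

/-- the edges of a good square are good paths -/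
lemma Gd.edge {v₀ : ℝ × ℝ} {g : ℝ × ℝ → ℝ × ℝ} (h : Gd v₀ g) {y : ℝ} (hy : y ∈ Icc (0 : ℝ) 1) :
    Gd v₀ (fun a => g (a.2, y)) :=
  h.comp (θ := fun a => (a.2, y)) (by fun_prop) (fun a ha => mem_Q2 ha.2 hy)

lemma Gd.edge' {v₀ : ℝ × ℝ} {g : ℝ × ℝ → ℝ × ℝ} (h : Gd v₀ g) {x : ℝ} (hx : x ∈ Icc (0 : ℝ) 1) :
    Gd v₀ (fun a => g (x, a.2)) :=
  h.comp (θ := fun a => (x, a.2)) (by fun_prop) (fun a ha => mem_Q2 hx ha.2)

/-- the points of the circle -/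
lemma circ_eq (u₀ q₀ r q : ℝ) : circ (u₀, q₀) (0, r) q =
    (u₀ - r * Real.sin (2 * Real.pi * q), q₀ + r * Real.cos (2 * Real.pi * q)) := by
  unfold circ mulc
  ext
  · simp only [Prod.fst_add]; ring
  · simp only [Prod.snd_add]; ring

lemma contDiff_circ (u₀ q₀ r : ℝ) : ContDiff ℝ ∞ (circ (u₀, q₀) (0, r)) := by
  have h : circ (u₀, q₀) (0, r) = fun q : ℝ =>
      (u₀ - r * Real.sin (2 * Real.pi * q), q₀ + r * Real.cos (2 * Real.pi * q)) :=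
    funext fun q => circ_eq u₀ q₀ r q
  rw [h]
  fun_prop

section geo
variable {u₀ q₀ r : ℝ} (hr : 0 < r) (h1 : 0 < u₀ - r) (h2 : u₀ + r < 1) (h3 : 0 < q₀ - r)
  (h4 : q₀ + r < 1)
include hr h1 h2 h3 h4

lemma circ_mem (q : ℝ) : circ (u₀, q₀) (0, r) q ∈ Q2 := by
  rw [circ_eq]
  have s1 := Real.sin_le_one (2 * Real.pi * q)
  have s2 := Real.neg_one_le_sin (2 * Real.pi * q)
  have c1 := Real.cos_le_one (2 * Real.pi * q)
  have c2 := Real.neg_one_le_cos (2 * Real.pi * q)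
  refine ⟨⟨?_, ?_⟩, ⟨?_, ?_⟩⟩ <;> simp only <;> nlinarith

lemma conv_mem {x : ℝ} (hx : x ∈ Icc (0 : ℝ) 1) {v w : ℝ × ℝ} (hv : v ∈ Q2) (hw : w ∈ Q2) :
    (1 - x) • v + x • w ∈ Q2 :=
  convex_Q2 hv hw (by linarith [hx.2]) hx.1 (by ring)

/-- a square between a path and a piece of the circle -/
lemma good_left : Gd (u₀, q₀) (fun a : ℝ × ℝ =>
    (1 - a.1) • ((0 : ℝ), 1 - a.2) + a.1 • circ (u₀, q₀) (0, r) (a.2 / 2)) := by
  have hc := contDiff_circ u₀ q₀ r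
  have hc2 : ContDiff ℝ ∞ (fun a : ℝ × ℝ => circ (u₀, q₀) (0, r) (a.2 / 2)) :=
    hc.comp (contDiff_snd.div_const 2)
  refine ⟨by fun_prop, ?_⟩
  rintro ⟨x, y⟩ ⟨hx, hy⟩
  simp only at hx hy ⊢
  refine ⟨conv_mem hr h1 h2 h3 h4 hx (mem_Q2 (by simp) ⟨by linarith [hy.2], by linarith [hy.1]⟩)
    (circ_mem hr h1 h2 h3 h4 _), fun e => ?_⟩
  rw [circ_eq] at e
  have e1 := congrArg Prod.fst e
  have e2 := congrArg Prod.snd e
  simp only [Prod.smul_mk, Prod.mk_add_mk, smul_eq_mul] at e1 e2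
  have hs : 0 ≤ Real.sin (2 * Real.pi * (y / 2)) := by
    apply Real.sin_nonneg_of_nonneg_of_le_pi
    · have := Real.pi_pos
      have := hy.1
      positivity
    · have := Real.pi_pos
      nlinarith [hy.2]
  have hcs := Real.sin_sq_add_cos_sq (2 * Real.pi * (y / 2))
  set S := Real.sin (2 * Real.pi * (y / 2)) with hS
  set C := Real.cos (2 * Real.pi * (y / 2)) with hC
  have hu : 0 < u₀ := by linarith
  have k1 : (1 - x) * u₀ + x * (r * S) = 0 := by nlinarith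
  have k2 : 0 ≤ (1 - x) * u₀ := mul_nonneg (by linarith [hx.2]) hu.le
  have k3 : 0 ≤ x * (r * S) := mul_nonneg hx.1 (mul_nonneg hr.le hs)
  have k4 : (1 - x) * u₀ = 0 := by linarith
  have k5 : x = 1 := by
    rcases mul_eq_zero.1 k4 with h | h
    · linarith
    · linarith
  subst k5
  have k6 : S = 0 := by
    have : 1 * (r * S) = 0 := by linarith
    rcases mul_eq_zero.1 (by linarith : r * S = 0) with h | h
    · linarith
    · exact h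
  have k7 : C = 0 := by
    have : r * C = 0 := by linarith
    rcases mul_eq_zero.1 this with h | h
    · linarith
    · exact h
  rw [k6, k7] at hcs
  norm_num at hcs

lemma good_right : Gd (u₀, q₀) (fun a : ℝ × ℝ =>
    (1 - a.1) • ((1 : ℝ), a.2) + a.1 • circ (u₀, q₀) (0, r) (1 / 2 + a.2 / 2)) := by
  have hc := contDiff_circ u₀ q₀ r
  have hc2 : ContDiff ℝ ∞ (fun a : ℝ × ℝ => circ (u₀, q₀) (0, r) (1 / 2 + a.2 / 2)) :=
    hc.comp (contDiff_const.add (contDiff_snd.div_const 2))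
  refine ⟨by fun_prop, ?_⟩
  rintro ⟨x, y⟩ ⟨hx, hy⟩
  simp only at hx hy ⊢
  refine ⟨conv_mem hr h1 h2 h3 h4 hx (mem_Q2 (by simp) hy)
    (circ_mem hr h1 h2 h3 h4 _), fun e => ?_⟩
  rw [circ_eq] at e
  have e1 := congrArg Prod.fst e
  have e2 := congrArg Prod.snd e
  simp only [Prod.smul_mk, Prod.mk_add_mk, smul_eq_mul] at e1 e2
  have hs : Real.sin (2 * Real.pi * (1 / 2 + y / 2)) ≤ 0 := by
    have e3 : 2 * Real.pi * (1 / 2 + y / 2) = Real.pi * y + Real.pi := by ring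
    rw [e3, Real.sin_add_pi]
    have : 0 ≤ Real.sin (Real.pi * y) := by
      apply Real.sin_nonneg_of_nonneg_of_le_pi
      · exact mul_nonneg Real.pi_pos.le hy.1
      · have := Real.pi_pos
        nlinarith [hy.2]
    linarith
  have hcs := Real.sin_sq_add_cos_sq (2 * Real.pi * (1 / 2 + y / 2))
  set S := Real.sin (2 * Real.pi * (1 / 2 + y / 2)) with hS
  set C := Real.cos (2 * Real.pi * (1 / 2 + y / 2)) with hC
  have hu : u₀ < 1 := by linarith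
  have k1 : (1 - x) * (1 - u₀) + x * (r * (-S)) = 0 := by nlinarith
  have k2 : 0 ≤ (1 - x) * (1 - u₀) := mul_nonneg (by linarith [hx.2]) (by linarith)
  have k3 : 0 ≤ x * (r * (-S)) := mul_nonneg hx.1 (mul_nonneg hr.le (by linarith))
  have k4 : (1 - x) * (1 - u₀) = 0 := by linarith
  have k5 : x = 1 := by
    rcases mul_eq_zero.1 k4 with h | h
    · linarith
    · linarith
  subst k5
  have k6 : S = 0 := by
    rcases mul_eq_zero.1 (by linarith : r * (-S) = 0) with h | h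
    · linarith
    · linarith
  have k7 : C = 0 := by
    have : r * C = 0 := by linarith
    rcases mul_eq_zero.1 this with h | h
    · linarith
    · exact h
  rw [k6, k7] at hcs
  norm_num at hcs

lemma circ_half : circ (u₀, q₀) (0, r) (1 / 2) = (u₀, q₀ - r) := by
  rw [circ_eq]
  have : 2 * Real.pi * (1 / 2) = Real.pi := by ring
  rw [this, Real.sin_pi, Real.cos_pi]
  ext <;> simp; ring

lemma circ_zero : circ (u₀, q₀) (0, r) 0 = (u₀, q₀ + r) := by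
  rw [circ_eq]
  simp

lemma circ_one : circ (u₀, q₀) (0, r) 1 = circ (u₀, q₀) (0, r) 0 := by
  rw [circ_eq, circ_eq]
  simp

lemma good_bot : Gd (u₀, q₀) (fun a : ℝ × ℝ =>
    (1 - a.1) • (a.2, (0 : ℝ)) + a.1 • circ (u₀, q₀) (0, r) (1 / 2)) := by
  refine ⟨by fun_prop, ?_⟩
  rintro ⟨x, y⟩ ⟨hx, hy⟩
  simp only at hx hy ⊢
  refine ⟨conv_mem hr h1 h2 h3 h4 hx (mem_Q2 hy (by simp))
    (circ_mem hr h1 h2 h3 h4 _), fun e => ?_⟩
  rw [circ_half hr h1 h2 h3 h4] at e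
  have e2 := congrArg Prod.snd e
  simp only [Prod.smul_mk, Prod.mk_add_mk, smul_eq_mul] at e2
  have := hx.2
  nlinarith

lemma good_top : Gd (u₀, q₀) (fun a : ℝ × ℝ =>
    (1 - a.1) • (a.2, (1 : ℝ)) + a.1 • circ (u₀, q₀) (0, r) 0) := by
  refine ⟨by fun_prop, ?_⟩
  rintro ⟨x, y⟩ ⟨hx, hy⟩
  simp only at hx hy ⊢
  refine ⟨conv_mem hr h1 h2 h3 h4 hx (mem_Q2 hy (by simp))
    (circ_mem hr h1 h2 h3 h4 _), fun e => ?_⟩
  rw [circ_zero hr h1 h2 h3 h4] at e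
  have e2 := congrArg Prod.snd e
  simp only [Prod.smul_mk, Prod.mk_add_mk, smul_eq_mul] at e2
  have k1 : (1 - x) * (1 - q₀) + x * r = 0 := by nlinarith
  have k2 : 0 ≤ (1 - x) * (1 - q₀) := mul_nonneg (by linarith [hx.2]) (by linarith)
  have k3 : 0 ≤ x * r := mul_nonneg hx.1 hr.le
  have k4 : x * r = 0 := by linarith
  rcases mul_eq_zero.1 k4 with h | h
  · subst h
    linarith
  · linarith

lemma good_circ : Gd (u₀, q₀) (fun a : ℝ × ℝ => circ (u₀, q₀) (0, r) (a.2 * (1 + a.1) / 2)) := by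
  have hc := contDiff_circ u₀ q₀ r
  refine ⟨hc.comp (by fun_prop), fun a _ => ⟨circ_mem hr h1 h2 h3 h4 _, fun e => ?_⟩⟩
  simp only at e
  rw [circ_eq] at e
  have e1 := congrArg Prod.fst e
  have e2 := congrArg Prod.snd e
  simp only at e1 e2
  have hcs := Real.sin_sq_add_cos_sq (2 * Real.pi * (a.2 * (1 + a.1) / 2))
  have k6 : Real.sin (2 * Real.pi * (a.2 * (1 + a.1) / 2)) = 0 := by
    have : r * Real.sin (2 * Real.pi * (a.2 * (1 + a.1) / 2)) = 0 := by linarith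
    rcases mul_eq_zero.1 this with h | h
    · linarith
    · exact h
  have k7 : Real.cos (2 * Real.pi * (a.2 * (1 + a.1) / 2)) = 0 := by
    have : r * Real.cos (2 * Real.pi * (a.2 * (1 + a.1) / 2)) = 0 := by linarith
    rcases mul_eq_zero.1 this with h | h
    · linarith
    · exact h
  rw [k6, k7] at hcs
  norm_num at hcs

end geo

section fam
variable {D : ArcD} {c : ℝ × ℝ × ℝ → R4} {v₀ : ℝ × ℝ}

lemma kk_base (hc : D.Htpy c) {u : ℝ} (hu : u ∈ Icc (0 : ℝ) 1) : kk D c (u, 0) = D.J := by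
  have e : (fun s => c (u, 0, s)) = D.c := funext fun s => hc.start u hu s
  unfold kk
  simp only
  rw [e]
  funext p
  unfold thk
  simp

lemma kk_base' (hc : D.Htpy c) {u : ℝ} (hu : u ∈ Icc (0 : ℝ) 1) : kk D c (u, 1) = D.J := by
  have e : (fun s => c (u, 1, s)) = D.c := funext fun s => hc.stop u hu s
  unfold kk
  simp only
  rw [e]
  funext p
  unfold thk
  simp

variable (hTh : StTHK) (hc : D.Htpy c)
  (hI : ∀ u ∈ Icc (0 : ℝ) 1, ∀ q ∈ Icc (0 : ℝ) 1, D.Imm c u q)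
  (hJ : ∀ u ∈ Icc (0 : ℝ) 1, ∀ q ∈ Icc (0 : ℝ) 1, (u, q) ≠ v₀ → D.Inj c u q)
include hTh hc hI hJ

lemma kk_fam {g : ℝ × ℝ → ℝ × ℝ} (hg : Gd v₀ g) :
    Fam2 Q2 D.L D.V D.U (fun a => kk D c (g a)) := by
  have g1 := hg.1
  have hsm : ContDiff ℝ ∞ (fun z : (ℝ × ℝ) × ℝ => c ((g z.1).1, (g z.1).2, z.2)) := by
    have := hc.smooth
    fun_prop
  exact (hTh Q2 D.s₀ D.m₀ D.m₁ D.s₁ D.U D.J D.c
    (fun a s => c ((g a).1, (g a).2, s)) D.h₀ D.h₁ D.h₂ D.openU D.emb D.smooth D.core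
    hsm
    (fun a ha s hs => hc.froz _ (hg.2 a ha).1.1 _ (hg.2 a ha).1.2 s hs)
    (fun a ha s hs => hc.inU _ (hg.2 a ha).1.1 _ (hg.2 a ha).1.2 s hs)
    (fun a ha => hJ _ (hg.2 a ha).1.1 _ (hg.2 a ha).1.2 (hg.2 a ha).2)
    (fun a ha s hs => hI _ (hg.2 a ha).1.1 _ (hg.2 a ha).1.2 s hs)).1

lemma kk_push (hCh : StCH4) {γ : ℝ → ℝ × ℝ} (hg : Gd v₀ (fun a => γ a.2)) :
    ∃ Θ, LPush D.U D.L (fun q => kk D c (γ q)) Θ :=
  exists_lpush1 hCh D.isCompact_L D.isOpen_V D.openU (J := fun q => kk D c (γ q))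
    (kk_fam hTh hc hI hJ hg)

lemma kk_square (hCh : StCH4) {g : ℝ × ℝ → ℝ × ℝ} (hg : Gd v₀ g)
    {Θ1 Θ2 Θ3 Θ4 : R4 → R4} (h1 : LPush D.U D.L (fun q => kk D c (g (0, q))) Θ1)
    (h2 : LPush D.U D.L (fun q => kk D c (g (q, 1))) Θ2)
    (h3 : LPush D.U D.L (fun q => kk D c (g (q, 0))) Θ3)
    (h4 : LPush D.U D.L (fun q => kk D c (g (1, q))) Θ4) :
    LIso D.U D.L (kk D c (g (0, 0))) (kk D c (g (1, 1))) (fun x => Θ2 (Θ1 x))
      (fun x => Θ4 (Θ3 x)) :=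
  square4 hCh D.isCompact_L D.isOpen_V D.openU (J := fun x y => kk D c (g (x, y)))
    (kk_fam hTh hc hI hJ hg) h1 h2 h3 h4

end fam

lemma push_of_eq {D : ArcD} {J J' : ℝ → R4 → R4} {Θ : R4 → R4} (h : LPush D.U D.L J Θ)
    (e : ∀ q ∈ Icc (0 : ℝ) 1, J q = J' q) : LPush D.U D.L J' Θ :=
  h.congr ⟨univ, isOpen_univ, subset_univ _, fun q hq p _ => by rw [e q hq]⟩

end SQ5

open SQ5 in
theorem m_SQ5 (hCh : StCH4) (hTh : StTHK) : StSQ5 := by
  intro D c u₀ q₀ r hc hI hJ hr h1 h2 h3 h4 E₀ E₁ C hE₀ hE₁ hC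
  have gl := good_left hr h1 h2 h3 h4
  have gr := good_right hr h1 h2 h3 h4
  have gb := good_bot hr h1 h2 h3 h4
  have gt := good_top hr h1 h2 h3 h4
  have gc := good_circ hr h1 h2 h3 h4
  have z01 : (0 : ℝ) ∈ Icc (0 : ℝ) 1 := by simp
  have o01 : (1 : ℝ) ∈ Icc (0 : ℝ) 1 := by simp
  have k00 : kk D c (0, 0) = D.J := kk_base hc z01
  have k01 : kk D c (0, 1) = D.J := kk_base' hc z01
  have k10 : kk D c (1, 0) = D.J := kk_base hc o01
  have k11 : kk D c (1, 1) = D.J := kk_base' hc o01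
  obtain ⟨p', hp'⟩ : ∃ p', p' = circ (u₀, q₀) (0, r) 0 := ⟨_, rfl⟩
  obtain ⟨p, hp⟩ : ∃ p, p = circ (u₀, q₀) (0, r) (1 / 2) := ⟨_, rfl⟩
  have c1 : circ (u₀, q₀) (0, r) 1 = p' := (circ_one hr h1 h2 h3 h4).trans hp'.symm
  have gb' : Gd (u₀, q₀) (fun a : ℝ × ℝ => (1 - a.1) • (a.2, (0 : ℝ)) + a.1 • p) := by
    rw [hp]; exact gb
  have gt' : Gd (u₀, q₀) (fun a : ℝ × ℝ => (1 - a.1) • (a.2, (1 : ℝ)) + a.1 • p') := by
    rw [hp']; exact gt
  have gH := gc.edge' z01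
  have gH' := gc.edge o01
  -- the pushes
  obtain ⟨d₀, hd₀⟩ := kk_push hTh hc hI hJ hCh (γ := fun x => (1 - x) • ((0 : ℝ), (0 : ℝ)) + x • p)
    (gb'.edge z01)
  obtain ⟨d₁, hd₁⟩ := kk_push hTh hc hI hJ hCh (γ := fun x => (1 - x) • ((1 : ℝ), (0 : ℝ)) + x • p)
    (gb'.edge o01)
  obtain ⟨b₀, hb₀⟩ := kk_push hTh hc hI hJ hCh (γ := fun x => (1 - x) • ((0 : ℝ), (1 : ℝ)) + x • p')
    (gt'.edge z01)
  obtain ⟨b₁, hb₁⟩ := kk_push hTh hc hI hJ hCh (γ := fun x => (1 - x) • ((1 : ℝ), (1 : ℝ)) + x • p')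
    (gt'.edge o01)
  obtain ⟨H, hH⟩ := kk_push hTh hc hI hJ hCh
    (γ := fun y => circ (u₀, q₀) (0, r) (y * (1 + 0) / 2)) gH
  obtain ⟨H', hH'⟩ := kk_push hTh hc hI hJ hCh
    (γ := fun x => circ (u₀, q₀) (0, r) (1 * (1 + x) / 2)) gH'
  -- the inverse of `E₀`
  have lE₀ := hE₀.lIso
  rw [k00, k01] at lE₀
  obtain ⟨E₀', lE₀', i1, i2⟩ := lE₀.exists_inv
  have hE₀' := hE₀.reverse i1
  -- the squares
  have s1 := kk_square hTh hc hI hJ hCh gl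
    (push_of_eq hE₀' fun q _ => by simp)
    (push_of_eq hd₀ fun q _ => by simp [hp])
    (push_of_eq hb₀ fun q _ => by simp [hp'])
    (push_of_eq hH fun q _ => by simp)
  have s2 := kk_square hTh hc hI hJ hCh gr
    (push_of_eq hE₁ fun q _ => by simp)
    (push_of_eq hb₁ fun q _ => by
      have : (1 / 2 + 1 / 2 : ℝ) = 1 := by norm_num
      simp only [this, c1])
    (push_of_eq hd₁ fun q _ => by simp [hp])
    (push_of_eq hH' fun q _ => by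
      have e : (1 * (1 + q) / 2 : ℝ) = 1 / 2 + q / 2 := by ring
      rw [e]
      simp only [sub_self, zero_smul, one_smul, zero_add])
  have s3 := kk_square hTh hc hI hJ hCh gb'
    (push_of_eq (LPush.const (U := D.U) (L := D.L) D.J) fun q hq => by
      simp [kk_base hc hq])
    (push_of_eq hd₁ fun q _ => by simp [hp])
    (push_of_eq hd₀ fun q _ => by simp [hp])
    (push_of_eq (LPush.const (U := D.U) (L := D.L) (kk D c p)) fun q _ => by simp [hp])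
  have s4 := kk_square hTh hc hI hJ hCh gt'
    (push_of_eq (LPush.const (U := D.U) (L := D.L) D.J) fun q hq => by
      simp [kk_base' hc hq])
    (push_of_eq hb₁ fun q _ => by simp [hp'])
    (push_of_eq hb₀ fun q _ => by simp [hp'])
    (push_of_eq (LPush.const (U := D.U) (L := D.L) (kk D c p')) fun q _ => by simp [hp'])
  have s5 := kk_square hTh hc hI hJ hCh gc hH hH'
    (push_of_eq (LPush.const (U := D.U) (L := D.L) (kk D c p')) fun q _ => by simp [hp'])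
    (push_of_eq hC fun q _ => by
      have : (q * (1 + 1) / 2 : ℝ) = q := by ring
      simp only [this])
  simp only at s1 s2 s3 s4 s5
  have e1 : (1 - (0 : ℝ)) • ((0 : ℝ), 1 - (0 : ℝ)) + (0 : ℝ) • circ (u₀, q₀) (0, r) (0 / 2)
      = (0, 1) := by simp
  have e2 : (1 - (1 : ℝ)) • ((0 : ℝ), 1 - (1 : ℝ)) + (1 : ℝ) • circ (u₀, q₀) (0, r) (1 / 2)
      = p := by simp [hp]
  have e3 : (1 - (0 : ℝ)) • ((1 : ℝ), (0 : ℝ)) + (0 : ℝ) • circ (u₀, q₀) (0, r) (1 / 2 + 0 / 2)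
      = (1, 0) := by simp
  have e4 : (1 - (1 : ℝ)) • ((1 : ℝ), (1 : ℝ)) + (1 : ℝ) • circ (u₀, q₀) (0, r) (1 / 2 + 1 / 2)
      = p' := by
    have : (1 / 2 + 1 / 2 : ℝ) = 1 := by norm_num
    rw [this, c1]
    simp
  have e5 : (1 - (0 : ℝ)) • ((0 : ℝ), (0 : ℝ)) + (0 : ℝ) • p = (0, 0) := by simp
  have e6 : (1 - (1 : ℝ)) • ((1 : ℝ), (0 : ℝ)) + (1 : ℝ) • p = p := by simp
  have e7 : (1 - (0 : ℝ)) • ((0 : ℝ), (1 : ℝ)) + (0 : ℝ) • p' = (0, 1) := by simp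
  have e8 : (1 - (1 : ℝ)) • ((1 : ℝ), (1 : ℝ)) + (1 : ℝ) • p' = p' := by simp
  have e9 : circ (u₀, q₀) (0, r) (0 * (1 + 0) / 2) = p' := by simp [hp']
  have e10 : circ (u₀, q₀) (0, r) (1 * (1 + 1) / 2) = p' := by
    have : (1 * (1 + 1) / 2 : ℝ) = 1 := by norm_num
    rw [this, c1]
  rw [e1, e2, k01] at s1
  rw [e3, e4, k10] at s2
  rw [e5, e6, k00] at s3
  rw [e7, e8, k01] at s4
  rw [e9, e10] at s5
  -- the germs carried by the pushes
  have lH' : LIso D.U D.L (kk D c p) (kk D c p') H' H' := by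
    have := hH'.lIso
    have f1 : (1 * (1 + 0) / 2 : ℝ) = 1 / 2 := by norm_num
    rw [f1, e10, ← hp] at this
    exact this
  have lb₀ : LIso D.U D.L D.J (kk D c p') b₀ b₀ := by
    have := hb₀.lIso
    have f1 : (1 - (1 : ℝ)) • ((0 : ℝ), (1 : ℝ)) + (1 : ℝ) • p' = p' := by simp
    rw [e7, f1, k01] at this
    exact this
  obtain ⟨B', lB', j1, j2⟩ := lb₀.exists_inv
  obtain ⟨b₁', lb₁', m1, m2⟩ := s4.refl_of.exists_inv
  -- `d₀ ~ H b₀ E₀`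
  have t1 := (s1.comp lE₀).congr_fun (φ' := d₀) (ψ' := fun x => H (b₀ (E₀ x)))
    (fun x => by rw [i2]) (fun _ => rfl)
  have t2 := s3.trans t1
  have t3 := s2.trans (lH'.comp t2)
  have t4 := s5.comp (lb₀.comp lE₀)
  have t5 := t3.trans t4
  have t6 := s4.inv m1 j1
  have t7 := t6.comp t5
  rw [hp'] at lb₀
  exact ⟨b₀, B', lb₀, j1, j2, t7.congr_fun (fun x => by rw [m2]) (fun _ => rfl)⟩

end Pool.Agent.Helper34.BI.H
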