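import Pool.Agent.Helper34.BI.H.StH5c
import Pool.Agent.Helper18.BI.M_A1
import Pool.Agent.Helper18.BI.M_IMP
import Pool.Agent.Helper27.BI.GAdd

/-!
# Project BI, stage 3, section 5: implanting in a chart (module TPU)
-/

set_option autoImplicit false

open Module Set Filter Topology
open scoped ContDiff Manifold
open Pool.Agent.Helper65.Barb Pool.Agent.Helper18.BI Pool.Agent.Helper27.BI
open Pool.Agent.Helper27.H (ArcD LIso LPush Fam2 Q2 SuppU thk seg)
open Pool.Agent.Helper70.BI (I4)

namespace Pool.Agent.Helper34.BI.H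

private theorem nsq_zero_TPU : nsq (0 : ℝ × ℂ) = 0 := by
  simp [nsq]

private theorem continuous_nsq_TPU : Continuous nsq := by
  unfold nsq
  fun_prop

theorem m_TPU : StTPU := by
  intro U L J T hU hL hJ hT hTU hTJ
  obtain ⟨δ, hδs, hδ⟩ := m_A1 R4 R4 R4 𝓘(ℝ, R4) R4 T ball4 isCompact_ball4 hT.1 hT.2
  have hTc : ContinuousOn T ball4 := fun p hp =>
    (hT.1 p hp).contMDiffAt.continuousAt.continuousWithinAt
  refine ⟨fun F hF => ?_, fun ρ hρ => ?_⟩
  · obtain ⟨K, hK, hKb, hKF⟩ := hF
    have hsupp : ∀ t p, p ∉ ball4 → F.f (t, p) = p := fun t p hp =>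
      hKF t p (fun h => hp (interior_subset (hKb h)))
    have hpush : ∀ t : ℝ, imp T ball4 (fun p => F.f (t, p)) = push δ (fun p => F.f (t, p)) :=
      fun t => (m_Imp R4 R4 𝓘(ℝ, R4) R4 T ball4 (fun p => F.f (t, p)) hT.2).2.2.2.2.1 δ hδs
        (fun p hp => hδ p (hδs hp)) (fun p hp => F.mapsTo hsupp t hp) (fun p hp => hsupp t p hp)
    have him : δ '' ball4 = T '' ball4 := by
      apply image_congr
      intro p hp
      exact hδ p (hδs hp)
    refine ⟨F.push δ isCompact_ball4 hδs hsupp, ⟨δ '' ball4, ?_, ?_, ?_⟩, ?_, ?_⟩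
    · exact isCompact_ball4.image_of_continuousOn (δ.contMDiffOn.continuousOn.mono hδs)
    · rw [him]
      rintro _ ⟨p, hp, rfl⟩
      exact hTU hp
    · intro t x hx
      exact push_of_notMem δ _ hδs (fun p hp => hsupp t p hp) hx
    · intro t x hx
      rw [← him] at hx
      exact push_of_notMem δ _ hδs (fun p hp => hsupp t p hp) hx
    · intro t y
      rw [hpush t]
      rfl
  · set B : Set R4 := ball4 ∩ {p : R4 | ρ ^ 2 ≤ nsq p.2 ∧ ρ ^ 2 ≤ nsq (p.2 - e1)} with hB
    have hBc : IsCompact B := by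
      apply isCompact_ball4.inter_right
      apply IsClosed.inter
      · exact isClosed_le continuous_const (continuous_nsq_TPU.comp continuous_snd)
      · exact isClosed_le continuous_const
          (continuous_nsq_TPU.comp (continuous_snd.sub continuous_const))
    have hTB : IsClosed (T '' B) :=
      (hBc.image_of_continuousOn (hTc.mono inter_subset_left)).isClosed
    refine ⟨interior (J ⁻¹' (T '' B)ᶜ), isOpen_interior, fun p hp => ?_, fun φ hφ p hp => ?_⟩
    · have h1 : J p ∈ (T '' B)ᶜ := by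
        rintro ⟨z, ⟨hz, hz1, hz2⟩, hzp⟩
        have hρ2 : 0 < ρ ^ 2 := by positivity
        rcases hTJ z hz ⟨p, hp, hzp.symm⟩ with h | h
        · rw [h, nsq_zero_TPU] at hz1
          linarith
        · rw [h, sub_self, nsq_zero_TPU] at hz2
          linarith
      exact mem_interior_iff_mem_nhds.2 ((hJ p hp).preimage_mem_nhds (hTB.isOpen_compl.mem_nhds h1))
    · have h0 : p ∈ J ⁻¹' (T '' B)ᶜ := interior_subset hp
      have h1 : J p ∈ (T '' B)ᶜ := h0
      have himp := m_Imp R4 R4 𝓘(ℝ, R4) R4 T ball4 φ hT.2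
      by_cases h2 : J p ∈ T '' ball4
      · obtain ⟨z, hz, hzp⟩ := h2
        have hzB : z ∉ B := fun h => h1 ⟨z, h, hzp⟩
        have hzt : z ∈ ctube 0 ρ ∪ ctube e1 ρ := by
          by_contra h3
          apply hzB
          rw [mem_union, not_or] at h3
          obtain ⟨h4, h5⟩ := h3
          refine ⟨hz, ?_, ?_⟩
          · have h6 : ¬ nsq (z.2 - 0) ≤ ρ ^ 2 := h4
            rw [sub_zero] at h6
            exact (not_le.1 h6).le
          · have h6 : ¬ nsq (z.2 - e1) ≤ ρ ^ 2 := h5
            exact (not_le.1 h6).le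
        rw [← hzp, himp.1 z hz, hφ z hzt]
      · exact himp.2.1 _ h2

end Pool.Agent.Helper34.BI.H
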