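import Pool.Agent.Helper34.BI.H.StH5c

/-!
# Project BI, stage 3, section 5, module XG5: the germ of the crossing
-/

set_option autoImplicit false

open Module Set Filter Topology
open scoped ContDiff Manifold ComplexConjugate
open Pool.Agent.Helper65.Barb Pool.Agent.Helper18.BI Pool.Agent.Helper27.BI
open Pool.Agent.Helper27.H (ArcD LIso LPush Fam2 Q2 SuppU thk seg)
open Pool.Agent.Helper70.BI (I4 LD ld_iff ld_comp ld_dfam)

namespace Pool.Agent.Helper34.BI.H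

namespace XG5

/-- `refh` as a linear map -/
private noncomputable def L : R4 →L[ℝ] R4 :=
  (ContinuousLinearMap.id ℝ ℝ).prodMap ((ContinuousLinearMap.id ℝ ℝ).prodMap
    (Complex.conjCLE : ℂ →L[ℝ] ℂ))

private theorem refh_eq : refh = fun p => L p := rfl

private theorem inv (p : R4) : refh (refh p) = p := by simp [refh]

private theorem det_conj : LinearMap.det ((Complex.conjCLE : ℂ →L[ℝ] ℂ) : ℂ →ₗ[ℝ] ℂ) = -1 :=
  Complex.det_conjAe

private theorem det_L : L.det = -1 := by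
  have h : (L : R4 →ₗ[ℝ] R4) = (LinearMap.id : ℝ →ₗ[ℝ] ℝ).prodMap
      ((LinearMap.id : ℝ →ₗ[ℝ] ℝ).prodMap ((Complex.conjCLE : ℂ →L[ℝ] ℂ) : ℂ →ₗ[ℝ] ℂ)) := rfl
  rw [ContinuousLinearMap.det, h, LinearMap.det_prodMap, LinearMap.det_prodMap, det_conj,
    LinearMap.det_id]
  norm_num

private theorem det_comp' (A B : R4 →L[ℝ] R4) : (A.comp B).det = A.det * B.det := by
  rw [ContinuousLinearMap.det, ContinuousLinearMap.det, ContinuousLinearMap.det,
    ContinuousLinearMap.toLinearMap_comp, LinearMap.det_comp]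

private theorem der (p : R4) : HasFDerivAt refh L p := by
  rw [refh_eq]
  exact L.hasFDerivAt

private theorem ld (p : R4) : LD refh p := by
  rw [ld_iff]
  refine ⟨Eventually.of_forall fun q => ?_, ?_⟩
  · rw [refh_eq]
    exact L.contDiff.contDiffAt
  · rw [(der p).fderiv]
    intro x y hxy
    have h : refh x = refh y := hxy
    rw [← inv x, h, inv]

private theorem injective : Function.Injective refh := fun x y hxy => by
  rw [← inv x, hxy, inv]

private theorem rsq_h (c : ℝ) (p : R4) : rsq c (refh p) = rsq c p := by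
  simp [rsq, nsq, refh]

private theorem fd {F : R4 → R4} {p : R4} (hF : LD F (refh p)) :
    fderiv ℝ (fun p => F (refh p)) p = (fderiv ℝ F (refh p)).comp L := by
  have h1 : DifferentiableAt ℝ F (refh p) :=
    ((ld_iff.1 hF).1.self_of_nhds).differentiableAt (by simp)
  exact (h1.hasFDerivAt.comp p (der p)).fderiv

private theorem det_ne {F : R4 → R4} {p : R4} (h : LD F p) : (fderiv ℝ F p).det ≠ 0 := by
  have h1 := (ld_iff.1 h).2
  have h2 : LinearMap.ker (fderiv ℝ F p : R4 →ₗ[ℝ] R4) = ⊥ :=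
    LinearMap.ker_eq_bot.2 h1
  intro h0
  have h3 : LinearMap.det (fderiv ℝ F p : R4 →ₗ[ℝ] R4) = 0 := h0
  have h4 := LinearMap.bot_lt_ker_of_det_eq_zero h3
  rw [h2] at h4
  exact lt_irrefl _ h4

private theorem ballm {p : R4} (hp : p ∈ ball4) : refh p ∈ ball4 :=
  ⟨hp.1, hp.2.1, by rw [rsq_h]; exact hp.2.2⟩

private theorem fst_FB {p : R4} (hp : p ∈ FB) : p.1 = 1 / 2 := by
  rcases hp with (hp | hp) | hp
  · exact hp.1
  · exact hp.1
  · exact hp.1

private theorem FBball {p : R4} (hp : p ∈ FB) : p ∈ ball4 := by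
  have h0 := fst_FB hp
  have key : rsq 0 p ≤ (9 / 2) ^ 2 := by
    rcases hp with (hp | hp) | hp
    · have h1 : rsq 0 p ≤ 1 / 25 := hp.2
      linarith
    · have h1 : rsq 1 p ≤ 1 / 25 := hp.2
      simp only [rsq, nsq] at h1 ⊢
      nlinarith [sq_nonneg (p.2.1 - 1), sq_nonneg p.2.2.re, sq_nonneg p.2.2.im,
        sq_nonneg (p.2.1 - 2)]
    · obtain ⟨-, h1, h2, h3⟩ := hp
      simp only [rsq, nsq, h3, Complex.zero_re, Complex.zero_im]
      nlinarith
  refine ⟨?_, ?_, key⟩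
  · rw [h0]; norm_num
  · rw [h0]; norm_num

private theorem FBh {p : R4} (hp : p ∈ FB) : refh p ∈ FB := by
  rcases hp with (hp | hp) | hp
  · exact Or.inl (Or.inl ⟨hp.1, by rw [rsq_h]; exact hp.2⟩)
  · exact Or.inl (Or.inr ⟨hp.1, by rw [rsq_h]; exact hp.2⟩)
  · exact Or.inr ⟨hp.1, hp.2.1, hp.2.2.1, by simp [refh, hp.2.2.2]⟩

private theorem ld_mono {F : R4 → R4} {A B : Set R4} (h : EmbOn I4 F A) (hs : ∀ p ∈ B, p ∈ A) :
    EmbOn I4 F B := ⟨fun p hp => h.1 p (hs p hp), h.2.mono hs⟩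

private theorem thk_core (D : ArcD) (y : ℝ → R4) {s : ℝ} (hs : s ∈ Icc D.s₀ D.s₁) :
    thk D.J D.c y (s, 0) = y s := by
  unfold thk
  have h0 : fderiv ℝ D.J (s, 0) ((0 : ℝ), (0 : ℝ × ℂ)) = 0 := by
    have : (((0 : ℝ), (0 : ℝ × ℂ)) : R4) = 0 := rfl
    rw [this, map_zero]
  simp only [h0, map_zero, add_zero]
  rw [D.core s hs]
  abel

end XG5

open XG5 in
theorem m_XG5 : StXG5 := by
  intro D a b ε ν κ T y h Ψ Ψ' hL hΨ hΨ'
  obtain ⟨F, hF0, -, ⟨K, -, hKU, hK⟩, N, hNo, hLN, hN⟩ := hL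
  have hΨF : ∀ x, Ψ x = F.f (0, x) := fun x => (hF0 x).symm
  have hΨF' : ∀ x, Ψ' x = F.g (0, x) := fun x => by
    have h1 := hΨ' (F.g (0, x))
    rw [hΨF, F.fg] at h1
    exact h1
  -- `Ψ'` is a local diffeomorphism
  have ldΨ' : ∀ x, LD Ψ' x := by
    intro x
    have h1 := ld_dfam ⟨F.g, F.f, F.smooth_g, F.smooth_f, F.gf, F.fg⟩ 0 x
    have h2 : Ψ' = fun q => F.g (0, q) := funext hΨF'
    rw [h2]
    exact h1
  have injΨ' : Function.Injective Ψ' := fun x z hxz => by rw [← hΨ x, hxz, hΨ]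
  -- the cores
  have hcore : ∀ s ∈ Icc D.s₀ D.s₁, Ψ (D.J (s, 0)) = y 0 s := by
    intro s hs
    have h1 := hN 0 (s, 0) (hLN ⟨hs.1, hs.2, rfl⟩)
    rw [hΨF, h1, thk_core D (y 0) hs]
  have hcore' : ∀ s ∈ Icc D.s₀ D.s₁, Ψ' (y 0 s) = D.J (s, 0) := by
    intro s hs
    rw [← hcore s hs, hΨ']
  have hU : ∀ x ∈ D.U, Ψ' x ∈ D.U := by
    intro x hx
    by_contra hn
    have h1 : Ψ' x ∉ K := fun hk => hn (hKU hk)
    have h2 := hK 0 _ h1
    rw [← hΨF, hΨ] at h2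
    exact hn (h2 ▸ hx)
  have hemb : EmbOn I4 (fun p => Ψ' (T p)) ball4 :=
    ⟨fun p hp => ld_comp (h.emb.1 p hp) (ldΨ' (T p)), fun p hp q hq he =>
      h.emb.2 hp hq (injΨ' he)⟩
  have hmaps : MapsTo (fun p => Ψ' (T p)) ball4 D.U := fun p hp => hU _ (h.TU hp)
  have honly : ∀ p ∈ ball4, Ψ' (T p) ∈ D.A → p.2 = 0 ∨ p.2 = e1 := by
    intro p hp hA
    obtain ⟨p', ⟨h1, h2, h3⟩, h4⟩ := hA
    have h5 : p' = (p'.1, 0) := by rw [← h3]
    rw [h5] at h4
    have h6 : T p = y 0 p'.1 := by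
      rw [← hcore p'.1 ⟨h1, h2⟩, h4, hΨ]
    rcases h.only p hp p'.1 ⟨h1, h2⟩ h6 with h7 | h7
    · exact Or.inl h7.1
    · exact Or.inr h7.1
  refine ⟨hemb, hmaps, honly, ?_⟩
  have hε := h.εpos
  have hν := h.νpos
  have ha := h.ha
  have hab := h.hab
  have hb := h.hb
  -- the strands
  have hev : ∀ᶠ s in 𝓝 (1 / 2 : ℝ), s ∈ Icc (-1 : ℝ) 2 :=
    Icc_mem_nhds (by norm_num) (by norm_num)
  have str0 : ∀ s ∈ Icc (-1 : ℝ) 2, Ψ' (T (s, ((0 : ℝ), (0 : ℂ)))) =
      D.J (a + ε * (s - 1 / 2), 0) := by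
    intro s hs
    have h1 : T (s, ((0 : ℝ), (0 : ℂ))) = y 0 (a + ε * (s - 1 / 2)) := h.c0 s hs
    have h2 : ε * (s - 1 / 2) ≤ ε * (3 / 2) := by
      apply mul_le_mul_of_nonneg_left _ hε.le
      linarith [hs.2]
    have h3 : ε * (-(3 / 2)) ≤ ε * (s - 1 / 2) := by
      apply mul_le_mul_of_nonneg_left _ hε.le
      linarith [hs.1]
    rw [h1, hcore' _ ⟨by linarith, by linarith⟩]
  have str1 : ∀ s ∈ Icc (-1 : ℝ) 2, Ψ' (T (s, ((1 : ℝ), (0 : ℂ)))) =
      D.J (b + ν * (s - 1 / 2), 0) := by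
    intro s hs
    have h1 : T (s, ((1 : ℝ), (0 : ℂ))) = y 0 (b + ν * (s - 1 / 2)) := h.c1 s hs
    have h2 : ν * (s - 1 / 2) ≤ ν * (3 / 2) := by
      apply mul_le_mul_of_nonneg_left _ hν.le
      linarith [hs.2]
    have h3 : ν * (-(3 / 2)) ≤ ν * (s - 1 / 2) := by
      apply mul_le_mul_of_nonneg_left _ hν.le
      linarith [hs.1]
    rw [h1, hcore' _ ⟨by linarith, by linarith⟩]
  have hpt : ∀ p : R4, p.1 = 1 / 2 → (p.2 = 0 ∨ p.2 = e1) →
      p = (1 / 2, ((0 : ℝ), (0 : ℂ))) ∨ p = (1 / 2, ((1 : ℝ), (0 : ℂ))) := by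
    rintro ⟨s, x⟩ h1 (h2 | h2)
    · left
      simp only at h1 h2
      rw [h1, h2]
      rfl
    · right
      simp only at h1 h2
      rw [h1, h2]
      rfl
  have dσ : deriv (fun s : ℝ => a + ε * (s - 1 / 2)) (1 / 2) = ε := by
    have : HasDerivAt (fun s : ℝ => a + ε * (s - 1 / 2)) (ε * 1) (1 / 2) :=
      (((hasDerivAt_id (1 / 2 : ℝ)).sub_const _).const_mul ε).const_add a
    rw [this.deriv, mul_one]
  have dτ : deriv (fun s : ℝ => b + ν * (s - 1 / 2)) (1 / 2) = ν := by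
    have : HasDerivAt (fun s : ℝ => b + ν * (s - 1 / 2)) (ν * 1) (1 / 2) :=
      (((hasDerivAt_id (1 / 2 : ℝ)).sub_const _).const_mul ν).const_add b
    rw [this.deriv, mul_one]
  have hp0 : ((1 / 2, ((0 : ℝ), (0 : ℂ))) : R4) ∈ ball4 := by
    refine ⟨by norm_num, by norm_num, ?_⟩
    simp only [rsq, nsq, Complex.zero_re, Complex.zero_im]
    norm_num
  -- the two determinants
  have hd1 : (fderiv ℝ (fun p => Ψ' (T p)) (1 / 2, ((0 : ℝ), (0 : ℂ)))).det ≠ 0 :=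
    det_ne (hemb.1 _ hp0)
  have haI : a ∈ Icc D.s₀ D.s₁ := ⟨by linarith, by linarith⟩
  have hd2 : (fderiv ℝ D.J (a, 0)).det ≠ 0 := det_ne (D.emb.1 _ ⟨haI.1, haI.2, rfl⟩)
  -- the general statement
  have gen : ∀ S : R4 → R4, EmbOn I4 S ball4 → MapsTo S ball4 D.U →
      (∀ p ∈ ball4, S p ∈ D.A → p.2 = 0 ∨ p.2 = e1) →
      (∀ s ∈ Icc (-1 : ℝ) 2, S (s, ((0 : ℝ), (0 : ℂ))) = D.J (a + ε * (s - 1 / 2), 0)) →
      (∀ s ∈ Icc (-1 : ℝ) 2, S (s, ((1 : ℝ), (0 : ℂ))) = D.J (b + ν * (s - 1 / 2), 0)) →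
      0 < (fderiv ℝ S (1 / 2, ((0 : ℝ), (0 : ℂ)))).det * (fderiv ℝ D.J (a, 0)).det →
      D.XG S := by
    intro S e1' e2 e3 e4 e5 e6
    refine ⟨ld_mono e1' fun p hp => FBball hp, fun p hp => e2 (FBball hp), fun p hp hA =>
      hpt p (fst_FB hp) (e3 p (FBball hp) hA), fun s => a + ε * (s - 1 / 2),
      fun s => b + ν * (s - 1 / 2), by fun_prop, by fun_prop, ?_, ?_, ?_, ?_, ?_, ?_, ?_, ?_⟩
    · rw [dσ]; exact hε
    · rw [dτ]; exact hν
    · simp only [sub_self, mul_zero, add_zero]; linarith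
    · simp only [sub_self, mul_zero, add_zero]; linarith
    · simp only [sub_self, mul_zero, add_zero]; linarith
    · filter_upwards [hev] with s hs
      exact e4 s hs
    · filter_upwards [hev] with s hs
      exact e5 s hs
    · simp only [sub_self, mul_zero, add_zero]
      exact e6
  rcases lt_or_gt_of_ne (mul_ne_zero hd1 hd2) with hneg | hpos
  · right
    refine gen (fun p => Ψ' (T (refh p))) ?_ ?_ ?_ ?_ ?_ ?_
    · exact ⟨fun p hp => ld_comp (F := fun p => Ψ' (T p)) (m := refh) (ld p)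
        (hemb.1 _ (ballm hp)), fun p hp q hq he =>
        injective (hemb.2 (ballm hp) (ballm hq) he)⟩
    · exact fun p hp => hmaps (ballm hp)
    · intro p hp hA
      rcases honly _ (ballm hp) hA with h1 | h1
      · left
        have h2 : (refh p).2 = (refh (p.1, 0)).2 := by rw [h1]; simp [refh]; rfl
        have h3 : refh p = refh (p.1, 0) := Prod.ext rfl h2
        have h4 := injective h3
        rw [h4]
      · right
        have h2 : (refh p).2 = (refh (p.1, e1)).2 := by rw [h1]; simp [refh, e1]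
        have h3 : refh p = refh (p.1, e1) := Prod.ext rfl h2
        have h4 := injective h3
        rw [h4]
    · intro s hs
      have h1 : refh (s, ((0 : ℝ), (0 : ℂ))) = (s, ((0 : ℝ), (0 : ℂ))) := by simp [refh]
      simp only [h1]
      exact str0 s hs
    · intro s hs
      have h1 : refh (s, ((1 : ℝ), (0 : ℂ))) = (s, ((1 : ℝ), (0 : ℂ))) := by simp [refh]
      simp only [h1]
      exact str1 s hs
    · have h1 : refh (1 / 2, ((0 : ℝ), (0 : ℂ))) = (1 / 2, ((0 : ℝ), (0 : ℂ))) := by simp [refh]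
      have h2 : LD (fun p => Ψ' (T p)) (refh (1 / 2, ((0 : ℝ), (0 : ℂ)))) := by
        rw [h1]
        exact hemb.1 _ hp0
      have h3 := fd h2
      rw [h1] at h3
      rw [h3, det_comp', det_L]
      linarith
  · left
    exact gen _ hemb hmaps honly str0 str1 hpos

end Pool.Agent.Helper34.BI.H
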