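import Pool.Agent.Helper34.BI.H.StH4

/-!
# Project BI, stage 3, module H4: general position for two-parameter families of arcs
-/

set_option autoImplicit false

open Module Set Filter Topology MeasureTheory
open scoped ContDiff Manifold
open Pool.Agent.Helper65.Barb Pool.Agent.Helper18.BI

namespace Pool.Agent.Helper34.BI.H

namespace H4m

lemma contDiff_mon (j : Fin 8) : ContDiff ℝ ∞ (fun z : ℝ × ℝ × ℝ => mon z j) := by
  fin_cases j <;> simp only [mon] <;>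
    simp only [Fin.mk_zero, Fin.mk_one, Matrix.cons_val_zero, Matrix.cons_val_one,
      Fin.reduceFinMk, Matrix.cons_val] <;> fun_prop

lemma contDiff_prt {α : ℝ × ℝ × ℝ → R4} {ρ : ℝ × ℝ → ℝ} {χ : ℝ → ℝ} (hα : ContDiff ℝ ∞ α)
    (hρ : ContDiff ℝ ∞ ρ) (hχ : ContDiff ℝ ∞ χ) (p : Fin 8 → R4) :
    ContDiff ℝ ∞ (prt α ρ χ p) := by
  unfold prt
  refine hα.add (ContDiff.sum fun j _ => ContDiff.smul (ContDiff.mul (ContDiff.mul ?_ ?_)
    (contDiff_mon j)) contDiff_const)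
  · exact hρ.comp (by fun_prop)
  · exact hχ.comp (by fun_prop)

lemma continuous_prt {α : ℝ × ℝ × ℝ → R4} {ρ : ℝ × ℝ → ℝ} {χ : ℝ → ℝ} (hα : Continuous α)
    (hρ : Continuous ρ) (hχ : Continuous χ) :
    Continuous (fun x : (Fin 8 → R4) × (ℝ × ℝ × ℝ) => prt α ρ χ x.1 x.2) := by
  unfold prt
  refine (hα.comp continuous_snd).add (continuous_finsetSum _ fun j _ => ?_)
  have e1 : Continuous (fun x : (Fin 8 → R4) × (ℝ × ℝ × ℝ) => ρ (x.2.1, x.2.2.1)) :=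
    hρ.comp (by fun_prop)
  have e2 : Continuous (fun x : (Fin 8 → R4) × (ℝ × ℝ × ℝ) => χ x.2.2.2) :=
    hχ.comp (by fun_prop)
  have e3 : Continuous (fun x : (Fin 8 → R4) × (ℝ × ℝ × ℝ) => mon x.2 j) :=
    (contDiff_mon j).continuous.comp continuous_snd
  have e4 : Continuous (fun x : (Fin 8 → R4) × (ℝ × ℝ × ℝ) => x.1 j) :=
    (continuous_apply j).comp continuous_fst
  exact ((e1.mul e2).mul e3).smul e4

/-- smallness of the perturbation -/
lemma exists_eps {α : ℝ × ℝ × ℝ → R4} {ρ : ℝ × ℝ → ℝ} {χ : ℝ → ℝ} (hα : Continuous α)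
    (hρ : Continuous ρ) (hχ : Continuous χ) {K : Set R4} (hK : IsCompact K)
    {S : Set (ℝ × ℝ × ℝ)} (hS : IsCompact S) (hSK : ∀ z ∈ S, α z ∉ K) :
    ∃ ε > 0, ∀ p : Fin 8 → R4, ‖p‖ < ε → ∀ z ∈ S, prt α ρ χ p z ∉ K := by
  have hop : IsOpen {x : (Fin 8 → R4) × (ℝ × ℝ × ℝ) | prt α ρ χ x.1 x.2 ∉ K} :=
    hK.isClosed.isOpen_compl.preimage (continuous_prt hα hρ hχ)
  have hsub : ({0} : Set (Fin 8 → R4)) ×ˢ S ⊆
      {x : (Fin 8 → R4) × (ℝ × ℝ × ℝ) | prt α ρ χ x.1 x.2 ∉ K} := by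
    rintro ⟨p, z⟩ ⟨hp, hz⟩
    have hp' : p = 0 := hp
    subst hp'
    have : prt α ρ χ 0 z = α z := by simp [prt]
    simp only [mem_ofPred_eq, this]
    exact hSK z hz
  obtain ⟨U, V, hU, -, h0, hSV, hUV⟩ := generalized_tube_lemma isCompact_singleton hS hop hsub
  obtain ⟨ε, hε, hball⟩ := Metric.isOpen_iff.1 hU 0 (h0 rfl)
  refine ⟨ε, hε, fun p hp z hz => ?_⟩
  exact hUV (mk_mem_prod (hball (by simpa using hp)) (hSV hz))

/-- derivative of the perturbation where `χ` vanishes -/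
lemma hasDerivAt_frozen {α : ℝ × ℝ × ℝ → R4} {ρ : ℝ × ℝ → ℝ} {χ : ℝ → ℝ}
    (hα : ContDiff ℝ ∞ α) (hχ : ContDiff ℝ ∞ χ) (hχ0 : ∀ s, 0 ≤ χ s) (p : Fin 8 → R4)
    (u q s : ℝ) (hs : χ s = 0) (hfr : ∀ᶠ r in 𝓝 s, α (u, q, r) = α (0, 0, r)) :
    deriv (fun r => prt α ρ χ p (u, q, r)) s = deriv (fun r => α (0, 0, r)) s := by
  have hmin : deriv χ s = 0 := by
    have : IsLocalMin χ s := Eventually.of_forall fun r => by
      show χ s ≤ χ r
      rw [hs]; exact hχ0 r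
    exact this.deriv_eq_zero
  have d2 : HasDerivAt χ 0 s := by
    rw [← hmin]
    exact (hχ.differentiable (by simp) s).hasDerivAt
  let G : ℝ → R4 := fun r => ∑ j, (ρ (u, q) * mon (u, q, r) j) • p j
  have hG : Differentiable ℝ G := by
    have : ContDiff ℝ ∞ G := by
      refine ContDiff.sum fun j _ => ?_
      have e1 : ContDiff ℝ ∞ (fun r : ℝ => mon (u, q, r) j) := (contDiff_mon j).comp (by fun_prop)
      have e2 : ContDiff ℝ ∞ (fun r : ℝ => ρ (u, q) * mon (u, q, r) j) := contDiff_const.mul e1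
      exact e2.smul contDiff_const
    exact this.differentiable (by simp)
  have d3 : HasDerivAt (fun r => χ r • G r) 0 s := by
    have := d2.smul (hG s).hasDerivAt
    refine this.congr_deriv ?_
    simp [hs]
  have hα0 : Differentiable ℝ (fun r : ℝ => α (0, 0, r)) := by
    have : ContDiff ℝ ∞ (fun r : ℝ => α (0, 0, r)) := hα.comp (by fun_prop)
    exact this.differentiable (by simp)
  have d4 := (hα0 s).hasDerivAt.add d3
  rw [add_zero] at d4
  have d5 : HasDerivAt (fun r => prt α ρ χ p (u, q, r)) (deriv (fun r => α (0, 0, r)) s) s := by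
    refine d4.congr_of_eventuallyEq ?_
    filter_upwards [hfr] with r hr
    simp only [prt, hr, Pi.add_apply, G, Finset.smul_sum, smul_smul]
    congr 1
    refine Finset.sum_congr rfl fun j _ => ?_
    congr 1
    ring
  exact d5.deriv

/-- local injectivity -/
lemma locInj {X Y : Type} [NormedAddCommGroup X] [NormedSpace ℝ X] [FiniteDimensional ℝ X]
    [NormedAddCommGroup Y] [NormedSpace ℝ Y] [FiniteDimensional ℝ Y]
    (hdim : finrank ℝ X = finrank ℝ Y) {f : X → Y} (hf : ContDiff ℝ ∞ f) {x : X}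
    (hinj : Function.Injective (fderiv ℝ f x)) : ∃ U ∈ 𝓝 x, InjOn f U := by
  have h := isLocalDiffeomorphAt_of_injective hdim
    (Eventually.of_forall fun q => hf.contDiffAt) hinj
  obtain ⟨Φ, hx, hΦ⟩ := h
  refine ⟨Φ.source, Φ.open_source.mem_nhds hx, ?_⟩
  intro a ha b hb hab
  rw [hΦ ha, hΦ hb] at hab
  exact Φ.toPartialEquiv.injOn ha hb hab

/-- no double points near an immersed point -/
lemma near_diag {β : ℝ × ℝ × ℝ → R4} (hβ : ContDiff ℝ ∞ β) {u q s : ℝ}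
    (hne : deriv (fun r => β (u, q, r)) s ≠ 0) :
    ∃ N ∈ 𝓝 ((u, q, s, s) : ℝ × ℝ × ℝ × ℝ), ∀ y ∈ N, y.2.2.1 < y.2.2.2 →
      β (y.1, y.2.1, y.2.2.1) ≠ β (y.1, y.2.1, y.2.2.2) := by
  have hder : ∀ u q s, HasDerivAt (fun r => β (u, q, r)) (fderiv ℝ β (u, q, s) (0, 0, 1)) s := by
    intro u q s
    have l : HasDerivAt (fun r : ℝ => ((u, q, r) : ℝ × ℝ × ℝ)) (0, 0, 1) s :=
      (hasDerivAt_const s u).prodMk ((hasDerivAt_const s q).prodMk (hasDerivAt_id s))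
    exact HasFDerivAt.comp_hasDerivAt_of_eq s ((hβ.differentiable (by simp) (u, q, s)).hasFDerivAt)
      l rfl
  rw [(hder u q s).deriv] at hne
  obtain ⟨f, hf⟩ := SeparatingDual.exists_ne_zero (R := ℝ) hne
  have hcont : Continuous (fun z : ℝ × ℝ × ℝ => f (fderiv ℝ β z (0, 0, 1))) := by
    have : Continuous (fderiv ℝ β) := hβ.continuous_fderiv (by simp)
    exact f.continuous.comp (this.clm_apply continuous_const)
  have hop : IsOpen {z : ℝ × ℝ × ℝ | f (fderiv ℝ β z (0, 0, 1)) ≠ 0} :=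
    isOpen_ne_fun hcont continuous_const
  obtain ⟨r, hr, hball⟩ := Metric.isOpen_iff.1 hop (u, q, s) hf
  refine ⟨Metric.ball (u, q, s, s) r, Metric.ball_mem_nhds _ hr, ?_⟩
  rintro ⟨u', q', s', t'⟩ hy hlt heq
  simp only at hlt heq
  rw [Metric.mem_ball, Prod.dist_eq, Prod.dist_eq, Prod.dist_eq, max_lt_iff, max_lt_iff,
    max_lt_iff] at hy
  obtain ⟨h1, h2, h3, h4⟩ := hy
  simp only at h1 h2 h3 h4
  have hh : ∀ c, HasDerivAt (fun c => f (β (u', q', c))) (f (fderiv ℝ β (u', q', c) (0, 0, 1))) c :=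
    fun c => f.hasFDerivAt.comp_hasDerivAt c (hder u' q' c)
  obtain ⟨c, hc, hc0⟩ := exists_deriv_eq_zero (f := fun c => f (β (u', q', c))) hlt
    (fun c _ => (hh c).continuousAt.continuousWithinAt) (by simp only [heq])
  rw [(hh c).deriv] at hc0
  refine hball (?_ : (u', q', c) ∈ Metric.ball (u, q, s) r) hc0
  rw [Metric.mem_ball, Prod.dist_eq, Prod.dist_eq, max_lt_iff, max_lt_iff]
  refine ⟨h1, h2, ?_⟩
  simp only
  rw [Real.dist_eq, abs_lt] at h3 h4 ⊢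
  exact ⟨by linarith [hc.1], by linarith [hc.2]⟩

end H4m

open H4m

theorem m_H4 (hGP : StGP) : StH4 := by
  intro α s₀ s₁ δ K hK hin
  obtain ⟨hα, hδ, hδ2, hroom, hfroz, hemb, hoff⟩ := hin
  set ρ : ℝ × ℝ → ℝ := fun x => hat (δ / 2) (1 - δ / 2) x.1 * hat (δ / 2) (1 - δ / 2) x.2
    with hρdef
  set χ : ℝ → ℝ := hat (s₀ + δ) (s₁ - δ) with hχdef
  have hρ : ContDiff ℝ ∞ ρ :=
    ((contDiff_hat _ _).comp contDiff_fst).mul ((contDiff_hat _ _).comp contDiff_snd)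
  have hχ : ContDiff ℝ ∞ χ := contDiff_hat _ _
  have hρz : ∀ u q, ρ (u, q) = 0 → Nb (δ / 2) u q := by
    intro u q h
    by_contra hcon
    unfold Nb at hcon
    push Not at hcon
    obtain ⟨c1, c2, c3, c4⟩ := hcon
    exact mul_ne_zero (hat_ne_zero.2 ⟨c1, c2⟩) (hat_ne_zero.2 ⟨c3, c4⟩) h
  have hρz' : ∀ u q, Nb (δ / 2) u q → ρ (u, q) = 0 := by
    intro u q h
    simp only [hρdef]
    rcases h with h | h | h | h
    · rw [hat_eq_zero (Or.inl h), zero_mul]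
    · rw [hat_eq_zero (Or.inr h), zero_mul]
    · rw [hat_eq_zero (Or.inl h), mul_zero]
    · rw [hat_eq_zero (Or.inr h), mul_zero]
  have hρi : ∀ u q, ρ (u, q) ≠ 0 → u ∈ Ioo (0 : ℝ) 1 ∧ q ∈ Ioo (0 : ℝ) 1 := by
    intro u q h
    have h1 := hat_ne_zero.1 (left_ne_zero_of_mul h)
    have h2 := hat_ne_zero.1 (right_ne_zero_of_mul h)
    simp only at h1 h2
    exact ⟨⟨by linarith [h1.1], by linarith [h1.2]⟩, ⟨by linarith [h2.1], by linarith [h2.2]⟩⟩
  have hNb : ∀ u q, Nb (δ / 2) u q → Nb δ u q := by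
    intro u q h
    rcases h with h | h | h | h
    · exact Or.inl (by linarith)
    · exact Or.inr (Or.inl (by linarith))
    · exact Or.inr (Or.inr (Or.inl (by linarith)))
    · exact Or.inr (Or.inr (Or.inr (by linarith)))
  have hχz : ∀ s, χ s = 0 → s ≤ s₀ + δ ∨ s₁ - δ ≤ s := by
    intro s h
    by_contra hcon
    push Not at hcon
    exact hat_ne_zero.2 hcon h
  have hχz' : ∀ s, (s ≤ s₀ + δ ∨ s₁ - δ ≤ s) → χ s = 0 := fun s h => hat_eq_zero h
  have hχi : ∀ s, χ s ≠ 0 → s₀ + δ < s ∧ s < s₁ - δ := fun s h => hat_ne_zero.1 h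
  -- the perturbation
  have hScomp : IsCompact (Icc (0 : ℝ) 1 ×ˢ (Icc (0 : ℝ) 1 ×ˢ Icc (s₀ + δ) (s₁ - δ))) :=
    isCompact_Icc.prod (isCompact_Icc.prod isCompact_Icc)
  obtain ⟨ε, hε, hεK⟩ := exists_eps hα.continuous hρ.continuous hχ.continuous hK hScomp
    (fun z hz => hoff z.1 z.2.1 ⟨hz.1, hz.2.1⟩ z.2.2 hz.2.2)
  obtain ⟨p, hp, hgp⟩ := hGP α ρ χ hα hρ hχ ε hε
  set β : ℝ × ℝ × ℝ → R4 := prt α ρ χ p with hβdef
  have hβ : ContDiff ℝ ∞ β := contDiff_prt hα hρ hχ p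
  have hβρ : ∀ u q s, ρ (u, q) = 0 → β (u, q, s) = α (u, q, s) := by
    intro u q s h
    simp [hβdef, prt, h]
  have hβχ : ∀ u q s, χ s = 0 → β (u, q, s) = α (0, 0, s) := by
    intro u q s h
    have h1 : β (u, q, s) = α (u, q, s) := by simp [hβdef, prt, h]
    rw [h1]
    apply hfroz
    rcases hχz s h with h2 | h2
    · exact Or.inl (by linarith)
    · exact Or.inr (by linarith)
  have hSq0 : Sq 0 0 := ⟨⟨le_rfl, zero_le_one⟩, ⟨le_rfl, zero_le_one⟩⟩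
  have hNb0 : Nb δ 0 0 := Or.inl hδ.le
  have hinj0 := (hemb 0 0 hSq0 hNb0).1
  have hoffβ : ∀ u q, Sq u q → ∀ s ∈ Icc (s₀ + δ) (s₁ - δ), β (u, q, s) ∉ K := by
    intro u q h s hs
    exact hεK p hp (u, q, s) ⟨h.1, h.2, hs⟩
  have himm : ∀ u q, Sq u q → ∀ s ∈ Icc s₀ s₁, deriv (fun s => β (u, q, s)) s ≠ 0 := by
    intro u q h s hs
    by_cases h1 : ρ (u, q) = 0
    · have e : (fun s => β (u, q, s)) = fun s => α (u, q, s) := funext fun s => hβρ u q s h1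
      rw [e]
      exact (hemb u q h (hNb u q (hρz u q h1))).2 s hs
    · by_cases h2 : χ s = 0
      · have e := hasDerivAt_frozen (ρ := ρ) hα hχ (fun s => hat_nonneg _ _ s) p u q s h2 (by
          rcases hχz s h2 with h3 | h3
          · filter_upwards [Iio_mem_nhds (show s < s₀ + 2 * δ by linarith)] with r hr
            exact hfroz u q r (Or.inl (le_of_lt hr))
          · filter_upwards [Ioi_mem_nhds (show s₁ - 2 * δ < s by linarith)] with r hr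
            exact hfroz u q r (Or.inr (le_of_lt hr)))
        rw [hβdef, e]
        exact (hemb 0 0 hSq0 hNb0).2 s hs
      · exact hgp.imm u q s h1 h2
  let D : Set (ℝ × ℝ × ℝ × ℝ) := {d | Sq d.1 d.2.1 ∧ d.2.2.1 ∈ Icc s₀ s₁ ∧ d.2.2.2 ∈ Icc s₀ s₁ ∧
    d.2.2.1 < d.2.2.2 ∧ β (d.1, d.2.1, d.2.2.1) = β (d.1, d.2.1, d.2.2.2)}
  have hDρ : ∀ d ∈ D, ρ (d.1, d.2.1) ≠ 0 := by
    rintro ⟨u, q, s, t⟩ ⟨h1, h2, h3, h4, h5⟩ h
    simp only at h1 h2 h3 h4 h5 h
    rw [hβρ u q s h, hβρ u q t h] at h5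
    exact h4.ne ((hemb u q h1 (hNb u q (hρz u q h))).1 h2 h3 h5)
  have hDχ : ∀ d ∈ D, χ d.2.2.1 ≠ 0 ∨ χ d.2.2.2 ≠ 0 := by
    rintro ⟨u, q, s, t⟩ ⟨h1, h2, h3, h4, h5⟩
    simp only at h1 h2 h3 h4 h5 ⊢
    by_contra hcon
    push Not at hcon
    rw [hβχ u q s hcon.1, hβχ u q t hcon.2] at h5
    exact h4.ne (hinj0 h2 h3 h5)
  have hDt : ∀ d ∈ D, Function.Injective (fderiv ℝ (dbl β) d) := by
    intro d hd
    obtain ⟨u, q, s, t⟩ := d
    exact hgp.trans u q s t (hDρ _ hd) hd.2.2.2.1.ne (hDχ _ hd) hd.2.2.2.2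
  have hdbl : ContDiff ℝ ∞ (dbl β) := by
    unfold dbl
    exact (hβ.comp (by fun_prop)).sub (hβ.comp (by fun_prop))
  -- separation
  have hsep : ∀ d ∈ D, ∀ d' ∈ D, (d.1 = d'.1 ∨ d.2.1 = d'.2.1) → d = d' := by
    intro d hd d' hd' hor
    by_contra hne
    have r1 := hDρ d hd
    have r2 := hDρ d' hd'
    have x1 := hDχ d hd
    have x2 := hDχ d' hd'
    obtain ⟨u, q, s, t⟩ := d
    obtain ⟨u', q', s', t'⟩ := d'
    obtain ⟨a1, a2, a3, a4, a5⟩ := hd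
    obtain ⟨b1, b2, b3, b4, b5⟩ := hd'
    simp only at r1 r2 x1 x2 a1 a2 a3 a4 a5 b1 b2 b3 b4 b5 hor
    by_cases huq : (u, q) = (u', q')
    · rw [Prod.mk.injEq] at huq
      obtain ⟨rfl, rfl⟩ := huq
      have n3 : ¬ (s = s' ∧ t = t') := by
        rintro ⟨rfl, rfl⟩
        exact hne rfl
      have n4 : ¬ (s = t' ∧ t = s') := by
        rintro ⟨e1, e2⟩
        linarith
      refine hgp.one u q s t s' t' r1 ⟨a4.ne, b4.ne, n3, n4, x1, x2, ?_, ?_, ?_, ?_⟩ a5 b5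
      · intro e
        by_contra hcon
        push Not at hcon
        apply n3
        refine ⟨e, hinj0 a3 b3 ?_⟩
        simp only
        rw [← hβχ u q t hcon.1, ← hβχ u q t' hcon.2, ← a5, ← b5, e]
      · intro e
        by_contra hcon
        push Not at hcon
        apply n4
        refine ⟨e, hinj0 a3 b2 ?_⟩
        simp only
        rw [← hβχ u q t hcon.1, ← hβχ u q s' hcon.2, ← a5, b5, e]
      · intro e
        by_contra hcon
        push Not at hcon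
        apply n4
        refine ⟨hinj0 a2 b3 ?_, e⟩
        simp only
        rw [← hβχ u q s hcon.1, ← hβχ u q t' hcon.2, a5, ← b5, e]
      · intro e
        by_contra hcon
        push Not at hcon
        apply n3
        refine ⟨hinj0 a2 b2 ?_, e⟩
        simp only
        rw [← hβχ u q s hcon.1, ← hβχ u q s' hcon.2, a5, b5, e]
    · exact hgp.sep u q u' q' s t s' t' huq hor r1 r2 a4.ne b4.ne x1 x2 a5 b5
  refine ⟨β, D, ⟨hβ, ?_, ?_, hoffβ, himm, ?_, ?_, ?_, ?_, ?_⟩⟩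
  · intro u q s hs
    exact hβχ u q s (hχz' s hs)
  · intro u q s h
    exact hβρ u q s (hρz' u q h)
  · -- finiteness
    by_contra hinf
    have hinf' : D.Infinite := hinf
    have hsub : D ⊆ Icc (0 : ℝ) 1 ×ˢ (Icc (0 : ℝ) 1 ×ˢ (Icc s₀ s₁ ×ˢ Icc s₀ s₁)) := by
      rintro ⟨u, q, s, t⟩ ⟨h1, h2, h3, h4, h5⟩
      exact ⟨h1.1, h1.2, h2, h3⟩
    obtain ⟨x, hx, hacc⟩ := hinf'.exists_accPt_of_subset_isCompact
      (isCompact_Icc.prod (isCompact_Icc.prod (isCompact_Icc.prod isCompact_Icc))) hsub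
    have hle : x.2.2.1 ≤ x.2.2.2 := by
      have hcl : IsClosed {y : ℝ × ℝ × ℝ × ℝ | y.2.2.1 ≤ y.2.2.2} :=
        isClosed_le (by fun_prop) (by fun_prop)
      have h1 : x ∈ closure {y : ℝ × ℝ × ℝ × ℝ | y.2.2.1 ≤ y.2.2.2} := by
        rw [mem_closure_iff_clusterPt]
        refine hacc.clusterPt.mono ?_
        rw [Filter.principal_mono]
        exact fun y hy => hy.2.2.2.1.le
      rwa [hcl.closure_eq] at h1
    rw [accPt_iff_nhds] at hacc
    obtain ⟨u, q, s, t⟩ := x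
    obtain ⟨hx1, hx2, hx3, hx4⟩ := hx
    simp only at hle hx1 hx2 hx3 hx4
    rcases hle.lt_or_eq with hlt | rfl
    · by_cases hval : β (u, q, s) = β (u, q, t)
      · have hxD : (u, q, s, t) ∈ D := ⟨⟨hx1, hx2⟩, hx3, hx4, hlt, hval⟩
        obtain ⟨U, hU, hUi⟩ := locInj (by simp [Complex.finrank_real_complex]) hdbl (hDt _ hxD)
        obtain ⟨y, ⟨hyU, hyD⟩, hne⟩ := hacc U hU
        apply hne
        refine hUi hyU (mem_of_mem_nhds hU) ?_
        have e1 : dbl β y = 0 := sub_eq_zero.2 hyD.2.2.2.2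
        have e2 : dbl β (u, q, s, t) = 0 := sub_eq_zero.2 hval
        rw [e1, e2]
      · have hop : IsOpen {y : ℝ × ℝ × ℝ × ℝ | β (y.1, y.2.1, y.2.2.1) ≠
            β (y.1, y.2.1, y.2.2.2)} :=
          isOpen_ne_fun (hβ.continuous.comp (by fun_prop)) (hβ.continuous.comp (by fun_prop))
        obtain ⟨y, ⟨hyU, hyD⟩, -⟩ := hacc _ (hop.mem_nhds hval)
        exact hyU hyD.2.2.2.2
    · obtain ⟨N, hN, hNy⟩ := near_diag hβ (himm u q ⟨hx1, hx2⟩ s hx3)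
      obtain ⟨y, ⟨hyU, hyD⟩, -⟩ := hacc N hN
      exact hNy y hyU hyD.2.2.2.1 hyD.2.2.2.2
  · intro u q h s hs t ht hst he
    exact ⟨h, hs, ht, hst, he⟩
  · intro u q s t hd
    have r1 := hDρ _ hd
    have x1 := hDχ _ hd
    have t1 := hDt _ hd
    obtain ⟨a1, a2, a3, a4, a5⟩ := hd
    simp only at r1 x1 a1 a2 a3 a4 a5
    obtain ⟨i1, i2⟩ := hρi u q r1
    refine ⟨i1, i2, a2, a3, a4, a5, ?_, t1⟩
    rcases x1 with h | h
    · exact hoffβ u q a1 s ⟨(hχi s h).1.le, (hχi s h).2.le⟩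
    · rw [a5]
      exact hoffβ u q a1 t ⟨(hχi t h).1.le, (hχi t h).2.le⟩
  · intro d hd d' hd' h
    exact hsep d hd d' hd' (Or.inl h)
  · intro d hd d' hd' h
    exact hsep d hd d' hd' (Or.inr h)

end Pool.Agent.Helper34.BI.H
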