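import Pool.Agent.Helper34.BI.H.StH5c
import Pool.Agent.Helper34.BI.H.M_H4

/-!
# Project BI, stage 3, module XL: the arcs of the homotopy to the local model are embedded
-/

set_option autoImplicit false

open Module Set Filter Topology
open scoped ContDiff Manifold
open Pool.Agent.Helper65.Barb Pool.Agent.Helper18.BI Pool.Agent.Helper27.BI
open Pool.Agent.Helper27.H (ArcD)

namespace Pool.Agent.Helper34.BI.H

namespace XL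

variable (c : ℝ × ℝ × ℝ → R4) (u₀ q₀ a b : ℝ)

lemma contDiff_lw : ContDiff ℝ ∞ (lw c u₀ q₀ a b) := by
  unfold lw
  exact ((fderiv ℝ c (u₀, q₀, a)).contDiff.comp (by fun_prop)).sub
    ((fderiv ℝ c (u₀, q₀, b)).contDiff.comp (by fun_prop))

lemma lw_zero : lw c u₀ q₀ a b 0 = 0 := by
  simp only [lw, Prod.fst_zero, Prod.snd_zero]
  have : ((0, 0, 0) : ℝ × ℝ × ℝ) = 0 := rfl
  rw [this, map_zero, map_zero, sub_zero]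

lemma lw_smul (r : ℝ) (w : ℝ × ℝ) : lw c u₀ q₀ a b (r • w) = r • lw c u₀ q₀ a b w := by
  simp only [lw, Prod.smul_fst, Prod.smul_snd]
  have : ((r • w.1, r • w.2, 0) : ℝ × ℝ × ℝ) = r • (w.1, w.2, 0) := by
    simp
  rw [this, map_smul, map_smul, smul_sub]

variable {c}

lemma contDiff_xl (hc : ContDiff ℝ ∞ c) {κ₁ κ₂ : ℝ → ℝ} (h1 : ContDiff ℝ ∞ κ₁)
    (h2 : ContDiff ℝ ∞ κ₂) :
    ContDiff ℝ ∞ (fun z : (ℝ × (ℝ × ℝ) × (ℝ × ℝ)) × ℝ =>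
      xl c u₀ q₀ a b κ₁ κ₂ z.1.1 z.1.2.1 z.1.2.2 z.2) := by
  unfold xl
  have e1 : ContDiff ℝ ∞ (fun z : (ℝ × (ℝ × ℝ) × (ℝ × ℝ)) × ℝ =>
      c (u₀ + z.1.2.2.1, q₀ + z.1.2.2.2, z.2)) := hc.comp (by fun_prop)
  have e2 : ContDiff ℝ ∞ (fun z : (ℝ × (ℝ × ℝ) × (ℝ × ℝ)) × ℝ => c (u₀, q₀, z.2)) :=
    hc.comp (by fun_prop)
  have e3 : ContDiff ℝ ∞ (fun z : (ℝ × (ℝ × ℝ) × (ℝ × ℝ)) × ℝ => κ₁ (z.2 - b)) :=
    h1.comp (by fun_prop)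
  have e4 : ContDiff ℝ ∞ (fun z : (ℝ × (ℝ × ℝ) × (ℝ × ℝ)) × ℝ => κ₂ (z.2 - b)) :=
    h2.comp (by fun_prop)
  have e5 : ContDiff ℝ ∞ (fun z : (ℝ × (ℝ × ℝ) × (ℝ × ℝ)) × ℝ =>
      lw c u₀ q₀ a b (z.1.2.1 + κ₂ (z.2 - b) • (z.1.2.2 - z.1.2.1))) := by
    refine (contDiff_lw c u₀ q₀ a b).comp ?_
    have e6 : ContDiff ℝ ∞ (fun z : (ℝ × (ℝ × ℝ) × (ℝ × ℝ)) × ℝ => z.1.2.2 - z.1.2.1) := by
      fun_prop
    have e7 : ContDiff ℝ ∞ (fun z : (ℝ × (ℝ × ℝ) × (ℝ × ℝ)) × ℝ => z.1.2.1) := by fun_prop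
    exact e7.add (e4.smul e6)
  have e8 : ContDiff ℝ ∞ (fun z : (ℝ × (ℝ × ℝ) × (ℝ × ℝ)) × ℝ => 1 - z.1.1) := by fun_prop
  have e9 : ContDiff ℝ ∞ (fun z : (ℝ × (ℝ × ℝ) × (ℝ × ℝ)) × ℝ => z.1.1) := by fun_prop
  exact (e8.smul e1).add (e9.smul (e2.sub (e3.smul e5)))

/-- the difference of the two strands -/
noncomputable def FF (c : ℝ × ℝ × ℝ → R4) (u₀ q₀ a b : ℝ) (z : (ℝ × ℝ × ℝ) × ℝ × ℝ) : R4 :=
  (1 - z.1.1) • (c (u₀ + z.1.2.1, q₀ + z.1.2.2, z.2.2) - c (u₀ + z.1.2.1, q₀ + z.1.2.2, z.2.1)) +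
    z.1.1 • (c (u₀, q₀, z.2.2) - c (u₀, q₀, z.2.1) - lw c u₀ q₀ a b z.1.2)

/-- with the parameter -/
noncomputable def GG (c : ℝ × ℝ × ℝ → R4) (u₀ q₀ a b : ℝ) (z : (ℝ × ℝ × ℝ) × ℝ × ℝ) : ℝ × R4 :=
  (z.1.1, FF c u₀ q₀ a b z)

lemma contDiff_GG (hc : ContDiff ℝ ∞ c) : ContDiff ℝ ∞ (GG c u₀ q₀ a b) := by
  have e1 : ContDiff ℝ ∞ (fun z : (ℝ × ℝ × ℝ) × ℝ × ℝ =>
      c (u₀ + z.1.2.1, q₀ + z.1.2.2, z.2.2)) := hc.comp (by fun_prop)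
  have e2 : ContDiff ℝ ∞ (fun z : (ℝ × ℝ × ℝ) × ℝ × ℝ =>
      c (u₀ + z.1.2.1, q₀ + z.1.2.2, z.2.1)) := hc.comp (by fun_prop)
  have e3 : ContDiff ℝ ∞ (fun z : (ℝ × ℝ × ℝ) × ℝ × ℝ => c (u₀, q₀, z.2.2)) :=
    hc.comp (by fun_prop)
  have e4 : ContDiff ℝ ∞ (fun z : (ℝ × ℝ × ℝ) × ℝ × ℝ => c (u₀, q₀, z.2.1)) :=
    hc.comp (by fun_prop)
  have e5 : ContDiff ℝ ∞ (fun z : (ℝ × ℝ × ℝ) × ℝ × ℝ => lw c u₀ q₀ a b z.1.2) :=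
    (contDiff_lw c u₀ q₀ a b).comp (by fun_prop)
  have e8 : ContDiff ℝ ∞ (fun z : (ℝ × ℝ × ℝ) × ℝ × ℝ => 1 - z.1.1) := by fun_prop
  have e9 : ContDiff ℝ ∞ (fun z : (ℝ × ℝ × ℝ) × ℝ × ℝ => z.1.1) := by fun_prop
  exact e9.prodMk ((e8.smul (e1.sub e2)).add (e9.smul ((e3.sub e4).sub e5)))

lemma line_c (hc : ContDiff ℝ ∞ c) (p w : ℝ × ℝ × ℝ) :
    HasDerivAt (fun r : ℝ => c (p + r • w)) (fderiv ℝ c p w) 0 := by
  have l : HasDerivAt (fun r : ℝ => p + r • w) w 0 := by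
    have := ((hasDerivAt_id (0 : ℝ)).smul_const w).const_add p
    simpa using this
  exact HasFDerivAt.comp_hasDerivAt_of_eq 0 ((hc.differentiable (by simp) p).hasFDerivAt)
    l (by simp)

lemma fderiv_FF (hc : ContDiff ℝ ∞ c) (heq : c (u₀, q₀, a) = c (u₀, q₀, b)) (l₀ : ℝ)
    (w : (ℝ × ℝ × ℝ) × ℝ × ℝ) :
    fderiv ℝ (GG c u₀ q₀ a b) ((l₀, 0, 0), a, b) w =
      (w.1.1, fderiv ℝ c (u₀, q₀, b) (w.1.2.1, w.1.2.2, w.2.2) -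
        fderiv ℝ c (u₀, q₀, a) (w.1.2.1, w.1.2.2, w.2.1)) := by
  obtain ⟨⟨lam, w1, w2⟩, σ, τ⟩ := w
  simp only
  set p : (ℝ × ℝ × ℝ) × ℝ × ℝ := ((l₀, 0, 0), a, b) with hp
  have l : HasDerivAt (fun r : ℝ => p + r • (((lam, w1, w2), σ, τ) : (ℝ × ℝ × ℝ) × ℝ × ℝ))
      ((lam, w1, w2), σ, τ) 0 := by
    have := ((hasDerivAt_id (0 : ℝ)).smul_const
      (((lam, w1, w2), σ, τ) : (ℝ × ℝ × ℝ) × ℝ × ℝ)).const_add p
    simpa using this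
  have h1 : HasDerivAt (fun r : ℝ => GG c u₀ q₀ a b
      (p + r • (((lam, w1, w2), σ, τ) : (ℝ × ℝ × ℝ) × ℝ × ℝ)))
      (fderiv ℝ (GG c u₀ q₀ a b) p ((lam, w1, w2), σ, τ)) 0 :=
    HasFDerivAt.comp_hasDerivAt_of_eq 0
      (((contDiff_GG u₀ q₀ a b hc).differentiable (by simp) p).hasFDerivAt) l (by simp)
  refine h1.unique ?_
  -- compute
  have A1 := (line_c hc (u₀, q₀, b) (w1, w2, τ)).sub (line_c hc (u₀, q₀, a) (w1, w2, σ))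
  have B1 := ((line_c hc (u₀, q₀, b) (0, 0, τ)).sub (line_c hc (u₀, q₀, a) (0, 0, σ))).sub
    ((hasDerivAt_id (0 : ℝ)).smul_const (lw c u₀ q₀ a b (w1, w2)))
  have hl : HasDerivAt (fun r : ℝ => l₀ + r * lam) lam 0 := by
    have := ((hasDerivAt_id (0 : ℝ)).mul_const lam).const_add l₀
    simpa using this
  have hl' : HasDerivAt (fun r : ℝ => 1 - (l₀ + r * lam)) (-lam) 0 := by
    simpa using hl.const_sub 1
  have hF := (hl'.smul A1).add (hl.smul B1)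
  have hG := hl.prodMk hF
  refine (hG.congr_deriv ?_).congr_of_eventuallyEq (Eventually.of_forall fun r => ?_)
  · have e0 : fderiv ℝ c (u₀, q₀, b) (0, 0, τ) - fderiv ℝ c (u₀, q₀, a) (0, 0, σ) -
        lw c u₀ q₀ a b (w1, w2) = fderiv ℝ c (u₀, q₀, b) (w1, w2, τ) -
        fderiv ℝ c (u₀, q₀, a) (w1, w2, σ) := by
      have d1 : ((w1, w2, τ) : ℝ × ℝ × ℝ) = (w1, w2, 0) + (0, 0, τ) := by simp
      have d2 : ((w1, w2, σ) : ℝ × ℝ × ℝ) = (w1, w2, 0) + (0, 0, σ) := by simp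
      rw [d1, d2, map_add, map_add]
      simp only [lw]
      abel
    refine Prod.ext rfl ?_
    simp only [Pi.sub_apply, id_eq, zero_smul, add_zero, zero_mul, heq, sub_self,
      smul_zero, one_smul, e0]
    rw [← add_smul]
    simp
  · simp only [GG, FF, hp, smul_eq_mul,
      zero_add, Pi.add_apply, Pi.sub_apply, Pi.smul_apply', id_eq, Prod.mk_add_mk, Prod.smul_mk,
      mul_zero, add_zero]
    have e1 : lw c u₀ q₀ a b (r * w1, r * w2) = r • lw c u₀ q₀ a b (w1, w2) := by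
      rw [← lw_smul]
      simp
    rw [e1]

lemma inj_GG (hc : ContDiff ℝ ∞ c) (heq : c (u₀, q₀, a) = c (u₀, q₀, b))
    (htr : ∀ ζ η σ τ : ℝ, fderiv ℝ c (u₀, q₀, a) (ζ, η, σ) = fderiv ℝ c (u₀, q₀, b) (ζ, η, τ) →
      ζ = 0 ∧ η = 0 ∧ σ = 0 ∧ τ = 0) (l₀ : ℝ) :
    ∃ U ∈ 𝓝 (((l₀, 0, 0), a, b) : (ℝ × ℝ × ℝ) × ℝ × ℝ), InjOn (GG c u₀ q₀ a b) U := by
  refine H4m.locInj (by simp [Complex.finrank_real_complex]) (contDiff_GG u₀ q₀ a b hc) ?_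
  rw [injective_iff_map_eq_zero]
  intro w hw
  rw [fderiv_FF u₀ q₀ a b hc heq] at hw
  obtain ⟨⟨lam, w1, w2⟩, σ, τ⟩ := w
  simp only at hw
  have h1 := congrArg Prod.fst hw
  have h2 := congrArg Prod.snd hw
  simp only [Prod.fst_zero, Prod.snd_zero] at h1 h2
  obtain ⟨k1, k2, k3, k4⟩ := htr w1 w2 σ τ (sub_eq_zero.1 h2).symm
  rw [h1, k1, k2, k3, k4]
  rfl

end XL

open XL

theorem m_XL (hOPA : StOPA) : StXL := by
  intro D c u₀ q₀ a b κ₁ κ₂ η hc hX hImm hk1 hk2 hk hη hk0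
  set x : (ℝ × (ℝ × ℝ) × (ℝ × ℝ)) × ℝ → R4 := fun z =>
    xl c u₀ q₀ a b κ₁ κ₂ z.1.1 z.1.2.1 z.1.2.2 z.2 with hx
  have hxs : ContDiff ℝ ∞ x := contDiff_xl u₀ q₀ a b hc.smooth hk1 hk2
  have hx0 : ∀ l₀ s, x ((l₀, 0, 0), s) = c (u₀, q₀, s) := by
    intro l₀ s
    simp only [hx, xl, Prod.fst_zero, Prod.snd_zero, add_zero, sub_zero, smul_zero, lw_zero]
    rw [← add_smul]
    simp
  have key : ∀ l₀ : ℝ, ∀ᶠ w in 𝓝 ((l₀, 0, 0) : ℝ × (ℝ × ℝ) × (ℝ × ℝ)),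
      ((∀ s ∈ Icc D.s₀ D.s₁, deriv (fun s => x (w, s)) s ≠ 0) ∧
      (w.2.2 = 0 ∨ InjOn (fun s => x (w, s)) (Icc D.s₀ D.s₁))) ∧
      ∀ s ∈ Icc D.m₀ D.m₁, x (w, s) ∈ D.U := by
    intro l₀
    refine (hOPA _ x (l₀, 0, 0) D.s₀ D.s₁ (fun w => w.2.2 = 0) hxs ?_ ?_).and ?_
    · intro s hs
      simp only [hx0]
      exact hImm s hs
    · intro s hs t ht hst he
      rw [hx0, hx0] at he
      obtain ⟨rfl, rfl⟩ := hX.uniq s hs t ht hst he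
      obtain ⟨U, hU, hUi⟩ := inj_GG u₀ q₀ s t hc.smooth hX.eq hX.trans l₀
      have c1 : Continuous (fun z : (ℝ × (ℝ × ℝ) × (ℝ × ℝ)) × ℝ × ℝ =>
          (((z.1.1, z.1.2.2.1, z.1.2.2.2), z.2.1, z.2.2) : (ℝ × ℝ × ℝ) × ℝ × ℝ)) := by fun_prop
      have c2 : Continuous (fun z : (ℝ × (ℝ × ℝ) × (ℝ × ℝ)) × ℝ × ℝ =>
          (((z.1.1, 0, 0), s, t) : (ℝ × ℝ × ℝ) × ℝ × ℝ)) := by fun_prop
      have c3 : Continuous (fun z : (ℝ × (ℝ × ℝ) × (ℝ × ℝ)) × ℝ × ℝ => z.2.2 - t) := by fun_prop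
      have c4 : Continuous (fun z : (ℝ × (ℝ × ℝ) × (ℝ × ℝ)) × ℝ × ℝ => t - z.2.1) := by fun_prop
      have n1 := (c1.tendsto ((l₀, 0, 0), s, t)).eventually (hU : ∀ᶠ y in _, y ∈ U)
      have n2 := (c2.tendsto ((l₀, 0, 0), s, t)).eventually (hU : ∀ᶠ y in _, y ∈ U)
      have t3 : Tendsto (fun z : (ℝ × (ℝ × ℝ) × (ℝ × ℝ)) × ℝ × ℝ => z.2.2 - t)
          (𝓝 ((l₀, 0, 0), s, t)) (𝓝 0) := by
        have := c3.tendsto ((l₀, 0, 0), s, t)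
        simp only [sub_self] at this
        exact this
      have n3 := t3.eventually hk
      have n4 : ∀ᶠ z in 𝓝 (((l₀, 0, 0), s, t) : (ℝ × (ℝ × ℝ) × (ℝ × ℝ)) × ℝ × ℝ),
          η < t - z.2.1 := (isOpen_lt continuous_const c4).mem_nhds hη
      filter_upwards [n1, n2, n3, n4] with z z1 z2 z3 z4 heq
      obtain ⟨⟨l, m, v⟩, s', t'⟩ := z
      simp only at z1 z2 z3 z4 heq ⊢
      have k0 : κ₁ (s' - t) = 0 := by
        refine hk0 _ ?_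
        rw [abs_sub_comm]
        exact z4.le.trans (le_abs_self _)
      have hF : FF c u₀ q₀ s t ((l, v.1, v.2), s', t') = 0 := by
        have : x ((l, m, v), t') - x ((l, m, v), s') = 0 := sub_eq_zero.2 heq.symm
        simp only [hx, xl, k0, z3.1, z3.2, one_smul, zero_smul, sub_zero,
          add_sub_cancel] at this
        rw [← this]
        simp only [FF, Prod.mk.eta]
        module
      have hF0 : FF c u₀ q₀ s t ((l, 0, 0), s, t) = 0 := by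
        simp only [FF, add_zero, hX.eq, sub_self, smul_zero, zero_add, zero_sub]
        have : ((0, 0) : ℝ × ℝ) = 0 := rfl
        rw [this, lw_zero]
        simp
      have := hUi z1 z2 (by simp only [GG, hF, hF0])
      simp only [Prod.mk.injEq] at this
      exact Prod.ext this.1.2.1 this.1.2.2
    · apply isCompact_Icc.eventually_forall_of_forall_eventually
      intro s hs
      have hop : IsOpen {z : (ℝ × (ℝ × ℝ) × (ℝ × ℝ)) × ℝ | x z ∈ D.U} :=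
        D.openU.preimage hxs.continuous
      refine hop.mem_nhds ?_
      simp only [mem_ofPred_eq, hx0]
      exact hc.inU u₀ ⟨hX.memu.1.le, hX.memu.2.le⟩ q₀ ⟨hX.memq.1.le, hX.memq.2.le⟩ s hs
  have key2 : ∀ᶠ p in 𝓝 (0 : (ℝ × ℝ) × (ℝ × ℝ)), ∀ l ∈ Icc (0 : ℝ) 1,
      ((∀ s ∈ Icc D.s₀ D.s₁, deriv (fun s => x ((l, p), s)) s ≠ 0) ∧
      (p.2 = 0 ∨ InjOn (fun s => x ((l, p), s)) (Icc D.s₀ D.s₁))) ∧
      ∀ s ∈ Icc D.m₀ D.m₁, x ((l, p), s) ∈ D.U := by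
    apply isCompact_Icc.eventually_forall_of_forall_eventually
    intro l₀ _
    have cs : Continuous (fun z : ((ℝ × ℝ) × (ℝ × ℝ)) × ℝ =>
        ((z.2, z.1) : ℝ × (ℝ × ℝ) × (ℝ × ℝ))) := by fun_prop
    exact (cs.tendsto (0, l₀)).eventually (key l₀)
  obtain ⟨δ, hδ, hball⟩ := Metric.eventually_nhds_iff.1 key2
  refine ⟨δ, hδ, fun l hl m v hm hv hv0 => ?_⟩
  have hmem : dist ((m, v) : (ℝ × ℝ) × (ℝ × ℝ)) 0 < δ := by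
    rw [dist_zero_right, Prod.norm_def]
    exact max_lt hm hv
  obtain ⟨⟨h1, h2⟩, h3⟩ := hball hmem l hl
  exact ⟨h1, h2.resolve_left hv0, h3⟩

end Pool.Agent.Helper34.BI.H
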