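import Pool.Agent.Helper27.BI.H.AsmH
import Pool.Agent.Helper34.BI.H.M_CROSS
import Pool.Agent.Helper34.BI.H.M_OPA
import Pool.Agent.Helper34.BI.H.M_XL
import Pool.Agent.Helper34.BI.H.M_L5
import Pool.Agent.Helper34.BI.H.M_TPU
import Pool.Agent.Helper34.BI.H.M_CIRC
import Pool.Agent.Helper34.BI.H.M_M5
import Pool.Agent.Helper34.BI.H.M_XG5
import Pool.Agent.Helper34.BI.H.M_PHT
import Pool.Agent.Helper34.BI.H.M_SQ5

/-!
# Project BI, stage 3: the crossing lemma, unconditionally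
-/

set_option autoImplicit false

namespace Pool.Agent.Helper34.BI.H

open Pool.Agent.Helper27.H (hCH4 hFRAME hTHK hPhi)

theorem hCIRC : StCIRC := m_CIRC Pool.Agent.Helper27.BI.hCh Pool.Agent.Helper27.BI.hSpin
theorem hTPU : StTPU := m_TPU
theorem hSQ5 : StSQ5 := m_SQ5 hCH4 hTHK
theorem hM5 : StM5 := m_M5 hTPU hCIRC hCH4 hFRAME hTHK
theorem hXG5 : StXG5 := m_XG5
theorem hPHT : StPHT := m_PHT hTPU
theorem hL5 : StL5 := m_L5 (m_XL m_OPA)

/-- the crossing lemma -/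
theorem hCROSS : Pool.Agent.Helper27.H.StCROSS :=
  Cross.m_CROSS hCH4 hFRAME hTHK hPhi hSQ5 hM5 hXG5 hPHT hL5

end Pool.Agent.Helper34.BI.H
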