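import Pool.Agent.Helper34.BI.H.M_NP1

/-!
# Project BI, stage 3, section 7: general position for one arc
-/

set_option autoImplicit false

open Module Set Filter Topology MeasureTheory
open scoped ContDiff Manifold
open Pool.Agent.Helper65.Barb Pool.Agent.Helper18.BI

namespace Pool.Agent.Helper34.BI.H

namespace BarP

abbrev PP : Type := R4 × R4

noncomputable def L2 (α β : ℝ) : PP →L[ℝ] R4 :=
  α • ContinuousLinearMap.fst ℝ R4 R4 + β • ContinuousLinearMap.snd ℝ R4 R4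

theorem L2_apply (α β : ℝ) (p : PP) : L2 α β p = α • p.1 + β • p.2 := rfl

theorem L2_surj {α β : ℝ} (h : α ≠ 0 ∨ β ≠ 0) : Function.Surjective (L2 α β) := by
  intro y
  rcases h with h | h
  · exact ⟨(α⁻¹ • y, 0), by simp [L2_apply, smul_smul, mul_inv_cancel₀ h]⟩
  · exact ⟨(0, β⁻¹ • y), by simp [L2_apply, smul_smul, mul_inv_cancel₀ h]⟩

theorem diff_L2 {X : Type} [NormedAddCommGroup X] [NormedSpace ℝ X] {α β : X → ℝ}
    (hα : Differentiable ℝ α) (hβ : Differentiable ℝ β) :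
    Differentiable ℝ (fun x => L2 (α x) (β x)) := by
  unfold L2
  exact (hα.smul_const _).add (hβ.smul_const _)

theorem finrank_R4 : finrank ℝ R4 = 4 := by
  simp [finrank_prod]

/-- one arc in general position -/
theorem exists_arc {γ : ℝ → R4} {χ : ℝ → ℝ} {f : Bool → ℂ → R4} (hγ : ContDiff ℝ ∞ γ)
    (hχ : ContDiff ℝ ∞ χ) (hf : ∀ b, ContDiff ℝ ∞ (f b)) {ε : ℝ} (hε : 0 < ε) :
    ∃ v w : R4, ‖v‖ < ε ∧ ‖w‖ < ε ∧
      (∀ u u', u ≠ u' → (χ u ≠ 0 ∨ χ u' ≠ 0) →
        γ u + χ u • (v + u • w) ≠ γ u' + χ u' • (v + u' • w)) ∧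
      (∀ u, χ u ≠ 0 → deriv (fun u => γ u + χ u • (v + u • w)) u ≠ 0) ∧
      ∀ b u y, χ u ≠ 0 → γ u + χ u • (v + u • w) ≠ f b y := by
  have hNP := m_NP1
  have hγd : Differentiable ℝ γ := hγ.differentiable (by simp)
  have hχd : Differentiable ℝ χ := hχ.differentiable (by simp)
  have hγ' : Differentiable ℝ (deriv γ) :=
    (ContDiff.deriv' (n := ∞) (by simpa using hγ)).differentiable (by simp)
  have hχ' : Differentiable ℝ (deriv χ) :=
    (ContDiff.deriv' (n := ∞) (by simpa using hχ)).differentiable (by simp)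
  obtain ⟨μ, hμ⟩ : ∃ μ : Measure PP, μ.IsAddHaarMeasure := ⟨Measure.addHaar, inferInstance⟩
  -- double points
  have n1 : μ {p : PP | ∃ x ∈ {x : ℝ × ℝ | x.1 ≠ x.2 ∧ (χ x.1 ≠ 0 ∨ χ x.2 ≠ 0)},
      L2 (χ x.1 - χ x.2) (x.1 * χ x.1 - x.2 * χ x.2) p = γ x.2 - γ x.1} = 0 := by
    refine hNP (ℝ × ℝ) PP R4 μ _ _ _ ?_ ?_ ?_ ?_
    · rw [finrank_R4]; simp [finrank_prod]
    · have h1 : Differentiable ℝ (fun x : ℝ × ℝ => χ x.1) := hχd.comp differentiable_fst
      have h2 : Differentiable ℝ (fun x : ℝ × ℝ => χ x.2) := hχd.comp differentiable_snd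
      exact (diff_L2 (h1.sub h2) ((differentiable_fst.mul h1).sub
        (differentiable_snd.mul h2))).differentiableOn
    · exact ((hγd.comp differentiable_snd).sub (hγd.comp differentiable_fst)).differentiableOn
    · rintro ⟨u, u'⟩ ⟨h1, h2⟩
      simp only at h1 h2
      apply L2_surj
      by_contra hcon
      push Not at hcon
      obtain ⟨h3, h4⟩ := hcon
      simp only at h3 h4
      have h5 : χ u = χ u' := by linarith
      have h6 : (u - u') * χ u' = 0 := by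
        rw [h5] at h4
        linarith
      rcases mul_eq_zero.1 h6 with h7 | h7
      · exact h1 (by linarith)
      · rw [h7] at h5
        rcases h2 with h2 | h2
        · exact h2 h5
        · exact h2 h7
  -- immersions
  have n2 : μ {p : PP | ∃ u ∈ {u : ℝ | χ u ≠ 0},
      L2 (deriv χ u) (u * deriv χ u + χ u) p = - deriv γ u} = 0 := by
    refine hNP ℝ PP R4 μ _ _ _ ?_ ?_ ?_ ?_
    · rw [finrank_R4]; simp
    · exact (diff_L2 hχ' ((differentiable_id.mul hχ').add hχd)).differentiableOn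
    · exact hγ'.neg.differentiableOn
    · intro u hu
      apply L2_surj
      by_contra hcon
      push Not at hcon
      obtain ⟨h3, h4⟩ := hcon
      rw [h3, mul_zero, zero_add] at h4
      exact hu h4
  -- the surfaces
  have n3 : ∀ b, μ {p : PP | ∃ x ∈ {x : ℝ × ℂ | χ x.1 ≠ 0},
      L2 (χ x.1) (x.1 * χ x.1) p = f b x.2 - γ x.1} = 0 := by
    intro b
    refine hNP (ℝ × ℂ) PP R4 μ _ _ _ ?_ ?_ ?_ ?_
    · rw [finrank_R4]; simp [finrank_prod]
    · have h1 : Differentiable ℝ (fun x : ℝ × ℂ => χ x.1) := hχd.comp differentiable_fst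
      exact (diff_L2 h1 (differentiable_fst.mul h1)).differentiableOn
    · exact ((((hf b).differentiable (by simp)).comp differentiable_snd).sub
        (hγd.comp differentiable_fst)).differentiableOn
    · rintro ⟨u, y⟩ hu
      exact L2_surj (Or.inl hu)
  let B : Set PP := {p : PP | ∃ x ∈ {x : ℝ × ℝ | x.1 ≠ x.2 ∧ (χ x.1 ≠ 0 ∨ χ x.2 ≠ 0)},
      L2 (χ x.1 - χ x.2) (x.1 * χ x.1 - x.2 * χ x.2) p = γ x.2 - γ x.1} ∪
    ({p : PP | ∃ u ∈ {u : ℝ | χ u ≠ 0},
      L2 (deriv χ u) (u * deriv χ u + χ u) p = - deriv γ u} ∪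
    ⋃ b, {p : PP | ∃ x ∈ {x : ℝ × ℂ | χ x.1 ≠ 0},
      L2 (χ x.1) (x.1 * χ x.1) p = f b x.2 - γ x.1})
  have hB : μ B = 0 := by
    refine measure_union_null n1 (measure_union_null n2 (measure_iUnion_null n3))
  have hpos : 0 < μ (Metric.ball (0 : PP) ε) := Metric.isOpen_ball.measure_pos μ
    ⟨0, Metric.mem_ball_self hε⟩
  obtain ⟨⟨v, w⟩, h1, h2⟩ : ∃ p, p ∈ Metric.ball (0 : PP) ε ∧ p ∉ B := by
    by_contra hcon
    push Not at hcon
    have : μ (Metric.ball (0 : PP) ε) ≤ μ B := measure_mono hcon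
    rw [hB] at this
    exact absurd this (not_le.2 hpos)
  rw [mem_ball_zero_iff, Prod.norm_def, max_lt_iff] at h1
  have hB1 : ∀ u u', u ≠ u' → (χ u ≠ 0 ∨ χ u' ≠ 0) →
      L2 (χ u - χ u') (u * χ u - u' * χ u') (v, w) ≠ γ u' - γ u := by
    intro u u' h3 h4 h5
    exact h2 (Or.inl ⟨(u, u'), ⟨h3, h4⟩, h5⟩)
  have hB2 : ∀ u, χ u ≠ 0 → L2 (deriv χ u) (u * deriv χ u + χ u) (v, w) ≠ - deriv γ u := by
    intro u h3 h4
    exact h2 (Or.inr (Or.inl ⟨u, h3, h4⟩))
  have hB3 : ∀ b u y, χ u ≠ 0 → L2 (χ u) (u * χ u) (v, w) ≠ f b y - γ u := by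
    intro b u y h3 h4
    exact h2 (Or.inr (Or.inr (mem_iUnion.2 ⟨b, (u, y), h3, h4⟩)))
  refine ⟨v, w, h1.1, h1.2, fun u u' h3 h4 h5 => hB1 u u' h3 h4 ?_, fun u h3 h4 => hB2 u h3 ?_,
    fun b u y h3 h4 => hB3 b u y h3 ?_⟩
  · rw [L2_apply]
    simp only
    have : (χ u - χ u') • v + (u * χ u - u' * χ u') • w =
        χ u • (v + u • w) - χ u' • (v + u' • w) := by module
    rw [this, sub_eq_sub_iff_add_eq_add, add_comm, h5]
  · rw [L2_apply]
    simp only
    have d1 : HasDerivAt (fun u => γ u + χ u • (v + u • w))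
        (deriv γ u + (χ u • w + deriv χ u • (v + u • w))) u := by
      have a1 : HasDerivAt (fun r : ℝ => v + r • w) w u := by
        simpa using ((hasDerivAt_id u).smul_const w).const_add v
      exact (hγd u).hasDerivAt.add ((hχd u).hasDerivAt.smul a1)
    rw [d1.deriv] at h4
    have : deriv χ u • v + (u * deriv χ u + χ u) • w =
        (χ u • w + deriv χ u • (v + u • w)) := by module
    rw [this, eq_neg_iff_add_eq_zero, add_comm, h4]
  · rw [L2_apply]
    simp only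
    have : χ u • v + (u * χ u) • w = χ u • (v + u • w) := by module
    rw [this, eq_sub_iff_add_eq, add_comm, h4]

end BarP

end Pool.Agent.Helper34.BI.H
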