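import Pool.Agent.Helper18.BI.H.StS7
import Pool.Agent.Helper34.BI.H.BarP
import Pool.Agent.Helper34.BI.BF
import Pool.Agent.Helper34.BI.M_CO
import Pool.Agent.Helper18.BI.M_S4
import Pool.Agent.Helper34.BI.M_CH
import Mathlib.Geometry.Manifold.SmoothApprox

/-!
# Project BI, stage 3, section 7: module BAR
-/

set_option autoImplicit false

open Module Set Filter Topology MeasureTheory
open scoped ContDiff Manifold
open Pool.Agent.Helper65.Barb Pool.Agent.Helper18.BI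
open Pool.Agent.Helper18.BI.H (neckE foot0 bar StBAR)
open Pool.Agent.Helper34.BI

namespace Pool.Agent.Helper34.BI.H

namespace Bar

/-- the tent function -/
noncomputable def tent (s τ : ℝ) : ℝ := max 0 (min τ (s / 4 - τ))

/-- the given bar is followed back and forth before and after the path `ζ` -/
noncomputable def zz (ζ c : ℝ → R4) (x : ℝ × ℝ) : R4 :=
  ζ (max 0 (min 1 ((x.2 - x.1 / 4) / (1 - x.1 / 2)))) +
    (c (3 / 5 - 2 / 5 * tent x.1 x.2) - c (3 / 5)) +
    (c (1 / 5 + 2 / 5 * tent x.1 (1 - x.2)) - c (1 / 5))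

theorem clamp_mem (x : ℝ) : max 0 (min 1 x) ∈ Icc (0 : ℝ) 1 :=
  ⟨le_max_left _ _, max_le zero_le_one (min_le_left _ _)⟩

theorem tent_zero {s τ : ℝ} (h : τ ≤ 0 ∨ s / 4 ≤ τ) : tent s τ = 0 := by
  unfold tent
  rcases h with h | h
  · exact max_eq_left ((min_le_left _ _).trans h)
  · exact max_eq_left ((min_le_right _ _).trans (by linarith))

theorem tent_le {s τ : ℝ} (hs : s ∈ Icc (0 : ℝ) 1) : tent s τ ∈ Icc (0 : ℝ) (1 / 8) := by
  refine ⟨le_max_left _ _, max_le (by norm_num) ?_⟩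
  rcases le_or_gt τ (1 / 8) with h | h
  · exact (min_le_left _ _).trans h
  · exact (min_le_right _ _).trans (by linarith [hs.2])

theorem tent_one {τ : ℝ} (h0 : 0 ≤ τ) (h1 : τ ≤ 1 / 8) : tent 1 τ = τ := by
  unfold tent
  rw [min_eq_left (by linarith), max_eq_right h0]

section
variable {ζ c : ℝ → R4}

theorem zz_left {s τ : ℝ} (hs : s ∈ Icc (0 : ℝ) 1) (hτ : τ ≤ s / 4) (h0 : ζ 0 = c (3 / 5)) :
    zz ζ c (s, τ) = c (3 / 5 - 2 / 5 * tent s τ) := by
  have h1 : (τ - s / 4) / (1 - s / 2) ≤ 0 :=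
    div_nonpos_of_nonpos_of_nonneg (by linarith) (by linarith [hs.2])
  have h2 : max 0 (min 1 ((τ - s / 4) / (1 - s / 2))) = 0 :=
    max_eq_left ((min_le_right _ _).trans h1)
  have h3 : tent s (1 - τ) = 0 := tent_zero (Or.inr (by linarith [hs.2]))
  unfold zz
  simp only [h2, h3, mul_zero, add_zero, sub_self, h0]
  abel

theorem zz_right {s τ : ℝ} (hs : s ∈ Icc (0 : ℝ) 1) (hτ : 1 - s / 4 ≤ τ) (h1' : ζ 1 = c (1 / 5)) :
    zz ζ c (s, τ) = c (1 / 5 + 2 / 5 * tent s (1 - τ)) := by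
  have h1 : 1 ≤ (τ - s / 4) / (1 - s / 2) := by
    rw [le_div_iff₀ (by linarith [hs.2])]
    linarith
  have h2 : max 0 (min 1 ((τ - s / 4) / (1 - s / 2))) = 1 := by
    rw [min_eq_left h1, max_eq_right zero_le_one]
  have h3 : tent s τ = 0 := tent_zero (Or.inr (by linarith [hs.2]))
  unfold zz
  simp only [h2, h3, mul_zero, sub_zero, sub_self, h1', add_zero]
  abel

theorem zz_mid {s τ : ℝ} (h1 : s / 4 ≤ τ) (h2 : τ ≤ 1 - s / 4) :
    zz ζ c (s, τ) = ζ (max 0 (min 1 ((τ - s / 4) / (1 - s / 2)))) := by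
  have h3 : tent s τ = 0 := tent_zero (Or.inr h1)
  have h4 : tent s (1 - τ) = 0 := tent_zero (Or.inr (by linarith))
  unfold zz
  simp only [h3, h4, mul_zero, sub_zero, sub_self, add_zero]

/-- the values -/
theorem zz_cases {s τ : ℝ} (hs : s ∈ Icc (0 : ℝ) 1) (h0 : ζ 0 = c (3 / 5))
    (h1 : ζ 1 = c (1 / 5)) : (∃ x ∈ Icc (0 : ℝ) 1, zz ζ c (s, τ) = ζ x) ∨
      ∃ u ∈ Icc (1 / 5 : ℝ) (3 / 5), zz ζ c (s, τ) = c u := by
  rcases le_or_gt τ (s / 4) with h | h
  · refine Or.inr ⟨_, ?_, zz_left hs h h0⟩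
    have := tent_le (τ := τ) hs
    exact ⟨by linarith [this.2], by linarith [this.1]⟩
  · rcases le_or_gt (1 - s / 4) τ with h' | h'
    · refine Or.inr ⟨_, ?_, zz_right hs h' h1⟩
      have := tent_le (τ := 1 - τ) hs
      exact ⟨by linarith [this.1], by linarith [this.2]⟩
    · exact Or.inl ⟨_, clamp_mem _, zz_mid h.le h'.le⟩

theorem zz_zero {τ : ℝ} (hτ : τ ∈ Icc (0 : ℝ) 1) : zz ζ c (0, τ) = ζ τ := by
  rw [zz_mid (by linarith [hτ.1]) (by linarith [hτ.2])]
  congr 1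
  rw [zero_div, sub_zero, zero_div, sub_zero, div_one, min_eq_right hτ.2, max_eq_right hτ.1]

theorem zz_start {s : ℝ} (hs : s ∈ Icc (0 : ℝ) 1) (h0 : ζ 0 = c (3 / 5)) :
    zz ζ c (s, 0) = c (3 / 5) := by
  rw [zz_left hs (by linarith [hs.1]) h0, tent_zero (Or.inl le_rfl)]
  norm_num

theorem zz_stop {s : ℝ} (hs : s ∈ Icc (0 : ℝ) 1) (h1 : ζ 1 = c (1 / 5)) :
    zz ζ c (s, 1) = c (1 / 5) := by
  rw [zz_right hs (by linarith [hs.1]) h1, tent_zero (Or.inl (by norm_num))]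
  norm_num

theorem M_BAR_zr (z1 : ζ 1 = c (1 / 5)) {u : ℝ} (h : 1 / 5 ≤ u) (hu : u ≤ 1 / 4) :
    zz ζ c (1, (3 / 5 - u) * (5 / 2)) = c u := by
  rw [zz_right ⟨zero_le_one, le_rfl⟩ (by linarith only [hu]) z1,
    tent_one (by linarith only [h]) (by linarith only [hu])]
  congr 1
  ring

theorem M_BAR_zl (z0 : ζ 0 = c (3 / 5)) {u : ℝ} (h : u ≤ 3 / 5) (hu : 11 / 20 ≤ u) :
    zz ζ c (1, (3 / 5 - u) * (5 / 2)) = c u := by
  rw [zz_left ⟨zero_le_one, le_rfl⟩ (by linarith only [hu]) z0,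
    tent_one (by linarith only [h]) (by linarith only [hu])]
  congr 1
  ring

theorem M_BAR_close {v w : R4} {κ u x : ℝ} (hv : ‖v‖ < κ / 8) (hw : ‖w‖ < κ / 8) (hx0 : 0 ≤ x)
    (hx1 : x ≤ 1) (hu0 : 0 ≤ u) (hu1 : u ≤ 1) : ‖x • (v + u • w)‖ ≤ κ / 4 := by
  rw [norm_smul, Real.norm_eq_abs, abs_of_nonneg hx0]
  have h4 : ‖v + u • w‖ ≤ κ / 8 + κ / 8 := by
    refine (norm_add_le _ _).trans (add_le_add hv.le ?_)
    rw [norm_smul, Real.norm_eq_abs, abs_of_nonneg hu0]
    have : u * ‖w‖ ≤ 1 * ‖w‖ := mul_le_mul_of_nonneg_right hu1 (norm_nonneg _)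
    linarith only [this, hw]
  have h5 : x * ‖v + u • w‖ ≤ 1 * ‖v + u • w‖ := mul_le_mul_of_nonneg_right hx1 (norm_nonneg _)
  linarith only [h4, h5]

theorem M_BAR_avoid {K : Set R4} {a b : R4} {κ x : ℝ} (hx0 : 0 ≤ x) (hx1 : x ≤ 1)
    (hab : dist b a < κ) (hfar : ∀ y, dist y a < κ → y ∉ K) : a + x • (b - a) ∉ K := by
  refine hfar _ ?_
  rw [dist_eq_norm, add_sub_cancel_left, norm_smul, Real.norm_eq_abs, abs_of_nonneg hx0]
  rw [dist_eq_norm] at hab
  have h4 : x * ‖b - a‖ ≤ 1 * ‖b - a‖ := mul_le_mul_of_nonneg_right hx1 (norm_nonneg _)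
  linarith only [hab, h4]

theorem continuousOn_zz (hζ : ContinuousOn ζ (Icc 0 1)) (hc : Continuous c) :
    ContinuousOn (zz ζ c) {x | x.1 < 2} := by
  have ht : Continuous (fun x : ℝ × ℝ => tent x.1 x.2) := by
    unfold tent; fun_prop
  have ht' : Continuous (fun x : ℝ × ℝ => tent x.1 (1 - x.2)) := by
    unfold tent; fun_prop
  have h1 : ContinuousOn (fun x : ℝ × ℝ => max 0 (min 1 ((x.2 - x.1 / 4) / (1 - x.1 / 2))))
      {x | x.1 < 2} := by
    have : ContinuousOn (fun x : ℝ × ℝ => (x.2 - x.1 / 4) / (1 - x.1 / 2)) {x | x.1 < 2} := by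
      refine ContinuousOn.div (by fun_prop) (by fun_prop) ?_
      intro x hx
      have : x.1 < 2 := hx
      have : (0 : ℝ) < 1 - x.1 / 2 := by linarith
      exact this.ne'
    have hg : Continuous (fun y : ℝ => max 0 (min 1 y)) := by fun_prop
    exact hg.comp_continuousOn this
  have h2 : ContinuousOn (fun x : ℝ × ℝ => ζ (max 0 (min 1 ((x.2 - x.1 / 4) / (1 - x.1 / 2)))))
      {x | x.1 < 2} := hζ.comp h1 (fun x _ => clamp_mem _)
  have h3 : Continuous (fun x : ℝ × ℝ => c (3 / 5 - 2 / 5 * tent x.1 x.2) - c (3 / 5)) :=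
    (hc.comp (continuous_const.sub (continuous_const.mul ht))).sub continuous_const
  have h4 : Continuous (fun x : ℝ × ℝ => c (1 / 5 + 2 / 5 * tent x.1 (1 - x.2)) - c (1 / 5)) :=
    (hc.comp (continuous_const.add (continuous_const.mul ht'))).sub continuous_const
  exact (h2.add h3.continuousOn).add h4.continuousOn

end

end Bar

open Bar BarP

theorem m_BAR : StBAR := by
  intro F ζ hF hζ hζ0 hζ1 hζK
  obtain ⟨c₀, c₁', δ', -, -, s₀, -, core', -, imm'⟩ := m_CO F F univ hF hF isOpen_univ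
    (subset_univ _) (fun _ _ => rfl)
  have core : ∀ u ∈ Icc (1 / 5 : ℝ) (4 / 5), F (1 / 2, u, 0) = c₀ u := fun u hu => (core' u hu).1
  have imm : ∀ u ∈ Icc (1 / 5 : ℝ) (4 / 5), deriv c₀ u ≠ 0 := fun u hu => (imm' u hu).1
  have z0 : ζ 0 = c₀ (3 / 5) := by rw [hζ0]; exact core _ (by norm_num)
  have z1 : ζ 1 = c₀ (1 / 5) := by rw [hζ1]; exact core _ (by norm_num)
  have inj₀ : InjOn c₀ (Icc (1 / 5) (4 / 5)) := by
    intro a ha b hb h
    rw [← core a ha, ← core b hb] at h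
    have := hF.2 (Or.inr (mem_neck ha.1 ha.2)) (Or.inr (mem_neck hb.1 hb.2)) h
    exact congrArg (fun p : R4 => p.2.1) this
  have dis₀ : ∀ a ∈ Ioo (1 / 5 : ℝ) (4 / 5), c₀ a ∉ F '' (sph 0 ∪ sph 1) := by
    rintro a ha ⟨p, hp, he⟩
    rw [← core a ⟨ha.1.le, ha.2.le⟩] at he
    have := hF.2 (Or.inl hp) (Or.inr (mem_neck ha.1.le ha.2.le)) he
    subst this
    rcases hp with hp | hp
    · have := sph_zero_le hp
      simp only at this
      linarith only [ha.1, this]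
    · have := le_sph_one hp
      simp only at this
      linarith only [ha.2, this]
  -- the complement of the fixed cuff
  have hKc : IsCompact (F '' sph 1) := by
    have h1 : IsCompact (sph 1) := by
      have h2 : sph 1 = {p | p.1 = 1 / 2} ∩ {p | rsq 1 p = 1 / 25} := rfl
      have hcont : Continuous (fun p : R4 => rsq 1 p) := by
        unfold rsq nsq
        fun_prop
      refine m_S4.2.2.2.2.2.2.2.2.1.of_isClosed_subset ?_ (fun p hp => Or.inl (Or.inr hp))
      rw [h2]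
      exact (isClosed_eq continuous_fst continuous_const).inter (isClosed_eq hcont continuous_const)
    refine h1.image_of_continuousOn fun p hp => ?_
    exact (eventually_contDiffAt (hF.1 p (Or.inl (Or.inr hp)))).self_of_nhds.continuousAt.continuousWithinAt
  have hKo : IsOpen (F '' sph 1)ᶜ := hKc.isClosed.isOpen_compl
  have cK : ∀ u ∈ Icc (1 / 5 : ℝ) (3 / 5), c₀ u ∉ F '' sph 1 := by
    rintro u hu ⟨p, hp, he⟩
    rw [← core u ⟨hu.1, by linarith only [hu.2]⟩] at he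
    have := hF.2 (Or.inl (Or.inr hp)) (Or.inr (mem_neck hu.1 (by linarith only [hu.2]))) he
    subst this
    have := le_sph_one hp
    simp only at this
    linarith only [hu.2, this]
  have hzK : ∀ s ∈ Icc (0 : ℝ) 1, ∀ τ, zz ζ c₀ (s, τ) ∉ F '' sph 1 := by
    intro s hs τ
    rcases zz_cases (τ := τ) hs z0 z1 with ⟨x, hx, h⟩ | ⟨u, hu, h⟩
    · rw [h]; exact hζK x hx
    · rw [h]; exact cK u hu
  have hzc : ContinuousOn (zz ζ c₀) {x | x.1 < 2} := continuousOn_zz hζ s₀.continuous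
  have hZc : IsCompact (zz ζ c₀ '' (Icc (0 : ℝ) 1 ×ˢ Icc (0 : ℝ) 1)) := by
    refine (isCompact_Icc.prod isCompact_Icc).image_of_continuousOn (hzc.mono ?_)
    rintro ⟨s, τ⟩ ⟨hs, -⟩
    have : s ≤ 1 := hs.2
    show s < 2
    linarith only [this]
  obtain ⟨κ, hκ, hκK⟩ := hZc.exists_thickening_subset_open hKo (by
    rintro _ ⟨⟨s, τ⟩, ⟨hs, -⟩, rfl⟩
    exact hzK s hs τ)
  have hfar : ∀ s ∈ Icc (0 : ℝ) 1, ∀ τ ∈ Icc (0 : ℝ) 1, ∀ y, dist y (zz ζ c₀ (s, τ)) < κ →
      y ∉ F '' sph 1 := by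
    intro s hs τ hτ y hy
    exact hκK (Metric.mem_thickening_iff.2 ⟨_, ⟨(s, τ), ⟨hs, hτ⟩, rfl⟩, hy⟩)
  -- the continuous arc
  let cl : ℝ → ℝ := fun u => max (1 / 5) (min (3 / 5) u)
  have hcl : Continuous cl := by fun_prop
  have hclm : ∀ u, cl u ∈ Icc (1 / 5 : ℝ) (3 / 5) := fun u =>
    ⟨le_max_left _ _, max_le (by norm_num) (min_le_left _ _)⟩
  have hcle : ∀ u ∈ Icc (1 / 5 : ℝ) (3 / 5), cl u = u := by
    intro u hu
    show max (1 / 5) (min (3 / 5) u) = u
    rw [min_eq_right hu.2, max_eq_right hu.1]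
  let γ₀ : ℝ → R4 := fun u => zz ζ c₀ (1, (3 / 5 - cl u) * (5 / 2)) + (c₀ u - c₀ (cl u))
  have hγ₀c : Continuous γ₀ := by
    have h1 : Continuous (fun u => zz ζ c₀ (1, (3 / 5 - cl u) * (5 / 2))) := by
      rw [← continuousOn_univ]
      refine hzc.comp (by fun_prop) (fun u _ => ?_)
      show (1 : ℝ) < 2
      norm_num
    exact h1.add (s₀.continuous.sub (s₀.continuous.comp hcl))
  have hγ₀z : ∀ τ ∈ Icc (0 : ℝ) 1, γ₀ (3 / 5 - 2 / 5 * τ) = zz ζ c₀ (1, τ) := by
    intro τ hτ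
    have h1 : cl (3 / 5 - 2 / 5 * τ) = 3 / 5 - 2 / 5 * τ :=
      hcle _ ⟨by linarith only [hτ.2], by linarith only [hτ.1]⟩
    show zz ζ c₀ (1, (3 / 5 - cl (3 / 5 - 2 / 5 * τ)) * (5 / 2)) + (c₀ _ - c₀ (cl _)) = _
    rw [h1, sub_self, add_zero]
    congr 2
    ring
  have h11 : (1 : ℝ) ∈ Icc (0 : ℝ) 1 := by simp
  have hγ₀r : ∀ u, 11 / 20 ≤ u → γ₀ u = c₀ u := by
    intro u hu
    rcases le_or_gt u (3 / 5) with h | h
    · have h1 : cl u = u := hcle u ⟨by linarith only [hu], h⟩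
      show zz ζ c₀ (1, (3 / 5 - cl u) * (5 / 2)) + (c₀ u - c₀ (cl u)) = _
      rw [h1, sub_self, add_zero, M_BAR_zl z0 h hu]
    · have h1 : cl u = 3 / 5 := by
        show max (1 / 5) (min (3 / 5) u) = 3 / 5
        rw [min_eq_left h.le]
        norm_num
      show zz ζ c₀ (1, (3 / 5 - cl u) * (5 / 2)) + (c₀ u - c₀ (cl u)) = _
      rw [h1, sub_self, zero_mul, zz_start h11 z0]
      abel
  have hγ₀l : ∀ u, u ≤ 1 / 4 → γ₀ u = c₀ u := by
    intro u hu
    rcases le_or_gt (1 / 5) u with h | h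
    · have h1 : cl u = u := hcle u ⟨h, by linarith only [hu]⟩
      show zz ζ c₀ (1, (3 / 5 - cl u) * (5 / 2)) + (c₀ u - c₀ (cl u)) = _
      rw [h1, sub_self, add_zero, M_BAR_zr z1 h hu]
    · have h1 : cl u = 1 / 5 := by
        show max (1 / 5) (min (3 / 5) u) = 1 / 5
        exact max_eq_left ((min_le_right _ _).trans h.le)
      have h2 : (3 / 5 - 1 / 5 : ℝ) * (5 / 2) = 1 := by norm_num
      show zz ζ c₀ (1, (3 / 5 - cl u) * (5 / 2)) + (c₀ u - c₀ (cl u)) = _
      rw [h1, h2, zz_stop h11 z1]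
      abel
  clear_value γ₀
  clear hclm hcle hcl cl hKc hKo hZc hκK
  -- smoothing
  obtain ⟨γ, hγ, hγd, hγe, -⟩ := hγ₀c.exists_contDiff_approx_and_eqOn ⊤
    (ε := fun _ => κ / 2) continuous_const (fun _ => by positivity)
    (S := Iic (6 / 25) ∪ Ici (14 / 25)) (U := Iio (1 / 4) ∪ Ioi (11 / 20))
    (isClosed_Iic.union isClosed_Ici)
    ((isOpen_Iio.union isOpen_Ioi).mem_nhdsSet.2 (by
      rintro u (hu | hu)
      · left; simp only [mem_Iic] at hu; simp only [mem_Iio]; linarith only [hu]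
      · right; simp only [mem_Ici] at hu; simp only [mem_Ioi]; linarith only [hu]))
    (s₀.contDiffOn.congr (by
      rintro u (hu | hu)
      · exact hγ₀l u (le_of_lt hu)
      · exact hγ₀r u (le_of_lt hu)))
  have hγ' : ContDiff ℝ ∞ γ := hγ
  have hγc : ∀ u, (u ≤ 6 / 25 ∨ 14 / 25 ≤ u) → γ u = c₀ u := by
    intro u hu
    rw [hγe hu]
    rcases hu with hu | hu
    · exact hγ₀l u (by linarith only [hu])
    · exact hγ₀r u (by linarith only [hu])
  -- general position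
  obtain ⟨charts, -, -, -, -, -, -⟩ := m_CH F hF
  obtain ⟨v, w, hv, hw, gi, gd, ga⟩ := exists_arc (γ := γ) (χ := hat (6 / 25) (14 / 25))
    (f := fun b y => F (cst b y)) hγ' (contDiff_hat _ _)
    (fun b => contDiffOn_univ.1 (charts.smooth b)) (ε := κ / 8) (by positivity)
  let χ : ℝ → ℝ := hat (6 / 25) (14 / 25)
  have hχ : ContDiff ℝ ∞ χ := contDiff_hat _ _
  let c₁ : ℝ → R4 := fun u => γ u + χ u • (v + u • w)
  have s₁ : ContDiff ℝ ∞ c₁ :=
    hγ'.add (hχ.smul (contDiff_const.add (contDiff_id.smul contDiff_const)))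
  have hfr : ∀ u, (u ≤ 6 / 25 ∨ 14 / 25 ≤ u) → c₁ u = c₀ u := by
    intro u hu
    show γ u + χ u • (v + u • w) = c₀ u
    rw [show χ u = 0 from hat_eq_zero hu, zero_smul, add_zero, hγc u hu]
  have hact : ∀ u, (u ≤ 6 / 25 ∨ 14 / 25 ≤ u) ∨ χ u ≠ 0 := by
    intro u
    by_cases h : χ u = 0
    · left
      by_contra hcon
      push Not at hcon
      exact hat_ne_zero.2 hcon h
    · exact Or.inr h
  have inj₁ : InjOn c₁ (Icc (1 / 5) (4 / 5)) := by
    intro u hu u' hu' he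
    rcases hact u with h | h
    · rcases hact u' with h' | h'
      · rw [hfr u h, hfr u' h'] at he
        exact inj₀ hu hu' he
      · by_contra hne
        exact gi u u' hne (Or.inr h') he
    · by_contra hne
      exact gi u u' hne (Or.inl h) he
  have imm₁ : ∀ u ∈ Icc (1 / 5 : ℝ) (4 / 5), deriv c₁ u ≠ 0 := by
    intro u hu
    rcases hact u with h | h
    · have hd0 : DifferentiableAt ℝ c₀ u := s₀.differentiable (by simp) u
      have hd1 : DifferentiableAt ℝ c₁ u := s₁.differentiable (by simp) u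
      have : deriv c₁ u = deriv c₀ u := by
        rcases h with h | h
        · have h1 : HasDerivWithinAt c₀ (deriv c₁ u) (Iic u) u :=
            (hd1.hasDerivAt.hasDerivWithinAt (s := Iic u)).congr
              (fun r hr => (hfr r (Or.inl (le_trans hr h))).symm) (hfr u (Or.inl h)).symm
          exact ((uniqueDiffOn_Iic u) u (by simp)).eq_deriv _ h1 hd0.hasDerivAt.hasDerivWithinAt
        · have h1 : HasDerivWithinAt c₀ (deriv c₁ u) (Ici u) u :=
            (hd1.hasDerivAt.hasDerivWithinAt (s := Ici u)).congr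
              (fun r hr => (hfr r (Or.inr (le_trans h hr))).symm) (hfr u (Or.inr h)).symm
          exact ((uniqueDiffOn_Ici u) u (by simp)).eq_deriv _ h1 hd0.hasDerivAt.hasDerivWithinAt
      rw [this]
      exact imm u hu
    · exact gd u h
  have e15 : c₁ (1 / 5) = c₀ (1 / 5) := hfr _ (Or.inl (by norm_num))
  have e35 : c₁ (3 / 5) = c₀ (3 / 5) := hfr _ (Or.inr (by norm_num))
  have e45 : c₁ (4 / 5) = c₀ (4 / 5) := hfr _ (Or.inr (by norm_num))
  have m15 : (1 / 5 : ℝ) ∈ Icc (1 / 5 : ℝ) (4 / 5) := by norm_num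
  have m45 : (4 / 5 : ℝ) ∈ Icc (1 / 5 : ℝ) (4 / 5) := by norm_num
  have dis₁ : ∀ a ∈ Ioo (1 / 5 : ℝ) (4 / 5), c₁ a ∉ F '' (sph 0 ∪ sph 1) := by
    intro a ha hm
    have ham : a ∈ Icc (1 / 5 : ℝ) (4 / 5) := ⟨ha.1.le, ha.2.le⟩
    rcases hact a with h | h
    · rw [hfr a h] at hm
      exact dis₀ a ha hm
    · obtain ⟨b, y, -, he⟩ := charts.cover _ hm (by
        intro he
        rw [core _ m15, ← e15] at he
        exact ha.1.ne' (inj₁ ham m15 he)) (by
        intro he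
        rw [core _ m45, ← e45] at he
        exact ha.2.ne (inj₁ ham m45 he))
      exact ga b a y h he.symm
  have hclose : ∀ u ∈ Icc (1 / 5 : ℝ) (3 / 5), dist (c₁ u) (γ₀ u) < κ := by
    intro u hu
    have h1 := hγd u

    have h2 : dist (c₁ u) (γ u) ≤ κ / 4 := by
      rw [dist_eq_norm]
      have e : c₁ u - γ u = χ u • (v + u • w) := by
        show γ u + χ u • (v + u • w) - γ u = _
        abel
      rw [e]
      exact M_BAR_close hv hw (hat_nonneg _ _ _) (hat_le_one _ _ _) (by linarith only [hu.1])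
        (by linarith only [hu.2])
    have h3 := dist_triangle (c₁ u) (γ u) (γ₀ u)
    linarith only [h1, h2, h3, hκ]
  clear_value c₁
  clear gi gd ga hact hχ χ hγ' hγ hγd hγe hγc hγ₀r hγ₀l hγ₀c cK dis₀ imm imm' inj₀ hv hw e45 m15 m45
  -- the germ
  let H : ℝ × ℝ → R4 := fun x => c₁ x.2
  have hH : ContDiff ℝ ∞ H := s₁.comp contDiff_snd
  have hHd : ∀ a, fderiv ℝ H (0, a) (0, 1) = deriv c₁ a := by
    intro a
    have l : HasDerivAt (fun r : ℝ => (((0 : ℝ), r) : ℝ × ℝ)) (0, 1) a :=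
      (hasDerivAt_const a _).prodMk (hasDerivAt_id a)
    have h1 : HasDerivAt (fun r => H (0, r)) (fderiv ℝ H (0, a) (0, 1)) a :=
      HasFDerivAt.comp_hasDerivAt_of_eq a
        ((hH.differentiable (by simp) ((0 : ℝ), a)).hasFDerivAt) l rfl
    exact h1.deriv.symm
  have DB : BarData F c₀ H (1 / 100) := {
    loc := hF.1
    pos := by norm_num
    small := by norm_num
    smooth_c := s₀
    smooth_H := hH
    core := core
    frozen := by
      intro t a ha
      refine hfr a ?_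
      rcases ha with ha | ha
      · left; linarith only [ha]
      · right; linarith only [ha] }
  let F' : R4 → R4 := fun p => barFam F c₀ H (1 / 100) (0, p)
  have hF' : EmbOn 𝓘(ℝ, R4) F' SP := by
    refine DB.embOn (t := 0) (fun a ha => ?_) (hF.2.mono fun p hp => Or.inl hp) inj₁ dis₁
    rw [hHd]
    exact imm₁ a ha
  have hneck : ∀ a ∈ Icc (1 / 5 : ℝ) (4 / 5), F' (bar a) = c₁ a := fun a ha =>
    DB.barFam_neck ha.1 ha.2
  let P : ℝ × ℝ → R4 := fun x => zz ζ c₀ (min (2 * x.1) 1, x.2) +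
    (max 0 (2 * x.1 - 1)) • (c₁ (3 / 5 - 2 / 5 * x.2) - zz ζ c₀ (1, x.2))
  refine ⟨F', {p | p.2.1 < 1 / 5 + 1 / 200} ∪ {p | 14 / 25 < p.2.1}, P, hF', ?_, ?_, ?_, ?_,
    ?_, ?_, ?_, ?_, ?_⟩
  · have hcont : Continuous (fun q : R4 => q.2.1) := by fun_prop
    exact (isOpen_lt hcont continuous_const).union (isOpen_lt continuous_const hcont)
  · rintro p ((hp | hp) | hp)
    · left
      have := sph_zero_le hp
      show p.2.1 < 1 / 5 + 1 / 200
      linarith only [this]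
    · right
      have := le_sph_one hp
      show 14 / 25 < p.2.1
      linarith only [this]
    · right
      have := hp.2
      show 14 / 25 < p.2.1
      linarith only [this]
  · rintro p (hp | hp)
    · have hp' : p.2.1 < 1 / 5 + 1 / 200 := hp
      exact (DB.barFam_eq (t := 0) (p := p) (Or.inl (by linarith only [hp']))).symm
    · have hp' : 14 / 25 < p.2.1 := hp
      have e1 : H (0, p.2.1) = c₀ p.2.1 := hfr _ (Or.inr hp'.le)
      have e2 : fderiv ℝ H (0, p.2.1) (0, 1) = deriv c₀ p.2.1 := by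
        rw [hHd]
        apply Filter.EventuallyEq.deriv_eq
        filter_upwards [Ioi_mem_nhds hp'] with r hr
        exact hfr r (Or.inr (le_of_lt hr))
      show F p = barFam F c₀ H (1 / 100) (0, p)
      simp only [barFam, thick, thickB, e1, e2, sub_self, map_zero, ContinuousLinearMap.zero_comp,
        ContinuousLinearMap.zero_apply, add_zero, smul_zero]
  · -- continuity
    have h1 : ContinuousOn (fun x : ℝ × ℝ => zz ζ c₀ (min (2 * x.1) 1, x.2)) univ := by
      refine hzc.comp (by fun_prop) (fun x _ => ?_)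
      show min (2 * x.1) 1 < 2
      exact lt_of_le_of_lt (min_le_right _ _) (by norm_num)
    have h2 : ContinuousOn (fun x : ℝ × ℝ => zz ζ c₀ (1, x.2)) univ := by
      refine hzc.comp (by fun_prop) (fun x _ => ?_)
      show (1 : ℝ) < 2
      norm_num
    have h3 : Continuous (fun x : ℝ × ℝ => c₁ (3 / 5 - 2 / 5 * x.2)) :=
      s₁.continuous.comp (by fun_prop)
    have h4 : Continuous (fun x : ℝ × ℝ => max 0 (2 * x.1 - 1)) := by fun_prop
    rw [continuousOn_univ] at h1 h2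
    exact (h1.add (h4.smul (h3.sub h2))).continuousOn
  · intro τ hτ
    show zz ζ c₀ (min (2 * 0) 1, τ) + (max 0 (2 * 0 - 1 : ℝ)) • _ = ζ τ
    have e1 : min (2 * 0) (1 : ℝ) = 0 := by norm_num
    have e2 : max 0 (2 * 0 - 1 : ℝ) = 0 := by norm_num
    rw [e1, e2, zero_smul, add_zero, zz_zero hτ]
  · intro τ hτ
    rw [hneck _ ⟨by linarith only [hτ.2], by linarith only [hτ.1]⟩]
    show zz ζ c₀ (min (2 * 1) 1, τ) + (max 0 (2 * 1 - 1 : ℝ)) • _ = _
    have e1 : min (2 * 1) (1 : ℝ) = 1 := by norm_num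
    have e2 : max 0 (2 * 1 - 1 : ℝ) = 1 := by norm_num
    rw [e1, e2, one_smul]
    abel
  · intro u hu
    show zz ζ c₀ (min (2 * u) 1, 0) + _ • (c₁ (3 / 5 - 2 / 5 * 0) - zz ζ c₀ (1, 0)) = _
    have hm : min (2 * u) 1 ∈ Icc (0 : ℝ) 1 :=
      ⟨le_min (by linarith only [hu.1]) zero_le_one, min_le_right _ _⟩
    rw [mul_zero, sub_zero, e35, zz_start h11 z0, zz_start hm z0, sub_self, smul_zero, add_zero]
    exact (core _ (by norm_num)).symm
  · intro u hu
    show zz ζ c₀ (min (2 * u) 1, 1) + _ • (c₁ (3 / 5 - 2 / 5 * 1) - zz ζ c₀ (1, 1)) = _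
    have hm : min (2 * u) 1 ∈ Icc (0 : ℝ) 1 :=
      ⟨le_min (by linarith only [hu.1]) zero_le_one, min_le_right _ _⟩
    have e : (3 / 5 - 2 / 5 * 1 : ℝ) = 1 / 5 := by norm_num
    rw [e, e15, zz_stop h11 z1, zz_stop hm z1, sub_self, smul_zero, add_zero]
    exact (core _ (by norm_num)).symm
  · intro u hu τ hτ
    rcases le_or_gt u (1 / 2) with h | h
    · have e1 : max 0 (2 * u - 1) = 0 := max_eq_left (by linarith only [h])
      have e2 : min (2 * u) 1 = 2 * u := min_eq_left (by linarith only [h])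
      show zz ζ c₀ (min (2 * u) 1, τ) + (max 0 (2 * u - 1)) • _ ∉ _
      rw [e1, e2, zero_smul, add_zero]
      exact hzK _ ⟨by linarith only [hu.1], by linarith only [h]⟩ τ
    · have e1 : max 0 (2 * u - 1) = 2 * u - 1 := max_eq_right (by linarith only [h])
      have e2 : min (2 * u) 1 = 1 := min_eq_right (by linarith only [h])
      show zz ζ c₀ (min (2 * u) 1, τ) + (max 0 (2 * u - 1)) • _ ∉ _
      rw [e1, e2]
      have h3 := hclose (3 / 5 - 2 / 5 * τ) ⟨by linarith only [hτ.2], by linarith only [hτ.1]⟩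
      rw [hγ₀z τ hτ] at h3
      exact M_BAR_avoid (by linarith only [h]) (by linarith only [hu.2]) h3 (hfar 1 h11 τ hτ)

end Pool.Agent.Helper34.BI.H
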