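import Pool.Agent.Helper18.BI.H.StF3

/-!
# Project BI, stage 3 (H), module SMH: smoothing a homotopy in the 4-sphere
-/

set_option autoImplicit false

open scoped Manifold ContDiff Topology ComplexConjugate
open Set Filter Pool.Agent.Helper65.Barb Pool.Agent.Helper18.BI Pool.Agent.Helper18.BI.H

namespace Pool.Agent.Helper34.BI.H

namespace SMH

/-- five-space -/
abbrev E5 : Type := EuclideanSpace ℝ (Fin 5)

/-- extension of a function which is `C¹` near a compact set -/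
theorem exists_ext {f : R4 → E5} {K : Set R4} (hK : IsCompact K)
    (hf : ∀ p ∈ K, ContDiffAt ℝ 1 f p) : ∃ g : R4 → E5, ContDiff ℝ 1 g ∧ EqOn g f K := by
  have hU : IsOpen {p | ContDiffAt ℝ 1 f p} :=
    isOpen_iff_mem_nhds.2 fun p hp => ContDiffAt.eventually hp (by simp)
  obtain ⟨L, hL, hKL, hLU⟩ := exists_compact_between hK hU hf
  obtain ⟨χ, h1, h2, -⟩ := exists_contMDiffMap_one_nhds_of_subset_interior (n := 1) 𝓘(ℝ, R4)
    hK.isClosed hKL
  have hχ : ContDiff ℝ 1 (fun p => χ p) := contMDiff_iff_contDiff.1 χ.contMDiff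
  refine ⟨fun p => χ p • f p, contDiff_iff_contDiffAt.2 fun p => ?_, fun p hp => ?_⟩
  · by_cases hp : p ∈ L
    · exact hχ.contDiffAt.smul (hLU hp)
    · have h3 : ∀ᶠ q in 𝓝 p, χ q • f q = 0 := by
        filter_upwards [hL.isClosed.isOpen_compl.mem_nhds hp] with q hq
        rw [h2 q hq, zero_smul]
      exact contDiffAt_const.congr_of_eventuallyEq h3
  · have h4 : χ p = 1 := h1.self_of_nhdsSet p hp
    show χ p • f p = f p
    rw [h4, one_smul]

theorem isClosed_sph (d : ℝ) : IsClosed (sph d) :=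
  IsClosed.inter (isClosed_eq continuous_fst continuous_const)
    (isClosed_eq (by unfold rsq nsq; fun_prop) continuous_const)

theorem isCompact_sph (d : ℝ) : IsCompact (sph d) := by
  refine Metric.isCompact_of_isClosed_isBounded (isClosed_sph d) ?_
  refine (Metric.isBounded_closedBall (x := (0 : R4)) (r := |d| + 1)).subset ?_
  rintro p ⟨h1, h2⟩
  have h3 : (p.2.1 - d) ^ 2 + p.2.2.re ^ 2 + p.2.2.im ^ 2 = 1 / 25 := h2
  have h4 : |p.2.1 - d| ≤ 1 := by
    rw [abs_le]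
    constructor <;> nlinarith [sq_nonneg p.2.2.re, sq_nonneg p.2.2.im]
  have h5 : ‖p.2.2‖ ≤ 1 := by
    have h6 : ‖p.2.2‖ ^ 2 = p.2.2.re ^ 2 + p.2.2.im ^ 2 := by
      rw [← Complex.normSq_eq_norm_sq, Complex.normSq_apply]
      ring
    nlinarith [norm_nonneg p.2.2, sq_nonneg (p.2.1 - d)]
  rw [mem_closedBall_zero_iff]
  have h7 : ‖p.1‖ ≤ |d| + 1 := by
    rw [h1]
    have := abs_nonneg d
    rw [Real.norm_eq_abs, abs_of_pos (by norm_num)]
    linarith
  have h8 : ‖p.2.1‖ ≤ |d| + 1 := by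
    rw [Real.norm_eq_abs]
    have := abs_sub_abs_le_abs_sub p.2.1 d
    linarith
  have h9 : ‖p.2.2‖ ≤ |d| + 1 := by
    have := abs_nonneg d
    linarith
  exact norm_prod_le_iff.2 ⟨h7, norm_prod_le_iff.2 ⟨h8, h9⟩⟩

/-- spherical coordinates -/
noncomputable def sg (d : ℝ) (a : ℝ × ℝ) : R4 :=
  (1 / 2, (d + Real.cos a.1 / 5, (((Real.sin a.1 / 5 : ℝ) : ℂ)) * Complex.exp (a.2 * Complex.I)))

theorem contDiff_sg (d : ℝ) : ContDiff ℝ 1 (sg d) := by
  unfold sg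
  refine contDiff_const.prodMk (ContDiff.prodMk ?_ ?_)
  · exact contDiff_const.add ((Real.contDiff_cos.comp contDiff_fst).div_const _)
  · refine ContDiff.mul ?_ ?_
    · exact Complex.ofRealCLM.contDiff.comp ((Real.contDiff_sin.comp contDiff_fst).div_const _)
    · exact ((Complex.ofRealCLM.contDiff.comp contDiff_snd).mul contDiff_const).cexp

theorem sg_surj {d : ℝ} {p : R4} (hp : p ∈ sph d) : ∃ a, sg d a = p := by
  obtain ⟨h1, h2⟩ := hp
  have h3 : (p.2.1 - d) ^ 2 + p.2.2.re ^ 2 + p.2.2.im ^ 2 = 1 / 25 := h2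
  have h6 : ‖p.2.2‖ ^ 2 = p.2.2.re ^ 2 + p.2.2.im ^ 2 := by
    rw [← Complex.normSq_eq_norm_sq, Complex.normSq_apply]
    ring
  have h7 : -1 ≤ 5 * (p.2.1 - d) := by nlinarith [sq_nonneg p.2.2.re, sq_nonneg p.2.2.im]
  have h8 : 5 * (p.2.1 - d) ≤ 1 := by nlinarith [sq_nonneg p.2.2.re, sq_nonneg p.2.2.im]
  refine ⟨(Real.arccos (5 * (p.2.1 - d)), Complex.arg p.2.2), ?_⟩
  have hc : Real.cos (Real.arccos (5 * (p.2.1 - d))) = 5 * (p.2.1 - d) := Real.cos_arccos h7 h8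
  have hs : Real.sin (Real.arccos (5 * (p.2.1 - d))) = 5 * ‖p.2.2‖ := by
    rw [Real.sin_arccos]
    rw [show 1 - (5 * (p.2.1 - d)) ^ 2 = (5 * ‖p.2.2‖) ^ 2 by
      rw [mul_pow 5 ‖p.2.2‖, h6]; linarith]
    exact Real.sqrt_sq (by positivity)
  refine Prod.ext h1.symm (Prod.ext ?_ ?_)
  · show d + Real.cos (Real.arccos (5 * (p.2.1 - d))) / 5 = p.2.1
    rw [hc]
    ring
  · show ((Real.sin (Real.arccos (5 * (p.2.1 - d))) / 5 : ℝ) : ℂ) *
      Complex.exp (Complex.arg p.2.2 * Complex.I) = p.2.2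
    rw [hs]
    rw [show 5 * ‖p.2.2‖ / 5 = ‖p.2.2‖ by ring]
    exact Complex.norm_mul_exp_arg_mul_I p.2.2

end SMH

open SMH in
theorem m_SMH : StSMH := by
  intro b b' h K d hK hb hb' hh h0 h1 hoff
  let ι : S4 → E5 := fun y => y.1
  have hι : Continuous ι := continuous_subtype_val
  have hfact : Fact (Module.finrank ℝ (EuclideanSpace ℝ (Fin 5)) = 4 + 1) := ⟨by simp⟩
  have hιs : ContMDiff (𝓡 4) 𝓘(ℝ, EuclideanSpace ℝ (Fin 5)) ∞ ι := contMDiff_coe_sphere
  have hιn : ∀ y : S4, ‖ι y‖ = 1 := fun y => by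
    have := y.2
    rwa [mem_sphere_zero_iff_norm] at this
  -- extension of the ends
  have hext : ∀ β : R4 → S4, (∀ p ∈ sph d, ContMDiffAt 𝓘(ℝ, R4) (𝓡 4) ∞ β p) →
      ∃ g : R4 → E5, ContDiff ℝ 1 g ∧ EqOn g (fun p => ι (β p)) (sph d) := by
    intro β hβ
    refine exists_ext (isCompact_sph d) fun p hp => ?_
    have h2 : ContMDiffAt 𝓘(ℝ, R4) 𝓘(ℝ, E5) ∞ (fun p => ι (β p)) p :=
      (hιs.contMDiffAt).comp p (hβ p hp)
    exact (contMDiffAt_iff_contDiffAt.1 h2).of_le (by norm_num)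
  obtain ⟨B, hB, hBb⟩ := hext b hb
  obtain ⟨B', hB', hBb'⟩ := hext b' hb'
  -- the distance
  let D : Set (ℝ × R4) := Icc (0 : ℝ) 1 ×ˢ sph d
  have hD : IsCompact D := isCompact_Icc.prod (isCompact_sph d)
  have hE : IsCompact (h '' D) := hD.image_of_continuousOn hh
  obtain ⟨r, hr0, hr⟩ := Metric.exists_pos_forall_lt_edist hE hK.isClosed (by
    rw [Set.disjoint_left]
    rintro _ ⟨⟨u, p⟩, ⟨hu, hp⟩, rfl⟩
    exact hoff u hu p hp)
  have hr' : ∀ x ∈ h '' D, ∀ y ∈ K, (r : ℝ) < dist (ι x) (ι y) := by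
    intro x hx y hy
    have h2 := hr x hx y hy
    rw [edist_nndist] at h2
    have h3 : r < nndist x y := by exact_mod_cast h2
    have h4 : (r : ℝ) < dist x y := by exact_mod_cast h3
    exact h4
  obtain ⟨ρ, hρ0, hρ1, hρr⟩ : ∃ ρ : ℝ, 0 < ρ ∧ ρ ≤ 1 / 8 ∧ 2 * ρ ≤ r := by
    have hr0' : (0 : ℝ) < r := by exact_mod_cast hr0
    exact ⟨min (1 / 8) (r / 2), lt_min (by norm_num) (by linarith), min_le_left _ _,
      by have := min_le_right (1 / 8) ((r : ℝ) / 2); linarith⟩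
  -- Tietze
  let C : Set (ℝ × R4) := (D ∪ Iic 0 ×ˢ univ) ∪ Ici 1 ×ˢ univ
  have hC1 : IsClosed (Iic (0 : ℝ) ×ˢ (univ : Set R4)) := isClosed_Iic.prod isClosed_univ
  have hC2 : IsClosed (Ici (1 : ℝ) ×ˢ (univ : Set R4)) := isClosed_Ici.prod isClosed_univ
  have hC : IsClosed C := (hD.isClosed.union hC1).union hC2
  let h₁ : ℝ × R4 → E5 := fun z => if z.1 ≤ 0 then B z.2 else if 1 ≤ z.1 then B' z.2 else ι (h z)
  have e0 : ∀ z : ℝ × R4, z.1 ≤ 0 → h₁ z = B z.2 := fun z hz => if_pos hz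
  have e1 : ∀ z : ℝ × R4, 1 ≤ z.1 → h₁ z = B' z.2 := fun z hz => by
    show (if z.1 ≤ 0 then B z.2 else if 1 ≤ z.1 then B' z.2 else ι (h z)) = _
    rw [if_neg (by linarith), if_pos hz]
  have e2 : ∀ z ∈ D, h₁ z = ι (h z) := by
    rintro ⟨u, p⟩ ⟨hu, hp⟩
    rcases le_or_gt u 0 with hu0 | hu0
    · have hu' : u = 0 := le_antisymm hu0 hu.1
      rw [e0 _ hu0]
      subst hu'
      rw [hBb hp, h0 p hp]
    · rcases le_or_gt 1 u with hu1 | hu1
      · have hu' : u = 1 := le_antisymm hu.2 hu1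
        rw [e1 _ hu1]
        subst hu'
        rw [hBb' hp, h1 p hp]
      · show (if u ≤ 0 then B p else if 1 ≤ u then B' p else ι (h (u, p))) = _
        rw [if_neg (by linarith), if_neg (by linarith)]
  have hh₁ : ContinuousOn h₁ C := by
    refine ContinuousOn.union_of_isClosed (ContinuousOn.union_of_isClosed ?_ ?_ hD.isClosed hC1) ?_
      (hD.isClosed.union hC1) hC2
    · exact (hι.comp_continuousOn hh).congr e2
    · exact (hB.continuous.comp continuous_snd).continuousOn.congr fun z hz => e0 z hz.1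
    · exact (hB'.continuous.comp continuous_snd).continuousOn.congr fun z hz => e1 z hz.1
  obtain ⟨H, hH⟩ := ContinuousMap.exists_restrict_eq (Y := E5) hC
    ⟨C.domRestrict h₁, continuousOn_iff_continuous_domRestrict.1 hh₁⟩
  have hHe : ∀ z ∈ C, H z = h₁ z := fun z hz => by
    have := DFunLike.congr_fun hH ⟨z, hz⟩
    exact this
  -- the stretched homotopy
  let f : ℝ × R4 → E5 := fun z => H (2 * z.1 - 1 / 2, z.2)
  have hf : Continuous f := H.continuous.comp (by fun_prop)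
  have f0 : ∀ z : ℝ × R4, z.1 ≤ 1 / 4 → f z = B z.2 := fun z hz => by
    have h2 : (2 * z.1 - 1 / 2, z.2) ∈ C := Or.inl (Or.inr ⟨by
      show 2 * z.1 - 1 / 2 ≤ 0
      linarith, mem_univ _⟩)
    show H (2 * z.1 - 1 / 2, z.2) = _
    rw [hHe _ h2, e0 _ (by show 2 * z.1 - 1 / 2 ≤ 0; linarith)]
  have f1 : ∀ z : ℝ × R4, 3 / 4 ≤ z.1 → f z = B' z.2 := fun z hz => by
    have h2 : (2 * z.1 - 1 / 2, z.2) ∈ C := Or.inr ⟨by
      show 1 ≤ 2 * z.1 - 1 / 2
      linarith, mem_univ _⟩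
    show H (2 * z.1 - 1 / 2, z.2) = _
    rw [hHe _ h2, e1 _ (by show 1 ≤ 2 * z.1 - 1 / 2; linarith)]
  have f2 : ∀ z ∈ D, ∃ z' ∈ D, f z = ι (h z') := by
    rintro ⟨u, p⟩ ⟨hu, hp⟩
    rcases le_or_gt u (1 / 4) with h2 | h2
    · refine ⟨(0, p), ⟨⟨le_rfl, zero_le_one⟩, hp⟩, ?_⟩
      rw [f0 _ h2, h0 p hp, hBb hp]
    · rcases le_or_gt (3 / 4) u with h3 | h3
      · refine ⟨(1, p), ⟨⟨zero_le_one, le_rfl⟩, hp⟩, ?_⟩
        rw [f1 _ h3, h1 p hp, hBb' hp]
      · have h4 : ((2 * u - 1 / 2, p) : ℝ × R4) ∈ D := ⟨⟨by linarith, by linarith⟩, hp⟩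
        refine ⟨_, h4, ?_⟩
        show H (2 * u - 1 / 2, p) = _
        rw [hHe _ (Or.inl (Or.inl h4)), e2 _ h4]
  -- smoothing
  obtain ⟨g, hg, hgf, hgS, -⟩ := hf.exists_contDiff_approx_and_eqOn 1 (ε := fun _ => ρ)
    continuous_const (fun _ => hρ0) (S := {z | z.1 ≤ 0} ∪ {z | 1 ≤ z.1})
    (U := {z | z.1 < 1 / 4} ∪ {z | 3 / 4 < z.1})
    ((isClosed_le continuous_fst continuous_const).union
      (isClosed_le continuous_const continuous_fst))
    (((isOpen_lt continuous_fst continuous_const).union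
      (isOpen_lt continuous_const continuous_fst)).mem_nhdsSet.2 (by
        rintro z (hz | hz)
        · left
          have : z.1 ≤ 0 := hz
          show z.1 < 1 / 4
          linarith
        · right
          have : 1 ≤ z.1 := hz
          show 3 / 4 < z.1
          linarith))
    (ContDiffOn.union_of_isOpen
      (((hB.comp contDiff_snd).contDiffOn).congr fun z hz => f0 z (le_of_lt hz))
      (((hB'.comp contDiff_snd).contDiffOn).congr fun z hz => f1 z (le_of_lt hz))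
      (isOpen_lt continuous_fst continuous_const) (isOpen_lt continuous_const continuous_fst))
  have hg1 : ContDiff ℝ 1 g := hg
  have hgn : ∀ z ∈ D, ∃ z' ∈ D, ‖g z - ι (h z')‖ < ρ := by
    intro z hz
    obtain ⟨z', hz', he⟩ := f2 z hz
    refine ⟨z', hz', ?_⟩
    rw [← he, ← dist_eq_norm]
    exact hgf z
  have hgn' : ∀ z ∈ D, |‖g z‖ - 1| < ρ := by
    intro z hz
    obtain ⟨z', hz', he⟩ := hgn z hz
    rw [← hιn (h z')]
    exact lt_of_le_of_lt (abs_norm_sub_norm_le _ _) he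
  have hg0 : ∀ z ∈ D, g z ≠ 0 := by
    intro z hz h2
    have h3 := hgn' z hz
    rw [h2, norm_zero, zero_sub, abs_neg, abs_one] at h3
    linarith
  have hpt : ∀ x : E5, x ≠ 0 → ‖x‖⁻¹ • x ∈ Metric.sphere (0 : E5) 1 := by
    intro x hx
    rw [mem_sphere_zero_iff_norm, norm_smul, norm_inv, norm_norm]
    exact inv_mul_cancel₀ (norm_ne_zero_iff.2 hx)
  have hch : ∀ z : ℝ × R4, ∃ y : S4, z ∈ D → ι y = ‖g z‖⁻¹ • g z := by
    intro z
    by_cases hz : z ∈ D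
    · exact ⟨⟨_, hpt _ (hg0 z hz)⟩, fun _ => rfl⟩
    · exact ⟨h z, fun h2 => absurd h2 hz⟩
  choose h' hh' using hch
  have hend : ∀ z ∈ D, ‖g z‖ = 1 → ι (h' z) = g z := by
    intro z hz h2
    rw [hh' z hz, h2, inv_one, one_smul]
  have hcon : ContinuousOn (fun z => ‖g z‖⁻¹ • g z) D := by
    have h2 : ContinuousOn (fun z => ‖g z‖⁻¹) D :=
      hg1.continuous.norm.continuousOn.inv₀ fun z hz => norm_ne_zero_iff.2 (hg0 z hz)
    exact h2.smul hg1.continuous.continuousOn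
  refine ⟨h', ?_, ?_, ?_, ?_, ?_⟩
  · rw [Topology.IsInducing.subtypeVal.continuousOn_iff]
    exact hcon.congr fun z hz => hh' z hz
  · intro p hp
    have hz : ((0, p) : ℝ × R4) ∈ D := ⟨⟨le_rfl, zero_le_one⟩, hp⟩
    have h2 : g (0, p) = ι (b p) := by
      rw [hgS (Or.inl (show (0 : ℝ) ≤ 0 from le_rfl)), f0 _ (by norm_num), hBb hp]
    have h3 : ι (h' (0, p)) = ι (b p) := by
      rw [hend _ hz (by rw [h2, hιn]), h2]
    exact Subtype.ext h3
  · intro p hp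
    have hz : ((1, p) : ℝ × R4) ∈ D := ⟨⟨zero_le_one, le_rfl⟩, hp⟩
    have h2 : g (1, p) = ι (b' p) := by
      rw [hgS (Or.inr (show (1 : ℝ) ≤ 1 from le_rfl)), f1 _ (by norm_num), hBb' hp]
    have h3 : ι (h' (1, p)) = ι (b' p) := by
      rw [hend _ hz (by rw [h2, hιn]), h2]
    exact Subtype.ext h3
  · intro u hu p hp hk
    have hz : (u, p) ∈ D := ⟨hu, hp⟩
    obtain ⟨z', hz', he⟩ := hgn _ hz
    have h2 := hr' _ (mem_image_of_mem h hz') _ hk
    have h3 : dist (ι (h z')) (ι (h' (u, p))) ≤ ‖g (u, p) - ι (h z')‖ + |‖g (u, p)‖ - 1| := by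
      have h4 : dist (g (u, p)) (ι (h' (u, p))) = |‖g (u, p)‖ - 1| := by
        rw [hh' _ hz, dist_eq_norm]
        have h5 : g (u, p) - ‖g (u, p)‖⁻¹ • g (u, p) = (1 - ‖g (u, p)‖⁻¹) • g (u, p) := by
          rw [sub_smul, one_smul]
        have h6 : ‖g (u, p)‖ ≠ 0 := norm_ne_zero_iff.2 (hg0 _ hz)
        rw [h5, norm_smul, Real.norm_eq_abs]
        rw [← abs_of_nonneg (norm_nonneg (g (u, p))), ← abs_mul, abs_norm]
        congr 1
        field_simp
      calc dist (ι (h z')) (ι (h' (u, p))) ≤ dist (ι (h z')) (g (u, p)) +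
            dist (g (u, p)) (ι (h' (u, p))) := dist_triangle _ _ _
        _ = ‖g (u, p) - ι (h z')‖ + |‖g (u, p)‖ - 1| := by
            rw [h4, dist_comm, dist_eq_norm]
    have h4 := hgn' _ hz
    linarith
  · -- the image has empty interior
    by_contra hne
    obtain ⟨y, hy⟩ := nonempty_iff_ne_empty.2 hne
    obtain ⟨O, hO, hOe⟩ := isOpen_induced_iff.1 (isOpen_interior (s := h' '' D))
    let Φ : ℝ × ℝ × ℝ × ℝ → E5 := fun a => a.1 • g (a.2.1, sg d a.2.2)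
    have hΦ : ContDiff ℝ 1 Φ := by
      refine contDiff_fst.smul (hg1.comp ?_)
      exact (contDiff_fst.comp contDiff_snd).prodMk
        ((contDiff_sg d).comp (contDiff_snd.comp contDiff_snd))
    have hdense : Dense (range Φ)ᶜ := hΦ.dense_compl_range_of_finrank_lt_finrank (by
      simp [Module.finrank_prod])
    have hV : IsOpen ({x : E5 | x ≠ 0} ∩ (fun x : E5 => ‖x‖⁻¹ • x) ⁻¹' O) := by
      refine ContinuousOn.isOpen_inter_preimage ?_ isOpen_ne hO
      have h2 : ContinuousOn (fun x : E5 => ‖x‖⁻¹) {x : E5 | x ≠ 0} :=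
        continuous_norm.continuousOn.inv₀ fun x hx => norm_ne_zero_iff.2 hx
      exact h2.smul continuousOn_id
    have hyV : ι y ∈ {x : E5 | x ≠ 0} ∩ (fun x : E5 => ‖x‖⁻¹ • x) ⁻¹' O := by
      refine ⟨?_, ?_⟩
      · show ι y ≠ 0
        rw [← norm_ne_zero_iff, hιn]
        exact one_ne_zero
      · show ‖ι y‖⁻¹ • ι y ∈ O
        rw [hιn, inv_one, one_smul]
        have : y ∈ Subtype.val ⁻¹' O := by rw [hOe]; exact hy
        exact this
    obtain ⟨x, ⟨hx0, hxO⟩, hxΦ⟩ := hdense.inter_open_nonempty _ hV ⟨_, hyV⟩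
    apply hxΦ
    have hx1 : (⟨_, hpt x hx0⟩ : S4) ∈ interior (h' '' D) := by
      rw [← hOe]
      exact hxO
    obtain ⟨⟨u, p⟩, hz, he⟩ := interior_subset hx1
    obtain ⟨a, ha⟩ := sg_surj hz.2
    have he' : ‖g (u, p)‖⁻¹ • g (u, p) = ‖x‖⁻¹ • x := by
      rw [← hh' _ hz, he]
    refine ⟨(‖x‖ * ‖g (u, p)‖⁻¹, u, a), ?_⟩
    show (‖x‖ * ‖g (u, p)‖⁻¹) • g (u, sg d a) = x
    rw [ha, mul_smul, he', smul_smul, mul_inv_cancel₀ (norm_ne_zero_iff.2 hx0), one_smul]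

end Pool.Agent.Helper34.BI.H
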