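import Pool.Agent.Helper34.BI.H.StH4

/-!
# Project BI, stage 3, module GP: existence of generic perturbations
-/

set_option autoImplicit false

open Module Set Filter Topology MeasureTheory
open scoped ContDiff Manifold
open Pool.Agent.Helper65.Barb Pool.Agent.Helper18.BI

namespace Pool.Agent.Helper34.BI.H

theorem m_GP (h1 : StNU1) (h2 : StNU2) (h3 : StNU3) (h4 : StNU4) : StGP := by
  intro α ρ χ hα hρ hχ ε hε
  let μ : Measure (Fin 8 → R4) := Measure.addHaar
  have n1 := h1 μ α ρ χ hα hρ hχ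
  have n2 := h2 μ α ρ χ hα hρ hχ
  have n3 := h3 μ α ρ χ hα hρ hχ (fun w => (w.1, w.2.1)) (fun w => (w.1, w.2.2))
    (by fun_prop) (by fun_prop)
  have n3' := h3 μ α ρ χ hα hρ hχ (fun w => (w.1, w.2.1)) (fun w => (w.2.2, w.2.1))
    (by fun_prop) (by fun_prop)
  have n4 := h4 μ α ρ χ hα hρ hχ
  have hn := measure_union_null n1 (measure_union_null n2 (measure_union_null n3
    (measure_union_null n3' n4)))
  have hball : 0 < μ (Metric.ball (0 : Fin 8 → R4) ε) := Metric.measure_ball_pos μ _ hε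
  by_contra hcon
  push Not at hcon
  refine absurd (measure_mono_null ?_ hn) hball.ne'
  intro p hp
  rw [mem_ball_zero_iff] at hp
  have hnot := hcon p hp
  by_contra hc
  apply hnot
  simp only [mem_union, mem_setOf_eq, not_or, not_exists, not_and] at hc
  obtain ⟨c1, c2, c3, c3', c4⟩ := hc
  refine ⟨?_, ?_, ?_, ?_⟩
  · intro u q s a1 a2 a3
    exact c1 u q s a1 a2 a3
  · intro u q s t a1 a2 a3 a4
    have := c2 u q s t a1 a2 a3 a4
    exact not_not.1 this
  · intro u q u' q' s t s' t' b0 b1 b2 b3 b4 b5 b6 b7 b8 b9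
    rcases b1 with rfl | rfl
    · exact c3 (u, q, q') s t s' t' b0 b2 b3 b4 b5 b6 b7 b8 b9
    · exact c3' (u, q, u') s t s' t' b0 b2 b3 b4 b5 b6 b7 b8 b9
  · intro u q s t s' t' a1 a2 a3 a4
    exact c4 u q s t s' t' a1 a2 a3 a4

end Pool.Agent.Helper34.BI.H
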