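import Pool.Agent.Helper27.BI.H.StH1
import Pool.Agent.Helper34.BI.H.M_H4

/-!
# Project BI, stage 3, module GPD: general position for homotopies of loops of arcs

This is `StGP` of `Pool/Agent/Helper27/BI/H/StH1.lean`; the proof follows module H4 (helper63).
-/

set_option autoImplicit false

open Module Set Filter Topology MeasureTheory
open scoped ContDiff Manifold
open Pool.Agent.Helper65.Barb Pool.Agent.Helper18.BI
open Pool.Agent.Helper70.BI (I4)

namespace Pool.Agent.Helper34.BI.H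

namespace GPD

open H4m

/-- smallness of the perturbation, for a closed set -/
lemma exists_eps' {α : ℝ × ℝ × ℝ → R4} {ρ : ℝ × ℝ → ℝ} {χ : ℝ → ℝ} (hα : Continuous α)
    (hρ : Continuous ρ) (hχ : Continuous χ) {U : Set R4} (hU : IsOpen U)
    {S : Set (ℝ × ℝ × ℝ)} (hS : IsCompact S) (hSK : ∀ z ∈ S, α z ∈ U) :
    ∃ ε > 0, ∀ p : Fin 8 → R4, ‖p‖ < ε → ∀ z ∈ S, prt α ρ χ p z ∈ U := by
  have hop : IsOpen {x : (Fin 8 → R4) × (ℝ × ℝ × ℝ) | prt α ρ χ x.1 x.2 ∈ U} :=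
    hU.preimage (continuous_prt hα hρ hχ)
  have hsub : ({0} : Set (Fin 8 → R4)) ×ˢ S ⊆
      {x : (Fin 8 → R4) × (ℝ × ℝ × ℝ) | prt α ρ χ x.1 x.2 ∈ U} := by
    rintro ⟨p, z⟩ ⟨hp, hz⟩
    have hp' : p = 0 := hp
    subst hp'
    have : prt α ρ χ 0 z = α z := by simp [prt]
    simp only [mem_ofPred_eq, this]
    exact hSK z hz
  obtain ⟨V, V', hV, -, h0, hSV, hUV⟩ := generalized_tube_lemma isCompact_singleton hS hop hsub
  obtain ⟨ε, hε, hball⟩ := Metric.isOpen_iff.1 hV 0 (h0 rfl)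
  refine ⟨ε, hε, fun p hp z hz => ?_⟩
  exact hUV (mk_mem_prod (hball (by simpa using hp)) (hSV hz))

/-- derivative of the perturbation where `χ` vanishes -/
lemma deriv_zero {α : ℝ × ℝ × ℝ → R4} {ρ : ℝ × ℝ → ℝ} {χ : ℝ → ℝ}
    (hα : ContDiff ℝ ∞ α) (hχ : ContDiff ℝ ∞ χ) (hχ0 : ∀ s, 0 ≤ χ s) (p : Fin 8 → R4)
    (u q s : ℝ) (hs : χ s = 0) :
    deriv (fun r => prt α ρ χ p (u, q, r)) s = deriv (fun r => α (u, q, r)) s := by
  have hmin : deriv χ s = 0 := by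
    have : IsLocalMin χ s := Eventually.of_forall fun r => by
      show χ s ≤ χ r
      rw [hs]; exact hχ0 r
    exact this.deriv_eq_zero
  have d2 : HasDerivAt χ 0 s := by
    rw [← hmin]
    exact (hχ.differentiable (by simp) s).hasDerivAt
  let G : ℝ → R4 := fun r => ∑ j, (ρ (u, q) * mon (u, q, r) j) • p j
  have hG : Differentiable ℝ G := by
    have : ContDiff ℝ ∞ G := by
      refine ContDiff.sum fun j _ => ?_
      have e1 : ContDiff ℝ ∞ (fun r : ℝ => mon (u, q, r) j) := (contDiff_mon j).comp (by fun_prop)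
      have e2 : ContDiff ℝ ∞ (fun r : ℝ => ρ (u, q) * mon (u, q, r) j) := contDiff_const.mul e1
      exact e2.smul contDiff_const
    exact this.differentiable (by simp)
  have d3 : HasDerivAt (fun r => χ r • G r) 0 s := by
    have := d2.smul (hG s).hasDerivAt
    refine this.congr_deriv ?_
    simp [hs]
  have hα0 : Differentiable ℝ (fun r : ℝ => α (u, q, r)) := by
    have : ContDiff ℝ ∞ (fun r : ℝ => α (u, q, r)) := hα.comp (by fun_prop)
    exact this.differentiable (by simp)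
  have d4 := (hα0 s).hasDerivAt.add d3
  rw [add_zero] at d4
  have d5 : HasDerivAt (fun r => prt α ρ χ p (u, q, r)) (deriv (fun r => α (u, q, r)) s) s := by
    refine d4.congr_of_eventuallyEq (Eventually.of_forall fun r => ?_)
    simp only [prt, Pi.add_apply, G, Finset.smul_sum, smul_smul]
    congr 1
    refine Finset.sum_congr rfl fun j _ => ?_
    congr 1
    ring
  exact d5.deriv

/-- functions which agree on one side have the same derivative -/
lemma deriv_eq_of_side {f g : ℝ → R4} {a s : ℝ} (hf : DifferentiableAt ℝ f s)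
    (hg : DifferentiableAt ℝ g s) (h : (s ≤ a ∧ ∀ r ≤ a, f r = g r) ∨ (a ≤ s ∧ ∀ r, a ≤ r → f r = g r)) :
    deriv f s = deriv g s := by
  rcases h with ⟨hs, h⟩ | ⟨hs, h⟩
  · have h1 : HasDerivWithinAt g (deriv f s) (Iic s) s :=
      (hf.hasDerivAt.hasDerivWithinAt (s := Iic s)).congr
        (fun r hr => (h r (le_trans hr hs)).symm) (h s hs).symm
    exact ((uniqueDiffOn_Iic s) s (by simp)).eq_deriv _ h1 hg.hasDerivAt.hasDerivWithinAt
  · have h1 : HasDerivWithinAt g (deriv f s) (Ici s) s :=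
      (hf.hasDerivAt.hasDerivWithinAt (s := Ici s)).congr
        (fun r hr => (h r (le_trans hs hr)).symm) (h s hs).symm
    exact ((uniqueDiffOn_Ici s) s (by simp)).eq_deriv _ h1 hg.hasDerivAt.hasDerivWithinAt

/-- the derivative along the arcs is continuous -/
lemma deriv_arc {β : ℝ × ℝ × ℝ → R4} (hβ : ContDiff ℝ ∞ β) (u q s : ℝ) :
    deriv (fun r => β (u, q, r)) s = fderiv ℝ β (u, q, s) (0, 0, 1) := by
  have l : HasDerivAt (fun r : ℝ => ((u, q, r) : ℝ × ℝ × ℝ)) (0, 0, 1) s :=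
    (hasDerivAt_const s u).prodMk ((hasDerivAt_const s q).prodMk (hasDerivAt_id s))
  exact (HasFDerivAt.comp_hasDerivAt_of_eq s ((hβ.differentiable (by simp) (u, q, s)).hasFDerivAt)
    l rfl).deriv

/-- embeddedness near the boundary of the square -/
lemma exists_delta {β : ℝ × ℝ × ℝ → R4} (hβ : ContDiff ℝ ∞ β) {s₀ s₁ : ℝ}
    (hemb : ∀ u q, Sq u q → (u = 0 ∨ u = 1 ∨ q = 0 ∨ q = 1) →
      InjOn (fun s => β (u, q, s)) (Icc s₀ s₁) ∧
      ∀ s ∈ Icc s₀ s₁, deriv (fun s => β (u, q, s)) s ≠ 0) :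
    ∃ δ > 0, δ < 1 / 2 ∧ ∀ u q, Sq u q → Nb δ u q → InjOn (fun s => β (u, q, s)) (Icc s₀ s₁) ∧
      ∀ s ∈ Icc s₀ s₁, deriv (fun s => β (u, q, s)) s ≠ 0 := by
  let C : Set (ℝ × ℝ × ℝ × ℝ) := Icc (0 : ℝ) 1 ×ˢ (Icc (0 : ℝ) 1 ×ˢ (Icc s₀ s₁ ×ˢ Icc s₀ s₁))
  have hC : IsCompact C := isCompact_Icc.prod (isCompact_Icc.prod (isCompact_Icc.prod isCompact_Icc))
  let B : Set (ℝ × ℝ × ℝ × ℝ) := {z | z ∈ C ∧ z.2.2.1 ≤ z.2.2.2 ∧
    β (z.1, z.2.1, z.2.2.1) = β (z.1, z.2.1, z.2.2.2) ∧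
    (z.2.2.1 = z.2.2.2 → fderiv ℝ β (z.1, z.2.1, z.2.2.1) (0, 0, 1) = 0)}
  have hBc : IsClosed B := by
    rw [← isOpen_compl_iff, isOpen_iff_mem_nhds]
    intro z hz
    by_cases h1 : z ∈ C
    swap
    · filter_upwards [hC.isClosed.isOpen_compl.mem_nhds h1] with w hw hwB
      exact hw hwB.1
    by_cases h2 : z.2.2.1 ≤ z.2.2.2
    swap
    · have hop : IsOpen {w : ℝ × ℝ × ℝ × ℝ | w.2.2.2 < w.2.2.1} :=
        isOpen_lt (by fun_prop) (by fun_prop)
      filter_upwards [hop.mem_nhds (not_le.1 h2)] with w hw hwB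
      exact not_le.2 hw hwB.2.1
    by_cases h3 : β (z.1, z.2.1, z.2.2.1) = β (z.1, z.2.1, z.2.2.2)
    swap
    · have hop : IsOpen {y : ℝ × ℝ × ℝ × ℝ | β (y.1, y.2.1, y.2.2.1) ≠
            β (y.1, y.2.1, y.2.2.2)} :=
        isOpen_ne_fun (hβ.continuous.comp (by fun_prop)) (hβ.continuous.comp (by fun_prop))
      filter_upwards [hop.mem_nhds h3] with w hw hwB
      exact hw hwB.2.2.1
    have h4 : ¬ (z.2.2.1 = z.2.2.2 → fderiv ℝ β (z.1, z.2.1, z.2.2.1) (0, 0, 1) = 0) := fun h =>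
      hz ⟨h1, h2, h3, h⟩
    push Not at h4
    obtain ⟨h5, h6⟩ := h4
    obtain ⟨u, q, s, t⟩ := z
    simp only at h5 h6
    subst h5
    obtain ⟨N, hN, hNy⟩ := near_diag hβ (u := u) (q := q) (s := s) (by
      rw [deriv_arc hβ]; exact h6)
    have hcont : Continuous (fun z : ℝ × ℝ × ℝ × ℝ => fderiv ℝ β (z.1, z.2.1, z.2.2.1) (0, 0, 1)) := by
      have : Continuous (fderiv ℝ β) := hβ.continuous_fderiv (by simp)
      exact (this.comp (by fun_prop)).clm_apply continuous_const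
    have hop : IsOpen {z : ℝ × ℝ × ℝ × ℝ | fderiv ℝ β (z.1, z.2.1, z.2.2.1) (0, 0, 1) ≠ 0} :=
      isOpen_ne_fun hcont continuous_const
    filter_upwards [hN, hop.mem_nhds h6] with w hw hw2 hwB
    rcases hwB.2.1.lt_or_eq with h7 | h7
    · exact hNy w hw h7 hwB.2.2.1
    · exact hw2 (hwB.2.2.2 h7)
  have hBcomp : IsCompact B := hC.of_isClosed_subset hBc fun z hz => hz.1
  let g : ℝ × ℝ × ℝ × ℝ → ℝ := fun z => min (min z.1 (1 - z.1)) (min z.2.1 (1 - z.2.1))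
  have hg : Continuous g := by fun_prop
  -- members of `B` are the bad parameters
  have hbad : ∀ u q, Sq u q → ¬ (InjOn (fun s => β (u, q, s)) (Icc s₀ s₁) ∧
      ∀ s ∈ Icc s₀ s₁, deriv (fun s => β (u, q, s)) s ≠ 0) → ∃ s t, (u, q, s, t) ∈ B := by
    intro u q hS h
    by_cases h1 : InjOn (fun s => β (u, q, s)) (Icc s₀ s₁)
    · have h2 : ∃ s ∈ Icc s₀ s₁, deriv (fun s => β (u, q, s)) s = 0 := by
        by_contra hcon
        push Not at hcon
        exact h ⟨h1, hcon⟩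
      obtain ⟨s, hs, hd⟩ := h2
      rw [deriv_arc hβ] at hd
      exact ⟨s, s, ⟨hS.1, hS.2, hs, hs⟩, le_rfl, rfl, fun _ => hd⟩
    · unfold InjOn at h1
      push Not at h1
      obtain ⟨s, hs, t, ht, he, hne⟩ := h1
      rcases lt_or_gt_of_ne hne with hlt | hlt
      · exact ⟨s, t, ⟨hS.1, hS.2, hs, ht⟩, hlt.le, he, fun h => absurd h hlt.ne⟩
      · exact ⟨t, s, ⟨hS.1, hS.2, ht, hs⟩, hlt.le, he.symm, fun h => absurd h hlt.ne⟩
  have hpos : ∀ z ∈ B, 0 < g z := by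
    rintro ⟨u, q, s, t⟩ ⟨⟨h1, h2, h3, h4⟩, h5, h6, h7⟩
    simp only at h1 h2 h3 h4 h5 h6 h7
    by_contra hcon
    have h8 : u = 0 ∨ u = 1 ∨ q = 0 ∨ q = 1 := by
      by_contra hc2
      push Not at hc2
      obtain ⟨a1, a2, a3, a4⟩ := hc2
      apply hcon
      refine lt_min (lt_min (lt_of_le_of_ne h1.1 (Ne.symm a1)) ?_)
        (lt_min (lt_of_le_of_ne h2.1 (Ne.symm a3)) ?_)
      · have := lt_of_le_of_ne h1.2 a2
        simp only
        linarith
      · have := lt_of_le_of_ne h2.2 a4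
        simp only
        linarith
    obtain ⟨e1, e2⟩ := hemb u q ⟨h1, h2⟩ h8
    rcases h5.lt_or_eq with h9 | h9
    · exact h9.ne (e1 h3 h4 h6)
    · have := e2 s h3
      rw [deriv_arc hβ] at this
      exact this (h7 h9)
  rcases B.eq_empty_or_nonempty with hE | hE
  · refine ⟨1 / 4, by norm_num, by norm_num, fun u q hS _ => ?_⟩
    by_contra hcon
    obtain ⟨s, t, hst⟩ := hbad u q hS hcon
    rw [hE] at hst
    exact hst
  · obtain ⟨z₀, hz₀, hmin⟩ := hBcomp.exists_isMinOn hE hg.continuousOn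
    have hz0 := hpos z₀ hz₀
    refine ⟨min (g z₀ / 2) (1 / 4), by positivity, lt_of_le_of_lt (min_le_right _ _) (by norm_num),
      fun u q hS hNb => ?_⟩
    by_contra hcon
    obtain ⟨s, t, hst⟩ := hbad u q hS hcon
    have h1 : g z₀ ≤ g (u, q, s, t) := hmin hst
    have h2 : min (g z₀ / 2) (1 / 4) ≤ g z₀ / 2 := min_le_left _ _
    have h3 : g (u, q, s, t) ≤ g z₀ / 2 := by
      rcases hNb with h | h | h | h
      · exact ((min_le_left _ _).trans (min_le_left _ _)).trans (h.trans h2)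
      · refine ((min_le_left _ _).trans (min_le_right _ _)).trans ?_
        simp only
        linarith
      · exact ((min_le_right _ _).trans (min_le_left _ _)).trans (h.trans h2)
      · refine ((min_le_right _ _).trans (min_le_right _ _)).trans ?_
        simp only
        linarith
    linarith

end GPD

open H4m GPD

theorem m_GPD (hGP : StGP) : Pool.Agent.Helper27.H.StGP := by
  intro A c hc hemb0 hemb1
  have hα : ContDiff ℝ ∞ c := hc.smooth
  have hcJ : ∀ s ∈ Icc A.s₀ A.s₁, A.J (s, 0) = A.c s := A.core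
  have hseg : ∀ s ∈ Icc A.s₀ A.s₁, ((s, 0) : R4) ∈ Pool.Agent.Helper27.H.seg A.s₀ A.s₁ :=
    fun s hs => ⟨hs.1, hs.2, rfl⟩
  -- the base arc is embedded
  have hAinj : InjOn A.c (Icc A.s₀ A.s₁) := by
    intro s hs t ht h
    rw [← hcJ s hs, ← hcJ t ht] at h
    exact congrArg Prod.fst (A.emb.2 (hseg s hs) (hseg t ht) h)
  have hAimm : ∀ s ∈ Icc A.s₀ A.s₁, deriv A.c s ≠ 0 := by
    have hs01 : A.s₀ < A.s₁ := by linarith [A.h₀, A.h₁, A.h₂]
    intro s hs h0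
    have h1 := A.emb.1 _ (hseg s hs)
    have d1 : HasFDerivAt A.J (fderiv ℝ A.J (s, 0)) (s, 0) :=
      ((eventually_contDiffAt h1).self_of_nhds.differentiableAt (by simp)).hasFDerivAt
    have l : HasDerivAt (fun r : ℝ => ((r, 0) : R4)) (1, 0) s :=
      (hasDerivAt_id s).prodMk (hasDerivAt_const s (0 : ℝ × ℂ))
    have d2 : HasDerivAt (fun r : ℝ => A.J (r, 0)) (fderiv ℝ A.J (s, 0) (1, 0)) s :=
      HasFDerivAt.comp_hasDerivAt_of_eq s d1 l rfl
    have d3 : HasDerivAt A.c 0 s := by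
      rw [← h0]
      exact (A.smooth.differentiable (by simp) s).hasDerivAt
    have e1 : fderiv ℝ A.J (s, 0) (1, 0) = 0 := by
      have w1 : HasDerivWithinAt (fun r : ℝ => A.J (r, 0)) 0 (Icc A.s₀ A.s₁) s :=
        (d3.hasDerivWithinAt).congr (fun r hr => hcJ r hr) (hcJ s hs)
      exact ((uniqueDiffOn_Icc hs01) s hs).eq_deriv _ d2.hasDerivWithinAt w1
    have e2 := injective_fderiv h1 (a₁ := (1, 0)) (a₂ := 0) (by rw [e1, map_zero])
    exact one_ne_zero (congrArg Prod.fst e2)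
  -- all arcs on the boundary of the square are embedded
  have hbd : ∀ u q, Sq u q → (u = 0 ∨ u = 1 ∨ q = 0 ∨ q = 1) →
      InjOn (fun s => c (u, q, s)) (Icc A.s₀ A.s₁) ∧
      ∀ s ∈ Icc A.s₀ A.s₁, deriv (fun s => c (u, q, s)) s ≠ 0 := by
    rintro u q ⟨hu, hq⟩ (rfl | rfl | rfl | rfl)
    · exact ⟨(hemb0 q hq).2, (hemb0 q hq).1⟩
    · exact ⟨(hemb1 q hq).2, (hemb1 q hq).1⟩
    · have e : (fun s => c (u, 0, s)) = A.c := funext fun s => hc.start u hu s
      rw [e]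
      exact ⟨hAinj, hAimm⟩
    · have e : (fun s => c (u, 1, s)) = A.c := funext fun s => hc.stop u hu s
      rw [e]
      exact ⟨hAinj, hAimm⟩
  obtain ⟨δ, hδ, hδ2, hemb⟩ := exists_delta hα hbd
  have hm01 : A.s₀ < A.m₀ ∧ A.m₀ < A.m₁ ∧ A.m₁ < A.s₁ := ⟨A.h₀, A.h₁, A.h₂⟩
  set ρ : ℝ × ℝ → ℝ := fun x => hat (δ / 2) (1 - δ / 2) x.1 * hat (δ / 2) (1 - δ / 2) x.2
    with hρdef
  set χ : ℝ → ℝ := hat A.m₀ A.m₁ with hχdef
  have hρ : ContDiff ℝ ∞ ρ :=
    ((contDiff_hat _ _).comp contDiff_fst).mul ((contDiff_hat _ _).comp contDiff_snd)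
  have hχ : ContDiff ℝ ∞ χ := contDiff_hat _ _
  have hρz : ∀ u q, ρ (u, q) = 0 → Nb δ u q := by
    intro u q h
    by_contra hcon
    unfold Nb at hcon
    push Not at hcon
    obtain ⟨c1, c2, c3, c4⟩ := hcon
    exact mul_ne_zero (hat_ne_zero.2 ⟨by linarith, by linarith⟩)
      (hat_ne_zero.2 ⟨by linarith, by linarith⟩) h
  have hρz' : ∀ u q, Nb (δ / 2) u q → ρ (u, q) = 0 := by
    intro u q h
    simp only [hρdef]
    rcases h with h | h | h | h
    · rw [hat_eq_zero (Or.inl h), zero_mul]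
    · rw [hat_eq_zero (Or.inr h), zero_mul]
    · rw [hat_eq_zero (Or.inl h), mul_zero]
    · rw [hat_eq_zero (Or.inr h), mul_zero]
  have hρi : ∀ u q, ρ (u, q) ≠ 0 → u ∈ Ioo (0 : ℝ) 1 ∧ q ∈ Ioo (0 : ℝ) 1 := by
    intro u q h
    have h1 := hat_ne_zero.1 (left_ne_zero_of_mul h)
    have h2 := hat_ne_zero.1 (right_ne_zero_of_mul h)
    simp only at h1 h2
    exact ⟨⟨by linarith [h1.1], by linarith [h1.2]⟩, ⟨by linarith [h2.1], by linarith [h2.2]⟩⟩
  have hχz : ∀ s, χ s = 0 → s ≤ A.m₀ ∨ A.m₁ ≤ s := by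
    intro s h
    by_contra hcon
    push Not at hcon
    exact hat_ne_zero.2 hcon h
  have hχz' : ∀ s, (s ≤ A.m₀ ∨ A.m₁ ≤ s) → χ s = 0 := fun s h => hat_eq_zero h
  have hχi : ∀ s, χ s ≠ 0 → A.m₀ < s ∧ s < A.m₁ := fun s h => hat_ne_zero.1 h
  -- the perturbation
  have hScomp : IsCompact (Icc (0 : ℝ) 1 ×ˢ (Icc (0 : ℝ) 1 ×ˢ Icc A.m₀ A.m₁)) :=
    isCompact_Icc.prod (isCompact_Icc.prod isCompact_Icc)
  obtain ⟨ε, hε, hεK⟩ := exists_eps' hα.continuous hρ.continuous hχ.continuous A.openU hScomp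
    (fun z hz => hc.inU z.1 hz.1 z.2.1 hz.2.1 z.2.2 hz.2.2)
  obtain ⟨p, hp, hgp⟩ := hGP c ρ χ hα hρ hχ ε hε
  set β : ℝ × ℝ × ℝ → R4 := prt c ρ χ p with hβdef
  have hβ : ContDiff ℝ ∞ β := contDiff_prt hα hρ hχ p
  have hβρ : ∀ u q s, ρ (u, q) = 0 → β (u, q, s) = c (u, q, s) := by
    intro u q s h
    simp [hβdef, prt, h]
  have hβχ : ∀ u q, Sq u q → ∀ s, χ s = 0 → β (u, q, s) = A.c s := by
    intro u q hS s h
    have h1 : β (u, q, s) = c (u, q, s) := by simp [hβdef, prt, h]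
    rw [h1]
    exact hc.froz u hS.1 q hS.2 s (hχz s h)
  have hoffβ : ∀ u q, Sq u q → ∀ s ∈ Icc A.m₀ A.m₁, β (u, q, s) ∈ A.U := by
    intro u q h s hs
    exact hεK p hp (u, q, s) ⟨h.1, h.2, hs⟩
  have himm : ∀ u q, Sq u q → ∀ s ∈ Icc A.s₀ A.s₁, deriv (fun s => β (u, q, s)) s ≠ 0 := by
    intro u q h s hs
    by_cases h1 : ρ (u, q) = 0
    · have e : (fun s => β (u, q, s)) = fun s => c (u, q, s) := funext fun s => hβρ u q s h1
      rw [e]
      exact (hemb u q h (hρz u q h1)).2 s hs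
    · by_cases h2 : χ s = 0
      · rw [hβdef, deriv_zero hα hχ (fun s => hat_nonneg _ _ s) p u q s h2]
        have hd1 : DifferentiableAt ℝ (fun r : ℝ => c (u, q, r)) s := by
          have : ContDiff ℝ ∞ (fun r : ℝ => c (u, q, r)) := hα.comp (by fun_prop)
          exact this.differentiable (by simp) s
        have hd2 : DifferentiableAt ℝ A.c s := A.smooth.differentiable (by simp) s
        have e : deriv (fun r => c (u, q, r)) s = deriv A.c s := by
          rcases hχz s h2 with h3 | h3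
          · exact deriv_eq_of_side hd1 hd2 (Or.inl ⟨h3, fun r hr =>
              hc.froz u h.1 q h.2 r (Or.inl hr)⟩)
          · exact deriv_eq_of_side hd1 hd2 (Or.inr ⟨h3, fun r hr =>
              hc.froz u h.1 q h.2 r (Or.inr hr)⟩)
        rw [e]
        exact hAimm s hs
      · exact hgp.imm u q s h1 h2
  let D : Set (ℝ × ℝ × ℝ × ℝ) := {d | Sq d.1 d.2.1 ∧ d.2.2.1 ∈ Icc A.s₀ A.s₁ ∧
    d.2.2.2 ∈ Icc A.s₀ A.s₁ ∧
    d.2.2.1 < d.2.2.2 ∧ β (d.1, d.2.1, d.2.2.1) = β (d.1, d.2.1, d.2.2.2)}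
  have hDρ : ∀ d ∈ D, ρ (d.1, d.2.1) ≠ 0 := by
    rintro ⟨u, q, s, t⟩ ⟨h1, h2, h3, h4, h5⟩ h
    simp only at h1 h2 h3 h4 h5 h
    rw [hβρ u q s h, hβρ u q t h] at h5
    exact h4.ne ((hemb u q h1 (hρz u q h)).1 h2 h3 h5)
  have hDχ : ∀ d ∈ D, χ d.2.2.1 ≠ 0 ∨ χ d.2.2.2 ≠ 0 := by
    rintro ⟨u, q, s, t⟩ ⟨h1, h2, h3, h4, h5⟩
    simp only at h1 h2 h3 h4 h5 ⊢
    by_contra hcon
    push Not at hcon
    rw [hβχ u q h1 s hcon.1, hβχ u q h1 t hcon.2] at h5
    exact h4.ne (hAinj h2 h3 h5)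
  have hDt : ∀ d ∈ D, Function.Injective (fderiv ℝ (dbl β) d) := by
    intro d hd
    obtain ⟨u, q, s, t⟩ := d
    exact hgp.trans u q s t (hDρ _ hd) hd.2.2.2.1.ne (hDχ _ hd) hd.2.2.2.2
  have hdbl : ContDiff ℝ ∞ (dbl β) := by
    unfold dbl
    exact (hβ.comp (by fun_prop)).sub (hβ.comp (by fun_prop))
  -- separation
  have hsep : ∀ d ∈ D, ∀ d' ∈ D, (d.1 = d'.1 ∨ d.2.1 = d'.2.1) → d = d' := by
    intro d hd d' hd' hor
    by_contra hne
    have r1 := hDρ d hd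
    have r2 := hDρ d' hd'
    have x1 := hDχ d hd
    have x2 := hDχ d' hd'
    obtain ⟨u, q, s, t⟩ := d
    obtain ⟨u', q', s', t'⟩ := d'
    obtain ⟨a1, a2, a3, a4, a5⟩ := hd
    obtain ⟨b1, b2, b3, b4, b5⟩ := hd'
    simp only at r1 r2 x1 x2 a1 a2 a3 a4 a5 b1 b2 b3 b4 b5 hor
    by_cases huq : (u, q) = (u', q')
    · rw [Prod.mk.injEq] at huq
      obtain ⟨rfl, rfl⟩ := huq
      have n3 : ¬ (s = s' ∧ t = t') := by
        rintro ⟨rfl, rfl⟩
        exact hne rfl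
      have n4 : ¬ (s = t' ∧ t = s') := by
        rintro ⟨e1, e2⟩
        linarith
      refine hgp.one u q s t s' t' r1 ⟨a4.ne, b4.ne, n3, n4, x1, x2, ?_, ?_, ?_, ?_⟩ a5 b5
      · intro e
        by_contra hcon
        push Not at hcon
        apply n3
        refine ⟨e, hAinj a3 b3 ?_⟩
        rw [← hβχ u q a1 t hcon.1, ← hβχ u q a1 t' hcon.2, ← a5, ← b5, e]
      · intro e
        by_contra hcon
        push Not at hcon
        apply n4
        refine ⟨e, hAinj a3 b2 ?_⟩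
        rw [← hβχ u q a1 t hcon.1, ← hβχ u q a1 s' hcon.2, ← a5, b5, e]
      · intro e
        by_contra hcon
        push Not at hcon
        apply n4
        refine ⟨hAinj a2 b3 ?_, e⟩
        rw [← hβχ u q a1 s hcon.1, ← hβχ u q a1 t' hcon.2, a5, ← b5, e]
      · intro e
        by_contra hcon
        push Not at hcon
        apply n3
        refine ⟨hAinj a2 b2 ?_, e⟩
        rw [← hβχ u q a1 s hcon.1, ← hβχ u q a1 s' hcon.2, a5, b5, e]
    · exact hgp.sep u q u' q' s t s' t' huq hor r1 r2 a4.ne b4.ne x1 x2 a5 b5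
  -- finiteness
  have hfin : D.Finite := by
    by_contra hinf
    have hinf' : D.Infinite := hinf
    have hsub : D ⊆ Icc (0 : ℝ) 1 ×ˢ (Icc (0 : ℝ) 1 ×ˢ (Icc A.s₀ A.s₁ ×ˢ Icc A.s₀ A.s₁)) := by
      rintro ⟨u, q, s, t⟩ ⟨h1, h2, h3, h4, h5⟩
      exact ⟨h1.1, h1.2, h2, h3⟩
    obtain ⟨x, hx, hacc⟩ := hinf'.exists_accPt_of_subset_isCompact
      (isCompact_Icc.prod (isCompact_Icc.prod (isCompact_Icc.prod isCompact_Icc))) hsub
    have hle : x.2.2.1 ≤ x.2.2.2 := by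
      have hcl : IsClosed {y : ℝ × ℝ × ℝ × ℝ | y.2.2.1 ≤ y.2.2.2} :=
        isClosed_le (by fun_prop) (by fun_prop)
      have h1 : x ∈ closure {y : ℝ × ℝ × ℝ × ℝ | y.2.2.1 ≤ y.2.2.2} := by
        rw [mem_closure_iff_clusterPt]
        refine hacc.clusterPt.mono ?_
        rw [Filter.principal_mono]
        exact fun y hy => hy.2.2.2.1.le
      rwa [hcl.closure_eq] at h1
    rw [accPt_iff_nhds] at hacc
    obtain ⟨u, q, s, t⟩ := x
    obtain ⟨hx1, hx2, hx3, hx4⟩ := hx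
    simp only at hle hx1 hx2 hx3 hx4
    rcases hle.lt_or_eq with hlt | rfl
    · by_cases hval : β (u, q, s) = β (u, q, t)
      · have hxD : (u, q, s, t) ∈ D := ⟨⟨hx1, hx2⟩, hx3, hx4, hlt, hval⟩
        obtain ⟨U, hU, hUi⟩ := locInj (by simp [Complex.finrank_real_complex]) hdbl (hDt _ hxD)
        obtain ⟨y, ⟨hyU, hyD⟩, hne⟩ := hacc U hU
        apply hne
        refine hUi hyU (mem_of_mem_nhds hU) ?_
        have e1 : dbl β y = 0 := sub_eq_zero.2 hyD.2.2.2.2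
        have e2 : dbl β (u, q, s, t) = 0 := sub_eq_zero.2 hval
        rw [e1, e2]
      · have hop : IsOpen {y : ℝ × ℝ × ℝ × ℝ | β (y.1, y.2.1, y.2.2.1) ≠
            β (y.1, y.2.1, y.2.2.2)} :=
          isOpen_ne_fun (hβ.continuous.comp (by fun_prop)) (hβ.continuous.comp (by fun_prop))
        obtain ⟨y, ⟨hyU, hyD⟩, -⟩ := hacc _ (hop.mem_nhds hval)
        exact hyU hyD.2.2.2.2
    · obtain ⟨N, hN, hNy⟩ := near_diag hβ (himm u q ⟨hx1, hx2⟩ s hx3)
      obtain ⟨y, ⟨hyU, hyD⟩, -⟩ := hacc N hN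
      exact hNy y hyU hyD.2.2.2.1 hyD.2.2.2.2
  have hNb0 : ∀ q, Nb (δ / 2) 0 q := fun q => Or.inl (by linarith)
  have hNb1 : ∀ q, Nb (δ / 2) 1 q := fun q => Or.inr (Or.inl (by linarith))
  have hNq0 : ∀ u, Nb (δ / 2) u 0 := fun u => Or.inr (Or.inr (Or.inl (by linarith)))
  have hNq1 : ∀ u, Nb (δ / 2) u 1 := fun u => Or.inr (Or.inr (Or.inr (by linarith)))
  refine ⟨β, ⟨hβ, ?_, ?_, ?_, ?_⟩, ?_, ?_, ?_, ?_⟩
  · intro u hu q hq s hs
    exact hβχ u q ⟨hu, hq⟩ s (hχz' s hs)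
  · intro u hu q hq s hs
    exact hoffβ u q ⟨hu, hq⟩ s hs
  · intro u hu s
    rw [hβρ u 0 s (hρz' u 0 (hNq0 u))]
    exact hc.start u hu s
  · intro u hu s
    rw [hβρ u 1 s (hρz' u 1 (hNq1 u))]
    exact hc.stop u hu s
  · intro q s
    exact hβρ 0 q s (hρz' 0 q (hNb0 q))
  · intro q s
    exact hβρ 1 q s (hρz' 1 q (hNb1 q))
  · intro u hu q hq
    exact himm u q ⟨hu, hq⟩
  · classical
    refine ⟨hfin.toFinset.image Prod.fst, ?_, ?_, ?_⟩
    · intro u hu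
      rw [Finset.mem_image] at hu
      obtain ⟨d, hd, rfl⟩ := hu
      rw [Finite.mem_toFinset] at hd
      exact (hρi _ _ (hDρ d hd)).1
    · intro u hu huB q hq
      by_contra hcon
      unfold Pool.Agent.Helper27.H.ArcD.Inj InjOn at hcon
      push Not at hcon
      obtain ⟨s, hs, t, ht, he, hne⟩ := hcon
      apply huB
      rw [Finset.mem_image]
      rcases lt_or_gt_of_ne hne with hlt | hlt
      · exact ⟨(u, q, s, t), (Finite.mem_toFinset _).2 ⟨⟨hu, hq⟩, hs, ht, hlt, he⟩, rfl⟩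
      · exact ⟨(u, q, t, s), (Finite.mem_toFinset _).2 ⟨⟨hu, hq⟩, ht, hs, hlt, he.symm⟩, rfl⟩
    · intro u hu
      rw [Finset.mem_image] at hu
      obtain ⟨d, hd, rfl⟩ := hu
      rw [Finite.mem_toFinset] at hd
      obtain ⟨u, q, a, b⟩ := d
      have hi := hρi _ _ (hDρ _ hd)
      have hx := hDχ _ hd
      have ht := hDt _ hd
      have hd' := hd
      obtain ⟨a1, a2, a3, a4, a5⟩ := hd'
      simp only at hi hx ht a1 a2 a3 a4 a5
      have hU : β (u, q, a) ∈ A.U := by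
        rcases hx with h | h
        · exact hoffβ u q a1 a ⟨(hχi a h).1.le, (hχi a h).2.le⟩
        · rw [a5]
          exact hoffβ u q a1 b ⟨(hχi b h).1.le, (hχi b h).2.le⟩
      have hU' : β (u, q, b) ∈ A.U := by rw [← a5]; exact hU
      have hioo : ∀ s ∈ Icc A.s₀ A.s₁, β (u, q, s) ∈ A.U → s ∈ Ioo A.s₀ A.s₁ := by
        intro s hs hsU
        refine ⟨lt_of_le_of_ne hs.1 ?_, lt_of_le_of_ne hs.2 ?_⟩
        · rintro rfl
          rw [hβχ u q a1 A.s₀ (hχz' _ (Or.inl hm01.1.le))] at hsU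
          exact A.off₀ hsU
        · rintro rfl
          rw [hβχ u q a1 A.s₁ (hχz' _ (Or.inr hm01.2.2.le))] at hsU
          exact A.off₁ hsU
      refine ⟨q, a, b, ⟨hi.1, hi.2, hioo a a2 hU, hioo b a3 hU', a4, a5, ?_, ?_⟩, ?_⟩
      · intro s hs s' hs' hlt he
        have := hsep (u, q, s, s') ⟨a1, hs, hs', hlt, he⟩ (u, q, a, b) hd (Or.inl rfl)
        simp only [Prod.mk.injEq, true_and] at this
        exact this
      · intro ζ η σ τ h
        have e : fderiv ℝ (dbl β) (u, q, a, b) (ζ, η, σ, τ) =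
            fderiv ℝ β (u, q, a) (ζ, η, σ) - fderiv ℝ β (u, q, b) (ζ, η, τ) := by
          let P₁ : ℝ × ℝ × ℝ × ℝ →L[ℝ] ℝ × ℝ × ℝ :=
            (ContinuousLinearMap.fst ℝ ℝ (ℝ × ℝ × ℝ)).prod
              (((ContinuousLinearMap.fst ℝ ℝ (ℝ × ℝ)).comp
                (ContinuousLinearMap.snd ℝ ℝ (ℝ × ℝ × ℝ))).prod
              ((ContinuousLinearMap.fst ℝ ℝ ℝ).comp ((ContinuousLinearMap.snd ℝ ℝ (ℝ × ℝ)).comp
                (ContinuousLinearMap.snd ℝ ℝ (ℝ × ℝ × ℝ)))))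
          let P₂ : ℝ × ℝ × ℝ × ℝ →L[ℝ] ℝ × ℝ × ℝ :=
            (ContinuousLinearMap.fst ℝ ℝ (ℝ × ℝ × ℝ)).prod
              (((ContinuousLinearMap.fst ℝ ℝ (ℝ × ℝ)).comp
                (ContinuousLinearMap.snd ℝ ℝ (ℝ × ℝ × ℝ))).prod
              ((ContinuousLinearMap.snd ℝ ℝ ℝ).comp ((ContinuousLinearMap.snd ℝ ℝ (ℝ × ℝ)).comp
                (ContinuousLinearMap.snd ℝ ℝ (ℝ × ℝ × ℝ)))))
          have d1 : HasFDerivAt (fun z => β (P₁ z)) ((fderiv ℝ β (u, q, a)).comp P₁) (u, q, a, b) :=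
            HasFDerivAt.comp (g := β) (f := P₁) (u, q, a, b)
              ((hβ.differentiable (by simp) (u, q, a)).hasFDerivAt) P₁.hasFDerivAt
          have d2 : HasFDerivAt (fun z => β (P₂ z)) ((fderiv ℝ β (u, q, b)).comp P₂) (u, q, a, b) :=
            HasFDerivAt.comp (g := β) (f := P₂) (u, q, a, b)
              ((hβ.differentiable (by simp) (u, q, b)).hasFDerivAt) P₂.hasFDerivAt
          have d3 : HasFDerivAt (dbl β) _ (u, q, a, b) := d1.sub d2
          rw [d3.fderiv]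
          rfl
        have h2 : fderiv ℝ (dbl β) (u, q, a, b) (ζ, η, σ, τ) =
            fderiv ℝ (dbl β) (u, q, a, b) 0 := by
          rw [e, h, sub_self, map_zero]
        have h3 := ht h2
        simp only [Prod.mk_eq_zero] at h3
        exact h3
      · intro q' hq' hne
        by_contra hcon
        unfold Pool.Agent.Helper27.H.ArcD.Inj InjOn at hcon
        push Not at hcon
        obtain ⟨s, hs, t, ht', he, hne'⟩ := hcon
        rcases lt_or_gt_of_ne hne' with hlt | hlt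
        · have := hsep (u, q', s, t) ⟨⟨a1.1, hq'⟩, hs, ht', hlt, he⟩ (u, q, a, b) hd (Or.inl rfl)
          simp only [Prod.mk.injEq, true_and] at this
          exact hne this.1
        · have := hsep (u, q', t, s) ⟨⟨a1.1, hq'⟩, ht', hs, hlt, he.symm⟩ (u, q, a, b) hd
            (Or.inl rfl)
          simp only [Prod.mk.injEq, true_and] at this
          exact hne this.1

end Pool.Agent.Helper34.BI.H
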