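import Pool.Agent.Helper34.BI.H.StH4

/-!
# Module NP2: parametric transversality for equations linear in the parameter, `dim X = dim Y`
-/

set_option autoImplicit false

open Module Set Filter Topology MeasureTheory
open scoped ContDiff Manifold

namespace Pool.Agent.Helper34.BI.H

namespace NP2

section
variable {X P Y : Type} [NormedAddCommGroup X] [NormedSpace ℝ X] [FiniteDimensional ℝ X]
  [NormedAddCommGroup P] [NormedSpace ℝ P] [FiniteDimensional ℝ P] [MeasurableSpace P]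
  [BorelSpace P] [NormedAddCommGroup Y] [NormedSpace ℝ Y] [FiniteDimensional ℝ Y]

/-- the local statement -/
private theorem local_null (μ : Measure P) [μ.IsAddHaarMeasure] {s : Set X} {L : X → P →L[ℝ] Y}
    {c : X → Y} (hdim : finrank ℝ X = finrank ℝ Y) (hs : IsOpen s) (hL : DifferentiableOn ℝ L s)
    (hc : DifferentiableOn ℝ c s) (hsurj : ∀ x ∈ s, Function.Surjective (L x)) {x₀ : X}
    (hx₀ : x₀ ∈ s) :
    ∃ V : Set X, IsOpen V ∧ x₀ ∈ V ∧ μ {p | ∃ x ∈ V, L x p = c x ∧
      ¬ Function.Injective (fderiv ℝ (fun x => L x p - c x) x)} = 0 := by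
  haveI : CompleteSpace Y := FiniteDimensional.complete ℝ Y
  obtain ⟨R₀, hR₀⟩ := (L x₀ : P →ₗ[ℝ] Y).exists_rightInverse_of_surjective
    (LinearMap.range_eq_top.2 (hsurj x₀ hx₀))
  let R : Y →L[ℝ] P := LinearMap.toContinuousLinearMap R₀
  have hR : ∀ y, L x₀ (R y) = y := fun y => LinearMap.congr_fun hR₀ y
  let K : Submodule ℝ P := LinearMap.ker (L x₀ : P →ₗ[ℝ] Y)
  let S : X → Y →L[ℝ] Y := fun x => (L x).comp R
  have hSd : DifferentiableOn ℝ S s := hL.clm_comp (differentiableOn_const R)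
  have hS0 : S x₀ = 1 := by
    ext y
    exact hR y
  let V : Set X := s ∩ S ⁻¹' {A | IsUnit A}
  have hV : IsOpen V := hSd.continuousOn.isOpen_inter_preimage hs Units.isOpen
  have hx₀V : x₀ ∈ V := by
    refine ⟨hx₀, ?_⟩
    change IsUnit (S x₀)
    rw [hS0]
    exact isUnit_one
  refine ⟨V, hV, hx₀V, ?_⟩
  -- the parametrization of the solutions
  let Φ : X × K → Y := fun q => Ring.inverse (S q.1) (c q.1 - L q.1 (q.2 : P))
  let Ψ : X × K → P := fun q => R (Φ q) + (q.2 : P)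
  let D : Set (X × K) := {q | q.1 ∈ V}
  have hD : IsOpen D := hV.preimage continuous_fst
  have hΦ : DifferentiableOn ℝ Φ D := by
    intro q hq
    have hqs : q.1 ∈ s := hq.1
    have d1 : DifferentiableAt ℝ (fun q : X × K => q.1) q := differentiableAt_fst
    have d2 : DifferentiableAt ℝ (fun q : X × K => (q.2 : P)) q :=
      (K.subtypeL.differentiableAt).comp q differentiableAt_snd
    have dL : DifferentiableAt ℝ (fun q : X × K => L q.1) q :=
      ((hL q.1 hqs).differentiableAt (hs.mem_nhds hqs)).comp q d1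
    have dc : DifferentiableAt ℝ (fun q : X × K => c q.1) q :=
      ((hc q.1 hqs).differentiableAt (hs.mem_nhds hqs)).comp q d1
    have dS : DifferentiableAt ℝ (fun q : X × K => S q.1) q :=
      ((hSd q.1 hqs).differentiableAt (hs.mem_nhds hqs)).comp q d1
    have dI : DifferentiableAt ℝ (fun q : X × K => Ring.inverse (S q.1)) q :=
      DifferentiableAt.inverse dS hq.2
    exact (dI.clm_apply (dc.sub (dL.clm_apply d2))).differentiableWithinAt
  have hΨ : DifferentiableOn ℝ Ψ D := by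
    have d2 : DifferentiableOn ℝ (fun q : X × K => (q.2 : P)) D :=
      ((K.subtypeL.differentiable).comp differentiable_snd).differentiableOn
    exact (R.differentiable.comp_differentiableOn hΦ).add d2
  -- the solutions
  have hsol : ∀ x ∈ V, ∀ k : K, S x (Φ (x, k)) + L x (k : P) = c x := by
    intro x hx k
    have h1 : S x * Ring.inverse (S x) = 1 := Ring.mul_inverse_cancel _ hx.2
    have h2 : S x (Ring.inverse (S x) (c x - L x (k : P))) = c x - L x (k : P) :=
      DFunLike.congr_fun h1 _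
    change S x (Ring.inverse (S x) (c x - L x (k : P))) + L x (k : P) = c x
    rw [h2, sub_add_cancel]
  have hinj : ∀ x ∈ V, ∀ y, S x y = 0 → y = 0 := by
    intro x hx y hy
    have h1 : Ring.inverse (S x) * S x = 1 := Ring.inverse_mul_cancel _ hx.2
    have h2 : Ring.inverse (S x) (S x y) = y := DFunLike.congr_fun h1 _
    rw [← h2, hy, map_zero]
  -- dimensions
  have hfr : finrank ℝ (X × K) = finrank ℝ P := by
    have h1 := LinearMap.finrank_range_add_finrank_ker (L x₀ : P →ₗ[ℝ] Y)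
    rw [LinearMap.range_eq_top.2 (hsurj x₀ hx₀), finrank_top] at h1
    rw [finrank_prod, hdim]
    exact h1
  let M : P ≃L[ℝ] X × K := ContinuousLinearEquiv.ofFinrankEq hfr.symm
  let C : Set (X × K) := {q | q ∈ D ∧ ∃ w : X × K, w ≠ 0 ∧ fderiv ℝ Ψ q w = 0}
  have hnull : μ ((Ψ ∘ M) '' (M ⁻¹' C)) = 0 := by
    refine addHaar_image_eq_zero_of_det_fderivWithin_eq_zero μ
      (f' := fun q => (fderiv ℝ Ψ (M q)).comp (M : P →L[ℝ] (X × K))) ?_ ?_
    · intro q hq
      have h1 : HasFDerivAt Ψ (fderiv ℝ Ψ (M q)) (M q) :=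
        ((hΨ _ hq.1).differentiableAt (hD.mem_nhds hq.1)).hasFDerivAt
      exact (h1.comp q M.hasFDerivAt).hasFDerivWithinAt
    · rintro q ⟨-, w, hw, hw0⟩
      have h2 : ((fderiv ℝ Ψ (M q)).comp (M : P →L[ℝ] (X × K))) (M.symm w) = 0 := by
        simpa using hw0
      have h3 : M.symm w ≠ 0 := by
        intro h0
        apply hw
        have := congrArg M h0
        simpa using this
      by_contra hdet
      apply h3
      have h5 : LinearMap.ker
          (((fderiv ℝ Ψ (M q)).comp (M : P →L[ℝ] (X × K))) : P →ₗ[ℝ] P) = ⊥ :=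
        (LinearMap.isUnit_iff_ker_eq_bot _).1
          ((LinearMap.isUnit_iff_isUnit_det _).2 (isUnit_iff_ne_zero.2 hdet))
      exact (LinearMap.ker_eq_bot'.1 h5) _ h2
  refine measure_mono_null ?_ hnull
  rintro p ⟨x, hx, hxp, hni⟩
  have hxs : x ∈ s := hx.1
  -- the parameters
  have hk : p - R (L x₀ p) ∈ K := by
    change L x₀ (p - R (L x₀ p)) = 0
    rw [map_sub, hR, sub_self]
  let k : K := ⟨p - R (L x₀ p), hk⟩
  have hy : Φ (x, k) = L x₀ p := by
    have h1 := hsol x hx k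
    have h2 : S x (L x₀ p) + L x (k : P) = c x := by
      rw [← hxp]
      change L x (R (L x₀ p)) + L x (p - R (L x₀ p)) = L x p
      rw [← map_add, add_sub_cancel]
    have h3 : S x (Φ (x, k) - L x₀ p) = 0 := by
      rw [map_sub, sub_eq_zero]
      exact add_right_cancel (h1.trans h2.symm)
    exact sub_eq_zero.1 (hinj x hx _ h3)
  have hp : Ψ (x, k) = p := by
    change R (Φ (x, k)) + (p - R (L x₀ p)) = p
    rw [hy, add_sub_cancel]
  -- derivatives
  have hL1 : HasFDerivAt L (fderiv ℝ L x) x :=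
    ((hL x hxs).differentiableAt (hs.mem_nhds hxs)).hasFDerivAt
  have hc1 : HasFDerivAt c (fderiv ℝ c x) x :=
    ((hc x hxs).differentiableAt (hs.mem_nhds hxs)).hasFDerivAt
  have hS1 : HasFDerivAt S (fderiv ℝ S x) x :=
    ((hSd x hxs).differentiableAt (hs.mem_nhds hxs)).hasFDerivAt
  have hS2 : ∀ ζ : X, fderiv ℝ S x ζ = (fderiv ℝ L x ζ).comp R := by
    intro ζ
    have h1 := (hL1.clm_comp (hasFDerivAt_const R x)).fderiv
    have h2 : fderiv ℝ S x = _ := h1
    rw [h2]
    ext y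
    simp
  have hqD : (x, k) ∈ D := hx
  have hΦ1 : HasFDerivAt Φ (fderiv ℝ Φ (x, k)) (x, k) :=
    ((hΦ _ hqD).differentiableAt (hD.mem_nhds hqD)).hasFDerivAt
  have hg : HasFDerivAt (fun x' : X => Φ (x', k))
      ((fderiv ℝ Φ (x, k)).comp (ContinuousLinearMap.inl ℝ X K)) x := by
    have hi : HasFDerivAt (fun e : X => (e, k)) (ContinuousLinearMap.inl ℝ X K) x :=
      hasFDerivAt_prodMk_left x k
    exact HasFDerivAt.comp (g := Φ) (f := fun e : X => (e, k)) x hΦ1 hi
  have hzero : (fun x' : X => S x' (Φ (x', k)) + L x' (k : P) - c x') =ᶠ[𝓝 x] fun _ => 0 := by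
    filter_upwards [hV.mem_nhds hx] with x' hx'
    rw [hsol x' hx' k, sub_self]
  have hd := ((hS1.clm_apply hg).add (hL1.clm_apply (hasFDerivAt_const (k : P) x))).sub hc1
  have hd0 := hd.unique ((hasFDerivAt_const (0 : Y) x).congr_of_eventuallyEq hzero)
  obtain ⟨ζ, hζ, hζ0⟩ : ∃ ζ : X, ζ ≠ 0 ∧ fderiv ℝ (fun x => L x p - c x) x ζ = 0 := by
    by_contra hcon
    push Not at hcon
    apply hni
    rw [injective_iff_map_eq_zero]
    intro ζ h
    by_contra hne
    exact hcon ζ hne h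
  have hLp : fderiv ℝ (fun x => L x p - c x) x ζ = fderiv ℝ L x ζ p - fderiv ℝ c x ζ := by
    have h1 := ((hL1.clm_apply (hasFDerivAt_const p x)).sub hc1).fderiv
    have h2 : fderiv ℝ (fun x => L x p - c x) x = _ := h1
    rw [h2]
    simp
  rw [hLp, sub_eq_zero] at hζ0
  have hg0 : fderiv ℝ Φ (x, k) (ζ, 0) = 0 := by
    apply hinj x hx
    have h1 := DFunLike.congr_fun hd0 ζ
    simp only [ContinuousLinearMap.sub_apply, ContinuousLinearMap.add_apply,
      ContinuousLinearMap.comp_apply, ContinuousLinearMap.flip_apply,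
      ContinuousLinearMap.inl_apply, ContinuousLinearMap.zero_apply, map_zero, zero_add,
      hS2 ζ, hy] at h1
    have h2 : fderiv ℝ L x ζ p = fderiv ℝ L x ζ (R (L x₀ p)) + fderiv ℝ L x ζ (k : P) := by
      rw [← map_add]
      congr 1
      change p = R (L x₀ p) + (p - R (L x₀ p))
      rw [add_sub_cancel]
    rw [← hζ0, h2] at h1
    have h3 : S x (fderiv ℝ Φ (x, k) (ζ, 0)) + (fderiv ℝ L x ζ (R (L x₀ p)) +
        fderiv ℝ L x ζ (k : P)) - (fderiv ℝ L x ζ (R (L x₀ p)) + fderiv ℝ L x ζ (k : P)) = 0 := by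
      rw [← add_assoc]; exact h1
    rwa [add_sub_cancel_right] at h3
  have hΨ0 : fderiv ℝ Ψ (x, k) (ζ, 0) = 0 := by
    have h1 : HasFDerivAt Ψ ((R : Y →L[ℝ] P).comp (fderiv ℝ Φ (x, k)) +
        K.subtypeL.comp (ContinuousLinearMap.snd ℝ X K)) (x, k) :=
      (R.hasFDerivAt.comp (x, k) hΦ1).add (K.subtypeL.hasFDerivAt.comp (x, k) hasFDerivAt_snd)
    rw [h1.fderiv]
    simp [hg0]
  refine ⟨M.symm (x, k), ?_, ?_⟩
  · change M (M.symm (x, k)) ∈ C
    rw [ContinuousLinearEquiv.apply_symm_apply]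
    refine ⟨hqD, (ζ, 0), ?_, hΨ0⟩
    intro h0
    exact hζ (congrArg Prod.fst h0)
  · change Ψ (M (M.symm (x, k))) = p
    rw [ContinuousLinearEquiv.apply_symm_apply, hp]

end

end NP2

/-- Module NP2. -/
theorem m_NP2 : StNP2 := by
  intro X P Y _ _ _ _ _ _ _ _ _ _ _ μ _ s L c hdim hs hL hc hsurj
  haveI : ProperSpace X := FiniteDimensional.proper ℝ X
  have h : ∀ x₀ : X, ∃ V : Set X, x₀ ∈ s → (IsOpen V ∧ x₀ ∈ V ∧ μ {p | ∃ x ∈ V, L x p = c x ∧
      ¬ Function.Injective (fderiv ℝ (fun x => L x p - c x) x)} = 0) := by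
    intro x₀
    by_cases hx : x₀ ∈ s
    · obtain ⟨V, hV⟩ := NP2.local_null μ hdim hs hL hc hsurj hx
      exact ⟨V, fun _ => hV⟩
    · exact ⟨∅, fun h => absurd h hx⟩
  choose V hV using h
  obtain ⟨t, ht, htc, hcov⟩ := TopologicalSpace.countable_cover_nhdsWithin (s := s) (f := V)
    fun x hx => mem_nhdsWithin_of_mem_nhds ((hV x hx).1.mem_nhds (hV x hx).2.1)
  have h0 : μ (⋃ x₀ ∈ t, {p | ∃ x ∈ V x₀, L x p = c x ∧
      ¬ Function.Injective (fderiv ℝ (fun x => L x p - c x) x)}) = 0 :=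
    (measure_biUnion_null_iff htc).2 fun x₀ hx₀ => (hV x₀ (ht hx₀)).2.2
  refine measure_mono_null ?_ h0
  rintro p ⟨x, hx, h1, h2⟩
  obtain ⟨x₀, hx₀, hxV⟩ := mem_iUnion₂.1 (hcov hx)
  exact mem_iUnion₂.2 ⟨x₀, hx₀, x, hxV, h1, h2⟩

end Pool.Agent.Helper34.BI.H
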