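import Pool.Agent.Helper34.BI.H.StH4

/-!
# Project BI, stage 3, module NU1: generic families of arcs are immersed
-/

set_option autoImplicit false

open Module Set Filter Topology MeasureTheory
open scoped ContDiff Manifold
open Pool.Agent.Helper65.Barb Pool.Agent.Helper18.BI

namespace Pool.Agent.Helper34.BI.H

namespace NU1

/-- the derivatives of the monomials in `s` -/
def dmon (z : ℝ × ℝ × ℝ) : Fin 8 → ℝ :=
  ![0, 1, 2 * z.2.2, 3 * z.2.2 ^ 2, 0, z.2.1, 0, z.1]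

theorem hasDerivAt_mon (u q s : ℝ) (j : Fin 8) :
    HasDerivAt (fun s => mon (u, q, s) j) (dmon (u, q, s) j) s := by
  have h1 : HasDerivAt (fun s : ℝ => s) 1 s := hasDerivAt_id s
  have h2 : HasDerivAt (fun s : ℝ => s ^ 2) (2 * s) s := by
    have := hasDerivAt_pow 2 s
    simpa using this
  have h3 : HasDerivAt (fun s : ℝ => s ^ 3) (3 * s ^ 2) s := by
    have := hasDerivAt_pow 3 s
    simpa using this
  have h5 : HasDerivAt (fun s : ℝ => q * s) q s := by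
    have := h1.const_mul q
    simpa using this
  have h7 : HasDerivAt (fun s : ℝ => u * s) u s := by
    have := h1.const_mul u
    simpa using this
  fin_cases j
  · exact hasDerivAt_const s (1 : ℝ)
  · exact h1
  · exact h2
  · exact h3
  · exact hasDerivAt_const s q
  · exact h5
  · exact hasDerivAt_const s u
  · exact h7

theorem differentiable_mon (j : Fin 8) : Differentiable ℝ (fun z : ℝ × ℝ × ℝ => mon z j) := by
  fin_cases j
  · exact differentiable_const (1 : ℝ)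
  · show Differentiable ℝ (fun z : ℝ × ℝ × ℝ => z.2.2)
    fun_prop
  · show Differentiable ℝ (fun z : ℝ × ℝ × ℝ => z.2.2 ^ 2)
    fun_prop
  · show Differentiable ℝ (fun z : ℝ × ℝ × ℝ => z.2.2 ^ 3)
    fun_prop
  · show Differentiable ℝ (fun z : ℝ × ℝ × ℝ => z.2.1)
    fun_prop
  · show Differentiable ℝ (fun z : ℝ × ℝ × ℝ => z.2.1 * z.2.2)
    fun_prop
  · show Differentiable ℝ (fun z : ℝ × ℝ × ℝ => z.1)
    fun_prop
  · show Differentiable ℝ (fun z : ℝ × ℝ × ℝ => z.1 * z.2.2)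
    fun_prop

theorem differentiable_dmon (j : Fin 8) : Differentiable ℝ (fun z : ℝ × ℝ × ℝ => dmon z j) := by
  fin_cases j
  · exact differentiable_const (0 : ℝ)
  · exact differentiable_const (1 : ℝ)
  · show Differentiable ℝ (fun z : ℝ × ℝ × ℝ => 2 * z.2.2)
    fun_prop
  · show Differentiable ℝ (fun z : ℝ × ℝ × ℝ => 3 * z.2.2 ^ 2)
    fun_prop
  · exact differentiable_const (0 : ℝ)
  · show Differentiable ℝ (fun z : ℝ × ℝ × ℝ => z.2.1)
    fun_prop
  · exact differentiable_const (0 : ℝ)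
  · show Differentiable ℝ (fun z : ℝ × ℝ × ℝ => z.1)
    fun_prop

/-- the coefficients -/
noncomputable def co (ρ : ℝ × ℝ → ℝ) (χ : ℝ → ℝ) (z : ℝ × ℝ × ℝ) (j : Fin 8) : ℝ :=
  ρ (z.1, z.2.1) * (deriv χ z.2.2 * mon z j + χ z.2.2 * dmon z j)

/-- the linear maps -/
noncomputable def Lm (ρ : ℝ × ℝ → ℝ) (χ : ℝ → ℝ) (z : ℝ × ℝ × ℝ) : (Fin 8 → R4) →L[ℝ] R4 :=
  ∑ j, co ρ χ z j • (ContinuousLinearMap.proj j : (Fin 8 → R4) →L[ℝ] R4)

theorem Lm_apply (ρ : ℝ × ℝ → ℝ) (χ : ℝ → ℝ) (z : ℝ × ℝ × ℝ) (p : Fin 8 → R4) :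
    Lm ρ χ z p = ∑ j, co ρ χ z j • p j := by
  unfold Lm
  simp only [_root_.sum_apply]
  rfl

theorem deriv_prt {α : ℝ × ℝ × ℝ → R4} {ρ : ℝ × ℝ → ℝ} {χ : ℝ → ℝ} (hα : Differentiable ℝ α)
    (hχ : Differentiable ℝ χ) (p : Fin 8 → R4) (u q s : ℝ) :
    deriv (fun s => prt α ρ χ p (u, q, s)) s =
      fderiv ℝ α (u, q, s) (0, 0, 1) + Lm ρ χ (u, q, s) p := by
  have h1 : HasDerivAt (fun s : ℝ => (u, q, s)) ((0 : ℝ), (0 : ℝ), (1 : ℝ)) s :=
    (hasDerivAt_const s u).prodMk ((hasDerivAt_const s q).prodMk (hasDerivAt_id s))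
  have h2 : HasDerivAt (fun s : ℝ => α (u, q, s)) (fderiv ℝ α (u, q, s) (0, 0, 1)) s :=
    (hα (u, q, s)).hasFDerivAt.comp_hasDerivAt s h1
  have h3 : ∀ j : Fin 8, HasDerivAt (fun s : ℝ => (ρ (u, q) * χ s * mon (u, q, s) j) • p j)
      (co ρ χ (u, q, s) j • p j) s := by
    intro j
    have h4 := (((hχ s).hasDerivAt.const_mul (ρ (u, q))).mul (hasDerivAt_mon u q s j)).smul_const
      (p j)
    have e : co ρ χ (u, q, s) j = ρ (u, q) * deriv χ s * mon (u, q, s) j +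
        ρ (u, q) * χ s * dmon (u, q, s) j := by
      unfold co
      ring
    rw [e]
    exact h4
  have h5 := h2.add (HasDerivAt.fun_sum (u := Finset.univ) (fun j _ => h3 j))
  rw [Lm_apply]
  exact h5.deriv

theorem surj {ρ : ℝ × ℝ → ℝ} {χ : ℝ → ℝ} {z : ℝ × ℝ × ℝ} (h1 : ρ (z.1, z.2.1) ≠ 0)
    (h2 : χ z.2.2 ≠ 0) : Function.Surjective (Lm ρ χ z) := by
  have key : ∀ j : Fin 8, co ρ χ z j ≠ 0 → Function.Surjective (Lm ρ χ z) := by
    intro j hj y
    refine ⟨Pi.single j ((co ρ χ z j)⁻¹ • y), ?_⟩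
    rw [Lm_apply, Finset.sum_eq_single j]
    · rw [Pi.single_eq_same, smul_smul, mul_inv_cancel₀ hj, one_smul]
    · intro i _ hij
      rw [Pi.single_eq_of_ne hij, smul_zero]
    · intro h
      exact absurd (Finset.mem_univ j) h
  by_cases h3 : co ρ χ z 0 ≠ 0
  · exact key 0 h3
  · push Not at h3
    apply key 1
    intro h4
    have e0 : co ρ χ z 0 = ρ (z.1, z.2.1) * (deriv χ z.2.2 * 1 + χ z.2.2 * 0) := rfl
    have e1 : co ρ χ z 1 = ρ (z.1, z.2.1) * (deriv χ z.2.2 * z.2.2 + χ z.2.2 * 1) := rfl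
    rw [e0] at h3
    rw [e1] at h4
    have h5 := (mul_eq_zero.1 h3).resolve_left h1
    have h6 := (mul_eq_zero.1 h4).resolve_left h1
    have h7 : deriv χ z.2.2 = 0 := by linarith
    rw [h7] at h6
    apply h2
    linarith

end NU1

/-- MODULE NU1. -/
theorem m_NU1 (hNP1 : StNP1) : StNU1 := by
  intro μ _ α ρ χ hα hρ hχ
  have d0 : Differentiable ℝ α := hα.differentiable (by simp)
  have d1 : Differentiable ℝ ρ := hρ.differentiable (by simp)
  have d2 : Differentiable ℝ χ := hχ.differentiable (by simp)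
  have d4 : Differentiable ℝ (deriv χ) :=
    (ContDiff.deriv' (n := ∞) (by simpa using hχ)).differentiable (by simp)
  have d3 : Differentiable ℝ (fun x : ℝ × ℝ × ℝ => fderiv ℝ α x (0, 0, 1)) := by
    have : ContDiff ℝ ∞ (fderiv ℝ α) := hα.fderiv_right (by simp)
    exact ((this.differentiable (by simp)).clm_apply (differentiable_const _))
  have hdim : finrank ℝ (ℝ × ℝ × ℝ) < finrank ℝ R4 := by
    simp [Complex.finrank_real_complex]
  have dco : ∀ j : Fin 8, Differentiable ℝ (fun z : ℝ × ℝ × ℝ => NU1.co ρ χ z j) := by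
    intro j
    have e1 := NU1.differentiable_mon j
    have e2 := NU1.differentiable_dmon j
    have e3 : Differentiable ℝ (fun z : ℝ × ℝ × ℝ => ρ (z.1, z.2.1)) :=
      d1.comp (by fun_prop)
    have e4 : Differentiable ℝ (fun z : ℝ × ℝ × ℝ => deriv χ z.2.2) := d4.comp (by fun_prop)
    have e5 : Differentiable ℝ (fun z : ℝ × ℝ × ℝ => χ z.2.2) := d2.comp (by fun_prop)
    exact e3.mul ((e4.mul e1).add (e5.mul e2))
  have dL : Differentiable ℝ (NU1.Lm ρ χ) := by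
    unfold NU1.Lm
    exact Differentiable.fun_sum (fun j _ => (dco j).smul_const _)
  have key := hNP1 (ℝ × ℝ × ℝ) (Fin 8 → R4) R4 μ
    {z : ℝ × ℝ × ℝ | ρ (z.1, z.2.1) ≠ 0 ∧ χ z.2.2 ≠ 0} (NU1.Lm ρ χ)
    (fun z => -fderiv ℝ α z (0, 0, 1)) hdim dL.differentiableOn d3.neg.differentiableOn
    (fun z hz => NU1.surj hz.1 hz.2)
  refine measure_mono_null ?_ key
  rintro p ⟨u, q, s, h1, h2, h3⟩
  refine ⟨(u, q, s), ⟨h1, h2⟩, ?_⟩
  rw [NU1.deriv_prt d0 d2] at h3
  rw [eq_neg_iff_add_eq_zero, add_comm]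
  exact h3

end Pool.Agent.Helper34.BI.H
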