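import Pool.Agent.Helper34.BI.H.StH4

/-!
# Project BI, stage 3, module NU2: generic double points are transverse
-/

set_option autoImplicit false

open Module Set Filter Topology MeasureTheory
open scoped ContDiff Manifold
open Pool.Agent.Helper65.Barb Pool.Agent.Helper18.BI

namespace Pool.Agent.Helper34.BI.H

private theorem mon_diff_NU2 (j : Fin 8) : Differentiable ℝ (fun z : ℝ × ℝ × ℝ => mon z j) := by
  fin_cases j <;> simp only [mon] <;> (try simp) <;> fun_prop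

/-- the coefficients -/
private noncomputable def co_NU2 (ρ : ℝ × ℝ → ℝ) (χ : ℝ → ℝ) (x : ℝ × ℝ × ℝ × ℝ) (j : Fin 8) : ℝ :=
  ρ (x.1, x.2.1) * (χ x.2.2.1 * mon (x.1, x.2.1, x.2.2.1) j -
    χ x.2.2.2 * mon (x.1, x.2.1, x.2.2.2) j)

/-- the linear maps -/
private noncomputable def L_NU2 (ρ : ℝ × ℝ → ℝ) (χ : ℝ → ℝ) (x : ℝ × ℝ × ℝ × ℝ) :
    (Fin 8 → R4) →L[ℝ] R4 :=
  ∑ j, co_NU2 ρ χ x j • ContinuousLinearMap.proj (R := ℝ) (φ := fun _ : Fin 8 => R4) j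

private theorem L_apply_NU2 (ρ : ℝ × ℝ → ℝ) (χ : ℝ → ℝ) (x : ℝ × ℝ × ℝ × ℝ) (p : Fin 8 → R4) :
    L_NU2 ρ χ x p = ∑ j, co_NU2 ρ χ x j • p j := by
  simp only [L_NU2, ContinuousLinearMap.sum_apply, ContinuousLinearMap.smul_apply,
    ContinuousLinearMap.proj_apply]

private theorem eq_NU2 (α : ℝ × ℝ × ℝ → R4) (ρ : ℝ × ℝ → ℝ) (χ : ℝ → ℝ) (p : Fin 8 → R4)
    (x : ℝ × ℝ × ℝ × ℝ) :
    L_NU2 ρ χ x p - (-dbl α x) = dbl (prt α ρ χ p) x := by
  rw [L_apply_NU2]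
  simp only [dbl, prt]
  have h : ∑ j, co_NU2 ρ χ x j • p j =
      ∑ j, (ρ (x.1, x.2.1) * χ x.2.2.1 * mon (x.1, x.2.1, x.2.2.1) j) • p j -
        ∑ j, (ρ (x.1, x.2.1) * χ x.2.2.2 * mon (x.1, x.2.1, x.2.2.2) j) • p j := by
    rw [← Finset.sum_sub_distrib]
    refine Finset.sum_congr rfl fun j _ => ?_
    rw [← sub_smul, co_NU2]
    congr 1
    ring
  rw [h]
  abel

private theorem surj_NU2 (ρ : ℝ × ℝ → ℝ) (χ : ℝ → ℝ) (x : ℝ × ℝ × ℝ × ℝ) {j : Fin 8}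
    (hj : co_NU2 ρ χ x j ≠ 0) : Function.Surjective (L_NU2 ρ χ x) := by
  intro y
  refine ⟨Pi.single j ((co_NU2 ρ χ x j)⁻¹ • y), ?_⟩
  rw [L_apply_NU2, Finset.sum_eq_single_of_mem j (Finset.mem_univ j)]
  · rw [Pi.single_eq_same, smul_smul, mul_inv_cancel₀ hj, one_smul]
  · intro i _ hi
    rw [Pi.single_eq_of_ne hi, smul_zero]

private theorem L_diff_NU2 {ρ : ℝ × ℝ → ℝ} {χ : ℝ → ℝ} (hρ : Differentiable ℝ ρ)
    (hχ : Differentiable ℝ χ) : Differentiable ℝ (L_NU2 ρ χ) := by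
  unfold L_NU2
  have h : ∀ j : Fin 8, Differentiable ℝ (fun x => co_NU2 ρ χ x j) := by
    intro j
    have h1 : Differentiable ℝ (fun x : ℝ × ℝ × ℝ × ℝ => mon (x.1, x.2.1, x.2.2.1) j) :=
      (mon_diff_NU2 j).comp (f := fun x : ℝ × ℝ × ℝ × ℝ => (x.1, x.2.1, x.2.2.1)) (by fun_prop)
    have h2 : Differentiable ℝ (fun x : ℝ × ℝ × ℝ × ℝ => mon (x.1, x.2.1, x.2.2.2) j) :=
      (mon_diff_NU2 j).comp (f := fun x : ℝ × ℝ × ℝ × ℝ => (x.1, x.2.1, x.2.2.2)) (by fun_prop)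
    unfold co_NU2
    fun_prop
  refine Differentiable.fun_sum fun j _ => ?_
  exact (h j).smul_const _

/-- **NU2.** Generic double points are transverse. -/
theorem m_NU2 (h2 : StNP2) : StNU2 := by
  intro μ _ α ρ χ hα hρ hχ
  have d1 : Differentiable ℝ ρ := hρ.differentiable (by simp)
  have d2 : Differentiable ℝ χ := hχ.differentiable (by simp)
  have d3 : Differentiable ℝ α := hα.differentiable (by simp)
  have hfr : finrank ℝ (ℝ × ℝ × ℝ × ℝ) = finrank ℝ R4 := by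
    simp [R4, finrank_prod, Complex.finrank_real_complex]
  have hdbl : Differentiable ℝ (fun x => -dbl α x) := by
    unfold dbl
    fun_prop
  have hs : IsOpen {x : ℝ × ℝ × ℝ × ℝ | ρ (x.1, x.2.1) ≠ 0 ∧ x.2.2.1 ≠ x.2.2.2 ∧
      (χ x.2.2.1 ≠ 0 ∨ χ x.2.2.2 ≠ 0)} := by
    refine IsOpen.inter ?_ (IsOpen.inter ?_ (IsOpen.union ?_ ?_))
    · exact isOpen_ne_fun (d1.continuous.comp (by fun_prop)) continuous_const
    · exact isOpen_ne_fun (by fun_prop) (by fun_prop)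
    · exact isOpen_ne_fun (d2.continuous.comp (by fun_prop)) continuous_const
    · exact isOpen_ne_fun (d2.continuous.comp (by fun_prop)) continuous_const
  have key := h2 (ℝ × ℝ × ℝ × ℝ) (Fin 8 → R4) R4 μ _ (L_NU2 ρ χ) (fun x => -dbl α x) hfr hs
    (L_diff_NU2 d1 d2).differentiableOn hdbl.differentiableOn ?_
  · refine measure_mono_null ?_ key
    rintro p ⟨u, q, s, t, hρ0, hst, hχ0, heq, hinj⟩
    refine ⟨(u, q, s, t), ⟨hρ0, hst, hχ0⟩, ?_, ?_⟩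
    · rw [← sub_eq_zero, eq_NU2]
      exact sub_eq_zero.2 heq
    · have : (fun x => L_NU2 ρ χ x p - (-dbl α x)) = dbl (prt α ρ χ p) :=
        funext fun x => eq_NU2 α ρ χ p x
      rw [this]
      exact hinj
  · rintro ⟨u, q, s, t⟩ ⟨hρ0, hst, hχ0⟩
    by_cases h0 : co_NU2 ρ χ (u, q, s, t) 0 = 0
    · by_cases h1 : co_NU2 ρ χ (u, q, s, t) 1 = 0
      · exfalso
        simp only at hρ0 hst hχ0
        simp only [co_NU2, mon, Matrix.cons_val_zero, Matrix.cons_val_one, mul_one] at h0 h1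
        have h3 : χ s - χ t = 0 := (mul_eq_zero.1 h0).resolve_left hρ0
        have h4 : χ s * s - χ t * t = 0 := (mul_eq_zero.1 h1).resolve_left hρ0
        have h5 : χ s = χ t := by linarith
        rw [h5] at h4
        have h6 : (s - t) * χ t = 0 := by linarith
        have h7 : χ t = 0 := (mul_eq_zero.1 h6).resolve_left (sub_ne_zero.2 hst)
        rcases hχ0 with h8 | h8
        · exact h8 (h5.trans h7)
        · exact h8 h7
      · exact surj_NU2 ρ χ _ h1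
    · exact surj_NU2 ρ χ _ h0

end Pool.Agent.Helper34.BI.H
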