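import Pool.Agent.Helper34.BI.H.StH4

/-!
# Project BI, stage 3, module NU3: double points at two different parameters
-/

set_option autoImplicit false

open Module Set Filter Topology MeasureTheory
open scoped ContDiff Manifold
open Pool.Agent.Helper65.Barb Pool.Agent.Helper18.BI

namespace Pool.Agent.Helper34.BI.H

namespace NU3

/-- the coefficients of the parameters in the difference of two strands -/
noncomputable def lam (ρ : ℝ × ℝ → ℝ) (χ : ℝ → ℝ) (b : ℝ × ℝ) (s t : ℝ) (j : Fin 8) : ℝ :=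
  ρ b * (χ s * mon (b.1, b.2, s) j - χ t * mon (b.1, b.2, t) j)

/-- the combination of the coefficients which belongs to a polynomial -/
private theorem lam_sum (ρ : ℝ × ℝ → ℝ) (χ : ℝ → ℝ) (b : ℝ × ℝ) (s t : ℝ) (c : Fin 8 → ℝ) :
    ∑ j, lam ρ χ b s t j * c j
      = ρ b * (χ s * ∑ j, mon (b.1, b.2, s) j * c j - χ t * ∑ j, mon (b.1, b.2, t) j * c j) := by
  simp only [lam, Finset.mul_sum, ← Finset.sum_sub_distrib]
  exact Finset.sum_congr rfl fun j _ => by ring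

private theorem exists_ne {ρ : ℝ × ℝ → ℝ} {χ : ℝ → ℝ} {b b' : ℝ × ℝ} (hb : b ≠ b') (h1 : ρ b ≠ 0)
    {s t : ℝ} (hst : s ≠ t) (hχ : χ s ≠ 0 ∨ χ t ≠ 0) (s' t' : ℝ) :
    ∃ c : Fin 8 → ℝ, ∑ j, lam ρ χ b s t j * c j ≠ 0 ∧ ∑ j, lam ρ χ b' s' t' j * c j = 0 := by
  have hne : χ s - χ t ≠ 0 ∨ χ s * s - χ t * t ≠ 0 := by
    by_contra hc
    push Not at hc
    obtain ⟨e1, e2⟩ := hc
    have e3 : χ s = χ t := by linarith
    have e4 : χ t * (s - t) = 0 := by rw [e3] at e2; linarith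
    rcases mul_eq_zero.1 e4 with h | h
    · rcases hχ with h' | h'
      · exact h' (e3.trans h)
      · exact h' h
    · exact hst (by linarith)
  have hb' : b.2 ≠ b'.2 ∨ b.1 ≠ b'.1 := by
    by_contra hc
    push Not at hc
    exact hb (Prod.ext hc.2 hc.1)
  rcases hb' with hq | hq
  · have hq' : b.2 - b'.2 ≠ 0 := sub_ne_zero.2 hq
    rcases hne with hn | hn
    · refine ⟨![-b'.2, 0, 0, 0, 1, 0, 0, 0], ?_, ?_⟩
      · rw [lam_sum]
        have e : ∀ x : ℝ, ∑ j, mon (b.1, b.2, x) j * (![-b'.2, 0, 0, 0, 1, 0, 0, 0] : Fin 8 → ℝ) j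
            = b.2 - b'.2 := by
          intro x
          simp [Fin.sum_univ_succ, mon]
          ring
        rw [e, e]
        have : ρ b * (χ s * (b.2 - b'.2) - χ t * (b.2 - b'.2))
            = ρ b * ((b.2 - b'.2) * (χ s - χ t)) := by ring
        rw [this]
        exact mul_ne_zero h1 (mul_ne_zero hq' hn)
      · rw [lam_sum]
        have e : ∀ x : ℝ, ∑ j, mon (b'.1, b'.2, x) j * (![-b'.2, 0, 0, 0, 1, 0, 0, 0] : Fin 8 → ℝ) j
            = 0 := by
          intro x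
          simp [Fin.sum_univ_succ, mon]
        rw [e, e]
        ring
    · refine ⟨![0, -b'.2, 0, 0, 0, 1, 0, 0], ?_, ?_⟩
      · rw [lam_sum]
        have e : ∀ x : ℝ, ∑ j, mon (b.1, b.2, x) j * (![0, -b'.2, 0, 0, 0, 1, 0, 0] : Fin 8 → ℝ) j
            = (b.2 - b'.2) * x := by
          intro x
          simp [Fin.sum_univ_succ, mon]
          ring
        rw [e, e]
        have : ρ b * (χ s * ((b.2 - b'.2) * s) - χ t * ((b.2 - b'.2) * t))
            = ρ b * ((b.2 - b'.2) * (χ s * s - χ t * t)) := by ring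
        rw [this]
        exact mul_ne_zero h1 (mul_ne_zero hq' hn)
      · rw [lam_sum]
        have e : ∀ x : ℝ, ∑ j, mon (b'.1, b'.2, x) j * (![0, -b'.2, 0, 0, 0, 1, 0, 0] : Fin 8 → ℝ) j
            = 0 := by
          intro x
          simp [Fin.sum_univ_succ, mon]
          ring
        rw [e, e]
        ring
  · have hq' : b.1 - b'.1 ≠ 0 := sub_ne_zero.2 hq
    rcases hne with hn | hn
    · refine ⟨![-b'.1, 0, 0, 0, 0, 0, 1, 0], ?_, ?_⟩
      · rw [lam_sum]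
        have e : ∀ x : ℝ, ∑ j, mon (b.1, b.2, x) j * (![-b'.1, 0, 0, 0, 0, 0, 1, 0] : Fin 8 → ℝ) j
            = b.1 - b'.1 := by
          intro x
          simp [Fin.sum_univ_succ, mon]
          ring
        rw [e, e]
        have : ρ b * (χ s * (b.1 - b'.1) - χ t * (b.1 - b'.1))
            = ρ b * ((b.1 - b'.1) * (χ s - χ t)) := by ring
        rw [this]
        exact mul_ne_zero h1 (mul_ne_zero hq' hn)
      · rw [lam_sum]
        have e : ∀ x : ℝ, ∑ j, mon (b'.1, b'.2, x) j * (![-b'.1, 0, 0, 0, 0, 0, 1, 0] : Fin 8 → ℝ) j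
            = 0 := by
          intro x
          simp [Fin.sum_univ_succ, mon]
        rw [e, e]
        ring
    · refine ⟨![0, -b'.1, 0, 0, 0, 0, 0, 1], ?_, ?_⟩
      · rw [lam_sum]
        have e : ∀ x : ℝ, ∑ j, mon (b.1, b.2, x) j * (![0, -b'.1, 0, 0, 0, 0, 0, 1] : Fin 8 → ℝ) j
            = (b.1 - b'.1) * x := by
          intro x
          simp [Fin.sum_univ_succ, mon]
          ring
        rw [e, e]
        have : ρ b * (χ s * ((b.1 - b'.1) * s) - χ t * ((b.1 - b'.1) * t))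
            = ρ b * ((b.1 - b'.1) * (χ s * s - χ t * t)) := by ring
        rw [this]
        exact mul_ne_zero h1 (mul_ne_zero hq' hn)
      · rw [lam_sum]
        have e : ∀ x : ℝ, ∑ j, mon (b'.1, b'.2, x) j * (![0, -b'.1, 0, 0, 0, 0, 0, 1] : Fin 8 → ℝ) j
            = 0 := by
          intro x
          simp [Fin.sum_univ_succ, mon]
          ring
        rw [e, e]
        ring

private theorem exists_one {ρ : ℝ × ℝ → ℝ} {χ : ℝ → ℝ} {b b' : ℝ × ℝ} (hb : b ≠ b') (h1 : ρ b ≠ 0)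
    {s t : ℝ} (hst : s ≠ t) (hχ : χ s ≠ 0 ∨ χ t ≠ 0) (s' t' : ℝ) :
    ∃ c : Fin 8 → ℝ, ∑ j, lam ρ χ b s t j * c j = 1 ∧ ∑ j, lam ρ χ b' s' t' j * c j = 0 := by
  obtain ⟨c, h2, h3⟩ := exists_ne hb h1 hst hχ s' t'
  refine ⟨fun j => c j * (∑ j, lam ρ χ b s t j * c j)⁻¹, ?_, ?_⟩
  · simp only [← mul_assoc]
    rw [← Finset.sum_mul]
    exact mul_inv_cancel₀ h2
  · simp only [← mul_assoc]
    rw [← Finset.sum_mul, h3, zero_mul]

/-- the linear system -/
noncomputable def Lm (l l' : Fin 8 → ℝ) : (Fin 8 → R4) →L[ℝ] R4 × R4 :=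
  ∑ j, (l j • (ContinuousLinearMap.inl ℝ R4 R4).comp (ContinuousLinearMap.proj j)
    + l' j • (ContinuousLinearMap.inr ℝ R4 R4).comp (ContinuousLinearMap.proj j))

private theorem Lm_apply (l l' : Fin 8 → ℝ) (p : Fin 8 → R4) :
    Lm l l' p = (∑ j, l j • p j, ∑ j, l' j • p j) := by
  have h : ∀ j, (l j • (ContinuousLinearMap.inl ℝ R4 R4).comp
        (ContinuousLinearMap.proj (R := ℝ) (φ := fun _ : Fin 8 => R4) j)
      + l' j • (ContinuousLinearMap.inr ℝ R4 R4).comp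
        (ContinuousLinearMap.proj (R := ℝ) (φ := fun _ : Fin 8 => R4) j) :
      (Fin 8 → R4) →L[ℝ] R4 × R4) p = (l j • p j, l' j • p j) := by
    intro j
    apply Prod.ext <;> simp
  unfold Lm
  rw [ContinuousLinearMap.sum_apply, Finset.sum_congr rfl fun j _ => h j]
  exact Prod.ext (by rw [Prod.fst_sum]) (by rw [Prod.snd_sum])

private theorem Lm_surj {l l' : Fin 8 → ℝ} {c c' : Fin 8 → ℝ} (h1 : ∑ j, l j * c j = 1)
    (h2 : ∑ j, l' j * c j = 0) (h3 : ∑ j, l' j * c' j = 1) (h4 : ∑ j, l j * c' j = 0) :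
    Function.Surjective (Lm l l') := by
  rintro ⟨y, y'⟩
  refine ⟨fun j => c j • y + c' j • y', ?_⟩
  rw [Lm_apply]
  apply Prod.ext
  · change ∑ j, l j • (c j • y + c' j • y') = y
    simp only [smul_add, smul_smul, Finset.sum_add_distrib, ← Finset.sum_smul]
    rw [h1, h4, one_smul, zero_smul, add_zero]
  · change ∑ j, l' j • (c j • y + c' j • y') = y'
    simp only [smul_add, smul_smul, Finset.sum_add_distrib, ← Finset.sum_smul]
    rw [h2, h3, one_smul, zero_smul, zero_add]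

private theorem prt_sub {α : ℝ × ℝ × ℝ → R4} {ρ : ℝ × ℝ → ℝ} {χ : ℝ → ℝ} {p : Fin 8 → R4}
    {b : ℝ × ℝ} {s t : ℝ} (h : prt α ρ χ p (b.1, b.2, s) = prt α ρ χ p (b.1, b.2, t)) :
    ∑ j, lam ρ χ b s t j • p j = α (b.1, b.2, t) - α (b.1, b.2, s) := by
  unfold prt at h
  have e : ∑ j, lam ρ χ b s t j • p j
      = ∑ j, (ρ (b.1, b.2) * χ s * mon (b.1, b.2, s) j) • p j
        - ∑ j, (ρ (b.1, b.2) * χ t * mon (b.1, b.2, t) j) • p j := by
    rw [← Finset.sum_sub_distrib]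
    refine Finset.sum_congr rfl fun j _ => ?_
    rw [← sub_smul]
    congr 1
    unfold lam
    ring
  rw [e]
  have h' : α (b.1, b.2, s) + ∑ j, (ρ (b.1, b.2) * χ s * mon (b.1, b.2, s) j) • p j
      = α (b.1, b.2, t) + ∑ j, (ρ (b.1, b.2) * χ t * mon (b.1, b.2, t) j) • p j := h
  rw [sub_eq_sub_iff_add_eq_add, add_comm, h', add_comm]

private theorem mon_diff (j : Fin 8) : Differentiable ℝ (fun z : ℝ × ℝ × ℝ => mon z j) := by
  fin_cases j
  · exact differentiable_const 1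
  · exact (show Differentiable ℝ (fun z : ℝ × ℝ × ℝ => z.2.2) by fun_prop)
  · exact (show Differentiable ℝ (fun z : ℝ × ℝ × ℝ => z.2.2 ^ 2) by fun_prop)
  · exact (show Differentiable ℝ (fun z : ℝ × ℝ × ℝ => z.2.2 ^ 3) by fun_prop)
  · exact (show Differentiable ℝ (fun z : ℝ × ℝ × ℝ => z.2.1) by fun_prop)
  · exact (show Differentiable ℝ (fun z : ℝ × ℝ × ℝ => z.2.1 * z.2.2) by fun_prop)
  · exact (show Differentiable ℝ (fun z : ℝ × ℝ × ℝ => z.1) by fun_prop)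
  · exact (show Differentiable ℝ (fun z : ℝ × ℝ × ℝ => z.1 * z.2.2) by fun_prop)

end NU3

open NU3 in
theorem m_NU3 (hNP1 : StNP1) : StNU3 := by
  intro μ _ α ρ χ hα hρ hχ a a' ha ha'
  have dα : Differentiable ℝ α := hα.differentiable (by simp)
  have dρ : Differentiable ℝ ρ := hρ.differentiable (by simp)
  have dχ : Differentiable ℝ χ := hχ.differentiable (by simp)
  have da : Differentiable ℝ a := ha.differentiable (by simp)
  have da' : Differentiable ℝ a' := ha'.differentiable (by simp)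
  have dmon := mon_diff
  let S : Set ((ℝ × ℝ × ℝ) × (ℝ × ℝ × ℝ × ℝ)) := {x | a x.1 ≠ a' x.1 ∧ ρ (a x.1) ≠ 0 ∧
    ρ (a' x.1) ≠ 0 ∧ x.2.1 ≠ x.2.2.1 ∧ x.2.2.2.1 ≠ x.2.2.2.2 ∧ (χ x.2.1 ≠ 0 ∨ χ x.2.2.1 ≠ 0) ∧
    (χ x.2.2.2.1 ≠ 0 ∨ χ x.2.2.2.2 ≠ 0)}
  let l : (ℝ × ℝ × ℝ) × (ℝ × ℝ × ℝ × ℝ) → Fin 8 → ℝ := fun x j =>
    lam ρ χ (a x.1) x.2.1 x.2.2.1 j
  let l' : (ℝ × ℝ × ℝ) × (ℝ × ℝ × ℝ × ℝ) → Fin 8 → ℝ := fun x j =>
    lam ρ χ (a' x.1) x.2.2.2.1 x.2.2.2.2 j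
  let c : (ℝ × ℝ × ℝ) × (ℝ × ℝ × ℝ × ℝ) → R4 × R4 := fun x =>
    (α ((a x.1).1, (a x.1).2, x.2.2.1) - α ((a x.1).1, (a x.1).2, x.2.1),
      α ((a' x.1).1, (a' x.1).2, x.2.2.2.2) - α ((a' x.1).1, (a' x.1).2, x.2.2.2.1))
  have dl : ∀ j, Differentiable ℝ (fun x => l x j) := by
    intro j
    have := dmon j
    simp only [l, lam]
    fun_prop
  have dl' : ∀ j, Differentiable ℝ (fun x => l' x j) := by
    intro j
    have := dmon j
    simp only [l', lam]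
    fun_prop
  have hL : Differentiable ℝ (fun x => Lm (l x) (l' x)) := by
    unfold Lm
    refine Differentiable.fun_sum fun j _ => ?_
    exact ((dl j).smul_const _).add ((dl' j).smul_const _)
  have hc : Differentiable ℝ c := by
    simp only [c]
    fun_prop
  have hdim : finrank ℝ ((ℝ × ℝ × ℝ) × (ℝ × ℝ × ℝ × ℝ)) < finrank ℝ (R4 × R4) := by
    simp [Module.finrank_prod]
  have key := hNP1 ((ℝ × ℝ × ℝ) × (ℝ × ℝ × ℝ × ℝ)) (Fin 8 → R4) (R4 × R4) μ S
    (fun x => Lm (l x) (l' x)) c hdim hL.differentiableOn hc.differentiableOn (by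
      rintro ⟨w, s, t, s', t'⟩ ⟨h1, h2, h3, h4, h5, h6, h7⟩
      obtain ⟨e, e1, e2⟩ := exists_one h1 h2 h4 h6 s' t'
      obtain ⟨e', e1', e2'⟩ := exists_one h1.symm h3 h5 h7 s t
      exact Lm_surj e1 e2 e1' e2')
  refine measure_mono_null ?_ key
  rintro p ⟨w, s, t, s', t', h1, h2, h3, h4, h5, h6, h7, h8, h9⟩
  refine ⟨(w, s, t, s', t'), ⟨h1, h2, h3, h4, h5, h6, h7⟩, ?_⟩
  rw [Lm_apply]
  exact Prod.ext (prt_sub h8) (prt_sub h9)

end Pool.Agent.Helper34.BI.H
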