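import Pool.Agent.Helper34.BI.H.StH4

/-!
# Project BI, stage 3: module NU4
-/

set_option autoImplicit false

open Module Set Filter Topology MeasureTheory
open scoped ContDiff Manifold
open Pool.Agent.Helper65.Barb Pool.Agent.Helper18.BI

namespace Pool.Agent.Helper34.BI.H

namespace NU4

/-- Two linearly independent rows of coefficients give a surjective map. -/
theorem surj_rows {Y : Type*} [NormedAddCommGroup Y] [NormedSpace ℝ Y] (a b : Fin 8 → ℝ)
    (h : ∀ A B : ℝ, (∀ j, A * a j + B * b j = 0) → A = 0 ∧ B = 0) (y y' : Y) :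
    ∃ p : Fin 8 → Y, ∑ j, a j • p j = y ∧ ∑ j, b j • p j = y' := by
  by_cases hd : ∃ j k, a j * b k - a k * b j ≠ 0
  · obtain ⟨j, k, hjk⟩ := hd
    set d := a j * b k - a k * b j with hdd
    refine ⟨Pi.single j (d⁻¹ • (b k • y - a k • y')) + Pi.single k (d⁻¹ • (a j • y' - b j • y)),
      ?_, ?_⟩
    · simp only [Pi.add_apply, smul_add, Finset.sum_add_distrib, Pi.single_apply, smul_ite,
        smul_zero, Finset.sum_ite_eq', Finset.mem_univ, if_true]
      have : a j • d⁻¹ • (b k • y - a k • y') + a k • d⁻¹ • (a j • y' - b j • y)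
          = (d⁻¹ * d) • y := by
        rw [hdd]
        module
      rw [this, inv_mul_cancel₀ hjk, one_smul]
    · simp only [Pi.add_apply, smul_add, Finset.sum_add_distrib, Pi.single_apply, smul_ite,
        smul_zero, Finset.sum_ite_eq', Finset.mem_univ, if_true]
      have : b j • d⁻¹ • (b k • y - a k • y') + b k • d⁻¹ • (a j • y' - b j • y)
          = (d⁻¹ * d) • y' := by
        rw [hdd]
        module
      rw [this, inv_mul_cancel₀ hjk, one_smul]
  · exfalso
    push Not at hd
    have hab : ∀ k, b k = 0 ∧ a k = 0 := by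
      intro k
      have := h (b k) (-a k) (fun j => by have := hd j k; linarith)
      exact ⟨this.1, neg_eq_zero.1 this.2⟩
    have := (h 1 0 (fun j => by rw [(hab j).2]; ring)).1
    exact one_ne_zero this

/-- three distinct points -/
theorem three {x y z a b c A B : ℝ} (hxy : x ≠ y) (hxz : x ≠ z) (hyz : y ≠ z)
    (h1 : a ≠ 0 ∨ b ≠ 0) (h2 : a ≠ 0 ∨ c ≠ 0) (h3 : b ≠ 0 ∨ c ≠ 0)
    (e0 : A * (a - b) + B * (a - c) = 0) (e1 : A * (a * x - b * y) + B * (a * x - c * z) = 0)
    (e2 : A * (a * x ^ 2 - b * y ^ 2) + B * (a * x ^ 2 - c * z ^ 2) = 0) : A = 0 ∧ B = 0 := by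
  have k1 : (A + B) * a = 0 := by
    have : ((A + B) * a) * ((x - y) * (x - z)) = 0 := by
      linear_combination e2 - (y + z) * e1 + y * z * e0
    exact (mul_eq_zero.1 this).resolve_right
      (mul_ne_zero (sub_ne_zero.2 hxy) (sub_ne_zero.2 hxz))
  have k2 : A * b = 0 := by
    have : (A * b) * ((y - x) * (y - z)) = 0 := by
      linear_combination -e2 + (x + z) * e1 - x * z * e0
    exact (mul_eq_zero.1 this).resolve_right
      (mul_ne_zero (sub_ne_zero.2 hxy.symm) (sub_ne_zero.2 hyz))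
  have k3 : B * c = 0 := by
    have : (B * c) * ((z - x) * (z - y)) = 0 := by
      linear_combination -e2 + (x + y) * e1 - x * y * e0
    exact (mul_eq_zero.1 this).resolve_right
      (mul_ne_zero (sub_ne_zero.2 hxz.symm) (sub_ne_zero.2 hyz.symm))
  by_cases hb : b = 0
  · have ha : a ≠ 0 := h1.resolve_right (not_not.2 hb)
    have hc : c ≠ 0 := h3.resolve_left (not_not.2 hb)
    have hB : B = 0 := (mul_eq_zero.1 k3).resolve_right hc
    have hAB : A + B = 0 := (mul_eq_zero.1 k1).resolve_right ha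
    exact ⟨by linarith, hB⟩
  · have hA : A = 0 := (mul_eq_zero.1 k2).resolve_right hb
    refine ⟨hA, ?_⟩
    rcases h2 with ha | hc
    · have hAB : A + B = 0 := (mul_eq_zero.1 k1).resolve_right ha
      linarith
    · exact (mul_eq_zero.1 k3).resolve_right hc

/-- four points -/
theorem four {χ : ℝ → ℝ} {s t s' t' A B : ℝ} (h : Adm χ s t s' t')
    (e0 : A * (χ s - χ t) + B * (χ s' - χ t') = 0)
    (e1 : A * (χ s * s - χ t * t) + B * (χ s' * s' - χ t' * t') = 0)
    (e2 : A * (χ s * s ^ 2 - χ t * t ^ 2) + B * (χ s' * s' ^ 2 - χ t' * t' ^ 2) = 0)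
    (e3 : A * (χ s * s ^ 3 - χ t * t ^ 3) + B * (χ s' * s' ^ 3 - χ t' * t' ^ 3) = 0) :
    A = 0 ∧ B = 0 := by
  obtain ⟨n1, n2, n3, n4, c1, c2, d1, d2, d3, d4⟩ := h
  by_cases q1 : s = s'
  · subst q1
    have htt : t ≠ t' := fun h => n3 ⟨rfl, h⟩
    exact three n1 n2 htt c1 c2 (d1 rfl) e0 e1 e2
  by_cases q2 : s = t'
  · subst q2
    have htt : t ≠ s' := fun h => n4 ⟨rfl, h⟩
    have := three (A := A) (B := -B) n1 q1 htt c1 c2.symm (d2 rfl) (by linear_combination e0)
      (by linear_combination e1) (by linear_combination e2)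
    exact ⟨this.1, neg_eq_zero.1 this.2⟩
  by_cases q3 : t = s'
  · subst q3
    have := three (A := -A) (B := B) n1.symm n2 q2 c1.symm c2 (d3 rfl)
      (by linear_combination e0) (by linear_combination e1) (by linear_combination e2)
    exact ⟨neg_eq_zero.1 this.1, this.2⟩
  by_cases q4 : t = t'
  · subst q4
    have := three (A := -A) (B := -B) n1.symm n2.symm q1 c1.symm c2.symm (d4 rfl)
      (by linear_combination e0) (by linear_combination e1) (by linear_combination e2)
    exact ⟨neg_eq_zero.1 this.1, neg_eq_zero.1 this.2⟩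
  have k1 : A * χ s = 0 := by
    have : (A * χ s) * ((s - t) * (s - s') * (s - t')) = 0 := by
      linear_combination e3 - (t + s' + t') * e2 + (t * s' + t * t' + s' * t') * e1
        - t * s' * t' * e0
    exact (mul_eq_zero.1 this).resolve_right (mul_ne_zero (mul_ne_zero (sub_ne_zero.2 n1)
      (sub_ne_zero.2 q1)) (sub_ne_zero.2 q2))
  have k2 : A * χ t = 0 := by
    have : (A * χ t) * ((t - s) * (t - s') * (t - t')) = 0 := by
      linear_combination -e3 + (s + s' + t') * e2 - (s * s' + s * t' + s' * t') * e1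
        + s * s' * t' * e0
    exact (mul_eq_zero.1 this).resolve_right (mul_ne_zero (mul_ne_zero (sub_ne_zero.2 n1.symm)
      (sub_ne_zero.2 q3)) (sub_ne_zero.2 q4))
  have k3 : B * χ s' = 0 := by
    have : (B * χ s') * ((s' - s) * (s' - t) * (s' - t')) = 0 := by
      linear_combination e3 - (s + t + t') * e2 + (s * t + s * t' + t * t') * e1
        - s * t * t' * e0
    exact (mul_eq_zero.1 this).resolve_right (mul_ne_zero (mul_ne_zero (sub_ne_zero.2 (Ne.symm q1))
      (sub_ne_zero.2 (Ne.symm q3))) (sub_ne_zero.2 n2))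
  have k4 : B * χ t' = 0 := by
    have : (B * χ t') * ((t' - s) * (t' - t) * (t' - s')) = 0 := by
      linear_combination -e3 + (s + t + s') * e2 - (s * t + s * s' + t * s') * e1
        + s * t * s' * e0
    exact (mul_eq_zero.1 this).resolve_right (mul_ne_zero (mul_ne_zero (sub_ne_zero.2 (Ne.symm q2))
      (sub_ne_zero.2 (Ne.symm q4))) (sub_ne_zero.2 n2.symm))
  constructor
  · rcases c1 with h | h
    · exact (mul_eq_zero.1 k1).resolve_right h
    · exact (mul_eq_zero.1 k2).resolve_right h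
  · rcases c2 with h | h
    · exact (mul_eq_zero.1 k3).resolve_right h
    · exact (mul_eq_zero.1 k4).resolve_right h

/-- the coefficients of the difference of two strands -/
noncomputable def lam (ρ : ℝ × ℝ → ℝ) (χ : ℝ → ℝ) (u q s t : ℝ) (j : Fin 8) : ℝ :=
  ρ (u, q) * χ s * mon (u, q, s) j - ρ (u, q) * χ t * mon (u, q, t) j

theorem differentiable_mon (j : Fin 8) : Differentiable ℝ (fun z : ℝ × ℝ × ℝ => mon z j) := by
  fin_cases j <;> simp only [mon] <;> simp <;> fun_prop

theorem prt_sub (α : ℝ × ℝ × ℝ → R4) (ρ : ℝ × ℝ → ℝ) (χ : ℝ → ℝ) (p : Fin 8 → R4)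
    (u q s t : ℝ) : prt α ρ χ p (u, q, s) - prt α ρ χ p (u, q, t)
      = α (u, q, s) - α (u, q, t) + ∑ j, lam ρ χ u q s t j • p j := by
  simp only [prt, lam, sub_smul, Finset.sum_sub_distrib]
  abel

/-- the first block -/
noncomputable def P1 (j : Fin 8) : (Fin 8 → R4) →L[ℝ] R4 × R4 :=
  (ContinuousLinearMap.inl ℝ R4 R4).comp (ContinuousLinearMap.proj j)

/-- the second block -/
noncomputable def P2 (j : Fin 8) : (Fin 8 → R4) →L[ℝ] R4 × R4 :=
  (ContinuousLinearMap.inr ℝ R4 R4).comp (ContinuousLinearMap.proj j)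

end NU4

open NU4

theorem m_NU4 (h1 : StNP1) : StNU4 := by
  intro μ _ α ρ χ hα hρ hχ
  let X := ℝ × ℝ × ℝ × ℝ × ℝ × ℝ
  let L : X → (Fin 8 → R4) →L[ℝ] R4 × R4 := fun x =>
    ∑ j, (lam ρ χ x.1 x.2.1 x.2.2.1 x.2.2.2.1 j • P1 j
      + lam ρ χ x.1 x.2.1 x.2.2.2.2.1 x.2.2.2.2.2 j • P2 j)
  let c : X → R4 × R4 := fun x =>
    (-(α (x.1, x.2.1, x.2.2.1) - α (x.1, x.2.1, x.2.2.2.1)),
      -(α (x.1, x.2.1, x.2.2.2.2.1) - α (x.1, x.2.1, x.2.2.2.2.2)))
  let S : Set X := {x | ρ (x.1, x.2.1) ≠ 0 ∧ Adm χ x.2.2.1 x.2.2.2.1 x.2.2.2.2.1 x.2.2.2.2.2}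
  have hLval : ∀ x p, L x p = (∑ j, lam ρ χ x.1 x.2.1 x.2.2.1 x.2.2.2.1 j • p j,
      ∑ j, lam ρ χ x.1 x.2.1 x.2.2.2.2.1 x.2.2.2.2.2 j • p j) := by
    intro x p
    simp only [L, P1, P2, ContinuousLinearMap.sum_apply, ContinuousLinearMap.add_apply,
      ContinuousLinearMap.smul_apply, ContinuousLinearMap.comp_apply,
      ContinuousLinearMap.proj_apply, ContinuousLinearMap.inl_apply,
      ContinuousLinearMap.inr_apply, Prod.smul_mk, Prod.mk_add_mk, smul_zero, add_zero, zero_add]
    ext <;> simp [Prod.fst_sum, Prod.snd_sum]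
  have hdρ : Differentiable ℝ ρ := hρ.differentiable (by simp)
  have hdχ : Differentiable ℝ χ := hχ.differentiable (by simp)
  have hdα : Differentiable ℝ α := hα.differentiable (by simp)
  have hlam1 : ∀ j, Differentiable ℝ
      (fun x : X => lam ρ χ x.1 x.2.1 x.2.2.1 x.2.2.2.1 j) := by
    intro j
    have := differentiable_mon j
    unfold lam
    fun_prop
  have hlam2 : ∀ j, Differentiable ℝ
      (fun x : X => lam ρ χ x.1 x.2.1 x.2.2.2.2.1 x.2.2.2.2.2 j) := by
    intro j
    have := differentiable_mon j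
    unfold lam
    fun_prop
  have hL : DifferentiableOn ℝ L S := by
    apply Differentiable.differentiableOn
    refine Differentiable.fun_sum fun j _ => ?_
    exact ((hlam1 j).smul_const (P1 j)).add ((hlam2 j).smul_const (P2 j))
  have hc : DifferentiableOn ℝ c S := by
    apply Differentiable.differentiableOn
    show Differentiable ℝ (fun x : X => (-(α (x.1, x.2.1, x.2.2.1) - α (x.1, x.2.1, x.2.2.2.1)),
      -(α (x.1, x.2.1, x.2.2.2.2.1) - α (x.1, x.2.1, x.2.2.2.2.2))))
    fun_prop
  have hs : ∀ x ∈ S, Function.Surjective (L x) := by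
    rintro ⟨u, q, s, t, s', t'⟩ ⟨hr, hadm⟩ ⟨y, y'⟩
    simp only at hr hadm
    obtain ⟨p, hp, hp'⟩ := surj_rows (lam ρ χ u q s t) (lam ρ χ u q s' t') (by
      intro A B hAB
      have hh : ∀ e : ℝ, ρ (u, q) * e = 0 → e = 0 := fun e he =>
        (mul_eq_zero.1 he).resolve_left hr
      refine four hadm (hh _ ?_) (hh _ ?_) (hh _ ?_) (hh _ ?_)
      · have := hAB 0
        simp only [lam, mon] at this
        simp at this
        linear_combination this
      · have := hAB 1
        simp only [lam, mon] at this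
        simp at this
        linear_combination this
      · have := hAB 2
        simp only [lam, mon] at this
        simp at this
        linear_combination this
      · have := hAB 3
        simp only [lam, mon] at this
        simp at this
        linear_combination this) y y'
    refine ⟨p, ?_⟩
    rw [hLval]
    simp only
    rw [hp, hp']
  have hdim : finrank ℝ X < finrank ℝ (R4 × R4) := by
    simp only [X, R4, Module.finrank_prod, Module.finrank_self, Complex.finrank_real_complex]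
    norm_num
  have key := h1 X (Fin 8 → R4) (R4 × R4) μ S L c hdim hL hc hs
  refine measure_mono_null ?_ key
  rintro p ⟨u, q, s, t, s', t', hr, hadm, he, he'⟩
  refine ⟨(u, q, s, t, s', t'), ⟨hr, hadm⟩, ?_⟩
  rw [hLval]
  have g1 := prt_sub α ρ χ p u q s t
  have g2 := prt_sub α ρ χ p u q s' t'
  rw [he, sub_self] at g1
  rw [he', sub_self] at g2
  refine Prod.ext ?_ ?_
  · show ∑ j, lam ρ χ u q s t j • p j = -(α (u, q, s) - α (u, q, t))
    exact (neg_eq_of_add_eq_zero_right g1.symm).symm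
  · show ∑ j, lam ρ χ u q s' t' j • p j = -(α (u, q, s') - α (u, q, t'))
    exact (neg_eq_of_add_eq_zero_right g2.symm).symm

end Pool.Agent.Helper34.BI.H
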