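import Pool.Agent.Helper34.BI.H.M_NP1
import Pool.Agent.Helper34.BI.H.M_NP2
import Pool.Agent.Helper34.BI.H.M_NU1
import Pool.Agent.Helper34.BI.H.M_NU2
import Pool.Agent.Helper34.BI.H.M_NU3
import Pool.Agent.Helper34.BI.H.M_NU4
import Pool.Agent.Helper34.BI.H.M_GP
import Pool.Agent.Helper34.BI.H.M_H4
import Pool.Agent.Helper34.BI.H.M_GPD

/-!
# Project BI, stage 3: general position, unconditionally
-/

set_option autoImplicit false

namespace Pool.Agent.Helper34.BI.H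

theorem hNP1 : StNP1 := m_NP1
theorem hNP2 : StNP2 := m_NP2
theorem hNU1 : StNU1 := m_NU1 hNP1
theorem hNU2 : StNU2 := m_NU2 hNP2
theorem hNU3 : StNU3 := m_NU3 hNP1
theorem hNU4 : StNU4 := m_NU4 hNP1
theorem hGP : StGP := m_GP hNU1 hNU2 hNU3 hNU4
theorem hH4 : StH4 := m_H4 hGP
/-- `StGP` of Helper27/BI/H/StH1.lean -/
theorem hGPD : Pool.Agent.Helper27.H.StGP := m_GPD hGP

end Pool.Agent.Helper34.BI.H
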