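import Pool.Agent.Helper34.BI.H.StH4

/-!
# Module NP1: parametric transversality, `dim X < dim Y`
-/

set_option autoImplicit false

open Module Set Filter Topology MeasureTheory
open scoped ContDiff Manifold
open Pool.Agent.Helper65.Barb Pool.Agent.Helper18.BI

namespace Pool.Agent.Helper34.BI.H

section np1

variable {X P Y : Type} [NormedAddCommGroup X] [NormedSpace ℝ X] [FiniteDimensional ℝ X]
    [NormedAddCommGroup P] [NormedSpace ℝ P] [FiniteDimensional ℝ P] [MeasurableSpace P]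
    [BorelSpace P] [NormedAddCommGroup Y] [NormedSpace ℝ Y] [FiniteDimensional ℝ Y]
    (μ : Measure P) [μ.IsAddHaarMeasure] {s : Set X} {L : X → P →L[ℝ] Y} {c : X → Y}

private theorem local_NP1 (hdim : finrank ℝ X < finrank ℝ Y) (hL : DifferentiableOn ℝ L s)
    (hc : DifferentiableOn ℝ c s) (hsurj : ∀ x ∈ s, Function.Surjective (L x)) (x₀ : X)
    (hx₀ : x₀ ∈ s) : ∃ V ∈ 𝓝[s] x₀, μ {p | ∃ x ∈ s, x ∈ V ∧ L x p = c x} = 0 := by
  have : CompleteSpace Y := FiniteDimensional.complete ℝ Y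
  obtain ⟨g, hg⟩ := (L x₀ : P →ₗ[ℝ] Y).exists_rightInverse_of_surjective
    (LinearMap.range_eq_top.2 (hsurj x₀ hx₀))
  let R : Y →L[ℝ] P := LinearMap.toContinuousLinearMap g
  have hR : ∀ y, L x₀ (R y) = y := fun y => LinearMap.congr_fun hg y
  let K : Submodule ℝ P := LinearMap.ker (L x₀ : P →ₗ[ℝ] Y)
  let S : X → (Y →L[ℝ] Y) := fun x => (L x).comp R
  have hS0 : S x₀ = 1 := by
    ext y
    exact hR y
  have hSd : DifferentiableOn ℝ S s := hL.clm_comp (differentiableOn_const R)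
  have hV : {x | IsUnit (S x)} ∈ 𝓝[s] x₀ := by
    have h1 : ContinuousWithinAt S s x₀ := (hSd x₀ hx₀).continuousWithinAt
    have h2 : {T : Y →L[ℝ] Y | IsUnit T} ∈ 𝓝 (S x₀) := by
      refine Units.isOpen.mem_nhds ?_
      rw [hS0]
      exact isUnit_one
    exact h1 h2
  refine ⟨_, hV, ?_⟩
  let S' : Set (X × K) := {q | q.1 ∈ s ∧ IsUnit (S q.1)}
  let Ψ : X × K → P := fun q =>
    R (Ring.inverse (S q.1) (c q.1 - L q.1 (q.2 : P))) + (q.2 : P)
  have m1 : MapsTo (fun q : X × K => q.1) S' s := fun q hq => hq.1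
  have d1 : DifferentiableOn ℝ (fun q : X × K => q.1) S' := differentiable_fst.differentiableOn
  have d2 : DifferentiableOn ℝ (fun q : X × K => (q.2 : P)) S' :=
    (K.subtypeL.differentiable.comp differentiable_snd).differentiableOn
  have dL : DifferentiableOn ℝ (fun q : X × K => L q.1) S' := hL.comp d1 m1
  have dc : DifferentiableOn ℝ (fun q : X × K => c q.1) S' := hc.comp d1 m1
  have dS : DifferentiableOn ℝ (fun q : X × K => S q.1) S' := hSd.comp d1 m1
  have dI : DifferentiableOn ℝ (fun q : X × K => Ring.inverse (S q.1)) S' := by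
    intro q hq
    exact (differentiableAt_inverse hq.2).comp_differentiableWithinAt q (dS q hq)
  have dΨ : DifferentiableOn ℝ Ψ S' := by
    refine DifferentiableOn.add ?_ d2
    exact R.differentiable.comp_differentiableOn (dI.clm_apply (dc.sub (dL.clm_apply d2)))
  have hdim' : finrank ℝ (X × K) < finrank ℝ P := by
    have h1 := (L x₀ : P →ₗ[ℝ] Y).finrank_range_add_finrank_ker
    rw [LinearMap.range_eq_top.2 (hsurj x₀ hx₀), finrank_top] at h1
    rw [finrank_prod]
    change finrank ℝ X + finrank ℝ (LinearMap.ker (L x₀ : P →ₗ[ℝ] Y)) < finrank ℝ P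
    omega
  refine measure_mono_null ?_ (null_image μ hdim' dΨ)
  rintro p ⟨x, hx, hxV, hxe⟩
  have hk : p - R (L x₀ p) ∈ K := by
    change L x₀ (p - R (L x₀ p)) = 0
    rw [map_sub, hR, sub_self]
  refine ⟨(x, ⟨p - R (L x₀ p), hk⟩), ⟨hx, hxV⟩, ?_⟩
  have h1 : c x - L x (p - R (L x₀ p)) = S x (L x₀ p) := by
    rw [map_sub, hxe]
    change c x - (c x - L x (R (L x₀ p))) = L x (R (L x₀ p))
    abel
  have h2 : Ring.inverse (S x) (S x (L x₀ p)) = L x₀ p := by
    have h3 := Ring.inverse_mul_cancel (S x) hxV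
    exact DFunLike.congr_fun h3 (L x₀ p)
  change R (Ring.inverse (S x) (c x - L x (p - R (L x₀ p)))) + (p - R (L x₀ p)) = p
  rw [h1, h2]
  abel

end np1

/-- Module NP1. -/
theorem m_NP1 : StNP1 := by
  intro X P Y _ _ _ _ _ _ _ _ _ _ _ μ _ s L c hdim hL hc hsurj
  have key : ∀ x : X, ∃ V : Set X, (x ∈ s → V ∈ 𝓝[s] x) ∧
      μ {p | ∃ x ∈ s, x ∈ V ∧ L x p = c x} = 0 := by
    intro x
    by_cases hx : x ∈ s
    · obtain ⟨V, hV, hn⟩ := local_NP1 μ hdim hL hc hsurj x hx
      exact ⟨V, fun _ => hV, hn⟩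
    · refine ⟨∅, fun h => absurd h hx, ?_⟩
      simp
  choose V hV hn using key
  obtain ⟨t, -, htc, ht⟩ := TopologicalSpace.countable_cover_nhdsWithin hV
  refine measure_mono_null ?_ ((measure_biUnion_null_iff htc).2 (fun x _ => hn x))
  rintro p ⟨x, hx, hxe⟩
  obtain ⟨y, hy, hxy⟩ := mem_iUnion₂.1 (ht hx)
  exact mem_iUnion₂.2 ⟨y, hy, x, hx, hxy, hxe⟩

end Pool.Agent.Helper34.BI.H
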