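import Pool.Agent.Helper34.BI.H.StH5a

/-!
# Project BI, stage 3: module OPN (openness of embeddings of germs in families)
-/

set_option autoImplicit false

open Module Set Filter Topology
open scoped ContDiff Manifold
open Pool.Agent.Helper65.Barb Pool.Agent.Helper18.BI Pool.Agent.Helper27.BI

namespace Pool.Agent.Helper34.BI.H

namespace OPN

variable {A : Type} [NormedAddCommGroup A] [NormedSpace ℝ A]

/-- the graph map -/
def gr (J : A × R4 → R4) (x : A × R4) : A × R4 := (x.1, J x)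

theorem contDiffAt_gr {J : A × R4 → R4} {x : A × R4} (h : ContDiffAt ℝ ∞ J x) :
    ContDiffAt ℝ ∞ (gr J) x := contDiffAt_fst.prodMk h

theorem fderiv_gr {J : A × R4 → R4} {x : A × R4} (h : ContDiffAt ℝ ∞ J x) (ζ : A × R4) :
    fderiv ℝ (gr J) x ζ = (ζ.1, fderiv ℝ J x ζ) := by
  have h1 : HasFDerivAt J (fderiv ℝ J x) x := (h.differentiableAt (by simp)).hasFDerivAt
  have h2 : HasFDerivAt (gr J) ((ContinuousLinearMap.fst ℝ A R4).prod (fderiv ℝ J x)) x :=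
    hasFDerivAt_fst.prodMk h1
  rw [h2.fderiv]
  rfl

theorem fderiv_slice {J : A × R4 → R4} {t : A} {p : R4} (h : ContDiffAt ℝ ∞ J (t, p)) (v : R4) :
    fderiv ℝ (fun p => J (t, p)) p v = fderiv ℝ J (t, p) (0, v) := by
  have h1 : HasFDerivAt J (fderiv ℝ J (t, p)) (t, p) :=
    (h.differentiableAt (by simp)).hasFDerivAt
  have h2 : HasFDerivAt (fun p : R4 => (t, p)) (ContinuousLinearMap.inr ℝ A R4) p :=
    hasFDerivAt_prodMk_right t p
  have h3 : HasFDerivAt (fun p : R4 => J (t, p))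
      ((fderiv ℝ J (t, p)).comp (ContinuousLinearMap.inr ℝ A R4)) p := h1.comp p h2
  rw [h3.fderiv]
  rfl

variable [FiniteDimensional ℝ A]

theorem locDiff_gr {J : A × R4 → R4} {t : A} {p : R4} (hs : ∀ᶠ q in 𝓝 (t, p), ContDiffAt ℝ ∞ J q)
    (hl : IsLocalDiffeomorphAt 𝓘(ℝ, R4) 𝓘(ℝ, R4) ∞ (fun p => J (t, p)) p) :
    IsLocalDiffeomorphAt 𝓘(ℝ, A × R4) 𝓘(ℝ, A × R4) ∞ (gr J) (t, p) := by
  refine isLocalDiffeomorphAt_of_injective rfl (hs.mono fun q hq => contDiffAt_gr hq) ?_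
  rw [injective_iff_map_eq_zero]
  intro ζ hζ
  rw [fderiv_gr hs.self_of_nhds, Prod.mk_eq_zero] at hζ
  obtain ⟨τ, v⟩ := ζ
  obtain ⟨h1, h2⟩ := hζ
  change τ = 0 at h1
  subst h1
  rw [← fderiv_slice hs.self_of_nhds] at h2
  have h3 := (injective_iff_map_eq_zero _).1 (injective_fderiv hl) v h2
  rw [h3]
  rfl

omit [FiniteDimensional ℝ A] in
theorem locDiff_slice {J : A × R4 → R4} {t : A} {p : R4}
    (hs : ∀ᶠ q in 𝓝 (t, p), ContDiffAt ℝ ∞ J q)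
    (hl : IsLocalDiffeomorphAt 𝓘(ℝ, A × R4) 𝓘(ℝ, A × R4) ∞ (gr J) (t, p)) :
    IsLocalDiffeomorphAt 𝓘(ℝ, R4) 𝓘(ℝ, R4) ∞ (fun p => J (t, p)) p := by
  refine isLocalDiffeomorphAt_of_injective rfl ?_ ?_
  · have hc : Tendsto (fun p' : R4 => (t, p')) (𝓝 p) (𝓝 (t, p)) :=
      (Continuous.prodMk_right t).continuousAt
    filter_upwards [hc.eventually hs] with q hq
    exact hq.comp q (contDiffAt_const.prodMk contDiffAt_id)
  · rw [injective_iff_map_eq_zero]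
    intro v hv
    rw [fderiv_slice hs.self_of_nhds] at hv
    have h1 := (injective_iff_map_eq_zero _).1 (injective_fderiv hl) (0, v) (by
      rw [fderiv_gr hs.self_of_nhds, hv]
      rfl)
    exact (Prod.mk_eq_zero.1 h1).2

/-- near a good point the map is smooth and a local diffeomorphism -/
theorem eventually_good {J : A × R4 → R4} {t : A} {p : R4}
    (hs : ∀ᶠ q in 𝓝 (t, p), ContDiffAt ℝ ∞ J q)
    (hl : IsLocalDiffeomorphAt 𝓘(ℝ, R4) 𝓘(ℝ, R4) ∞ (fun p => J (t, p)) p) :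
    ∀ᶠ q in 𝓝 (t, p), (∀ᶠ z in 𝓝 q, ContDiffAt ℝ ∞ J z) ∧
      IsLocalDiffeomorphAt 𝓘(ℝ, R4) 𝓘(ℝ, R4) ∞ (fun p => J (q.1, p)) q.2 := by
  obtain ⟨Φ, hp, hΦ⟩ := locDiff_gr hs hl
  filter_upwards [hs.eventually_nhds, Φ.open_source.mem_nhds hp] with q h1 h2
  exact ⟨h1, locDiff_slice (t := q.1) (p := q.2) h1 ⟨Φ, h2, hΦ⟩⟩

/-- near a good point the graph map is injective -/
theorem eventually_inj {J : A × R4 → R4} {t : A} {p : R4}
    (hs : ∀ᶠ q in 𝓝 (t, p), ContDiffAt ℝ ∞ J q)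
    (hl : IsLocalDiffeomorphAt 𝓘(ℝ, R4) 𝓘(ℝ, R4) ∞ (fun p => J (t, p)) p) :
    ∃ N ∈ 𝓝 (t, p), ∀ x ∈ N, ∀ y ∈ N, x.1 = y.1 → J x = J y → x = y := by
  obtain ⟨Φ, hp, hΦ⟩ := locDiff_gr hs hl
  refine ⟨Φ.source, Φ.open_source.mem_nhds hp, ?_⟩
  intro x hx y hy h1 h2
  apply Φ.injOn hx hy
  change Φ.toFun x = Φ.toFun y
  rw [← hΦ hx, ← hΦ hy]
  exact Prod.ext h1 h2

end OPN

theorem m_OPN : StOPN := by
  intro A _ _ _ J a₀ L bad hL hs hl hd
  -- the two projections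
  have t1 : ∀ x y : R4, Tendsto (fun z : A × R4 × R4 => (z.1, z.2.1)) (𝓝 (a₀, x, y))
      (𝓝 (a₀, x)) := fun x y => Continuous.tendsto' (by fun_prop) _ _ rfl
  have t2 : ∀ x y : R4, Tendsto (fun z : A × R4 × R4 => (z.1, z.2.2)) (𝓝 (a₀, x, y))
      (𝓝 (a₀, y)) := fun x y => Continuous.tendsto' (by fun_prop) _ _ rfl
  have key : ∀ w ∈ L ×ˢ L, ∀ᶠ z : A × R4 × R4 in 𝓝 (a₀, w), z.2.1 ∈ L → z.2.2 ∈ L →
      (∀ᶠ q in 𝓝 (z.1, z.2.1), ContDiffAt ℝ ∞ J q) ∧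
      IsLocalDiffeomorphAt 𝓘(ℝ, R4) 𝓘(ℝ, R4) ∞ (fun p => J (z.1, p)) z.2.1 ∧
      (J (z.1, z.2.1) = J (z.1, z.2.2) → z.2.1 = z.2.2 ∨ bad z.1) := by
    rintro ⟨x, y⟩ ⟨hx, hy⟩
    change x ∈ L at hx
    change y ∈ L at hy
    have g1 := (t1 x y).eventually (OPN.eventually_good (hs x hx) (hl x hx))
    have g2 : ∀ᶠ z : A × R4 × R4 in 𝓝 (a₀, x, y), z.2.1 ∈ L → z.2.2 ∈ L →
        (J (z.1, z.2.1) = J (z.1, z.2.2) → z.2.1 = z.2.2 ∨ bad z.1) := by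
      by_cases hxy : J (a₀, x) = J (a₀, y)
      · rcases hd x hx y hy hxy with h | h
        · subst h
          obtain ⟨N, hN, hN'⟩ := OPN.eventually_inj (hs x hx) (hl x hx)
          filter_upwards [(t1 x x).eventually hN, (t2 x x).eventually hN] with z h1 h2 _ _ h3
          left
          exact (Prod.ext_iff.1 (hN' _ h1 _ h2 rfl h3)).2
        · filter_upwards [h] with z h1 h2 h3 h4
          exact Or.inr (h1 h2 h3 h4)
      · have c1 : ContinuousAt J (a₀, x) := (hs x hx).self_of_nhds.continuousAt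
        have c2 : ContinuousAt J (a₀, y) := (hs y hy).self_of_nhds.continuousAt
        have d1 := c1.tendsto.comp (t1 x y)
        have d2 := c2.tendsto.comp (t2 x y)
        filter_upwards [(d1.sub d2).eventually_ne (sub_ne_zero.2 hxy)] with z h1 _ _ h2
        exact absurd (sub_eq_zero.2 h2) h1
    filter_upwards [g1, g2] with z h1 h2 h3 h4
    exact ⟨h1.1, h1.2, h2 h3 h4⟩
  have fin := (hL.prod hL).eventually_forall_of_forall_eventually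
    (P := fun (a : A) (w : R4 × R4) => w.1 ∈ L → w.2 ∈ L →
      (∀ᶠ q in 𝓝 (a, w.1), ContDiffAt ℝ ∞ J q) ∧
      IsLocalDiffeomorphAt 𝓘(ℝ, R4) 𝓘(ℝ, R4) ∞ (fun p => J (a, p)) w.1 ∧
      (J (a, w.1) = J (a, w.2) → w.1 = w.2 ∨ bad a)) key
  filter_upwards [fin] with a ha
  refine ⟨fun x hx => (ha (x, x) ⟨hx, hx⟩ hx hx).1, fun x hx => (ha (x, x) ⟨hx, hx⟩ hx hx).2.1, ?_⟩
  by_cases hb : bad a
  · exact Or.inl hb
  · right
    intro x hx y hy hxy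
    exact ((ha (x, y) ⟨hx, hy⟩ hx hy).2.2 hxy).resolve_right hb

end Pool.Agent.Helper34.BI.H
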