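import Pool.Agent.Helper34.BI.Sard
import Pool.Agent.Helper34.BI.Loc
import Pool.Agent.Helper34.BI.Arcs

/-!
# Project BI, stage 3, section 4: general position for two-parameter families of arcs

Statements (as `Prop` definitions) with complete proofs in the docstrings.  A module `M_X`
(`Pool/Agent/Helper34/BI/H/M_X.lean`) proves `theorem m_X : StX` (possibly from other statements as
hypotheses `(h : StY)`).  A family of arcs is a map `α : ℝ × ℝ × ℝ → R4`, `(u, q, s) ↦ α (u, q, s)`.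
-/

set_option autoImplicit false

open Module Set Filter Topology MeasureTheory
open scoped ContDiff Manifold
open Pool.Agent.Helper65.Barb Pool.Agent.Helper18.BI

namespace Pool.Agent.Helper34.BI.H

/-! ## parametric transversality for equations which are linear in the parameter -/

/-- **NP1.** The parameters `p` for which one of the equations `L x p = c x`, `x ∈ s`, holds form a
null set if the `L x` are surjective and `dim X < dim Y`.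

*Proof.* By `TopologicalSpace.countable_cover_nhdsWithin` and `measure_biUnion_null_iff` it suffices to find for
each `x₀ ∈ s` an open `V ∋ x₀` such that the set of `p` with a solution `x ∈ s ∩ V` is null.  Let
`R : Y →L[ℝ] P` be a right inverse of `L x₀` (finite dimension), `K = ker (L x₀)`,
`S x = (L x).comp R : Y →L[ℝ] Y`; `S x₀ = id`.  `L` is continuous within `s` at `x₀`, units are open, so
there is `V` with `S x` invertible for `x ∈ s ∩ V` (`ContinuousLinearMap.inverse`, `Ring.inverse`).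
`Ψ (x, k) = R ((S x)⁻¹ (c x - L x k)) + k` on `(s ∩ V) × K` is differentiable (`differentiableAt` of the inverse:
`contDiffAt_map_inverse` or `differentiableAt_inverse`) and has values in `P`; `dim X + dim K < dim P` as
`dim K = dim P - dim Y` (`LinearMap.finrank_range_add_finrank_ker`); so its image is null (`null_image`,
Null.lean).  If `L x p = c x` with `x ∈ s ∩ V`, put `y = L x₀ p`, `k = p - R y ∈ K`: then
`S x y + L x k = L x p = c x`, so `y = (S x)⁻¹ (c x - L x k)` and `p = Ψ (x, k)`. -/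
def StNP1 : Prop :=
  ∀ (X P Y : Type) [NormedAddCommGroup X] [NormedSpace ℝ X] [FiniteDimensional ℝ X]
    [NormedAddCommGroup P] [NormedSpace ℝ P] [FiniteDimensional ℝ P] [MeasurableSpace P]
    [BorelSpace P] [NormedAddCommGroup Y] [NormedSpace ℝ Y] [FiniteDimensional ℝ Y]
    (μ : Measure P) [μ.IsAddHaarMeasure] (s : Set X) (L : X → P →L[ℝ] Y) (c : X → Y),
    finrank ℝ X < finrank ℝ Y → DifferentiableOn ℝ L s → DifferentiableOn ℝ c s →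
    (∀ x ∈ s, Function.Surjective (L x)) → μ {p | ∃ x ∈ s, L x p = c x} = 0

/-- **NP2.** Parametric transversality: the same with `dim X = dim Y`, for the parameters such that
the equation has a solution at which its derivative is not injective.

*Proof.* Same notation as in `NP1`, now `s` and `V` open, `V ⊆ s`; the map `Ψ : V × K → P` is
differentiable and `dim (X × K) = dim P`.  Let `p` be a bad parameter, `x ∈ V` the solution, `ζ ≠ 0` with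
`fderiv (x ↦ L x p - c x) x ζ = 0`, and `p = Ψ (x, k)`.  For all `(x', k')` near `(x, k)`:
`L x' (Ψ (x', k')) = c x'` (`L x' (R y + k') = S x' y + L x' k'`).  Differentiate in the direction `(ζ, 0)` at
`(x, k)`: `L x (DΨ (ζ, 0)) + fderiv (x ↦ L x p - c x) x ζ = 0`, so `L x (DΨ (ζ, 0)) = 0`.  Also
`DΨ (ζ, 0) = R y'` with `y' ∈ Y` the derivative of `(S x)⁻¹ (c x - L x k)`, so `S x y' = L x R y' = 0`, `y' = 0` and
`DΨ (ζ, 0) = 0`.  So `p` is in the image under `Ψ` of the set where `DΨ` is not injective.  Transport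
`Ψ` to a map `P → P` by a linear isomorphism `P ≃ X × K` and use
`addHaar_image_eq_zero_of_det_fderivWithin_eq_zero` (compare `null_sard` in Sard.lean). -/
def StNP2 : Prop :=
  ∀ (X P Y : Type) [NormedAddCommGroup X] [NormedSpace ℝ X] [FiniteDimensional ℝ X]
    [NormedAddCommGroup P] [NormedSpace ℝ P] [FiniteDimensional ℝ P] [MeasurableSpace P]
    [BorelSpace P] [NormedAddCommGroup Y] [NormedSpace ℝ Y] [FiniteDimensional ℝ Y]
    (μ : Measure P) [μ.IsAddHaarMeasure] (s : Set X) (L : X → P →L[ℝ] Y) (c : X → Y),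
    finrank ℝ X = finrank ℝ Y → IsOpen s → DifferentiableOn ℝ L s → DifferentiableOn ℝ c s →
    (∀ x ∈ s, Function.Surjective (L x)) →
    μ {p | ∃ x ∈ s, L x p = c x ∧
      ¬ Function.Injective (fderiv ℝ (fun x => L x p - c x) x)} = 0

/-! ## the perturbations -/

/-- the monomials; `z = (u, q, s)` -/
def mon (z : ℝ × ℝ × ℝ) : Fin 8 → ℝ :=
  ![1, z.2.2, z.2.2 ^ 2, z.2.2 ^ 3, z.2.1, z.2.1 * z.2.2, z.1, z.1 * z.2.2]

/-- the perturbed family -/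
noncomputable def prt (α : ℝ × ℝ × ℝ → R4) (ρ : ℝ × ℝ → ℝ) (χ : ℝ → ℝ) (p : Fin 8 → R4)
    (z : ℝ × ℝ × ℝ) : R4 :=
  α z + ∑ j, (ρ (z.1, z.2.1) * χ z.2.2 * mon z j) • p j

/-- the difference of two strands, as a function of `(u, q, s, t)` -/
def dbl (β : ℝ × ℝ × ℝ → R4) (z : ℝ × ℝ × ℝ × ℝ) : R4 :=
  β (z.1, z.2.1, z.2.2.1) - β (z.1, z.2.1, z.2.2.2)

/-- **NU1.** (uses `StNP1`) *Proof.* `X = ℝ × ℝ × ℝ`, `L z p = ∑ j, ∂_s (ρ χ mon_j) (z) • p j`,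
`c z = - ∂_s α (z)`.  Surjective: the coefficients for `j = 0, 1` are `ρ χ'`, `ρ (s χ' + χ)`, not both zero. -/
def StNU1 : Prop :=
  ∀ (μ : Measure (Fin 8 → R4)) [μ.IsAddHaarMeasure] (α : ℝ × ℝ × ℝ → R4) (ρ : ℝ × ℝ → ℝ)
    (χ : ℝ → ℝ), ContDiff ℝ ∞ α → ContDiff ℝ ∞ ρ → ContDiff ℝ ∞ χ →
    μ {p | ∃ u q s : ℝ, ρ (u, q) ≠ 0 ∧ χ s ≠ 0 ∧
      deriv (fun s => prt α ρ χ p (u, q, s)) s = 0} = 0

/-- **NU2.** (uses `StNP2`) *Proof.* `X = ℝ × ℝ × ℝ × ℝ ∋ x = (u, q, s, t)`,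
`s = {ρ ≠ 0, s ≠ t, χ s ≠ 0 ∨ χ t ≠ 0}` (open), `L x p = ∑ j, (ρ (χ(s) mon_j(u,q,s) - χ(t) mon_j(u,q,t))) • p j`,
`c x = - dbl α x`; then `L x p - c x = dbl (prt α ρ χ p) x`.  Surjective: the coefficients for `j = 0, 1`
are `ρ (χ(s) - χ(t))` and `ρ (s χ(s) - t χ(t))`; if both are zero then `χ(s) = χ(t)` and `(s - t) χ(t) = 0`. -/
def StNU2 : Prop :=
  ∀ (μ : Measure (Fin 8 → R4)) [μ.IsAddHaarMeasure] (α : ℝ × ℝ × ℝ → R4) (ρ : ℝ × ℝ → ℝ)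
    (χ : ℝ → ℝ), ContDiff ℝ ∞ α → ContDiff ℝ ∞ ρ → ContDiff ℝ ∞ χ →
    μ {p | ∃ u q s t : ℝ, ρ (u, q) ≠ 0 ∧ s ≠ t ∧ (χ s ≠ 0 ∨ χ t ≠ 0) ∧
      prt α ρ χ p (u, q, s) = prt α ρ χ p (u, q, t) ∧
      ¬ Function.Injective (fderiv ℝ (dbl (prt α ρ χ p)) (u, q, s, t))} = 0

/-- **NU3.** Double points at two different parameters `a w ≠ a' w`, `w ∈ ℝ³` (uses `StNP1`).

*Proof.* `X = (ℝ × ℝ × ℝ) × (ℝ × ℝ × ℝ × ℝ) ∋ x = (w, (s, t, s', t'))` (dimension 7), `Y = R4 × R4` (dimension 8),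
`L x p = (∑ j, lam_j • p j, ∑ j, lam'_j • p j)`, `lam_j = ρ(a w) (χ(s) mon_j(a w, s) - χ(t) mon_j(a w, t))`,
`lam'_j = ρ(a' w) (χ(s') mon_j(a' w, s') - χ(t') mon_j(a' w, t'))`.
Surjectivity.  If the linear map `L x` is not surjective there is a nonzero linear functional
`(e, e') ↦ f e + f' e'` on `Y` vanishing on its range.  Applied to `p = c • e`
(`c : Fin 8 → ℝ`, `e ∈ R4`): `(∑ lam_j c_j) f e + (∑ lam'_j c_j) f' e = 0`.  So it suffices: if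
`A, B` are real numbers with `A ∑ lam_j c_j + B ∑ lam'_j c_j = 0` for all `c`, then `A = B = 0`.
Let `a w = (u, q)`, `a' w = (u', q')`.  If `q ≠ q'` use the polynomials `(q̂ - q')`, `(q̂ - q') s` (`q̂` the variable; they
are combinations of `mon_0, mon_1, mon_4, mon_5`): the second sum vanishes, so
`A (q - q') ρ (χ(s) - χ(t)) = 0` and `A (q - q') ρ (s χ(s) - t χ(t)) = 0`, so `A = 0` (as in `NU2`); in the same way
`B = 0`.  If `u ≠ u'` use `(û - u')`, `(û - u') s` (`mon_0, mon_1, mon_6, mon_7`). -/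
def StNU3 : Prop :=
  ∀ (μ : Measure (Fin 8 → R4)) [μ.IsAddHaarMeasure] (α : ℝ × ℝ × ℝ → R4) (ρ : ℝ × ℝ → ℝ)
    (χ : ℝ → ℝ), ContDiff ℝ ∞ α → ContDiff ℝ ∞ ρ → ContDiff ℝ ∞ χ →
    ∀ a a' : ℝ × ℝ × ℝ → ℝ × ℝ, ContDiff ℝ ∞ a → ContDiff ℝ ∞ a' →
    μ {p | ∃ (w : ℝ × ℝ × ℝ) (s t s' t' : ℝ), a w ≠ a' w ∧ ρ (a w) ≠ 0 ∧ ρ (a' w) ≠ 0 ∧ s ≠ t ∧
      s' ≠ t' ∧ (χ s ≠ 0 ∨ χ t ≠ 0) ∧ (χ s' ≠ 0 ∨ χ t' ≠ 0) ∧
      prt α ρ χ p ((a w).1, (a w).2, s) = prt α ρ χ p ((a w).1, (a w).2, t) ∧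
      prt α ρ χ p ((a' w).1, (a' w).2, s') = prt α ρ χ p ((a' w).1, (a' w).2, t')} = 0

/-- The two pairs of parameters `(s, t)`, `(s', t')` are admissible for `StNU4`. -/
structure Adm (χ : ℝ → ℝ) (s t s' t' : ℝ) : Prop where
  n1 : s ≠ t
  n2 : s' ≠ t'
  n3 : ¬ (s = s' ∧ t = t')
  n4 : ¬ (s = t' ∧ t = s')
  c1 : χ s ≠ 0 ∨ χ t ≠ 0
  c2 : χ s' ≠ 0 ∨ χ t' ≠ 0
  d1 : s = s' → χ t ≠ 0 ∨ χ t' ≠ 0
  d2 : s = t' → χ t ≠ 0 ∨ χ s' ≠ 0
  d3 : t = s' → χ s ≠ 0 ∨ χ t' ≠ 0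
  d4 : t = t' → χ s ≠ 0 ∨ χ s' ≠ 0

/-- **NU4.** Two double points at the same parameter (uses `StNP1`).

*Proof.* `X = ℝ × ℝ × ℝ × ℝ × ℝ × ℝ` (dimension 6), `Y = R4 × R4`, as in `NU3`.  Surjectivity reduces to:
if `A (χ(s) m(s) - χ(t) m(t)) + B (χ(s') m(s') - χ(t') m(t')) = 0` for all real polynomials `m` of
degree at most 3 (`mon_0, ..., mon_3`), then `A = B = 0`.
(i) If `s, t ∉ {s', t'}`: `m = (x - t)(x - s')(x - t')` gives `A χ(s) = 0`, `m = (x - s)(x - s')(x - t')` gives `A χ(t) = 0`, so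
`A = 0` by `c1`; `m = (x - s)(x - t)(x - t')` and `(x - s)(x - t)(x - s')` give `B = 0` (here `s' ≠ s, t` and `t' ≠ s, t`).
(ii) If `s = s'`: then `t ≠ t'` (`n3`), `s, t, t'` are distinct.  `m = (x - s)(x - t')`: `A χ(t) = 0`; `m = (x - s)(x - t)`:
`B χ(t') = 0`; `m = (x - t)(x - t')`: `(A + B) χ(s) = 0`.  If `χ(t) = 0` then `χ(s) ≠ 0` (`c1`), `χ(t') ≠ 0` (`d1`), so `B = 0`,
`A = 0`.  If `χ(t) ≠ 0` then `A = 0`, and `B χ(s) = B χ(t') = 0`, so `B = 0` by `c2`.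
(iii) `s = t'`, `t = s'`, `t = t'`: reduce to (ii) by exchanging `s, t` (replace `A` by `-A`) and/or `s', t'` (replace `B` by `-B`):
prove (ii) as a lemma about four numbers with hypotheses symmetric under these exchanges. -/
def StNU4 : Prop :=
  ∀ (μ : Measure (Fin 8 → R4)) [μ.IsAddHaarMeasure] (α : ℝ × ℝ × ℝ → R4) (ρ : ℝ × ℝ → ℝ)
    (χ : ℝ → ℝ), ContDiff ℝ ∞ α → ContDiff ℝ ∞ ρ → ContDiff ℝ ∞ χ →
    μ {p | ∃ u q s t s' t' : ℝ, ρ (u, q) ≠ 0 ∧ Adm χ s t s' t' ∧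
      prt α ρ χ p (u, q, s) = prt α ρ χ p (u, q, t) ∧
      prt α ρ χ p (u, q, s') = prt α ρ χ p (u, q, t')} = 0

/-- The family of arcs `β` is in general position where `ρ` and `χ` do not vanish. -/
structure GP (β : ℝ × ℝ × ℝ → R4) (ρ : ℝ × ℝ → ℝ) (χ : ℝ → ℝ) : Prop where
  imm : ∀ u q s, ρ (u, q) ≠ 0 → χ s ≠ 0 → deriv (fun s => β (u, q, s)) s ≠ 0
  trans : ∀ u q s t, ρ (u, q) ≠ 0 → s ≠ t → (χ s ≠ 0 ∨ χ t ≠ 0) → β (u, q, s) = β (u, q, t) →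
    Function.Injective (fderiv ℝ (dbl β) (u, q, s, t))
  sep : ∀ u q u' q' s t s' t', (u, q) ≠ (u', q') → (u = u' ∨ q = q') → ρ (u, q) ≠ 0 →
    ρ (u', q') ≠ 0 → s ≠ t → s' ≠ t' → (χ s ≠ 0 ∨ χ t ≠ 0) → (χ s' ≠ 0 ∨ χ t' ≠ 0) →
    β (u, q, s) = β (u, q, t) → β (u', q', s') ≠ β (u', q', t')
  one : ∀ u q s t s' t', ρ (u, q) ≠ 0 → Adm χ s t s' t' → β (u, q, s) = β (u, q, t) →
    β (u, q, s') ≠ β (u, q, t')

/-- **GP.** Existence of small perturbations in general position (from `NU1`, ..., `NU4`). -/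
def StGP : Prop :=
  ∀ (α : ℝ × ℝ × ℝ → R4) (ρ : ℝ × ℝ → ℝ) (χ : ℝ → ℝ), ContDiff ℝ ∞ α → ContDiff ℝ ∞ ρ →
    ContDiff ℝ ∞ χ → ∀ ε > 0, ∃ p : Fin 8 → R4, ‖p‖ < ε ∧ GP (prt α ρ χ p) ρ χ

/-! ## the theorem -/

/-- `(u, q)` is in the closed unit square -/
def Sq (u q : ℝ) : Prop := u ∈ Icc (0 : ℝ) 1 ∧ q ∈ Icc (0 : ℝ) 1

/-- `u` or `q` is at distance at most `δ` from the end of the interval -/
def Nb (δ u q : ℝ) : Prop := u ≤ δ ∨ 1 - δ ≤ u ∨ q ≤ δ ∨ 1 - δ ≤ q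

/-- The input of the general position theorem: `K` is the wall, `[s₀, s₁]` the interval of
parameters of the arcs. -/
structure In4 (α : ℝ × ℝ × ℝ → R4) (s₀ s₁ δ : ℝ) (K : Set R4) : Prop where
  smooth : ContDiff ℝ ∞ α
  pos : 0 < δ
  small : δ < 1 / 2
  room : s₀ + 2 * δ < s₁ - 2 * δ
  frozen : ∀ u q s, (s ≤ s₀ + 2 * δ ∨ s₁ - 2 * δ ≤ s) → α (u, q, s) = α (0, 0, s)
  emb : ∀ u q, Sq u q → Nb δ u q → InjOn (fun s => α (u, q, s)) (Icc s₀ s₁) ∧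
    ∀ s ∈ Icc s₀ s₁, deriv (fun s => α (u, q, s)) s ≠ 0
  off : ∀ u q, Sq u q → ∀ s ∈ Icc (s₀ + δ) (s₁ - δ), α (u, q, s) ∉ K

/-- The output of the general position theorem; `D` is the set of the double points
`(u, q, s, t)`. -/
structure Out4 (α β : ℝ × ℝ × ℝ → R4) (s₀ s₁ δ : ℝ) (K : Set R4) (D : Set (ℝ × ℝ × ℝ × ℝ)) :
    Prop where
  smooth : ContDiff ℝ ∞ β
  frozen : ∀ u q s, (s ≤ s₀ + δ ∨ s₁ - δ ≤ s) → β (u, q, s) = α (0, 0, s)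
  eq : ∀ u q s, Nb (δ / 2) u q → β (u, q, s) = α (u, q, s)
  off : ∀ u q, Sq u q → ∀ s ∈ Icc (s₀ + δ) (s₁ - δ), β (u, q, s) ∉ K
  imm : ∀ u q, Sq u q → ∀ s ∈ Icc s₀ s₁, deriv (fun s => β (u, q, s)) s ≠ 0
  fin : D.Finite
  all : ∀ u q, Sq u q → ∀ s ∈ Icc s₀ s₁, ∀ t ∈ Icc s₀ s₁, s < t → β (u, q, s) = β (u, q, t) →
    (u, q, s, t) ∈ D
  mem : ∀ u q s t, (u, q, s, t) ∈ D → u ∈ Ioo (0 : ℝ) 1 ∧ q ∈ Ioo (0 : ℝ) 1 ∧ s ∈ Icc s₀ s₁ ∧
    t ∈ Icc s₀ s₁ ∧ s < t ∧ β (u, q, s) = β (u, q, t) ∧ β (u, q, s) ∉ K ∧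
    Function.Injective (fderiv ℝ (dbl β) (u, q, s, t))
  sepu : ∀ d ∈ D, ∀ d' ∈ D, d.1 = d'.1 → d = d'
  sepq : ∀ d ∈ D, ∀ d' ∈ D, d.2.1 = d'.2.1 → d = d'

/-- **H4.** General position (uses `StGP`).

*Proof.* `ρ (u, q) = hat (δ/2) (1 - δ/2) u * hat (δ/2) (1 - δ/2) q`, `χ = hat (s₀ + δ) (s₁ - δ)` (Arcs.lean: `hat a b t ≠ 0`
iff `a < t < b`).  So `ρ (u, q) = 0` implies `Nb (δ/2) u q` and `χ s = 0` implies `s ≤ s₀ + δ ∨ s₁ - δ ≤ s`.
The compact sets `α '' ([0,1]² × [s₀ + δ, s₁ - δ])` and `K` are disjoint, so at distance `≥ η > 0`; the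
coefficients `ρ χ mon_j` are bounded on the compact set, so for `‖p‖` small the perturbation has norm `< η`
there.  `StGP` gives `p`, `β = prt α ρ χ p`.
`smooth`, `frozen` (`χ s = 0`), `eq` (`ρ = 0`), `off`: clear.
`imm`: if `ρ (u, q) = 0`: `β (u, q, ·) = α (u, q, ·)`, and `Nb δ u q`.  If `ρ ≠ 0`, `χ s ≠ 0`: `GP.imm`.  If `χ s = 0`: also
`deriv χ s = 0` (local minimum, `hat ≥ 0`), so `∂_s β (u,q,s) = ∂_s α (u,q,s) = ∂_s α (0,0,s) ≠ 0` (`α (u,q,·) = α (0,0,·)`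
near `s` because `s < s₀ + 2δ` or `s > s₁ - 2δ`; `Nb δ 0 0`).
`D` := the set of all `(u, q, s, t)` with `Sq u q`, `s, t ∈ [s₀, s₁]`, `s < t`, `β (u,q,s) = β (u,q,t)`.  For `d ∈ D`: `ρ (u,q) ≠ 0`
(otherwise `β (u,q,·) = α (u,q,·)` is injective), so `u, q ∈ (0,1)`; `χ s ≠ 0 ∨ χ t ≠ 0` (otherwise `α (0,0,s) = α (0,0,t)`),
so the value is not in `K` (`off`) and `GP.trans` applies.
`fin`: every point `d` of the compact set `C = {Sq u q, s₀ ≤ s ≤ t ≤ s₁}` has a neighbourhood `N` with `N ∩ D ⊆ {d}`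
(then `D ⊆ C` is finite, `IsCompact.elim_nhds_subcover`): if `s < t` and `β (u,q,s) ≠ β (u,q,t)`: continuity; if `s < t`, `d ∈ D`:
`dbl β` is injective near `d` (`isLocalDiffeomorphAt_of_injective`, Loc.lean) and vanishes on `D`; if `s = t`: choose a
continuous linear functional `f` with `f (∂_s β (u,q,s)) ≠ 0` (one of the four coordinates); `f (∂_s β) ≠ 0` on a product
neighbourhood `B` (a ball) of `(u,q,s)`; if `(u', q', s', t') ∈ D` with `(u',q',s'), (u',q',t') ∈ B`, Rolle's theorem for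
`f (β (u', q', ·))` on `[s', t']` gives a zero of `f (∂_s β)` in `B` (balls are convex), contradiction.
`sepu`, `sepq`: let `d = (u,q,s,t) ≠ d' = (u',q',s',t')` in `D` with `u = u'` or `q = q'`.  If `(u,q) ≠ (u',q')`: `GP.sep`.  If
`(u,q) = (u',q')`: `(s,t) ≠ (s',t')`, and `Adm χ s t s' t'` holds: `n4`: `s = t'`, `t = s'` give `s < t = s' < t' = s`.  `d1`: if
`s = s'` and `χ t = χ t' = 0` then `α (0,0,t) = β (u,q,t) = β (u,q,s) = β (u,q,t') = α (0,0,t')`, so `t = t'`, contradiction.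
`d2`: `s = t'`, `χ t = χ s' = 0`: `α(0,0,t) = β(s) = β(t') = β(s') = α(0,0,s')`, so `t = s'`, contradiction as in `n4`.
`d3`: `t = s'`, `χ s = χ t' = 0`: `α(0,0,s) = β(t) = β(s') = β(t') = α(0,0,t')`, so `s = t'`, contradiction.
`d4`: `t = t'`, `χ s = χ s' = 0`: `s = s'`, contradiction.  So `GP.one` gives a contradiction. -/
def StH4 : Prop :=
  ∀ (α : ℝ × ℝ × ℝ → R4) (s₀ s₁ δ : ℝ) (K : Set R4), IsCompact K → In4 α s₀ s₁ δ K →
    ∃ (β : ℝ × ℝ × ℝ → R4) (D : Set (ℝ × ℝ × ℝ × ℝ)), Out4 α β s₀ s₁ δ K D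

end Pool.Agent.Helper34.BI.H
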