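import Pool.Agent.Helper27.BI.Square
import Pool.Agent.Helper27.BI.StM2
import Pool.Agent.Helper34.BI.Loc

/-!
# Project BI, stage 3, section 5: the crossing, statements independent of thick arcs

Statements (as `Prop` definitions) with complete proofs in the docstrings.  A module `M_X`
(`Pool/Agent/Helper34/BI/H/M_X.lean`) proves `theorem m_X : StX` (possibly from other statements as
hypotheses).
-/

set_option autoImplicit false

open Module Set Filter Topology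
open scoped ContDiff Manifold
open Pool.Agent.Helper65.Barb Pool.Agent.Helper18.BI Pool.Agent.Helper27.BI

namespace Pool.Agent.Helper34.BI.H

/-- **OPN.** Openness of embeddings of germs in families, with exceptional double points.
`J (a, ·)`, `a ∈ A`, is a family of germs along `L`; at `a₀` it is locally diffeomorphic, and injective on `L`
except for some pairs of points near which double points occur for bad parameters only.

*Proof.* Compare module D1b (`Pool/Agent/Helper34/BI/M_D1b.lean`, lemmas `eventually_good`, `eventually_inj`: for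
each `x ∈ L` the map `(a, x) ↦ (a, J (a, x))` is smooth near `(a₀, x)` with injective derivative, so it is a local
diffeomorphism near `(a₀, x)`, injective near `(a₀, x)`, and `J (a, ·)` is a local diffeomorphism at `y` for
`(a, y)` near `(a₀, x)`).  So every `(x, y) ∈ L × L` satisfies: for all `(a, x', y')` near `(a₀, x, y)`
with `x', y' ∈ L`: `J` is smooth near `(a, x')`, `J (a, ·)` is locally diffeomorphic at `x'`, and
`J (a, x') = J (a, y') → x' = y' ∨ bad a`: (i) `J (a₀, x) ≠ J (a₀, y)`: continuity; (ii) `x = y`: local injectivity;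
(iii) otherwise: the hypothesis.  By compactness of `L ×ˢ L` (`IsCompact.eventually_forall_of_forall_eventually` or the
generalized tube lemma) this holds for all `(x', y') ∈ L × L` and all `a` near `a₀`. -/
def StOPN : Prop :=
  ∀ (A : Type) [NormedAddCommGroup A] [NormedSpace ℝ A] [FiniteDimensional ℝ A]
    (J : A × R4 → R4) (a₀ : A) (L : Set R4) (bad : A → Prop), IsCompact L →
    (∀ x ∈ L, ∀ᶠ z in 𝓝 (a₀, x), ContDiffAt ℝ ∞ J z) →
    (∀ x ∈ L, IsLocalDiffeomorphAt 𝓘(ℝ, R4) 𝓘(ℝ, R4) ∞ (fun p => J (a₀, p)) x) →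
    (∀ x ∈ L, ∀ y ∈ L, J (a₀, x) = J (a₀, y) → x = y ∨
      ∀ᶠ z : A × R4 × R4 in 𝓝 (a₀, x, y), z.2.1 ∈ L → z.2.2 ∈ L →
        J (z.1, z.2.1) = J (z.1, z.2.2) → bad z.1) →
    ∀ᶠ a in 𝓝 a₀, (∀ x ∈ L, ∀ᶠ z in 𝓝 (a, x), ContDiffAt ℝ ∞ J z) ∧
      (∀ x ∈ L, IsLocalDiffeomorphAt 𝓘(ℝ, R4) 𝓘(ℝ, R4) ∞ (fun p => J (a, p)) x) ∧
      (bad a ∨ InjOn (fun p => J (a, p)) L)

/-- the arcs of the localized circle: `a + i h = 1 + κ (exp (2 π i q) - 1)`,
`X = (s - 1/2) κ (1 - cos 2 π q)` -/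
noncomputable def warc (κ : ℝ → ℝ) (q s : ℝ) : R3 :=
  (1 + κ s * (Real.cos (2 * Real.pi * q) - 1),
    ⟨(s - 1 / 2) * (κ s * (1 - Real.cos (2 * Real.pi * q))), κ s * Real.sin (2 * Real.pi * q)⟩)

/-- **CIRC.** The barbell map is a push along the localized circle (uses `StCh`, `StSpin`).

*Proof.* `barMap` is a push along `barPath q s = zarc (sin π q) (chi s) q s` relative to
`{rsq 0 ≤ (1/5)²}` with radius `1/5` (`isPush_barMap`, see `opening` in `Helper27/BI/AddMain.lean`).  Let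
`Γ u q s = (1 - u) • zarc (sin π q) (chi s) q s + u • warc κ q s`.
Claim: `Γ u q s ≠ 0` for `u, q, s ∈ [0,1]`.  Write `S = sin π q ≥ 0`, `1 - cos 2πq = 2 S²`, `k = (1 - u) χ(s) + u κ(s)`:
`Γ = (1 + k (cos 2πq - 1), X + i k sin 2πq)`, `X = S [-(1 - u) sin φ(s) + 2 u (s - 1/2) κ(s) S]`.  Suppose `Γ = 0`.
If `S = 0` then `cos 2πq = 1`, the first coordinate is `1`.  So `S > 0` and the bracket is zero.  For
`0 < s < 1/2`: `0 < φ(s) < π` (`step` is strictly increasing on `[0,1]` with `step (1/2) = 1/2`: `step_symm`;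
`0 < step s < 1/2`), so `sin φ > 0` and both terms are `≤ 0`; for `1/2 < s < 1`: `π < φ < 2π`, both are
`≥ 0`.  So if `s ∈ (0,1)`, `s ≠ 1/2`: `(1 - u) sin φ = 0`, so `u = 1`, and `κ(s) = 0`, so `k = 0` and the first
coordinate is `1`.  If `s = 0` or `s = 1`: `χ = κ = 0`, `k = 0`, the same.  If `s = 1/2`: `χ = 1`, `κ = 1`, `k = 1`, and
`Γ = (cos 2πq, .. + i sin 2πq) ≠ 0`.
By compactness `nsq (Γ u q s) ≥ (3 ρ₀)²` on the cube for some `ρ₀ > 0`; take also `ρ₀ ≤ 3/20`.  For `ρ < ρ₀` the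
family is `SqOk (ctube 0 ρ) ρ` (`off`: `|x| ≤ ρ`, `|Γ| ≥ 3 ρ`; `inside`: `|zarc| ≤ 3`, `|warc| ≤ 3`, so `|Γ| ≤ 3`, `2ρ < 1`; `ends`: both are `e1`
for `s ≤ 0`, `s ≥ 1`; `sep` is empty for `Unit`).  `square` (Square.lean) with `Θ1 = barMap`, `Θ4 = Θ`, `Θ2 = Θ3 = id`
(for `q = 0`, `q = 1` all arcs are `e1`).  Existence of a push: `exists_push` for `(u, q) ↦ warc κ q`. -/
def StCIRC : Prop :=
  ∀ κ : ℝ → ℝ, ContDiff ℝ ∞ κ → (∀ s, κ s ∈ Icc (0 : ℝ) 1) → κ (1 / 2) = 1 →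
    (∀ s, (s ≤ 0 ∨ 1 ≤ s) → κ s = 0) →
    ∃ ρ₀ > 0, ∀ ρ ∈ Ioo 0 ρ₀,
      (∃ Θ, IsPush (ctube 0 ρ) ρ (fun (_ : Unit) q s => warc κ q s) Θ) ∧
      ∀ Θ, IsPush (ctube 0 ρ) ρ (fun (_ : Unit) q s => warc κ q s) Θ →
        TIso (ctube 0 ρ) ρ (fun (_ : Unit) _ => e1) (fun _ _ => e1) barMap Θ

end Pool.Agent.Helper34.BI.H
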