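import Pool.Agent.Helper34.BI.H.StH5a

/-!
# Project BI, stage 3, section 5: the chart at a transverse crossing of two strands

`c (v, b)` is the moving strand (parameter `v ∈ ℝ²`), `c0 t` the fixed strand.
-/

set_option autoImplicit false

open Module Set Filter Topology
open scoped ContDiff Manifold
open Pool.Agent.Helper65.Barb Pool.Agent.Helper18.BI Pool.Agent.Helper27.BI

namespace Pool.Agent.Helper34.BI.H

/-- `Y (v, b, t) = c (v, b) + (c0 t - c0 0)` -/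
def yc (c : (ℝ × ℝ) × ℝ → R4) (c0 : ℝ → R4) (z : (ℝ × ℝ) × ℝ × ℝ) : R4 :=
  c (z.1, z.2.1) + (c0 z.2.2 - c0 0)

/-- multiplication by the complex number `m`, on `ℝ × ℝ` -/
def mulc (m : ℝ × ℝ) (v : ℝ × ℝ) : ℝ × ℝ := (m.1 * v.1 - m.2 * v.2, m.1 * v.2 + m.2 * v.1)

/-- the coordinates: `p = (s, (a, X + i h))` -/
noncomputable def lam (v₀ m : ℝ × ℝ) (ε ν : ℝ) (p : R4) : (ℝ × ℝ) × ℝ × ℝ :=
  (v₀ + mulc m (p.2.1, p.2.2.im), ν * ((p.1 - 1 / 2) * p.2.1 + p.2.2.re),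
    ε * ((p.1 - 1 / 2) * (1 - p.2.1) - p.2.2.re))

/-- the chart -/
noncomputable def cht (c : (ℝ × ℝ) × ℝ → R4) (c0 : ℝ → R4) (v₀ m : ℝ × ℝ) (ε ν : ℝ) (p : R4) : R4 :=
  yc c c0 (lam v₀ m ε ν p)

/-- the closed box of radius `η` around `(v₀, 0, 0)` -/
def box (v₀ : ℝ × ℝ) (η : ℝ) : Set ((ℝ × ℝ) × ℝ × ℝ) := {z | ‖z - (v₀, 0, 0)‖ ≤ η}

/-- **CHT.** The chart.

*Proof.* `g = yc c c0` is smooth near `z₀ = (v₀, 0, 0)`, `fderiv g z₀ (v, b, t) = Dc (v, b) + t c0'(0)`, which is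
`D(c - c0) (v, b, -t)`, so it is injective.  By `isLocalDiffeomorphAt_of_injective` (Loc.lean; both spaces have dimension 4)
`g` is a local diffeomorphism at `z₀`: there is an open `V ∋ z₀` on which `g` is injective, smooth, with injective
derivative at all points, and `g z ∈ O` for `z ∈ V` (`g z₀ = c0 0 ∈ O` as `c (v₀, 0) = c0 0`).  Choose
`η₀ ≤ 1` with `box v₀ η₀ ⊆ V`.  (The closed box is `Metric.closedBall`; its points have a neighbourhood in `V`.)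
`lam v₀ m ε ν` is a polynomial map, injective with injective derivative for `m ≠ 0`, `ε, ν > 0`: with
`σ = p.1 - 1/2`, `a`, `X`, `h`: `(a, h)` is determined by the first component (`mulc m` is injective for `m ≠ 0`), and
`B = σ a + X`, `T = σ (1 - a) - X` determine `σ = B + T` and `X = B - σ a`; for the derivative: if the derivative of
`(a, h)`, `σ a + X`, `σ (1 - a) - X` in the direction `(σ', a', X', h')` is zero then `a' = h' = 0`, `σ' a + X' = 0`,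
`σ' (1 - a) - X' = 0`, so `σ' = 0`, `X' = 0`.  For `p ∈ ball4`: `|p.1 - 1/2| ≤ 3/2`, `|a|, |X|, |h| ≤ 9/2`, so
`‖lam v₀ m ε ν p - (v₀, 0, 0)‖ ≤ 20 max ‖m‖ ε ν` (`|m₁ a - m₂ h| ≤ 9 ‖m‖`, `|σ a + X| ≤ 27/4 + 9/2`,
`|σ (1 - a) - X| ≤ 3/2 · 11/2 + 9/2`).  So for `‖m‖, ε, ν < η₀ / 20` the map `lam` maps `ball4` into the box, and
`cht = g ∘ lam` is `EmbOn ball4` (chain rule for the derivatives, `isLocalDiffeomorphAt_of_injective` for `R4 → R4`). -/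
def StCHT : Prop :=
  ∀ (c : (ℝ × ℝ) × ℝ → R4) (c0 : ℝ → R4) (v₀ : ℝ × ℝ) (O : Set R4),
    (∀ᶠ z in 𝓝 (v₀, (0 : ℝ)), ContDiffAt ℝ ∞ c z) → (∀ᶠ t in 𝓝 (0 : ℝ), ContDiffAt ℝ ∞ c0 t) →
    c (v₀, 0) = c0 0 →
    Function.Injective (fderiv ℝ (fun z : (ℝ × ℝ) × ℝ × ℝ => c (z.1, z.2.1) - c0 z.2.2)
      (v₀, 0, 0)) → IsOpen O → c0 0 ∈ O →
    ∃ η₀ > 0, InjOn (yc c c0) (box v₀ η₀) ∧ MapsTo (yc c c0) (box v₀ η₀) O ∧
      (∀ z ∈ box v₀ η₀, ∀ᶠ w in 𝓝 z, ContDiffAt ℝ ∞ (yc c c0) w) ∧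
      ∀ (m : ℝ × ℝ) (ε ν : ℝ), m ≠ 0 → ‖m‖ < η₀ / 20 → 0 < ε → ε < η₀ / 20 → 0 < ν →
        ν < η₀ / 20 → EmbOn 𝓘(ℝ, R4) (cht c c0 v₀ m ε ν) ball4 ∧
          MapsTo (lam v₀ m ε ν) ball4 (box v₀ η₀)

/-- the moving parameter: from `v₀ + m` around the circle with centre `v₀` -/
noncomputable def circ (v₀ m : ℝ × ℝ) (q : ℝ) : ℝ × ℝ :=
  v₀ + mulc m (Real.cos (2 * Real.pi * q), Real.sin (2 * Real.pi * q))

/-- **CHV.** Values of the chart on the two lines and on the localized circle.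

*Proof.* Direct computation: for `x = warc κ q s` one has `X = (s - 1/2) (1 - a)`, so the last component of `lam` is
zero and the second is `ν (s - 1/2)`; `(a, h) = (1, 0) + κ ((cos, sin) - (1, 0))` and `mulc m` is linear.  Conversely,
if `p ∈ ball4` and `cht p = yc z` with `z ∈ box v₀ η₀` then `lam p = z` (injectivity); if `z = (v₀, 0, t)` then
`(a, h) = 0`, `B = 0` (second component), so `X = B - σ a = 0`: `p = (p.1, 0)`; if `z = (v₀ + m, b, 0)` then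
`(a, h) = (1, 0)`, `T = 0`, `X = σ (1 - a) - T = 0`: `p = (p.1, e1)`. -/
def StCHV : Prop :=
  ∀ (c : (ℝ × ℝ) × ℝ → R4) (c0 : ℝ → R4) (v₀ m : ℝ × ℝ) (ε ν η₀ : ℝ), m ≠ 0 → 0 < ε → 0 < ν →
    c (v₀, 0) = c0 0 →
    (∀ s, cht c c0 v₀ m ε ν (s, 0) = c0 (ε * (s - 1 / 2))) ∧
    (∀ s, cht c c0 v₀ m ε ν (s, e1) = c (v₀ + m, ν * (s - 1 / 2))) ∧
    (∀ (κ : ℝ → ℝ) (q s : ℝ), cht c c0 v₀ m ε ν (s, warc κ q s) =
      c (v₀ + m + κ s • (circ v₀ m q - (v₀ + m)), ν * (s - 1 / 2))) ∧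
    (InjOn (yc c c0) (box v₀ η₀) → MapsTo (lam v₀ m ε ν) ball4 (box v₀ η₀) → ∀ p ∈ ball4,
      (∀ t, |t| ≤ η₀ → 0 ≤ η₀ → cht c c0 v₀ m ε ν p = c0 t →
        p = (p.1, 0) ∧ t = ε * (p.1 - 1 / 2)) ∧
      ∀ b, |b| ≤ η₀ → ‖m‖ ≤ η₀ → cht c c0 v₀ m ε ν p = c (v₀ + m, b) →
        p = (p.1, e1) ∧ b = ν * (p.1 - 1 / 2))

end Pool.Agent.Helper34.BI.H
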