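import Pool.Agent.Helper27.BI.H.Cls
import Pool.Agent.Helper34.BI.H.StH5b

/-!
# Project BI, stage 3, section 5: the crossing, statements

Statements (as `Prop` definitions) with complete proofs in the docstrings.  A module `M_X`
(`Pool/Agent/Helper34/BI/H/M_X.lean`) proves `theorem m_X : StX` (possibly from other statements as
hypotheses `(h : StY)`).  Notation: `v₀ = (u₀, q₀)`.
-/

set_option autoImplicit false

open Module Set Filter Topology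
open scoped ContDiff Manifold
open Pool.Agent.Helper65.Barb Pool.Agent.Helper18.BI Pool.Agent.Helper27.BI
open Pool.Agent.Helper27.H (ArcD LIso LPush Fam2 Q2 SuppU thk seg)
open Pool.Agent.Helper70.BI (I4)

namespace Pool.Agent.Helper34.BI.H

/-! ## embedded arcs in families -/

/-- **OPA.** Openness of embeddings of arcs in families, with exceptional double points.

*Proof.* (Compare `near_diag` in `M_H4.lean` and `exists_delta` in `M_GPD.lean`; `locInj` is in `M_H4.lean`.)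
Every `(s, t) ∈ [s₀, s₁]²` satisfies: for all `(a, s', t')` near `(a₀, s, t)`: `x (a, s') = x (a, t') → s' = t' ∨ bad a`:
(i) `s = t`: the map `(a, s) ↦ (a, x (a, s))`, `A × ℝ → A × R4`, has injective derivative at `(a₀, s)`, so it is injective near
`(a₀, s)` (`locInj`); (ii) `s ≠ t`, `x (a₀, s) = x (a₀, t)`: the hypothesis (exchange `s`, `t` if `t < s`); (iii) `x (a₀, s) ≠ x (a₀, t)`: continuity.
For `s ∈ [s₀, s₁]`, `deriv (fun s => x (a, s)) s' = fderiv x (a, s') (0, 1) ≠ 0` for `(a, s')` near `(a₀, s)`.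
Compactness (`IsCompact.eventually_forall_of_forall_eventually`). -/
def StOPA : Prop :=
  ∀ (A : Type) [NormedAddCommGroup A] [NormedSpace ℝ A] [FiniteDimensional ℝ A]
    (x : A × ℝ → R4) (a₀ : A) (s₀ s₁ : ℝ) (bad : A → Prop), ContDiff ℝ ∞ x →
    (∀ s ∈ Icc s₀ s₁, deriv (fun s => x (a₀, s)) s ≠ 0) →
    (∀ s ∈ Icc s₀ s₁, ∀ t ∈ Icc s₀ s₁, s < t → x (a₀, s) = x (a₀, t) →
      ∀ᶠ z : A × ℝ × ℝ in 𝓝 (a₀, s, t), x (z.1, z.2.1) = x (z.1, z.2.2) → bad z.1) →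
    ∀ᶠ a in 𝓝 a₀, (∀ s ∈ Icc s₀ s₁, deriv (fun s => x (a, s)) s ≠ 0) ∧
      (bad a ∨ InjOn (fun s => x (a, s)) (Icc s₀ s₁))

/-- the velocity of the strand at `a` relative to the strand at `b` -/
noncomputable def lw (c : ℝ × ℝ × ℝ → R4) (u₀ q₀ a b : ℝ) (w : ℝ × ℝ) : R4 :=
  fderiv ℝ c (u₀, q₀, a) (w.1, w.2, 0) - fderiv ℝ c (u₀, q₀, b) (w.1, w.2, 0)

/-- The homotopy (`l ∈ [0,1]`) from the arc with parameters `(u₀, q₀) + v` to the arc where only the strand at `b` is moved;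
`m` is the base point of the circle on which `v` moves. -/
noncomputable def xl (c : ℝ × ℝ × ℝ → R4) (u₀ q₀ a b : ℝ) (κ₁ κ₂ : ℝ → ℝ) (l : ℝ) (m v : ℝ × ℝ)
    (s : ℝ) : R4 :=
  (1 - l) • c (u₀ + v.1, q₀ + v.2, s) +
    l • (c (u₀, q₀, s) - κ₁ (s - b) • lw c u₀ q₀ a b (m + κ₂ (s - b) • (v - m)))

/-- **XL.** (uses `StOPA`) The arcs of the homotopy are embedded.

*Proof.* `StOPA` with `A = ℝ × (ℝ × ℝ) × (ℝ × ℝ) ∋ (l, m, v)`, `x ((l, m, v), s) = xl .. l m v s` (smooth),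
`a₀ = (l₀, 0, 0)`, `l₀ ∈ [0,1]`, `bad (l, m, v) := v = 0`.  `x (a₀, s) = c (u₀, q₀, s)` for all `s` (`lw .. 0 = 0`), immersed.  If
`s < t` in `[s₀, s₁]` and `c (u₀, q₀, s) = c (u₀, q₀, t)` then `s = a`, `t = b` (`Xing.uniq`).  For `((l, m, v), s', t')` near
`(a₀, a, b)`: `κ₁ (t' - b) = κ₂ (t' - b) = 1`, `κ₁ (s' - b) = 0` (`|s' - b| > η`), so `x (.., t') - x (.., s') = F (l, v, s', t')`,
`F (l, v, s', t') = (1-l) • (c (v₀ + v, t') - c (v₀ + v, s')) + l • (c (v₀, t') - c (v₀, s') - lw v)` (`m` cancels: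
`m + 1 • (v - m) = v`).  `F` is smooth, `F (l, 0, a, b) = 0` for all `l`, and the derivative of
`G (l, v, s', t') = (l, F (l, v, s', t'))` at `(l₀, 0, a, b)` in the direction `(λ, w, σ, τ)` is `(λ, Dc(b)(w, τ) - Dc(a)(w, σ))`:
by linearity it is `(λ, λ * (∂_l F = 0) + ..)` and the two terms with factors `1 - l` and `l` are equal; it is injective by `Xing.trans`.
So `G` is injective near `(l₀, 0, a, b)` (`locInj`), and `F (l, v, s', t') = 0 = F (l, 0, a, b)` gives `v = 0`.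
Hence for all `(l, m, v)` near `(l₀, 0, 0)`: immersed, and `v = 0` or injective.  Also (tube lemma) `x ((l, m, v), s) ∈ U` for all
`s ∈ [m₀, m₁]` (`Htpy.inU`).  Compactness of `[0,1] ∋ l₀` gives `δ` (tube lemma for `[0,1] × {(0, 0)}`). -/
def StXL : Prop :=
  ∀ (D : ArcD) (c : ℝ × ℝ × ℝ → R4) (u₀ q₀ a b : ℝ) (κ₁ κ₂ : ℝ → ℝ) (η : ℝ), D.Htpy c →
    D.Xing c u₀ q₀ a b → D.Imm c u₀ q₀ → ContDiff ℝ ∞ κ₁ → ContDiff ℝ ∞ κ₂ →
    (∀ᶠ t in 𝓝 (0 : ℝ), κ₁ t = 1 ∧ κ₂ t = 1) → η < b - a → (∀ t, η ≤ |t| → κ₁ t = 0) →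
    ∃ δ > 0, ∀ l ∈ Icc (0 : ℝ) 1, ∀ m v : ℝ × ℝ, ‖m‖ < δ → ‖v‖ < δ → v ≠ 0 →
      (∀ s ∈ Icc D.s₀ D.s₁, deriv (xl c u₀ q₀ a b κ₁ κ₂ l m v) s ≠ 0) ∧
      InjOn (xl c u₀ q₀ a b κ₁ κ₂ l m v) (Icc D.s₀ D.s₁) ∧
      ∀ s ∈ Icc D.m₀ D.m₁, xl c u₀ q₀ a b κ₁ κ₂ l m v s ∈ D.U

/-! ## the localized circle of arcs -/

/-- A loop of arcs `y q`, where a short piece of the arc around the parameter `b` moves around the piece around
the parameter `a`, seen in the chart `T`. -/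
structure Mod5 (D : ArcD) (a b ε ν : ℝ) (κ : ℝ → ℝ) (T : R4 → R4) (y : ℝ → ℝ → R4) : Prop where
  smooth : ContDiff ℝ ∞ (fun z : ℝ × ℝ => y z.1 z.2)
  froz : ∀ q ∈ Icc (0 : ℝ) 1, ∀ s, (s ≤ D.m₀ ∨ D.m₁ ≤ s) → y q s = D.c s
  inU : ∀ q ∈ Icc (0 : ℝ) 1, ∀ s ∈ Icc D.m₀ D.m₁, y q s ∈ D.U
  imm : ∀ q ∈ Icc (0 : ℝ) 1, ∀ s ∈ Icc D.s₀ D.s₁, deriv (y q) s ≠ 0
  inj : ∀ q ∈ Icc (0 : ℝ) 1, InjOn (y q) (Icc D.s₀ D.s₁)
  loop : y 1 = y 0
  εpos : 0 < ε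
  νpos : 0 < ν
  ha : D.s₀ < a - 2 * ε
  hab : a + 2 * ε < b - 2 * ν
  hb : b + 2 * ν < D.s₁
  κs : ContDiff ℝ ∞ κ
  κ01 : ∀ s, κ s ∈ Icc (0 : ℝ) 1
  κh : κ (1 / 2) = 1
  κ0 : ∀ s, (s ≤ 0 ∨ 1 ≤ s) → κ s = 0
  emb : EmbOn 𝓘(ℝ, R4) T ball4
  TU : MapsTo T ball4 D.U
  c0 : ∀ s ∈ Icc (-1 : ℝ) 2, T (s, 0) = y 0 (a + ε * (s - 1 / 2))
  c1 : ∀ s ∈ Icc (-1 : ℝ) 2, T (s, e1) = y 0 (b + ν * (s - 1 / 2))
  cw : ∀ q ∈ Icc (0 : ℝ) 1, ∀ s ∈ Icc (-1 : ℝ) 2,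
    T (s, warc κ q s) = y q (b + ν * (s - 1 / 2))
  only : ∀ p ∈ ball4, ∀ s ∈ Icc D.s₀ D.s₁, T p = y 0 s →
    (p.2 = 0 ∧ s = a + ε * (p.1 - 1 / 2)) ∨ (p.2 = e1 ∧ s = b + ν * (p.1 - 1 / 2))
  const : ∀ q ∈ Icc (0 : ℝ) 1, ∀ s, (s ≤ b - ν / 2 ∨ b + ν / 2 ≤ s) → y q s = y 0 s

/-- **L5.** (uses `StXL`, `StCHT`, `StCHV`) The circle of arcs `c (circ v₀ m q, ·)` is homotopic through loops of
embedded arcs to one in the local model.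

*Proof.* `A = lw c u₀ q₀ a b` is linear.  `cc (v, β) = c (u₀, q₀, b + β) - A (v - v₀)`, `c0 t = c (u₀, q₀, a + t)`; smooth,
`cc (v₀, 0) = c0 0` (`Xing.eq`); `D(cc - c0)(w, β, t) = - A w + c'(b) β - c'(a) t = Dc(b)(w, β) - Dc(a)(w, t)` is injective
(`Xing.trans`).  `StCHT` with `O = U` (`c (v₀, a) ∈ U` as `a ∈ (m₀, m₁)`) gives `η₁`; let
`η₀ = min η₁, (b - a) / 3, (a - m₀) / 2, (m₁ - b) / 2` (all are positive).  Let
`O = U \ (c (v₀, ·) '' {s ∈ [s₀, s₁] | η₀ ≤ |s - a| ∧ η₀ ≤ |s - b|})`: open, contains `c0 0 = c (v₀, a)` (`Xing.uniq`: `c (v₀, s) = c (v₀, a)`, `s ≠ a`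
gives `s = b`).  `StCHT` with this `O` gives `η₂`.  Let `η = min η₀ η₂`, `ε = ν = η / 40`.  `κ₁ : ℝ → ℝ` smooth with values in `[0,1]`,
`κ₁ = 1` for `|β| ≤ η₀ / 4`, `κ₁ = 0` for `|β| ≥ η₀ / 2`; `κ₂` smooth with values in `[0,1]`, `1` for `|β| ≤ ν / 4`, `0` for `|β| ≥ ν / 2`
(e.g. `step (2 - 4 |β| / ..)` or `ContDiffBump`); `κ s = κ₂ (ν (s - 1/2))`.  `StXL` (with `η₀ / 2 < b - a`) gives `δ`.
`r₀ ≤ min (δ / 2) (η / 20)` and such that `circ v₀ m q ∈ Q2` for `‖m‖ < r₀` (`‖mulc m (cos, sin)‖ ≤ 2 ‖m‖`, `u₀, q₀ ∈ (0,1)`).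
`x l q s = xl .. l m (v' q) s`, `v' q = mulc m (cos 2πq, sin 2πq)`: `v' q ≠ 0` (`m ≠ 0`), `‖v' q‖ < δ`; `v' 0 = v' 1 = m`.
`T = cht cc c0 v₀ m ε ν`.
Frozen: `xl` with `κ₁ (s - b) = 0` for `s ≤ m₀`, `m₁ ≤ s`, and `Htpy.froz`.  (For `l ∉ [0,1]` nothing is needed.)
`emb`, `TU` from `StCHT` (`cht = yc ∘ lam`, `lam` maps `ball4` to the box, `yc` maps the box to `O ⊆ U`).
`c0`, `c1`, `cw`: `StCHV` (1)-(3), `|ν (s - 1/2)| ≤ 3ν/2 ≤ η₀ / 4`, so `κ₁ = 1`; `κ₁ (s - b) = 0` near `a`; `warc κ 0 s = e1`.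
`only`: let `T p = y 0 s = c (v₀, s) - κ₁ (s - b) A m`.  If `|s - a| ≤ η₀` then `κ₁ (s - b) = 0` and `T p = c0 (s - a)`: `StCHV` (4).
If `|s - b| ≤ η₀`: `y 0 s = yc (v₀ + κ₁(β) m, β, 0)`, `β = s - b`, and `T p = yc (lam p)`; both points are in the box of radius `η₁`, so
`lam p = (v₀ + κ₁(β) m, β, 0)`; with `p = (σ + 1/2, (a', X + i h))`: `mulc m (a', h) = κ₁(β) m` gives `a' = κ₁(β)`, `h = 0`;
`X = σ (1 - a')`, `β = ν (σ a' + X) = ν σ`, `|σ| ≤ 3/2`, so `|β| ≤ η₀ / 4`, `κ₁(β) = 1`, `a' = 1`, `X = 0`.  Otherwise `T p ∈ O` but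
`y 0 s = c (v₀, s) ∉ O`.
`const`: `κ₂ (s - b) = 0` for `|s - b| ≥ ν / 2`. -/
def StL5 : Prop :=
  ∀ (D : ArcD) (c : ℝ × ℝ × ℝ → R4) (u₀ q₀ a b : ℝ), D.Htpy c → D.Xing c u₀ q₀ a b →
    D.Imm c u₀ q₀ → D.m₀ < a → b < D.m₁ →
    ∃ r₀ > 0, ∀ m : ℝ × ℝ, m ≠ 0 → ‖m‖ < r₀ →
      ∃ (ε ν : ℝ) (κ : ℝ → ℝ) (T : R4 → R4) (x : ℝ → ℝ → ℝ → R4),
      ContDiff ℝ ∞ (fun z : (ℝ × ℝ) × ℝ => x z.1.1 z.1.2 z.2) ∧
      (∀ l ∈ Icc (0 : ℝ) 1, ∀ q ∈ Icc (0 : ℝ) 1,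
        (∀ s, (s ≤ D.m₀ ∨ D.m₁ ≤ s) → x l q s = D.c s) ∧
        (∀ s ∈ Icc D.m₀ D.m₁, x l q s ∈ D.U) ∧ InjOn (x l q) (Icc D.s₀ D.s₁) ∧
        ∀ s ∈ Icc D.s₀ D.s₁, deriv (x l q) s ≠ 0) ∧
      (∀ l, x l 1 = x l 0) ∧
      (∀ q s, x 0 q s = c ((circ (u₀, q₀) m q).1, (circ (u₀, q₀) m q).2, s)) ∧
      Mod5 D a b ε ν κ T (x 1)

/-! ## implanting in a chart -/

/-- **TPU.** `T` is a chart defined on `ball4`, with values in `U`, `J` is a germ along `L` whose values on `L` are in `T (ball4)`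
only at points of the two vertical lines.

*Proof.* (1) `StA1` (`hA1`, `Helper18/BI/AsmA.lean`) gives a partial diffeomorphism `δ` with `ball4 ⊆ δ.source`, `δ = T` on `δ.source`;
`F` is supported in the compact `K ⊆ interior ball4`; `G = DFam.push δ ..` (as in the proof of `StPush`,
`Helper18/BI/M_A3.lean`, or `M_IMP.lean`), `imp T ball4 (F_t) = push δ F_t` by `StImp` (5) (`hImp`); support
`T '' K`, or `T '' ball4`, compact, contained in `U`.  (2) The set `B = {p ∈ ball4 | ρ² ≤ nsq p.2 ∧ ρ² ≤ nsq (p.2 - e1)}` is compact and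
`T '' B` is disjoint from `J '' L`, so `N₀ = {p | J p ∉ T '' B}` is a neighbourhood of every point of `L`; `N = interior N₀`.  Let
`p ∈ N`.  If `J p ∉ T '' ball4` then `imp` fixes `J p` (`StImp` (2)).  Otherwise `J p = T z`, `z ∈ ball4`, `z ∉ B`, so `z` is in one of
the tubes, `φ z = z`, and `imp T ball4 φ (T z) = T (φ z) = T z` (`StImp` (1)). -/
def StTPU : Prop :=
  ∀ (U L : Set R4) (J T : R4 → R4), IsOpen U → IsCompact L → (∀ p ∈ L, ContinuousAt J p) →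
    EmbOn I4 T ball4 → MapsTo T ball4 U → (∀ p ∈ ball4, T p ∈ J '' L → p.2 = 0 ∨ p.2 = e1) →
    (∀ F : DFam 𝓘(ℝ, R4) R4, SuppB F → ∃ G : DFam 𝓘(ℝ, R4) R4, SuppU U G ∧
      (∀ t y, y ∉ T '' ball4 → G.f (t, y) = y) ∧
      ∀ t y, G.f (t, y) = imp T ball4 (fun p => F.f (t, p)) y) ∧
    ∀ ρ > 0, ∃ N : Set R4, IsOpen N ∧ L ⊆ N ∧ ∀ φ : R4 → R4,
      (∀ x ∈ ctube 0 ρ ∪ ctube e1 ρ, φ x = x) → ∀ p ∈ N, imp T ball4 φ (J p) = J p

/-- **M5.** (uses `StTPU`, `StCIRC`, `StCH4`, `StFRAME`, `StTHK`) The push along the localized circle is the barbell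
implantation in the chart.

*Proof.* Write `J₀ = thk D.J D.c (y 0)`, `L = D.L`.  By `StTHK` (for `x (l, q) = y q`): `q ↦ thk D.J D.c (y q)` is `Fam2 Q2 L D.V U`, with
cores `y q`.  `StTPU` applies to `J₀`, `T`: `J₀ '' L = y 0 '' [s₀, s₁]` and `Mod5.only`.
(a) `StCIRC` gives `ρ` and `Θ` with `IsPush (ctube 0 ρ) ρ (warc κ) Θ` (family `F`) and `TIso (ctube 0 ρ) ρ e1 e1 barMap Θ` (family `F'`).
(b) `LIso U L J₀ J₀ (imp T ball4 barMap) (imp T ball4 Θ)`: `StTPU` (1) for `F'`; (2) for `ρ`: `F'_t` is the identity on both tubes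
(`ctube 0 ρ` is fixed, and a point `(s, x)` with `nsq (x - e1) ≤ ρ²` is `(s, e1 + y)`).
(c) `G` from `StTPU` (1) for `F`.  Let `J^F q = fun p => G.f (q, J₀ p)`.  For `t ∈ [0,1]`, `F_t (s, e1 + y) = (s, warc κ (step t) s + y)`.
Cores: for `s ∈ [s₀, s₁]`, `q ∈ [0,1]`: `G.f (q, y 0 s) = y (step q) s`.  If `y 0 s = T p`, `p ∈ ball4`, then by `only` either `p = (p.1, 0)` and
`s = a + ε (p.1 - 1/2)`: `F_q p = p`, so `G.f (q, y 0 s) = y 0 s = y (step q) s` by `const` (`|s - b| > ν / 2` by `hab`, `p.1 ∈ [-1, 2]`); or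
`p = (p.1, e1)`, `s = b + ν (p.1 - 1/2)`: `F_q p = (p.1, warc κ (step q) p.1)` and `cw`.  If `y 0 s ∉ T '' ball4` then `G` fixes it, and
`y (step q) s = y 0 s` by `const` (if `|s - b| < ν/2` then `s = b + ν (σ - 1/2)` with `σ ∈ (0,1)` and `y 0 s = T (σ, e1) ∈ T '' ball4`).
(d) The push along `q ↦ J^F (step q)`... is `G`: more precisely `LPush U L J^F (G.f (1, ·))`, with the family `G.reparam step`:
`G.f (step t, J₀ p) = J^F (step t) p` and `J^F 0 = J₀`, as `G.f (0, x) = x`.  `G.f (1, x) = imp T ball4 Θ x`.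
(e) `StFRAME` for `J^F` and `J' q = thk D.J D.c (y (step q))` (`Fam2.comp`), with
`V = D.V ∩ interior {p | J₀ p ∉ T '' ball4}`: it contains the ends of `L` because `J₀ (s₀, 0) = D.c s₀ ∉ U ⊇ T '' ball4` (`D.off₀`, `D.off₁`; the set
`{p | J₀ p ∉ T '' ball4}` is a neighbourhood of these points by continuity of `J₀` there; `D.V` is open).
`Fam2 Q2 L V U J^F`: smooth (composition), `EmbOn` (`G_q` is a diffeomorphism; `IsLocalDiffeomorphAt.comp`), frozen on `V` (there `J^F q p = J₀ p`),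
in `U` on `L \ V` by the cores (`y (step q) s ∈ U` for `s ∈ (s₀, s₁)`: `inU` for `s ∈ [m₀, m₁]`, `froz` and `D.mem` otherwise;
`(s₀, 0), (s₁, 0) ∈ V`).  The same for `J'` (`Fam2.mono`).  `J^F 0 = J₀ = J' 0`.
`NearEq (J^F 1) (J' 1) L`: `J' 1 = thk .. (y 1) = J₀` (`loop`) and `J^F 1 = imp T ball4 Θ ∘ J₀ = J₀` near `L` by `StTPU` (2) (`Θ = F_1`
is the identity on both tubes, `warc κ 1 s = e1`).  So `LIso U L J₀ (J₁ := J^F 1) (imp T ball4 Θ) C'` for any push `C'` along `J'`, and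
`push_reparam` (Calc.lean): `C' ~ C`; replace `J^F 1` by `J₀` with `LIso.congr`.  With (b): the claim. -/
def StM5 : Prop :=
  ∀ (D : ArcD) (a b ε ν : ℝ) (κ : ℝ → ℝ) (T : R4 → R4) (y : ℝ → ℝ → R4), Mod5 D a b ε ν κ T y →
    ∀ C : R4 → R4, LPush D.U D.L (fun q => thk D.J D.c (y q)) C →
      LIso D.U D.L (thk D.J D.c (y 0)) (thk D.J D.c (y 0)) (imp T ball4 barMap) C

/-! ## the four squares -/

/-- the canonical thick arc with parameters `v` -/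
noncomputable def kk (D : ArcD) (c : ℝ × ℝ × ℝ → R4) (v : ℝ × ℝ) : R4 → R4 :=
  thk D.J D.c (fun s => c (v.1, v.2, s))

/-- **SQ5.** (uses `StCH4`, `StTHK`) The bottom, the top and the circle around the crossing.

*Proof.* For a smooth map `g : ℝ × ℝ → ℝ × ℝ` with `g '' Q2 ⊆ Q2 \ {v₀}` the family `a ↦ kk D c (g a)` is `Fam2 Q2 D.L D.V D.U` (`StTHK`), so
`square4`, `exists_lpush` and `push_htpy` (Calc.lean) apply.  `kk D c (u, 0) = kk D c (u, 1) = D.J` for `u ∈ [0,1]` (`Htpy.start`, `stop`; `thk G c c = G`).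
Let `p' = circ v₀ (0, r) 0 = (u₀, q₀ + r)`, `p = circ v₀ (0, r) (1/2) = (u₀, q₀ - r)`; `circ v₀ (0, r) q = (u₀ - r sin 2πq, q₀ + r cos 2πq)`.
Pushes: `b₀` along `x ↦ (1-x)(0,1) + x p'`, `d₀` along `x ↦ (1-x)(0,0) + x p`, `b₁` along `x ↦ (1-x)(1,1) + x p'`, `d₁` along `x ↦ (1-x)(1,0) + x p`,
`H` along `y ↦ circ (y/2)`, `H'` along `y ↦ circ (1/2 + y/2)`, `E₀'` along `y ↦ (0, 1-y)` (`LPush.reverse`: it is the inverse of `E₀`).
Squares (`J x y`, `x, y ∈ [0,1]`; `square4`: `Θ2 ∘ Θ1 ~ Θ4 ∘ Θ3`):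
(i) `g = (1-x) (0, 1-y) + x circ (y/2)`: `d₀ ∘ E₀' ~ H ∘ b₀`; the first coordinate is `x (u₀ - r sin πy) ≤ u₀`, with equality only for
`x = 1`, `sin πy = 0`, where the second coordinate is `q₀ ± r`.
(ii) `g = (1-x) (1, y) + x circ (1/2 + y/2)`: `b₁ ∘ E₁ ~ H' ∘ d₁`; the first coordinate is `(1-x) + x (u₀ + r sin πy) ≥ u₀`, similarly.
(iii) `g = (1-x) (y, 0) + x p`: `d₁ ~ d₀` (bottom edge `x = 0` constant `= D.J`, edge `x = 1` constant); second coordinate `< q₀`.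
(iv) `g = (1-x) (y, 1) + x p'`: `b₁ ~ b₀`; second coordinate `> q₀`.
(v) `g = circ (y (1+x) / 2)`: edge `x = 0`: `H`; `y = 1`: `H'` (`circ ((1+x)/2)`); `y = 0`: constant; `x = 1`: `C`.  So `H' ∘ H ~ C`.
All values are in `Q2` (convex, `|sin|, |cos| ≤ 1`).
`B = b₀`.  `E₁ ~ b₁⁻¹ H' d₁ ~ b₀⁻¹ H' d₀` and `d₀ ~ H b₀ E₀` (from (i)), so `E₁ ~ b₀⁻¹ H' H b₀ E₀ ~ b₀⁻¹ C b₀ E₀`; use
`LIso.comp`, `LIso.trans`, `LIso.inv`, `LIso.exists_inv`, `LPush.lIso`. -/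
def StSQ5 : Prop :=
  ∀ (D : ArcD) (c : ℝ × ℝ × ℝ → R4) (u₀ q₀ r : ℝ), D.Htpy c →
    (∀ u ∈ Icc (0 : ℝ) 1, ∀ q ∈ Icc (0 : ℝ) 1, D.Imm c u q) →
    (∀ u ∈ Icc (0 : ℝ) 1, ∀ q ∈ Icc (0 : ℝ) 1, (u, q) ≠ (u₀, q₀) → D.Inj c u q) →
    0 < r → 0 < u₀ - r → u₀ + r < 1 → 0 < q₀ - r → q₀ + r < 1 →
    ∀ E₀ E₁ C : R4 → R4, LPush D.U D.L (fun q => kk D c (0, q)) E₀ →
      LPush D.U D.L (fun q => kk D c (1, q)) E₁ →
      LPush D.U D.L (fun q => kk D c (circ (u₀, q₀) (0, r) q)) C →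
      ∃ B B' : R4 → R4, LIso D.U D.L D.J (kk D c (circ (u₀, q₀) (0, r) 0)) B B ∧
        (∀ x, B (B' x) = x) ∧ (∀ x, B' (B x) = x) ∧
        LIso D.U D.L D.J D.J E₁ (fun x => B' (C (B (E₀ x))))

/-! ## the germ of the crossing and the class of the implantation -/

/-- **XG5.** (uses `StTHK` for the cores of `thk D.J D.c (y 0)`)

*Proof.* Let `J₀ = thk D.J D.c (y 0)`, `T'' = Ψ' ∘ T`.  The family of `LIso` gives: `Ψ` and `Ψ'` are smooth and inverse to each other, equal to the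
identity off a compact `K ⊆ U` (so they preserve `U`), and `Ψ (D.J p) = J₀ p` for `p` near `L`; `J₀ (s, 0) = y 0 s`, so
`Ψ (D.J (s, 0)) = y 0 s` for `s ∈ [s₀, s₁]`.
`EmbOn T''` on `ball4`: composition with a diffeomorphism.  `T'' p ∈ D.A` means `T'' p = D.J (s, 0)`, so `T p = y 0 s`: `Mod5.only`.
`XG`: `FB ⊆ ball4`; all points of `FB` have `p.1 = 1/2`, so `only` gives `arc`.  `σ s = a + ε (s - 1/2)`, `τ s = b + ν (s - 1/2)`;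
`T'' (s, 0) = Ψ' (y 0 (σ s)) = D.J (σ s, 0)` for `s` near `1/2` (`c0`), similarly `c1` (`e1 = (1, 0)`).  The sign: both determinants are nonzero
(local diffeomorphisms, `StA0`).  If the product is negative take `T'' ∘ refh`: `refh` is linear with `det = -1`, maps `ball4` and `FB`
to themselves and fixes the points `(s, (x, 0))`, `x` real. -/
def StXG5 : Prop :=
  ∀ (D : ArcD) (a b ε ν : ℝ) (κ : ℝ → ℝ) (T : R4 → R4) (y : ℝ → ℝ → R4), Mod5 D a b ε ν κ T y →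
    ∀ Ψ Ψ' : R4 → R4, LIso D.U D.L D.J (thk D.J D.c (y 0)) Ψ Ψ → (∀ x, Ψ (Ψ' x) = x) →
      (∀ x, Ψ' (Ψ x) = x) →
      EmbOn I4 (fun p => Ψ' (T p)) ball4 ∧ MapsTo (fun p => Ψ' (T p)) ball4 D.U ∧
      (∀ p ∈ ball4, Ψ' (T p) ∈ D.A → p.2 = 0 ∨ p.2 = e1) ∧
      (D.XG (fun p => Ψ' (T p)) ∨ D.XG (fun p => Ψ' (T (refh p))))

/-- **PHT.** (uses `StTPU`, `StR1h` = `hR1h` of `Helper27/BI/AsmC.lean`; `hImp`, `hT2`, `hT3`, `hCI` of `Helper18/BI/AsmA.lean`)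

*Proof.* (0) `StTPU` for `J = D.J`, `L = D.L` (`D.J '' D.L = D.A`).  (1) `StTPU` with the constant family: `barMap` is the end of an isotopy
supported in the interior of the ball, fixing both tubes of radius `1/5` (`bfam`; or: `refl_of` of `StVan`/`StR1h`).
(2) `B = imp T ball4 barMap = imp T bsupp barMap` (`StImp` (3), `barMap_off`).  `K = T '' bsupp` is compact, in `U`, disjoint from `D.A`
(`bsupp ⊆ Ext`, so `p.2 ≠ 0, e1`), `B` is the identity off `K` (`StImp` (2)).  `imp D.e K B = imp (D.e ∘ T) bsupp barMap` (`StImp` (8) with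
`κ = T`, `L = bsupp`; `D.e` is injective on `K`, `D.embe`).  `D.e ∘ T` is `EmbOn EB` (`T '' EB ⊆ U \ A`), so by `StT3` it is `Thin` of
`imp (D.e ∘ T) bsupp barMap`; by `StT2` (ii) the given `τ` is isotopic to it: `Phi`.
(3) `StR1h`: `TIso ∅ (1/5) arc2 arc2 (refh ∘ barMap ∘ refh) barInv`; the inverses: `TIso ∅ (1/5) arc2 arc2 (refh ∘ barInv ∘ refh) barMap`
(`TIso.inv`); by `StTPU` (`arc2`: both tubes are fixed): `LIso .. (imp T ball4 (refh ∘ barInv ∘ refh)) (imp T ball4 barMap)`.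
`imp (T ∘ refh) ball4 φ = imp T ball4 (refh ∘ φ ∘ refh)` (`StImp` (8) with `κ = refh`, `L = K = ball4`, or directly).
`imp (T ∘ refh) ball4 barInv` is the inverse of `imp (T ∘ refh) ball4 barMap` (`StImp` (4)).  So
`imp T ball4 barMap ∘ imp (T ∘ refh) ball4 barMap ~ imp (T ∘ refh) ball4 barInv ∘ imp (T ∘ refh) ball4 barMap = id`
(`LIso.comp` with `LIso.refl_of` for `imp (T ∘ refh) ball4 barMap`, from (1) for `T ∘ refh`). -/
def StPHT : Prop :=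
  ∀ (D : ArcD) (T : R4 → R4), EmbOn I4 T ball4 → MapsTo T ball4 D.U →
    (∀ p ∈ ball4, T p ∈ D.A → p.2 = 0 ∨ p.2 = e1) →
    LIso D.U D.L D.J D.J (imp T ball4 barMap) (imp T ball4 barMap) ∧
    (∀ τ : R4 → R4, Thin I4 (fun p => D.e (T p)) τ → D.Phi (imp T ball4 barMap) τ) ∧
    LIso D.U D.L D.J D.J
      (fun x => imp T ball4 barMap (imp (fun p => T (refh p)) ball4 barMap x)) (fun x => x)

end Pool.Agent.Helper34.BI.H
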